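import Pool.Agent.MP_17fac5_an.Ch.St

section

set_option autoImplicit false
open MeasureTheory Filter Topology

namespace Pool.Agent.MP_17fac5_an.Ch

open Pool.Agent.MP_17fac5_an.H19 (ex)

theorem sMp : SMp := by
  intro X v h hX hv hh H z hz
  by_contra hc
  have hcont : ContinuousOn (fun w => v w - (h w).re) X :=
    hv.sub (Complex.continuous_re.comp_continuousOn fun w hw =>
      (hh w hw).continuousAt.continuousWithinAt)
  obtain ⟨z₁, h1, hm⟩ := hX.exists_isMaxOn ⟨z, hz⟩ hcont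
  have hpos : 0 < v z₁ - (h z₁).re := lt_of_lt_of_le (sub_pos.2 (not_le.1 hc)) (hm hz)
  have hY : IsCompact (X ∩ (fun w => v w - (h w).re) ⁻¹' {v z₁ - (h z₁).re}) :=
    hX.of_isClosed_subset (hcont.preimage_isClosed_of_isClosed hX.isClosed isClosed_singleton)
      Set.inter_subset_left
  obtain ⟨z₀, ⟨h2, h3⟩, hr⟩ := hY.exists_isMaxOn ⟨z₁, h1, rfl⟩ Complex.continuous_re.continuousOn
  have h3' : v z₀ - (h z₀).re = v z₁ - (h z₁).re := h3
  obtain ⟨hn, f, hf, hfv⟩ := (H z₀ h2).resolve_left (by linarith)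
  have hnorm : ∀ᶠ w in 𝓝 z₀, ‖Complex.exp (f w - h w)‖ = Real.exp (v w - (h w).re) :=
    hfv.mono fun w hw => by rw [Complex.norm_exp, Complex.sub_re, hw]
  have hd : ∀ᶠ w in 𝓝 z₀, DifferentiableAt ℂ (fun w => Complex.exp (f w - h w)) w :=
    (hf.sub (hh z₀ h2)).eventually_analyticAt.mono fun w hw => hw.differentiableAt.cexp
  have hmax : IsLocalMax (norm ∘ fun w => Complex.exp (f w - h w)) z₀ := by
    filter_upwards [hnorm, hn] with w h4 h5
    simp only [Function.comp]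
    rw [h4, hnorm.self_of_nhds, h3']
    exact Real.exp_le_exp.2 (hm h5)
  have he : ∀ᶠ w in 𝓝 z₀, w ∈ X ∩ (fun w => v w - (h w).re) ⁻¹' {v z₁ - (h z₁).re} := by
    filter_upwards [Complex.eventually_eq_of_isLocalMax_norm hd hmax, hnorm, hn] with w h4 h5 h6
    refine ⟨h6, ?_⟩
    rw [h4, hnorm.self_of_nhds, h3'] at h5
    exact (Real.exp_injective h5).symm
  have ht : Tendsto (fun t : ℝ => z₀ + (t : ℂ)) (𝓝[>] 0) (𝓝 z₀) := by
    have : Continuous fun t : ℝ => z₀ + (t : ℂ) := continuous_const.add Complex.continuous_ofReal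
    simpa using (this.tendsto 0).mono_left nhdsWithin_le_nhds
  obtain ⟨t, h4, h5⟩ := ((ht.eventually he).and self_mem_nhdsWithin).exists
  have h6 : (z₀ + (t : ℂ)).re ≤ z₀.re := hr h4
  have h7 : 0 < t := h5
  rw [Complex.add_re, Complex.ofReal_re] at h6
  linarith

end Pool.Agent.MP_17fac5_an.Ch

end

section

set_option autoImplicit false
open MeasureTheory Filter Topology

namespace Pool.Agent.MP_17fac5_an.Ch

open Pool.Agent.MP_17fac5_an.H19 (ex)

/-- The barrier. -/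
noncomputable def bar_Ch (s t y A l : ℝ) (z : ℂ) : ℂ :=
  (l : ℂ) + 4 * (A : ℂ) * (Complex.exp (-(z - s) / y) + Complex.exp ((z - t) / y))

theorem re_Ch (s t y A l : ℝ) (z : ℂ) : (bar_Ch s t y A l z).re = l + 4 * A *
    ((Real.exp (-(z.re - s) / y) + Real.exp ((z.re - t) / y)) * Real.cos (z.im / y)) := by
  have h1 : (Complex.exp (-(z - s) / y)).re =
      Real.exp (-(z.re - s) / y) * Real.cos (z.im / y) := by
    rw [Complex.exp_re, Complex.div_ofReal_re, Complex.div_ofReal_im]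
    simp [neg_div]
  have h2 : (Complex.exp ((z - t) / y)).re = Real.exp ((z.re - t) / y) * Real.cos (z.im / y) := by
    rw [Complex.exp_re, Complex.div_ofReal_re, Complex.div_ofReal_im]
    simp
  have h3 : (4 * (A : ℂ)) = ((4 * A : ℝ) : ℂ) := by push_cast; ring
  rw [bar_Ch, Complex.add_re, Complex.ofReal_re, h3, Complex.re_ofReal_mul, Complex.add_re, h1, h2]
  ring

theorem cos_Ch {x y : ℝ} (hy : 0 < y) (h0 : 0 ≤ x) (h1 : x ≤ y) : 1 / 2 ≤ Real.cos (x / y) := by
  have h2 := Real.one_sub_sq_div_two_le_cos (x := x / y)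
  have h3 : 0 ≤ x / y := div_nonneg h0 hy.le
  have h4 : x / y ≤ 1 := (div_le_one hy).2 h1
  nlinarith

theorem small_Ch {A l a : ℝ} (hl : 0 < l) (hA : l ≤ A) (ha : a ≤ -(4 + Real.log (A / l))) :
    8 * A * Real.exp a ≤ l := by
  have hA0 : 0 < A := hl.trans_le hA
  have h1 : Real.exp a ≤ (Real.exp 4 * (A / l))⁻¹ := by
    rw [← Real.exp_log (div_pos hA0 hl), ← Real.exp_add, ← Real.exp_neg]
    exact Real.exp_le_exp.2 ha
  have h2 : 8 ≤ Real.exp 4 := by
    have h3 := Real.add_one_le_exp 2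
    have h4 : Real.exp 4 = Real.exp 2 * Real.exp 2 := by rw [← Real.exp_add]; norm_num
    nlinarith
  have h5 : (Real.exp 4 * (A / l))⁻¹ ≤ (8 * (A / l))⁻¹ :=
    inv_anti₀ (by positivity) (mul_le_mul_of_nonneg_right h2 (by positivity))
  have h6 : 8 * A * (8 * (A / l))⁻¹ = l := by field_simp
  exact (mul_le_mul_of_nonneg_left (h1.trans h5) (by positivity)).trans h6.le

theorem sCh (h : SMp) : SCh := by
  intro v s t y A l hv hy hl hA hb h0 htop z hz1 hz2 hz3 hz4
  have hA0 : 0 < A := hl.trans_le hA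
  have hlog : 0 ≤ y * (4 + Real.log (A / l)) :=
    mul_nonneg hy.le (add_nonneg (by norm_num) (Real.log_nonneg ((one_le_div hl).2 hA)))
  have hX : IsCompact (Set.Icc s t ×ℂ Set.Icc 0 y) := isCompact_Icc.reProdIm isCompact_Icc
  have key := h (Set.Icc s t ×ℂ Set.Icc 0 y) v (bar_Ch s t y A l) hX
    (hv.1.mono fun w hw => hw.2.1) (fun w _ => by unfold bar_Ch; fun_prop) (by
      rintro w ⟨⟨w1, w2⟩, w3, w4⟩
      have hc := cos_Ch hy w3 w4
      have e1 := Real.exp_pos (-(w.re - s) / y)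
      have e2 := Real.exp_pos ((w.re - t) / y)
      have hge : l ≤ (bar_Ch s t y A l w).re := by
        rw [re_Ch]
        have : 0 ≤ 4 * A * ((Real.exp (-(w.re - s) / y) + Real.exp ((w.re - t) / y)) *
            Real.cos (w.im / y)) := by positivity
        linarith
      have hside : 1 ≤ Real.exp (-(w.re - s) / y) + Real.exp ((w.re - t) / y) →
          v w ≤ (bar_Ch s t y A l w).re := fun h1 => by
        rw [re_Ch]
        have h2 : 1 / 2 ≤ (Real.exp (-(w.re - s) / y) + Real.exp ((w.re - t) / y)) *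
            Real.cos (w.im / y) := by nlinarith
        have h3 := hb w w1 w2 w3 w4
        nlinarith
      rcases w1.eq_or_lt with c1 | c1
      · exact Or.inl (hside (by rw [← c1] at e2 ⊢; simp [e2.le]))
      rcases w2.eq_or_lt with c2 | c2
      · exact Or.inl (hside (by rw [c2] at e1 ⊢; simp [Real.exp_nonneg]))
      rcases w3.eq_or_lt with c3 | c3
      · have : w = (w.re : ℂ) := Complex.ext (by simp) (by simpa using c3.symm)
        refine Or.inl ?_
        have h1 := h0 w.re w1 w2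
        rw [← this] at h1
        linarith
      rcases w4.eq_or_lt with c4 | c4
      · exact Or.inl ((htop w w1 w2 c4).trans hge)
      rcases (hv.2.1 w).eq_or_lt with c5 | c5
      · exact Or.inl (by linarith)
      · refine Or.inr ⟨?_, hv.2.2 w c3 c5⟩
        exact mem_of_superset ((isOpen_Ioo.reProdIm isOpen_Ioo).mem_nhds
          (show w ∈ Set.Ioo s t ×ℂ Set.Ioo 0 y from ⟨⟨c1, c2⟩, c3, c4⟩))
          fun u hu => ⟨Set.Ioo_subset_Icc_self hu.1, Set.Ioo_subset_Icc_self hu.2⟩)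
    z ⟨⟨by linarith, by linarith⟩, hz3, hz4⟩
  rw [re_Ch] at key
  have h1 := small_Ch hl hA (a := -(z.re - s) / y) (by rw [div_le_iff₀ hy]; linarith)
  have h2 := small_Ch hl hA (a := (z.re - t) / y) (by rw [div_le_iff₀ hy]; linarith)
  have h3 : (Real.exp (-(z.re - s) / y) + Real.exp ((z.re - t) / y)) * Real.cos (z.im / y) ≤
      Real.exp (-(z.re - s) / y) + Real.exp ((z.re - t) / y) :=
    mul_le_of_le_one_right (by positivity) (Real.cos_le_one _)
  nlinarith

end Pool.Agent.MP_17fac5_an.Ch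

end

section

set_option autoImplicit false
open MeasureTheory Filter Topology

namespace Pool.Agent.MP_17fac5_an.Ch

theorem sIt (h : SCh) : SIt := by
  intro v ρ η l W j N hv hρ hz hl hT hW hjN hN
  have key : ∀ k n, j ≤ n → n + k = N → ∀ z : ℂ, W n ≤ |z.re| → |z.re| ≤ η - W n → 0 ≤ z.im →
      v z ≤ 2 * l n := by
    intro k
    induction k with
    | zero =>
      intro n hn e z _ _ h3
      obtain rfl : n = N := by omega
      linarith [hN z h3, (hl n hn).1]
    | succ k ih =>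
      intro n hn e z h1 h2 h3
      have S := ih (n + 1) (by omega) (by omega)
      have w0 := (hW n hn).1
      have w1 := (hW (n + 1) (by omega)).1
      have w2 := (hW n hn).2
      rcases le_total (yy n) z.im with h4 | h4
      · linarith [hT n hn z (by linarith) h4, (hl n hn).1]
      rcases le_total 0 z.re with h5 | h5
      · rw [abs_of_nonneg h5] at h1 h2
        refine h v (W (n + 1)) (η - W (n + 1)) (yy n) (l (n + 1)) (l n) hv (yy_pos n) (hl n hn).1
          (hl n hn).2 (fun w a1 a2 a3 _ => ?_) (fun x a1 a2 => ?_) (fun w a1 a2 a3 => ?_) z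
          (by linarith) (by linarith) h3 h4
        · exact S w (by rwa [abs_of_nonneg (by linarith)]) (by rwa [abs_of_nonneg (by linarith)]) a3
        · exact hz x (by rw [abs_of_nonneg (by linarith)]; linarith)
            (by rw [abs_of_nonneg (by linarith)]; linarith)
        · exact hT n hn w (by rw [abs_of_nonneg (by linarith)]; linarith) a3.ge
      · rw [abs_of_nonpos h5] at h1 h2
        refine h v (-(η - W (n + 1))) (-W (n + 1)) (yy n) (l (n + 1)) (l n) hv (yy_pos n)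
          (hl n hn).1 (hl n hn).2 (fun w a1 a2 a3 _ => ?_) (fun x a1 a2 => ?_)
          (fun w a1 a2 a3 => ?_) z (by linarith) (by linarith) h3 h4
        · exact S w (by rw [abs_of_nonpos (by linarith)]; linarith)
            (by rw [abs_of_nonpos (by linarith)]; linarith) a3
        · exact hz x (by rw [abs_of_nonpos (by linarith)]; linarith)
            (by rw [abs_of_nonpos (by linarith)]; linarith)
        · exact hT n hn w (by rw [abs_of_nonpos (by linarith)]; linarith) a3.ge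
  exact key (N - j) j le_rfl (by omega)

end Pool.Agent.MP_17fac5_an.Ch

end

section

set_option autoImplicit false
open MeasureTheory Filter Topology

namespace Pool.Agent.MP_17fac5_an.Ch

open Pool.Agent.MP_17fac5_an.H19 (ex)

theorem re_Ps (c w : ℝ) (z : ℂ) :
    ((c : ℂ) * (Complex.I / (z + Complex.I * w))).re =
      c * ((z.im + w) / ‖z + Complex.I * w‖ ^ 2) := by
  rw [Complex.re_ofReal_mul, Complex.div_re, Complex.sq_norm]
  simp

theorem sPs (h : SMp) : SPs := by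
  intro v w R A hv hw hA hR h0 hb z hz hzw hzR
  let X : Set ℂ := {z : ℂ | 0 ≤ z.im ∧ w ≤ ‖z‖ ∧ ‖z‖ ≤ R}
  have hX : IsCompact X := by
    refine (isCompact_closedBall (0 : ℂ) R).of_isClosed_subset ?_ fun z hz => by
      simpa using hz.2.2
    exact (isClosed_le continuous_const Complex.continuous_im).inter
      ((isClosed_le continuous_const continuous_norm).inter
        (isClosed_le continuous_norm continuous_const))
  have him : ∀ z : ℂ, z.im + w ≤ ‖z + Complex.I * w‖ := fun z => by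
    simpa using (le_abs_self _).trans (Complex.abs_im_le_norm (z + Complex.I * w))
  have hpos : ∀ z : ℂ, 0 ≤ z.im → 0 < ‖z + Complex.I * w‖ := fun z hz => by
    linarith [him z]
  have hc : 0 ≤ 4 * A * w := by positivity
  have hnn : ∀ z : ℂ, 0 ≤ z.im →
      0 ≤ (((4 * A * w : ℝ) : ℂ) * (Complex.I / (z + Complex.I * w))).re := fun z hz => by
    rw [re_Ps]
    have : 0 ≤ z.im + w := by linarith
    positivity
  have key := h X v (fun z => ((4 * A * w : ℝ) : ℂ) * (Complex.I / (z + Complex.I * w))) hX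
    (hv.1.mono fun z hz => hz.1)
    (fun z hz => analyticAt_const.mul (analyticAt_const.div (analyticAt_id.add analyticAt_const)
      (norm_pos_iff.1 (hpos z hz.1))))
    (fun z hz => by
      by_cases e0 : v z = 0
      · exact Or.inl (e0.trans_le (hnn z hz.1))
      have i0 : 0 < z.im := lt_of_le_of_ne hz.1 fun e => e0 (by
        have e1 : z = (z.re : ℂ) := Complex.ext (by simp) (by simp [← e])
        have e2 : ‖z‖ = |z.re| := by
          rw [e1, Complex.norm_real, Complex.ofReal_re, Real.norm_eq_abs]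
        rw [e1]
        exact h0 z.re (e2 ▸ hz.2.1) (e2 ▸ hz.2.2))
      have i1 : ‖z‖ < R := lt_of_le_of_ne hz.2.2 fun e => e0 (hR z hz.1 e)
      rcases hz.2.1.eq_or_lt with e | i2
      · refine Or.inl ((hb z hz.1 e.symm).trans ?_)
        rw [re_Ps]
        have n1 : ‖z + Complex.I * w‖ ≤ 2 * w := by
          refine (norm_add_le _ _).trans ?_
          rw [norm_mul, Complex.norm_I, Complex.norm_real, Real.norm_of_nonneg hw.le, ← e]
          linarith
        have n2 := hpos z hz.1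
        rw [← mul_div_assoc, le_div_iff₀ (by positivity)]
        have n3 : ‖z + Complex.I * w‖ ^ 2 ≤ (2 * w) ^ 2 := pow_le_pow_left₀ n2.le n1 2
        nlinarith [mul_le_mul_of_nonneg_left n3 hA, mul_nonneg hc hz.1]
      · refine Or.inr ⟨?_, hv.2.2 z i0 (lt_of_le_of_ne (hv.2.1 z) (Ne.symm e0))⟩
        filter_upwards [Complex.continuous_im.continuousAt.eventually (lt_mem_nhds i0),
          continuous_norm.continuousAt.eventually (lt_mem_nhds i2),
          continuous_norm.continuousAt.eventually (gt_mem_nhds i1)] with y a b c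
        exact ⟨a.le, b.le, c.le⟩)
    z ⟨hz.le, hzw, hzR⟩
  refine key.trans ?_
  rw [re_Ps, mul_div_assoc' , div_le_div_iff₀ (pow_pos (hpos z hz.le) 2) hz]
  have n3 : (z.im + w) ^ 2 ≤ ‖z + Complex.I * w‖ ^ 2 :=
    pow_le_pow_left₀ (by linarith) (him z) 2
  have n4 : (z.im + w) * z.im ≤ ‖z + Complex.I * w‖ ^ 2 := by nlinarith
  rw [mul_assoc (4 * A * w)]
  exact mul_le_mul_of_nonneg_left n4 hc

end Pool.Agent.MP_17fac5_an.Ch

end

section

set_option autoImplicit false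
open MeasureTheory Filter Topology

namespace Pool.Agent.MP_17fac5_an.Ch

open Pool.Agent.MP_17fac5_an.H19 (ex)

theorem sum_Rb {b : ℕ → ℝ} (h : NoD b) :
    Summable fun t => yy t * Real.log (b (t + 1) / b t) := by
  obtain ⟨h1, hm, -, hn⟩ := h
  have h0 : ∀ n, 0 < b n := fun n => one_pos.trans_le (h1 n)
  by_contra hs
  rw [not_summable_iff_tendsto_nat_atTop_of_nonneg
    fun t => mul_nonneg (yy_pos t).le (log_step_nonneg h0 hm t)] at hs
  refine hn ⟨1, 0, b, one_pos, h0, hm, fun _ _ => le_rfl, fun i j _ hij => ?_⟩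
  obtain ⟨N, h2, h3⟩ := ((hs.eventually_ge_atTop
    (1 + ∑ t ∈ Finset.range j, yy t * Real.log (b (t + 1) / b t))).and
    (eventually_ge_atTop j)).exists
  refine ⟨N, ?_⟩
  have e : RR b j N = _ := Finset.sum_Ico_eq_sub _ h3
  have h4 : 1 ≤ yy j + RR b j N := by linarith [yy_pos j]
  have h5 := mul_le_mul_of_nonneg_left h4 (h0 j).le
  have h6 := mul_le_mul_of_nonneg_right (yy_le_one i) (h0 i).le
  linarith [hm hij]

theorem sRb : SRb := by
  intro b h
  have hs := sum_Rb h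
  obtain ⟨h1, hm, -, -⟩ := h
  have h0 : ∀ n, 0 < b n := fun n => one_pos.trans_le (h1 n)
  obtain ⟨R, hR, hT⟩ : ∃ R : ℕ → ℝ,
      (∀ n, 0 ≤ R n ∧ R n = R (n + 1) + yy n * Real.log (b (n + 1) / b n)) ∧
      Tendsto R atTop (𝓝 0) := by
    refine ⟨fun n => ∑' t, yy (t + n) * Real.log (b (t + n + 1) / b (t + n)), fun n => ⟨?_, ?_⟩,
      tendsto_sum_nat_add fun t => yy t * Real.log (b (t + 1) / b t)⟩
    · exact tsum_nonneg fun t => mul_nonneg (yy_pos _).le (log_step_nonneg h0 hm _)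
    · have := ((summable_nat_add_iff n).2 hs).tsum_eq_zero_add
      simp only [zero_add] at this
      beta_reduce
      rw [this, add_comm]
      simp only [add_assoc, add_comm 1 n]
  refine ⟨R, hR, hT, ?_⟩
  have key : ∀ M n, M ≤ n → yy n * (Real.log (b n) - Real.log (b M)) ≤ R M - R n := by
    intro M n hn
    induction n, hn using Nat.le_induction with
    | base => simp
    | succ n hn ih =>
      have h2 := (hR n).2
      have h3 := log_step_nonneg h0 hm n
      have h4 := Real.log_le_log (h0 M) (hm hn)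
      rw [Real.log_div (h0 _).ne' (h0 _).ne'] at h2 h3
      rw [yy_succ]
      nlinarith [yy_pos n]
  refine tendsto_order.2 ⟨fun a ha => Eventually.of_forall fun n =>
    ha.trans_le (mul_nonneg (yy_pos n).le (Real.log_nonneg (h1 n))), fun a ha => ?_⟩
  obtain ⟨M, hM⟩ := ((tendsto_order.1 hT).2 (a / 2) (by linarith)).exists
  have h5 : Tendsto (fun n => yy n * Real.log (b M)) atTop (𝓝 0) := by
    simpa using yy_tendsto.mul_const (Real.log (b M))
  filter_upwards [(tendsto_order.1 h5).2 (a / 2) (by linarith), eventually_ge_atTop M] with n h6 h7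
  have := key M n h7
  linarith [(hR n).1]

end Pool.Agent.MP_17fac5_an.Ch

end

section

set_option autoImplicit false
open MeasureTheory Filter Topology

namespace Pool.Agent.MP_17fac5_an.Ch

open Pool.Agent.MP_17fac5_an.H19 (ex)

/-- The truncated dynamics between the levels `q` and `p`. -/
def Good_Cb (b Rb : ℕ → ℝ) (C : ℝ) (p q : ℕ) (l R : ℕ → ℝ) : Prop :=
  (∀ n, q ≤ n → (0 < l n ∧ l n ≤ l (n + 1) ∧ 0 ≤ R n ∧
    R n = R (n + 1) + yy n * Real.log (l (n + 1) / l n)) ∧ l n ≤ b n ∧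
    R n + yy n * Real.log (l n) ≤ Rb n + yy n * Real.log (b n)) ∧
  (∀ n, p ≤ n → l n = b n) ∧
  ∀ n, q ≤ n → n < p →
    (b n ≤ l n ∨ ∃ k, n < k ∧ k ≤ p ∧ C * (l k * (yy k + R k)) ≤ yy n * l n) ∧
    ∀ k, n < k → k ≤ p → yy n * l n ≤ C * (l k * (yy k + R k))

theorem good_Cb {b Rb : ℕ → ℝ} {C : ℝ} (hC : 0 < C) (h1 : ∀ n, 1 ≤ b n) (hm : Monotone b)
    (hR : ∀ n, 0 ≤ Rb n ∧ Rb n = Rb (n + 1) + yy n * Real.log (b (n + 1) / b n)) (p q : ℕ)
    (hq : q ≤ p) : ∃ l R, Good_Cb b Rb C p q l R := by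
  have hb : ∀ n, 0 < b n := fun n => one_pos.trans_le (h1 n)
  induction hq using Nat.decreasingInduction with
  | self =>
    exact ⟨b, Rb, fun n _ => ⟨⟨hb n, hm n.le_succ, hR n⟩, le_rfl, le_rfl⟩, fun _ _ => rfl,
      fun n h h' => absurd h' (not_lt.2 h)⟩
  | of_succ q hq ih =>
    obtain ⟨l, R, g1, g2, g3⟩ := ih
    obtain ⟨k, hk, hmin⟩ := (Finset.Ioc q p).exists_min_image (fun k => l k * (yy k + R k))
      ⟨p, by simp [hq]⟩
    rw [Finset.mem_Ioc] at hk
    have hmin' : ∀ k', q < k' → k' ≤ p → C * (l k * (yy k + R k)) ≤ C * (l k' * (yy k' + R k')) :=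
      fun k' a1 a2 => mul_le_mul_of_nonneg_left (hmin k' (Finset.mem_Ioc.2 ⟨a1, a2⟩)) hC.le
    have hy := yy_pos q
    have h2 : (0 : ℝ) < 2 ^ q := by positivity
    have e0 : ∀ t : ℝ, yy q * (2 ^ q * t) = t := fun t => by rw [← mul_assoc, yy_mul, one_mul]
    obtain ⟨x, hx⟩ : ∃ x, x = min (b q) (2 ^ q * (C * (l k * (yy k + R k)))) := ⟨_, rfl⟩
    have x1 : x ≤ b q := hx ▸ min_le_left _ _
    have x2 : yy q * x ≤ C * (l k * (yy k + R k)) := by
      rw [← e0 (C * _)]
      exact mul_le_mul_of_nonneg_left (hx ▸ min_le_right _ _) hy.le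
    have x0 : 0 < x := by
      obtain ⟨⟨a1, -, a2, -⟩, -⟩ := g1 k hk.1
      have := yy_pos k
      exact hx ▸ lt_min (hb q) (by positivity)
    obtain ⟨⟨a1, -, a2, -⟩, a3, a4⟩ := g1 (q + 1) le_rfl
    have x3 : x ≤ l (q + 1) := by
      have hbl : b (q + 1) ≤ l (q + 1) → x ≤ l (q + 1) := fun e => x1.trans ((hm q.le_succ).trans e)
      rcases eq_or_lt_of_le (Nat.succ_le_of_lt hq) with e | e
      · exact hbl (g2 _ e.ge).ge
      rcases (g3 (q + 1) le_rfl e).1 with e1 | ⟨k', b1, b2, b3⟩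
      · exact hbl e1
      · have := hmin' k' (by omega) b2
        rw [yy_succ] at b3
        refine le_of_mul_le_mul_left ?_ hy
        nlinarith [mul_pos hy a1]
    obtain ⟨l', e1, e2⟩ : ∃ l' : ℕ → ℝ, l' q = x ∧ ∀ n, q < n → l' n = l n :=
      ⟨fun n => if n = q then x else l n, if_pos rfl, fun n h => if_neg h.ne'⟩
    obtain ⟨R', f1, f2⟩ : ∃ R' : ℕ → ℝ, R' q = R (q + 1) + yy q * Real.log (l (q + 1) / x) ∧
        ∀ n, q < n → R' n = R n :=
      ⟨fun n => if n = q then _ else R n, if_pos rfl, fun n h => if_neg h.ne'⟩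
    refine ⟨l', R', fun n hn => ?_, fun n hn => ?_, fun n hn hn' => ?_⟩
    · rcases hn.eq_or_lt with rfl | hn
      · rw [e1, f1, e2 _ q.lt_succ_self, f2 _ q.lt_succ_self]
        refine ⟨⟨x0, x3, add_nonneg a2 (mul_nonneg hy.le
          (Real.log_nonneg ((one_le_div x0).2 x3))), rfl⟩, x1, ?_⟩
        have c1 := Real.log_le_log a1 a3
        rw [(hR q).2, Real.log_div a1.ne' x0.ne', Real.log_div (hb _).ne' (hb _).ne']
        rw [yy_succ] at a4
        nlinarith [mul_le_mul_of_nonneg_left c1 hy.le]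
      · rw [e2 _ hn, f2 _ hn, e2 _ (hn.trans n.lt_succ_self), f2 _ (hn.trans n.lt_succ_self)]
        exact g1 n hn
    · rw [e2 n (hq.trans_le hn), g2 n hn]
    · rcases hn.eq_or_lt with rfl | hn
      · rw [e1]
        refine ⟨?_, fun k' b1 b2 => ?_⟩
        · rcases min_choice (b q) (2 ^ q * (C * (l k * (yy k + R k)))) with e | e
          · exact .inl (hx.trans e).ge
          · refine .inr ⟨k, hk.1, hk.2, ?_⟩
            rw [e2 _ hk.1, f2 _ hk.1, hx, e, e0]
        · rw [e2 _ b1, f2 _ b1]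
          exact x2.trans (hmin' k' b1 b2)
      · obtain ⟨c1, c2⟩ := g3 n hn hn'
        rw [e2 _ hn]
        refine ⟨c1.imp_right fun ⟨k', b1, b2, b3⟩ => ⟨k', b1, b2, by
          rwa [e2 _ (hn.trans b1), f2 _ (hn.trans b1)]⟩, fun k' b1 b2 => ?_⟩
        rw [e2 _ (hn.trans b1), f2 _ (hn.trans b1)]
        exact c2 k' b1 b2

theorem low_Cb {b Rb l R : ℕ → ℝ} {C ε M : ℝ} {p q j : ℕ} (hC : 0 < C)
    (g : Good_Cb b Rb C p q l R) (hj : q ≤ j) (h1 : M ≤ b j) (h2 : M ≤ 2 ^ j * (C * ε))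
    (h : ∀ k, j < k → k ≤ p → ε < l k * (yy k + R k)) : M ≤ l j := by
  rcases le_or_gt p j with e | e
  · rw [g.2.1 j e]
    exact h1
  rcases (g.2.2 j hj e).1 with e1 | ⟨k, b1, b2, b3⟩
  · exact h1.trans e1
  · refine h2.trans (le_of_mul_le_mul_left ?_ (yy_pos j))
    rw [← mul_assoc, yy_mul, one_mul]
    exact (mul_le_mul_of_nonneg_left (h k b1 b2).le hC.le).trans b3

theorem sCb (h : SRb) : SCb := by
  intro b hb C ε K n0 hC hε
  obtain ⟨Rb, hR, t1, t2⟩ := h b hb
  obtain ⟨h1, hm, ht, hD⟩ := hb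
  have hC0 : 0 < C := one_pos.trans_le hC
  obtain ⟨q, hq0, hq⟩ : ∃ q, n0 ≤ q ∧ ∀ n, q ≤ n → max K 1 ≤ b n ∧ max K 1 ≤ 2 ^ n * (C * ε) := by
    have t3 : Tendsto (fun n : ℕ => (2 : ℝ) ^ n * (C * ε)) atTop atTop :=
      (tendsto_pow_atTop_atTop_of_one_lt one_lt_two).atTop_mul_const (mul_pos hC0 hε)
    obtain ⟨q, hq⟩ := eventually_atTop.1 ((ht.eventually_ge_atTop (max K 1)).and
      (t3.eventually_ge_atTop (max K 1)))
    exact ⟨max n0 q, le_max_left _ _, fun n hn => hq n ((le_max_right _ _).trans hn)⟩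
  choose l R g using fun p => good_Cb hC0 h1 hm hR (p + q) q (Nat.le_add_left _ _)
  by_contra hcon
  have hμ : ∀ p d j, p + q - j = d → q ≤ j → j ≤ p + q → ε < l p j * (yy j + R p j) := by
    intro p d
    induction d using Nat.strong_induction_on with
    | _ d ih =>
      intro j e a1 a2
      have a3 := low_Cb hC0 (g p) a1 (hq j a1).1 (hq j a1).2 fun k b1 b2 =>
        ih _ (by omega) k rfl (by omega) b2
      exact not_le.1 fun a4 => hcon ⟨j, p + q, l p, R p, hq0.trans a1, a2,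
        fun n hn => ((g p).1 n (a1.trans hn)).1, (g p).2.1,
        fun n hn hn' => ((g p).2.2 n (a1.trans hn) hn').1, (le_max_left _ _).trans a3, a4⟩
  have hl : ∀ p n, q ≤ n → 1 ≤ l p n := fun p n hn => (le_max_right _ _).trans
    (low_Cb hC0 (g p) hn (hq n hn).1 (hq n hn).2 fun k b1 b2 => hμ p _ k rfl (by omega) b2)
  obtain ⟨x, hx⟩ : ∃ x : ℕ → ℕ → ℝ, ∀ p n, x p n = l p (max n q) := ⟨_, fun _ _ => rfl⟩
  have hx' : ∀ p n, q ≤ n → x p n = l p n := fun p n hn => by rw [hx, max_eq_left hn]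
  have x1 : ∀ p, x p ∈ Set.pi Set.univ fun n => Set.Icc 1 (b (max n q)) := fun p n _ => by
    rw [hx]
    exact ⟨hl p _ (le_max_right _ _), ((g p).1 _ (le_max_right _ _)).2.1⟩
  have x0 : ∀ p n, 0 < x p n := fun p n => one_pos.trans_le (x1 p n trivial).1
  have x2 : ∀ p, Monotone (x p) := fun p => monotone_nat_of_le_succ fun n => by
    rcases le_or_gt q n with e | e
    · rw [hx' _ _ e, hx' _ _ (e.trans n.le_succ)]
      exact ((g p).1 n e).1.2.1
    · rw [hx, hx, max_eq_right e.le, max_eq_right e]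
  obtain ⟨L, hL, φ, hφ, hlim⟩ := (isCompact_univ_pi fun n => isCompact_Icc).tendsto_subseq x1
  have hl' : ∀ n, Tendsto (fun p => x (φ p) n) atTop (𝓝 (L n)) := tendsto_pi_nhds.1 hlim
  have L0 : ∀ n, 0 < L n := fun n => one_pos.trans_le (hL n trivial).1
  refine hD ⟨2 * C, q, L, by positivity, L0, fun m n e =>
    le_of_tendsto_of_tendsto' (hl' m) (hl' n) fun p => x2 _ e,
    fun n hn => by simpa [max_eq_left hn] using (hL n trivial).2, fun i j hi hij => ?_⟩
  have hy := yy_pos j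
  rcases hij.eq_or_lt with rfl | hij
  · refine ⟨i, ?_⟩
    rw [RR_self]
    nlinarith [mul_pos hy (L0 i)]
  have hj := hi.trans hij.le
  obtain ⟨N, hN, hjN⟩ := (((t1.add t2).eventually (gt_mem_nhds (by rwa [add_zero]))).and
    (eventually_ge_atTop j)).exists
  refine ⟨N, le_of_tendsto_of_tendsto ((hl' i).const_mul _) (((hl' j).mul
    ((tendsto_finsetSum _ fun t _ => (((hl' (t + 1)).div (hl' t) (L0 t).ne').log
      (div_pos (L0 _) (L0 _)).ne').const_mul (yy t)).const_add _)).const_mul _) ?_⟩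
  filter_upwards [eventually_ge_atTop N] with p hp
  have hp' : N ≤ φ p := hp.trans (hφ.id_le p)
  change yy i * x (φ p) i ≤ 2 * C * (x (φ p) j * (yy j + RR (x (φ p)) j N))
  generalize φ p = r at hp'
  have r1 : ∀ M, j ≤ M → R r j = RR (x r) j M + R r M := fun M hM => by
    induction M, hM using Nat.le_induction with
    | base => rw [RR_self, zero_add]
    | succ M hM ih =>
      rw [RR_succ _ hM, ih, hx' _ _ (hj.trans hM), hx' _ _ ((hj.trans hM).trans M.le_succ),
        ((g r).1 M (hj.trans hM)).1.2.2.2]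
      ring
  have r2 := ((g r).1 N (hj.trans hjN)).2.2
  have r3 := mul_nonneg (yy_pos N).le (Real.log_nonneg (hl r N (hj.trans hjN)))
  have r4 := RR_nonneg (x0 r) (x2 r) j N
  have r5 := ((g r).2.2 i hi (by omega)).2 j hij (by omega)
  have r6 : yy j + R r j ≤ 2 * (yy j + RR (x r) j N) := by
    rw [r1 N hjN]
    linarith
  rw [hx' _ _ hi, hx' _ _ hj]
  have r7 := mul_le_mul_of_nonneg_left r6 (mul_pos hC0 (one_pos.trans_le (hl r j hj))).le
  nlinarith

end Pool.Agent.MP_17fac5_an.Ch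

end

section

set_option autoImplicit false
open MeasureTheory Filter Topology

namespace Pool.Agent.MP_17fac5_an.Ch

open Pool.Agent.MP_17fac5_an.H19 (ex)

theorem cut_Ll {v : ℂ → ℝ} (hv : ClH v) {K : ℝ} (hK : 0 ≤ K) : ClH fun z => max (v z - K) 0 := by
  refine ⟨(hv.1.sub continuousOn_const).sup continuousOn_const, fun z => le_max_right _ _,
    fun z hz h => ?_⟩
  have h1 : K < v z := by
    rcases lt_max_iff.1 h with h | h
    · linarith
    · exact absurd h (lt_irrefl _)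
  have hc : ContinuousAt v z := hv.1.continuousAt
    (mem_of_superset ((isOpen_lt continuous_const Complex.continuous_im).mem_nhds hz)
      fun w (hw : 0 < w.im) => show 0 ≤ w.im from hw.le)
  have h2 : ∀ᶠ w in 𝓝 z, K < v w := hc.eventually (lt_mem_nhds h1)
  obtain ⟨f, hf, hf'⟩ := hv.2.2 z hz (hK.trans_lt h1)
  refine ⟨fun w => f w - K, hf.sub analyticAt_const, ?_⟩
  filter_upwards [h2, hf'] with w a1 a2
  rw [max_eq_left (by linarith), a2]
  simp

theorem alt_Ll {z : ℂ} {a : ℝ} (h0 : 0 ≤ z.im) (h : 2 * a ≤ ‖z‖) : a ≤ |z.re| ∨ a ≤ z.im := by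
  have := Complex.norm_le_abs_re_add_abs_im z
  rw [abs_of_nonneg h0] at this
  by_contra hc
  push Not at hc
  linarith [hc.1, hc.2]

theorem wid_Ll {l R : ℕ → ℝ} {ρ : ℝ} {n : ℕ} (h0 : 0 ≤ R n)
    (h : R n = R (n + 1) + yy n * Real.log (l (n + 1) / l n)) :
    ρ ≤ ρ + 8 * yy n + R n ∧ ρ + 8 * yy (n + 1) + R (n + 1) +
      yy n * (4 + Real.log (l (n + 1) / l n)) ≤ ρ + 8 * yy n + R n := by
  refine ⟨by linarith [yy_pos n], le_of_eq ?_⟩
  rw [h, yy_succ]
  ring

theorem sLl (h1 : SRb) (h2 : SCb) (h3 : SIt) (h4 : SPs) : SLl := by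
  intro b hb n0 η ε η0 ε0
  obtain ⟨Rb, r1, r2, -⟩ := h1 b hb
  obtain ⟨n1, n1a, n1b⟩ : ∃ n1, n0 ≤ n1 ∧ 9 * yy n1 + Rb n1 ≤ η / 4 := by
    have t := (yy_tendsto.const_mul 9).add r2
    rw [mul_zero, add_zero] at t
    exact ((eventually_ge_atTop n0).and (t.eventually_le_const (by positivity))).exists
  set K := 2 * b n1 with hK
  have K2 : 2 ≤ K := by linarith [hb.1 n1]
  obtain ⟨j, p, l, R, j1, jp, c1, c2, c3, c4, c5⟩ := h2 b hb 144 (min (ε / 108) (η / 200)) K n1
    (by norm_num) (by positivity)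
  have c6 := c5.trans (min_le_left _ _)
  have c7 := c5.trans (min_le_right _ _)
  set W : ℕ → ℝ := fun n => yy p + 8 * yy n + R n with hW
  have w1 : ∀ n, j ≤ n → yy p ≤ W n ∧ W (n + 1) + yy n * (4 + Real.log (l (n + 1) / l n)) ≤ W n :=
    fun n hn => wid_Ll (c1 n hn).2.2.1 (c1 n hn).2.2.2
  have w2 : ∀ n, j ≤ n → yy n ≤ W n := fun n hn => by
    simp only [hW]
    linarith [yy_pos p, yy_pos n, (c1 n hn).2.2.1]
  have w3 : ∀ n, j ≤ n → n ≤ p → W n ≤ 9 * (yy n + R n) := fun n hn hp => by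
    simp only [hW]
    linarith [yy_anti hp, (c1 n hn).2.2.1]
  have w4 : ∀ n, j ≤ n → W n ≤ W j := fun n hn => by
    induction n, hn using Nat.le_induction with
    | base => exact le_rfl
    | succ n hn ih =>
      have a1 : 0 ≤ Real.log (l (n + 1) / l n) :=
        Real.log_nonneg ((one_le_div (c1 n hn).1).2 (c1 n hn).2.1)
      have a2 := mul_nonneg (yy_pos n).le (by linarith : 0 ≤ 4 + Real.log (l (n + 1) / l n))
      linarith [(w1 n hn).2]
  have lj := (c1 j le_rfl).1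
  have w5 : l j * W j ≤ 9 * (l j * (yy j + R j)) := by
    linarith [mul_le_mul_of_nonneg_left (w3 j le_rfl jp) lj.le]
  have Wj : 0 < W j := (yy_pos j).trans_le (w2 j le_rfl)
  have w6 : W j ≤ η / 40 := by
    linarith [mul_le_mul_of_nonneg_right (K2.trans c4) Wj.le]
  refine ⟨yy p, 4 * W j, 3 * l j, yy_pos p, by linarith [(w1 j le_rfl).1], by linarith,
    by linarith, by linarith, fun v hv ⟨M, hM⟩ v0 vb => ?_⟩
  obtain ⟨N, pN, MN⟩ : ∃ N, p ≤ N ∧ M ≤ b N :=
    ((eventually_ge_atTop p).and (hb.2.2.1.eventually_ge_atTop M)).exists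
  have ph := h3 v (yy p) η b (fun n => yy p + 8 * yy n + Rb n) n1 N hv (yy_pos p).le v0
    (fun n _ => ⟨by linarith [hb.1 n], hb.2.1 (Nat.le_succ n)⟩)
    (fun n hn z _ hz => vb n (n1a.trans hn) z hz) (fun n _ => wid_Ll (r1 n).1 (r1 n).2)
    (by omega) fun z hz => (hM z hz).trans MN
  set u : ℂ → ℝ := fun z => max (v z - K) 0 with hu
  have uc : ClH u := cut_Ll hv (by linarith)
  have u1 : ∀ z, u z ≤ v z := fun z => max_le (by linarith) (hv.2.1 z)
  have u2 : ∀ z, v z ≤ K → u z = 0 := fun z h => max_eq_right (by linarith)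
  have u3 : ∀ z : ℂ, 0 ≤ z.im → |z.re| ≤ 3 * η / 4 → η / 2 ≤ ‖z‖ → u z = 0 := by
    intro z z0 z1 z2
    have a1 := yy_anti (j1.trans jp)
    refine u2 z ?_
    rcases alt_Ll (a := η / 4) z0 (by linarith) with h | h
    · exact ph z (by linarith) (by linarith) z0
    · have := vb n1 n1a z (by linarith [yy_pos n1, (r1 n1).1])
      linarith [hb.1 n1]
  have u4 : ∀ x : ℝ, yy p ≤ |x| → |x| ≤ 3 * η / 4 → u x = 0 := fun x x1 x2 =>
    u2 _ (by rw [v0 x x1 (by linarith)]; linarith)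
  have B : ∀ k, j ≤ k → k ≤ p →
      (∀ m, k ≤ m → ∀ z : ℂ, |z.re| ≤ 3 * η / 4 → yy m ≤ z.im → u z ≤ l m) →
      ∀ z : ℂ, 0 ≤ z.im → 2 * W k ≤ ‖z‖ → ‖z‖ ≤ η / 2 → u z ≤ 2 * l k := by
    intro k k1 k2 hT z z0 z1 z2
    have a1 := (Complex.abs_re_le_norm z).trans z2
    rcases alt_Ll z0 z1 with h | h
    · exact h3 u (yy p) (3 * η / 4) l W k N uc (yy_pos p).le u4
        (fun n hn => ⟨(c1 n (k1.trans hn)).1, (c1 n (k1.trans hn)).2.1⟩) hT
        (fun n hn => w1 n (k1.trans hn)) (k2.trans pN)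
        (fun z hz => (u1 z).trans ((hM z hz).trans (MN.trans_eq (c2 N pN).symm))) z h
        (by linarith [w4 k k1]) z0
    · have := hT k le_rfl z (by linarith) ((w2 k k1).trans h)
      linarith [(c1 k k1).1]
  have ob : ∀ n, j ≤ n → b n ≤ l n → ∀ z : ℂ, yy n ≤ z.im → u z ≤ l n := fun n hn h z hz =>
    (u1 z).trans ((vb n (by omega) z hz).trans h)
  have T : ∀ d n, j ≤ n → p ≤ n + d →
      ∀ z : ℂ, |z.re| ≤ 3 * η / 4 → yy n ≤ z.im → u z ≤ l n := by
    intro d
    induction d with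
    | zero => exact fun n hn hp z _ hz => ob n hn (c2 n hp).ge z hz
    | succ d ih =>
      intro n hn hp z z1 z2
      rcases le_or_gt p n with h | h
      · exact ob n hn (c2 n h).ge z z2
      rcases c3 n hn h with h | ⟨k, k1, k2, k3⟩
      · exact ob n hn h z z2
      have jk : j ≤ k := by omega
      have hT : ∀ m, k ≤ m → ∀ z : ℂ, |z.re| ≤ 3 * η / 4 → yy m ≤ z.im → u z ≤ l m :=
        fun m hm => ih m (by omega) (by omega)
      have y0 := yy_pos n
      have z0 : 0 < z.im := y0.trans_le z2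
      have lk := (c1 k jk).1
      have ln := (c1 n hn).1
      have Wk : 0 < W k := (yy_pos k).trans_le (w2 k jk)
      have m1 : 16 * (l k * W k) ≤ yy n * l n := by
        linarith [mul_le_mul_of_nonneg_left (w3 k jk k2) lk.le]
      rcases le_total (η / 2) ‖z‖ with a1 | a1
      · rw [u3 z z0.le z1 a1]
        exact ln.le
      rcases le_total (2 * W k) ‖z‖ with a2 | a2
      · have a3 := h4 u (2 * W k) (η / 2) (2 * l k) uc (by linarith) (by linarith)
          (fun z hz e => u3 z hz (by linarith [Complex.abs_re_le_norm z]) e.ge)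
          (fun x x1 x2 => u4 x (by linarith [(w1 k jk).1]) (by linarith))
          (fun z hz e => B k jk k2 hT z hz e.ge (by linarith [w4 k jk])) z z0 a2 a1
        refine a3.trans ?_
        rw [div_le_iff₀ z0]
        linarith [mul_le_mul_of_nonneg_right z2 ln.le]
      · refine (hT k le_rfl z z1 ((yy_anti k1.le).trans z2)).trans ?_
        have a3 : yy n ≤ 2 * W k :=
          z2.trans (((le_abs_self _).trans (Complex.abs_im_le_norm z)).trans a2)
        refine le_of_mul_le_mul_left ?_ y0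
        linarith [mul_le_mul_of_nonneg_right a3 lk.le, mul_pos lk Wk]
  intro z z0 z1 z2
  have a1 := B j le_rfl jp (fun m hm => T p m hm (by omega)) z z0 (by linarith) (by linarith)
  have a2 : v z - K ≤ u z := le_max_left _ _
  linarith

end Pool.Agent.MP_17fac5_an.Ch

end

section

set_option autoImplicit false
open MeasureTheory Filter Topology

namespace Pool.Agent.MP_17fac5_an.Ch

open Pool.Agent.MP_17fac5_an.H19 (ex)

theorem re_Rm (s z : ℂ) : ((s + z) / (s - z)).re = (‖s‖ ^ 2 - ‖z‖ ^ 2) / ‖s - z‖ ^ 2 := by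
  rw [Complex.div_re, ← add_div, Complex.normSq_eq_norm_sq, Complex.sq_norm s, Complex.sq_norm z,
    Complex.normSq_apply, Complex.normSq_apply]
  congr 1
  simp only [Complex.add_re, Complex.sub_re, Complex.add_im, Complex.sub_im]
  ring

theorem roof_Rm (z0 : ℂ) (r l : ℝ) (h0 : ‖z0‖ = 1) (hr : 0 < r) (hl : 0 ≤ l) :
    ∃ H : ℂ → ℂ, (∀ z : ℂ, ‖z‖ ≤ 1 → AnalyticAt ℂ H z) ∧ (∀ z : ℂ, ‖z‖ ≤ 1 → 0 ≤ (H z).re) ∧
      (H 0).re = 3 * (l * r) ∧
      ∀ z : ℂ, ‖z‖ ≤ 1 → ‖z - z0‖ ≤ 4 / 3 * r → l ≤ (H z).re := by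
  obtain ⟨s, hs⟩ : ∃ s : ℂ, s = ((1 + r : ℝ) : ℂ) * z0 := ⟨_, rfl⟩
  have hn : ‖s‖ = 1 + r := by
    rw [hs, norm_mul, h0, mul_one, Complex.norm_real, Real.norm_of_nonneg (by linarith)]
  have hd : ‖s - z0‖ = r := by
    have : s - z0 = (r : ℂ) * z0 := by
      rw [hs]
      push_cast
      ring
    rw [this, norm_mul, h0, mul_one, Complex.norm_real, Real.norm_of_nonneg hr.le]
  have hne : ∀ z : ℂ, ‖z‖ ≤ 1 → s - z ≠ 0 := by
    intro z hz h
    rw [sub_eq_zero] at h
    rw [h] at hn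
    linarith
  have hre : ∀ z : ℂ, (((3 * (l * r) : ℝ) : ℂ) * ((s + z) / (s - z))).re =
      3 * (l * r) * (((1 + r) ^ 2 - ‖z‖ ^ 2) / ‖s - z‖ ^ 2) := by
    intro z
    rw [Complex.re_ofReal_mul, re_Rm, hn]
  have hnum : ∀ z : ℂ, ‖z‖ ≤ 1 → 2 * r ≤ (1 + r) ^ 2 - ‖z‖ ^ 2 := by
    intro z hz
    nlinarith [norm_nonneg z]
  refine ⟨fun z => ((3 * (l * r) : ℝ) : ℂ) * ((s + z) / (s - z)), fun z hz => ?_, fun z hz => ?_,
    ?_, fun z hz hz0 => ?_⟩
  · exact analyticAt_const.mul ((analyticAt_const.add analyticAt_id).div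
      (analyticAt_const.sub analyticAt_id) (hne z hz))
  · rw [hre]
    have := hnum z hz
    exact mul_nonneg (by positivity) (div_nonneg (by linarith) (by positivity))
  · rw [hre, sub_zero, hn, norm_zero]
    have : (1 + r) ^ 2 ≠ 0 := by positivity
    field_simp
    ring
  · rw [hre]
    have h1 := hnum z hz
    have h2 : ‖s - z‖ ≤ 7 / 3 * r := by
      have : s - z = (s - z0) - (z - z0) := by ring
      rw [this]
      refine (norm_sub_le _ _).trans ?_
      linarith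
    have h3 : 0 < ‖s - z‖ := norm_pos_iff.2 (hne z hz)
    have h4 : ‖s - z‖ ^ 2 ≤ (7 / 3 * r) ^ 2 := pow_le_pow_left₀ h3.le h2 2
    rw [← mul_div_assoc, le_div_iff₀ (by positivity)]
    have h5 : l * ‖s - z‖ ^ 2 ≤ l * (7 / 3 * r) ^ 2 := mul_le_mul_of_nonneg_left h4 hl
    have h6 : 3 * (l * r) * (2 * r) ≤ 3 * (l * r) * ((1 + r) ^ 2 - ‖z‖ ^ 2) :=
      mul_le_mul_of_nonneg_left h1 (by positivity)
    have h7 : 0 ≤ l * r ^ 2 := by positivity
    nlinarith

theorem sRm : SRm := by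
  intro u z0 r l ⟨hc, hp, hL⟩ h0 hr hr2 hl hu
  obtain ⟨H, hH, hV, hV0, hVl⟩ := roof_Rm z0 r l h0 hr hl
  obtain ⟨u', hu'⟩ : ∃ u' : ℂ → ℝ, ∀ z, u' z =
      if ‖z - z0‖ ≤ 7 / 6 * r then 0 else max (u z - (H z).re) 0 := ⟨_, fun _ => rfl⟩
  have hz : ∀ z : ℂ, ‖z‖ ≤ 1 → r ≤ ‖z - z0‖ → ‖z - z0‖ ≤ 4 / 3 * r →
      max (u z - (H z).re) 0 = 0 := fun z h1 h2 h3 =>
    max_eq_right (sub_nonpos.2 ((hu z h1 h2 h3).trans (hVl z h1 h3)))
  have ha : ∀ z : ℂ, ‖z‖ ≤ 1 → ‖z - z0‖ ≤ 4 / 3 * r → u' z = 0 := by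
    intro z h1 h2
    rw [hu']
    split_ifs with h
    · rfl
    · exact hz z h1 (by linarith [not_le.1 h]) h2
  have hb : ∀ z : ℂ, ‖z‖ ≤ 1 → r ≤ ‖z - z0‖ → u' z = max (u z - (H z).re) 0 := by
    intro z h1 h2
    rw [hu']
    split_ifs with h
    · exact (hz z h1 h2 (by linarith)).symm
    · rfl
  have hn : Continuous fun z : ℂ => ‖z - z0‖ := by fun_prop
  have hw : ContinuousOn (fun z => u z - (H z).re) (Metric.closedBall (0 : ℂ) 1) :=
    hc.sub fun z hz => (Complex.continuous_re.continuousAt.comp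
      (hH z (mem_closedBall_zero_iff.1 hz)).continuousAt).continuousWithinAt
  refine ⟨u', ⟨fun z hz => ?_, fun z => ?_, fun z hz hpos => ?_⟩, fun z hz => ?_, fun z hz => ?_,
    ?_⟩
  · have hz1 := mem_closedBall_zero_iff.1 hz
    rcases lt_or_ge ‖z - z0‖ (4 / 3 * r) with h | h
    · refine (continuousWithinAt_const (b := (0 : ℝ))).congr_of_eventuallyEq ?_ (ha z hz1 h.le)
      filter_upwards [self_mem_nhdsWithin,
        mem_nhdsWithin_of_mem_nhds (hn.continuousAt.eventually_lt continuousAt_const h)]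
        with w h1 h2
      exact ha w (mem_closedBall_zero_iff.1 h1) h2.le
    · have h' : r < ‖z - z0‖ := by linarith
      have hm : ContinuousWithinAt (fun w => max (u w - (H w).re) 0) (Metric.closedBall 0 1) z :=
        (hw z hz).max continuousWithinAt_const
      refine hm.congr_of_eventuallyEq ?_ (hb z hz1 h'.le)
      filter_upwards [self_mem_nhdsWithin,
        mem_nhdsWithin_of_mem_nhds (continuousAt_const.eventually_lt hn.continuousAt h')]
        with w h1 h2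
      exact hb w (mem_closedBall_zero_iff.1 h1) h2.le
  · rw [hu']
    split_ifs
    · exact le_rfl
    · exact le_max_right _ _
  · have h' : r < ‖z - z0‖ := by
      by_contra h
      rw [ha z hz.le (by linarith [not_lt.1 h])] at hpos
      exact lt_irrefl _ hpos
    have h1 : 0 < u z - (H z).re := by
      rw [hb z hz.le h'.le] at hpos
      rcases lt_max_iff.1 hpos with h | h
      · exact h
      · exact absurd h (lt_irrefl _)
    obtain ⟨f, hf, hf2⟩ := hL z hz (by linarith [hV z hz.le])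
    have hnb : Metric.closedBall (0 : ℂ) 1 ∈ 𝓝 z :=
      Metric.closedBall_mem_nhds_of_mem (mem_ball_zero_iff.2 hz)
    refine ⟨fun w => f w - H w, hf.sub (hH z hz.le), ?_⟩
    filter_upwards [hf2, hnb, continuousAt_const.eventually_lt hn.continuousAt h',
      continuousAt_const.eventually_lt (hw.continuousAt hnb) h1] with w a1 a2 a3 a4
    rw [hb w (mem_closedBall_zero_iff.1 a2) a3.le, max_eq_left a4.le, a1, Complex.sub_re]
  · rw [hu']
    split_ifs
    · exact hp z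
    · exact max_le (by linarith [hV z hz]) (hp z)
  · rw [hu', if_pos (by linarith)]
  · rw [hb 0 (by simp) (by rw [zero_sub, norm_neg, h0]; linarith), ← hV0]
    linarith [le_max_left (u 0 - (H 0).re) 0]

end Pool.Agent.MP_17fac5_an.Ch

end

section

set_option autoImplicit false
open MeasureTheory Filter Topology

namespace Pool.Agent.MP_17fac5_an.Ch

open Pool.Agent.MP_17fac5_an.H19 (ex)

theorem norm_Ex {z0 : ℂ} (h : ‖z0‖ = 1) (ζ : ℂ) :
    ‖z0 * Complex.exp (ζ * Complex.I)‖ = Real.exp (-ζ.im) := by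
  rw [norm_mul, h, one_mul, Complex.norm_exp]
  simp

theorem sub_Ex {z0 : ℂ} (h : ‖z0‖ = 1) (ζ : ℂ) :
    ‖z0 * Complex.exp (ζ * Complex.I) - z0‖ = ‖Complex.exp (ζ * Complex.I) - 1‖ := by
  rw [← mul_sub_one, norm_mul, h, one_mul]

theorem up_Ex {ζ : ℂ} (h : ‖ζ‖ ≤ 1) : ‖Complex.exp (ζ * Complex.I) - 1‖ ≤ 2 * ‖ζ‖ := by
  simpa using Complex.norm_exp_sub_one_le (x := ζ * Complex.I) (by simpa using h)

theorem low_Ex {ζ : ℂ} (h : ‖ζ‖ ≤ 1 / 2) : ‖ζ‖ / 2 ≤ ‖Complex.exp (ζ * Complex.I) - 1‖ := by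
  have e : ‖ζ * Complex.I‖ = ‖ζ‖ := by simp
  have h1 := Complex.norm_exp_sub_one_sub_id_le (x := ζ * Complex.I) (by rw [e]; linarith)
  have h2 := norm_sub_le (Complex.exp (ζ * Complex.I) - 1)
    (Complex.exp (ζ * Complex.I) - 1 - ζ * Complex.I)
  rw [sub_sub_cancel] at h2
  rw [e] at h1 h2
  nlinarith [norm_nonneg ζ]

theorem clH_Ex {u : ℂ → ℝ} (hu : ClD u) {z0 : ℂ} (h : ‖z0‖ = 1) :
    ClH fun ζ => u (z0 * Complex.exp (ζ * Complex.I)) := by
  have hc : Continuous fun ζ : ℂ => z0 * Complex.exp (ζ * Complex.I) := by fun_prop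
  refine ⟨hu.1.comp hc.continuousOn fun ζ hζ => ?_, fun ζ => hu.2.1 _, fun ζ hζ hp => ?_⟩
  · rw [mem_closedBall_zero_iff, norm_Ex h]
    exact Real.exp_le_one_iff.2 (neg_nonpos.2 hζ)
  · obtain ⟨f, hf, he⟩ := hu.2.2 _
      (by rw [norm_Ex h]; exact Real.exp_lt_one_iff.2 (neg_neg_of_pos hζ)) hp
    have ha : AnalyticAt ℂ (fun ζ : ℂ => z0 * Complex.exp (ζ * Complex.I)) ζ := by fun_prop
    exact ⟨_, AnalyticAt.comp (g := f) (f := fun ζ : ℂ => z0 * Complex.exp (ζ * Complex.I)) hf ha,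
      hc.continuousAt.tendsto.eventually he⟩

theorem pre_Ex {z0 z : ℂ} (h : ‖z0‖ = 1) (hz : ‖z‖ ≤ 1) {w : ℝ} (hw : w ≤ 1 / 4)
    (h1 : w ≤ ‖z - z0‖) (h2 : ‖z - z0‖ ≤ 4 / 3 * w) :
    ∃ ζ : ℂ, z0 * Complex.exp (ζ * Complex.I) = z ∧ 0 ≤ ζ.im ∧ w / 2 ≤ ‖ζ‖ ∧ ‖ζ‖ ≤ 2 * w := by
  have h0 : z0 ≠ 0 := by rintro rfl; simp at h
  set q : ℂ := (z - z0) / z0 with hq
  have hn : ‖q‖ = ‖z - z0‖ := by rw [hq, norm_div, h, div_one]
  have h3 : 1 + q ≠ 0 := fun e => by
    have : q = -1 := by linear_combination e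
    rw [this] at hn
    simp at hn
    linarith
  have e1 : -Complex.I * Complex.log (1 + q) * Complex.I = Complex.log (1 + q) := by
    linear_combination (-Complex.log (1 + q)) * Complex.I_mul_I
  have e2 : z0 * Complex.exp (-Complex.I * Complex.log (1 + q) * Complex.I) = z := by
    rw [e1, Complex.exp_log h3, hq]
    field_simp
    ring
  have h4 : ‖-Complex.I * Complex.log (1 + q)‖ ≤ 2 * w := by
    have := Complex.norm_log_one_add_half_le_self (z := q) (by linarith)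
    rw [norm_mul, norm_neg, Complex.norm_I, one_mul]
    linarith
  refine ⟨_, e2, ?_, ?_, h4⟩
  · rw [← e2, norm_Ex h, Real.exp_le_one_iff] at hz
    linarith
  · have := up_Ex (h4.trans (by linarith))
    rw [← sub_Ex h, e2] at this
    linarith

theorem sEx (h1 : SLl) (h2 : SRm) : SEx := by
  intro b hb n0 U B z0 η ε hQ hz0 hη hε hU
  obtain ⟨ρ, w, l, hρ, hρw, hw, hl, hlw, H⟩ := h1 b hb n0 (min (η / 4) (1 / 4)) (ε / 3)
    (lt_min (by linarith) (by norm_num)) (by linarith)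
  have hw4 : w ≤ 1 / 4 := hw.trans (min_le_right _ _)
  refine ⟨ρ / 2, by linarith, by linarith, fun u hu hob hz => ?_⟩
  obtain ⟨M, hM⟩ := (isCompact_closedBall (0 : ℂ) 1).bddAbove_image hu.1
  have key := H _ (clH_Ex hu hz0)
    ⟨M, fun ζ hζ => hM ⟨_, by
      rw [mem_closedBall_zero_iff, norm_Ex hz0]
      exact Real.exp_le_one_iff.2 (neg_nonpos.2 hζ), rfl⟩⟩
    (fun x hx hx' => by
      have e : ‖(x : ℂ)‖ = |x| := by simp
      have h3 := (le_min_iff.1 hx').1
      have h4 := (le_min_iff.1 hx').2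
      have h5 := up_Ex (ζ := x) (by rw [e]; linarith)
      have h6 := low_Ex (ζ := x) (by rw [e]; linarith)
      rw [← sub_Ex hz0, e] at h5 h6
      have h7 : ‖z0 * Complex.exp (x * Complex.I)‖ = 1 := by rw [norm_Ex hz0]; simp
      refine hz _ h7 ?_
      rintro (h8 | h8)
      · exact hU _ h7 (by linarith) h8
      · rw [mem_ball_iff_norm] at h8
        linarith)
    fun n hn ζ hζ => hob n hn _ (by rw [norm_Ex hz0]; exact Real.exp_le_exp.2 (neg_le_neg hζ))
  obtain ⟨u', hu', hle, h0, hd⟩ := h2 u z0 w l hu hz0 (by linarith) (by linarith) hl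
    fun z hz1 h3 h4 => by
      obtain ⟨ζ, rfl, h5, h6, h7⟩ := pre_Ex hz0 hz1 hw4 h3 h4
      exact key ζ h5 h6 h7
  have h3 := hQ u' hu'
    (fun n hn z hz1 => (hle z (hz1.trans
      (Real.exp_le_one_iff.2 (neg_nonpos.2 (yy_pos n).le)))).trans (hob n hn z hz1))
    fun z hz1 hzU => by
      rcases le_or_gt ‖z - z0‖ w with h | h
      · exact h0 z h
      · refine le_antisymm ((hle z hz1.le).trans (hz z hz1 ?_).le) (hu'.2.1 z)
        rintro (h8 | h8)
        · exact hzU h8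
        · rw [mem_ball_iff_norm] at h8
          linarith
  linarith

end Pool.Agent.MP_17fac5_an.Ch

end

section

set_option autoImplicit false
open MeasureTheory Filter Topology

namespace Pool.Agent.MP_17fac5_an.Ch

open Pool.Agent.MP_17fac5_an.H19 (ex)

theorem arc_Sq {α β q : ℝ} (h1 : α < q) (h2 : q < β) : ∃ η : ℝ, 0 < η ∧
    ∀ z : ℂ, ‖z‖ = 1 → ‖z - ex q‖ < η → ∃ θ ∈ Set.Ioo α β, ex θ = z := by
  have h0 : ex q ≠ 0 := Complex.exp_ne_zero _
  have hc : ContinuousAt (fun z : ℂ => q + Complex.arg (z / ex q)) (ex q) :=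
    continuousAt_const.add (ContinuousAt.comp (g := Complex.arg) (f := fun z : ℂ => z / ex q)
      (Complex.continuousAt_arg (by rw [div_self h0]; exact Complex.one_mem_slitPlane))
      (continuousAt_id.div_const _))
  have hm : Set.Ioo α β ∈ 𝓝 (q + Complex.arg (ex q / ex q)) := by
    rw [div_self h0, Complex.arg_one, add_zero]
    exact Ioo_mem_nhds h1 h2
  obtain ⟨η, hη, hh⟩ := Metric.mem_nhds_iff.1 (hc hm)
  refine ⟨η, hη, fun z hz hzq => ⟨_, hh (mem_ball_iff_norm.2 hzq), ?_⟩⟩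
  have h3 := Complex.norm_mul_exp_arg_mul_I (z / ex q)
  rw [norm_div, hz, H19.norm_ex, div_one, Complex.ofReal_one, one_mul] at h3
  have h4 : ex (q + Complex.arg (z / ex q)) =
      ex q * Complex.exp (Complex.arg (z / ex q) * Complex.I) := by
    unfold ex
    rw [← Complex.exp_add, Complex.ofReal_add, add_mul]
  rw [h4, h3, mul_div_cancel₀ _ h0]

theorem base_Sq (h0 : SMp) (b : ℕ → ℝ) (n0 : ℕ) : QQ b n0 ∅ 0 := by
  intro u hu _ hz
  have := h0 (Metric.closedBall 0 1) u (fun _ => 0) (isCompact_closedBall _ _) hu.1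
    (fun _ _ => analyticAt_const) (fun z hz1 => ?_) 0 (Metric.mem_closedBall_self zero_le_one)
  · simpa using this
  · rcases (mem_closedBall_zero_iff.1 hz1).eq_or_lt with h | h
    · exact Or.inl (by simp [hz z h (Set.notMem_empty z)])
    · rcases (hu.2.1 z).eq_or_lt with h' | h'
      · exact Or.inl (by simp [← h'])
      · exact Or.inr ⟨Metric.closedBall_mem_nhds_of_mem (mem_ball_zero_iff.2 h), hu.2.2 z h h'⟩

/-- The invariant of the construction. -/
def Inv_Sq (b : ℕ → ℝ) (n0 k : ℕ) (U : Set ℂ) : Prop :=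
  IsOpen U ∧ U ⊆ Metric.ball (0 : ℂ) 3 ∧ QQ b n0 U (1 - yy k)

theorem step_Sq (h1 : SEx) {b : ℕ → ℝ} (hb : NoD b) (n0 k : ℕ) (α β : ℝ) (U : Set ℂ) :
    ∃ U' : Set ℂ, Inv_Sq b n0 k U → Inv_Sq b n0 (k + 1) U' ∧ U ⊆ U' ∧
      (α < β → ∃ θ ∈ Set.Ioo α β, ex θ ∈ U') := by
  by_cases hU : Inv_Sq b n0 k U
  swap
  · exact ⟨U, fun h => absurd h hU⟩
  by_cases h : α < β → ∃ θ ∈ Set.Ioo α β, ex θ ∈ U
  · refine ⟨U, fun _ => ⟨⟨hU.1, hU.2.1, fun u a1 a2 a3 => (hU.2.2 u a1 a2 a3).trans ?_⟩,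
      subset_rfl, h⟩⟩
    linarith [yy_anti (Nat.le_succ k)]
  obtain ⟨hlt, h⟩ := Classical.not_imp.1 h
  obtain ⟨q, q1, q2⟩ := exists_between hlt
  obtain ⟨η, hη, hh⟩ := arc_Sq q1 q2
  obtain ⟨ρ, r0, r1, hQ⟩ := h1 b hb n0 U _ (ex q) η (yy (k + 1)) hU.2.2 (H19.norm_ex q) hη
    (yy_pos _) fun z hz hzq hzU => by
      obtain ⟨θ, t1, t2⟩ := hh z hz hzq
      exact h ⟨θ, t1, t2 ▸ hzU⟩
  refine ⟨U ∪ Metric.ball (ex q) ρ, fun _ => ⟨⟨hU.1.union Metric.isOpen_ball,
    Set.union_subset hU.2.1 (Metric.ball_subset_ball' ?_), ?_⟩, Set.subset_union_left,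
    fun _ => ⟨q, ⟨q1, q2⟩, Or.inr (Metric.mem_ball_self r0)⟩⟩⟩
  · rw [dist_zero_right, H19.norm_ex]
    linarith
  · have e : 1 - yy (k + 1) = 1 - yy k + yy (k + 1) := by rw [yy_succ]; ring
    rw [e]
    exact hQ

theorem sSq (h0 : SMp) (h1 : SEx) : SSq := by
  intro b hb n0
  obtain ⟨e, he⟩ := exists_surjective_nat (ℚ × ℚ)
  choose F hF using fun (k : ℕ) (U : Set ℂ) => step_Sq h1 hb n0 k (e k).1 (e k).2 U
  let U : ℕ → Set ℂ := fun k => Nat.rec ∅ F k
  have hI : ∀ k, Inv_Sq b n0 k (U k) := by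
    intro k
    induction k with
    | zero =>
      refine ⟨isOpen_empty, Set.empty_subset _, ?_⟩
      rw [yy_zero, sub_self]
      exact base_Sq h0 b n0
    | succ k ih => exact (hF k _ ih).1
  refine ⟨U, monotone_nat_of_le_succ fun k => (hF k _ (hI k)).2.1, fun k => (hI k).1,
    fun k => (hI k).2.1, fun k u a1 a2 a3 => ((hI k).2.2 u a1 a2 a3).trans ?_, fun α β h => ?_⟩
  · linarith [yy_pos k]
  · obtain ⟨p, p1, p2⟩ := exists_rat_btwn h
    obtain ⟨q, q1, q2⟩ := exists_rat_btwn p2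
    obtain ⟨k, hk⟩ := he (p, q)
    obtain ⟨θ, t1, t2⟩ := (hF k _ (hI k)).2.2 (by rw [hk]; exact q1)
    rw [hk] at t1
    exact ⟨k + 1, θ, ⟨p1.trans t1.1, t1.2.trans q2⟩, t2⟩

end Pool.Agent.MP_17fac5_an.Ch

end

section

set_option autoImplicit false
open MeasureTheory Filter Topology

namespace Pool.Agent.MP_17fac5_an.Ch

open Pool.Agent.MP_17fac5_an.H19 (ex)

theorem sPb : SPb := by
  intro q ρ z hz
  have hρ : 0 < ρ := (norm_nonneg z).trans_lt hz
  have hb : z ∈ Metric.ball (0 : ℂ) ρ := mem_ball_zero_iff.2 hz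
  have hf : DiffContOnCl ℂ (fun w => q.eval w ^ 2) (Metric.ball (0 : ℂ) ρ) :=
    (q.differentiable.pow 2).diffContOnCl
  have h1 := hf.circleAverage_re_herglotzRieszKernel_smul' hb
  have hπ : (0 : ℝ) ≤ (2 * Real.pi)⁻¹ := by positivity
  rw [← norm_pow, ← h1, Real.circleAverage_def, Real.circleAverage_def, norm_smul, smul_eq_mul,
    Real.norm_of_nonneg hπ, mul_left_comm, ← intervalIntegral.integral_const_mul]
  refine mul_le_mul_of_nonneg_left (intervalIntegral.norm_integral_le_of_norm_le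
    (by positivity) (Eventually.of_forall fun t _ => ?_) ?_) hπ
  · have hs := circleMap_mem_sphere (0 : ℂ) hρ.le t
    have h2 := re_herglotzRieszKernel_le hs hb
    have h3 := le_re_herglotzRieszKernel hs hb
    rw [sub_zero z] at h2 h3
    have h4 : 0 ≤ (ρ - ‖z‖) / (ρ + ‖z‖) := div_nonneg (by linarith) (by positivity)
    rw [norm_smul, norm_pow, sub_zero z, Real.norm_of_nonneg (h4.trans h3)]
    exact mul_le_mul_of_nonneg_right h2 (by positivity)
  · refine Continuous.intervalIntegrable (continuous_const.mul ?_) _ _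
    exact ((q.continuous.comp (continuous_circleMap 0 ρ)).norm).pow 2

theorem sTl : STl := by
  intro r δ e hr hδ he
  obtain ⟨a, b, hab⟩ := H19.swS r (fun z => (e z : ℂ)) hr
    (Complex.continuous_ofReal.comp_continuousOn he) (δ / 2) (by positivity)
  refine ⟨fun z => a.eval z + b.eval z + (δ / 2 : ℝ),
    ((a.differentiable).add (b.differentiable)).add (differentiable_const _), fun z hz => ?_⟩
  have h1 := (Complex.abs_re_le_norm _).trans (hab z (by simpa using hz))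
  simp only [Complex.sub_re, Complex.add_re, Complex.ofReal_re, Complex.conj_re] at h1
  simp only [Complex.add_re, Complex.ofReal_re]
  have := abs_le.1 h1
  constructor <;> linarith [this.1, this.2]

end Pool.Agent.MP_17fac5_an.Ch

end

section

set_option autoImplicit false
open MeasureTheory Filter Topology

namespace Pool.Agent.MP_17fac5_an.Ch

open Pool.Agent.MP_17fac5_an.H19 (ex)

/-- Continuous cut-off that equals one off `U n`. -/
noncomputable def chi_Ou (U : ℕ → Set ℂ) (n : ℕ) (z : ℂ) : ℝ :=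
  max 0 (1 - n * Metric.infDist z (U n)ᶜ)

theorem chi_cont_Ou (U : ℕ → Set ℂ) (n : ℕ) : Continuous (chi_Ou U n) :=
  continuous_const.max (continuous_const.sub
    (continuous_const.mul (Metric.continuous_infDist_pt _)))

theorem chi_nonneg_Ou (U : ℕ → Set ℂ) (n : ℕ) (z : ℂ) : 0 ≤ chi_Ou U n z := le_max_left _ _

theorem chi_le_Ou (U : ℕ → Set ℂ) (n : ℕ) (z : ℂ) : chi_Ou U n z ≤ 1 :=
  max_le zero_le_one (sub_le_self _ (mul_nonneg (Nat.cast_nonneg n) Metric.infDist_nonneg))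

theorem chi_one_Ou (U : ℕ → Set ℂ) (n : ℕ) {z : ℂ} (hz : z ∉ U n) : chi_Ou U n z = 1 := by
  rw [chi_Ou, Metric.infDist_zero_of_mem (s := (U n)ᶜ) hz]
  simp

theorem chi_zero_Ou {U : ℕ → Set ℂ} (hm : Monotone U) (ho : ∀ k, IsOpen (U k))
    (hb : ∀ k, U k ⊆ Metric.ball (0 : ℂ) 3) {z : ℂ} {k : ℕ} (hz : z ∈ U k) :
    ∀ᶠ n in atTop, chi_Ou U n z = 0 := by
  have ne : ∀ n, (U n)ᶜ.Nonempty := fun n => ⟨3, fun h => by simpa using hb n h⟩
  have d0 : 0 < Metric.infDist z (U k)ᶜ :=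
    ((ho k).isClosed_compl.notMem_iff_infDist_pos (ne k)).1 (not_not.2 hz)
  obtain ⟨N, hN⟩ := exists_nat_ge (1 / Metric.infDist z (U k)ᶜ)
  rw [div_le_iff₀ d0] at hN
  filter_upwards [eventually_ge_atTop k, eventually_ge_atTop N] with n h1 h2
  have h3 : Metric.infDist z (U k)ᶜ ≤ Metric.infDist z (U n)ᶜ :=
    Metric.infDist_le_infDist_of_subset (Set.compl_subset_compl.2 (hm h1)) (ne n)
  have h4 : (N : ℝ) ≤ n := by exact_mod_cast h2
  refine max_eq_left (sub_nonpos.2 (hN.trans ?_))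
  exact mul_le_mul h4 h3 d0.le (Nat.cast_nonneg n)

theorem lim_Ou {U : ℕ → Set ℂ} (hm : Monotone U) (ho : ∀ k, IsOpen (U k))
    (hb : ∀ k, U k ⊆ Metric.ball (0 : ℂ) 3) (q : Polynomial ℂ) {ε : ℝ}
    (h : (∫⁻ θ in SE (⋃ k, U k)ᶜ, ‖q.eval (ex θ)‖ₑ ^ (2 : ℕ)) < ENNReal.ofReal ε) :
    ∃ n, Real.circleAverage (fun z => chi_Ou U n z * ‖q.eval z‖ ^ 2) 0 1 ≤ ε := by
  have hE : MeasurableSet (SE (⋃ k, U k)ᶜ) := meas_SE (isOpen_iUnion ho).measurableSet.compl
  have hq : Continuous fun θ : ℝ => q.eval (ex θ) := q.continuous.comp H19.cont_ex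
  have hc : ∀ n, Continuous fun θ : ℝ => chi_Ou U n (ex θ) * ‖q.eval (ex θ)‖ ^ 2 :=
    fun n => ((chi_cont_Ou U n).comp H19.cont_ex).mul (hq.norm.pow 2)
  have h0 : ∀ n θ, 0 ≤ chi_Ou U n (ex θ) * ‖q.eval (ex θ)‖ ^ 2 := fun n θ =>
    mul_nonneg (chi_nonneg_Ou _ _ _) (sq_nonneg _)
  have hi : ∀ f : ℝ → ℝ, Continuous f → IntegrableOn f (Set.Ioc 0 (2 * Real.pi)) := fun f hf =>
    (hf.integrableOn_Icc).mono_set Set.Ioc_subset_Icc_self
  have h1 : Tendsto (fun n => ∫⁻ θ in Set.Ioc (0 : ℝ) (2 * Real.pi),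
      ENNReal.ofReal (chi_Ou U n (ex θ) * ‖q.eval (ex θ)‖ ^ 2)) atTop
      (𝓝 (∫⁻ θ in Set.Ioc (0 : ℝ) (2 * Real.pi),
        (SE (⋃ k, U k)ᶜ).indicator (fun θ => ‖q.eval (ex θ)‖ₑ ^ (2 : ℕ)) θ)) := by
    refine tendsto_lintegral_of_dominated_convergence
      (fun θ => ENNReal.ofReal (‖q.eval (ex θ)‖ ^ 2))
      (fun n => (hc n).measurable.ennreal_ofReal) (fun n => ae_of_all _ fun θ => ?_)
      (hi _ (hq.norm.pow 2)).lintegral_lt_top.ne ?_
    · exact ENNReal.ofReal_le_ofReal (mul_le_of_le_one_left (sq_nonneg _) (chi_le_Ou _ _ _))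
    · filter_upwards [ae_restrict_mem measurableSet_Ioc] with θ hθ
      by_cases hθE : ex θ ∈ ⋃ k, U k
      · obtain ⟨k, hk⟩ := Set.mem_iUnion.1 hθE
        rw [Set.indicator_of_notMem fun h' => h'.2 hθE]
        refine tendsto_const_nhds.congr' ?_
        filter_upwards [chi_zero_Ou hm ho hb hk] with n hn
        rw [hn, zero_mul, ENNReal.ofReal_zero]
      · rw [Set.indicator_of_mem (show θ ∈ SE (⋃ k, U k)ᶜ from ⟨hθ, hθE⟩), H19.enorm_sq]
        refine tendsto_const_nhds.congr fun n => ?_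
        rw [chi_one_Ou U n fun h' => hθE (Set.mem_iUnion.2 ⟨n, h'⟩), one_mul]
  rw [lintegral_indicator hE, Measure.restrict_restrict hE,
    Set.inter_eq_left.2 fun θ hθ => hθ.1] at h1
  obtain ⟨n, hn⟩ := (h1.eventually_lt_const h).exists
  refine ⟨n, ?_⟩
  rw [← ofReal_integral_eq_lintegral_ofReal (hi _ (hc n)) (ae_of_all _ (h0 n)),
    ENNReal.ofReal_lt_ofReal_iff_of_nonneg (integral_nonneg (h0 n))] at hn
  rw [H19.avg_one, intervalIntegral.integral_of_le Real.two_pi_pos.le]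
  refine le_trans (mul_le_of_le_one_left (integral_nonneg (h0 n)) ?_) hn.le
  exact inv_le_one_of_one_le₀ (by linarith [Real.pi_gt_three])

theorem cld_Ou {g : ℂ → ℂ} (hg : Differentiable ℂ g) : ClD fun z => Real.log (max ‖g z‖ 1) := by
  refine ⟨Continuous.continuousOn ?_, fun z => Real.log_nonneg (le_max_right _ _),
    fun z _ hz => ?_⟩
  · exact (hg.continuous.norm.max continuous_const).log fun z =>
      (one_pos.trans_le (le_max_right _ _)).ne'
  · have h1 : 1 < ‖g z‖ := by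
      by_contra h
      beta_reduce at hz
      rw [max_eq_right (not_lt.1 h), Real.log_one] at hz
      exact lt_irrefl _ hz
    have h0 : g z ≠ 0 := norm_pos_iff.1 (one_pos.trans h1)
    refine ⟨fun w => Complex.log (g w / g z) + (Real.log ‖g z‖ : ℝ), ?_, ?_⟩
    · refine AnalyticAt.add (AnalyticAt.clog ((hg.analyticAt z).div_const) ?_) analyticAt_const
      rw [div_self h0]
      exact Complex.one_mem_slitPlane
    · filter_upwards [hg.continuous.norm.continuousAt.eventually_const_lt h1] with w hw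
      rw [max_eq_left hw.le, Complex.add_re, Complex.log_re, Complex.ofReal_re, norm_div,
        Real.log_div (one_pos.trans hw).ne' (one_pos.trans h1).ne', sub_add_cancel]

theorem obst_Ou (h1 : SPb) {G : ℝ → ℝ} (hG : Measurable G) (q : Polynomial ℂ) {N B : ℝ} (n : ℕ)
    (hN0 : 0 ≤ N)
    (hN : (∫⁻ z in Metric.ball (0 : ℂ) 1, ENNReal.ofReal (G ‖z‖) * ‖q.eval z‖ₑ ^ (2 : ℕ)) ≤
      ENNReal.ofReal N) (ht : ENNReal.ofReal (Real.exp (-B)) ≤ tail G (1 - yy (n + 2)))
    (hB : n + 3 + N + 6 ≤ B) {z : ℂ} (hz : ‖z‖ ≤ Real.exp (-yy n)) :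
    ‖q.eval z‖ ≤ Real.exp (B - 3) := by
  have y0 := yy_pos n
  have y1 := yy_le_one n
  have y2 : yy (n + 2) = yy n / 4 := by rw [yy_succ, yy_succ]; ring
  have z1 : ‖z‖ ≤ 1 - yy n / 2 := by
    refine hz.trans ?_
    rw [Real.exp_neg, inv_le_iff_one_le_mul₀ (Real.exp_pos _)]
    have := Real.add_one_le_exp (yy n)
    nlinarith
  have z0 := norm_nonneg z
  set m := Real.circleAverage (fun w => ‖q.eval w‖ ^ 2) 0 (1 - yy (n + 2)) with hm
  have m0 : 0 ≤ m := Real.circleAverage_nonneg_of_nonneg fun z _ => by positivity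
  have a1 := (H19.radS G q (1 - yy (n + 2)) hG (by linarith)).trans hN
  have a2 : ENNReal.ofReal (Real.exp (-B)) * ENNReal.ofReal m ≤ ENNReal.ofReal N :=
    (mul_le_mul_left ht _).trans a1
  rw [← ENNReal.ofReal_mul (Real.exp_pos _).le, ENNReal.ofReal_le_ofReal_iff hN0, Real.exp_neg,
    inv_mul_le_iff₀ (Real.exp_pos _)] at a2
  have a3 : m ≤ Real.exp (B + N) := by
    rw [Real.exp_add]
    exact a2.trans (mul_le_mul_of_nonneg_left (by linarith [Real.add_one_le_exp N])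
      (Real.exp_pos _).le)
  have a4 : (1 - yy (n + 2) + ‖z‖) / (1 - yy (n + 2) - ‖z‖) ≤ Real.exp (n + 3) := by
    have e1 : (2 : ℝ) ^ (n + 3) ≤ Real.exp (n + 3) := by
      rw [show (n : ℝ) + 3 = ((n + 3 : ℕ) : ℝ) * 1 by push_cast; ring, Real.exp_nat_mul]
      exact pow_le_pow_left₀ zero_le_two (by linarith [Real.add_one_le_exp 1]) _
    refine le_trans ?_ e1
    rw [div_le_iff₀ (by linarith), pow_add]
    have e2 := yy_mul n
    have e3 : (0 : ℝ) < 2 ^ n := by positivity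
    have e4 : yy n / 4 ≤ 1 - yy (n + 2) - ‖z‖ := by linarith
    nlinarith [mul_le_mul_of_nonneg_left e4 e3.le]
  have a5 := h1 q (1 - yy (n + 2)) z (by linarith)
  refine abs_le_of_sq_le_sq' ?_ (Real.exp_pos _).le |>.2
  refine a5.trans ((mul_le_mul a4 a3 m0 (Real.exp_pos _).le).trans ?_)
  rw [← Real.exp_add, ← Real.exp_nat_mul]
  exact Real.exp_le_exp.2 (by push_cast; linarith)

theorem sOu (h1 : SPb) (h2 : STl) : SOu := by
  intro G b hG hfin hSP htail hH
  set V : ℝ := (∫⁻ z in Metric.ball (0 : ℂ) 1, ENNReal.ofReal (G ‖z‖)).toReal with hV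
  have hV0 : 0 ≤ V := ENNReal.toReal_nonneg
  obtain ⟨n0, hn0⟩ := eventually_atTop.1 ((hSP (2 * V + 12)).and (eventually_ge_atTop 1))
  obtain ⟨U, hm, ho, hb, hQ, hd⟩ := hH n0
  refine ⟨(⋃ k, U k)ᶜ, (isOpen_iUnion ho).measurableSet.compl, fun α β hab => ?_, fun hS => ?_⟩
  · obtain ⟨k, θ, hθ, hk⟩ := hd α β hab
    have e : {θ : ℝ | θ ∈ Set.Ioo α β ∧ ex θ ∉ (⋃ k, U k)ᶜ} = Set.Ioo α β ∩ ex ⁻¹' ⋃ k, U k := by
      ext θ
      simp only [Set.mem_setOf_eq, Set.mem_compl_iff, not_not, Set.mem_inter_iff, Set.mem_preimage]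
    rw [e]
    exact (isOpen_Ioo.inter ((isOpen_iUnion ho).preimage H19.cont_ex)).measure_pos _
      ⟨θ, hθ, Set.mem_iUnion.2 ⟨k, hk⟩⟩
  have hε1 : Real.exp (-6) ≤ 1 := Real.exp_le_one_iff.2 (by norm_num)
  obtain ⟨p, hp1, hp2⟩ := hS (starRingEnd ℂ) Complex.continuous_conj.measurable (by
    have e : ∀ θ, ‖(starRingEnd ℂ) (ex θ)‖ₑ ^ (2 : ℕ) = 1 := fun θ => by
      rw [H19.enorm_sq, Complex.norm_conj, H19.norm_ex]
      simp
    simp only [e, setLIntegral_one]
    exact (measure_mono fun θ hθ => hθ.1).trans_lt measure_Ioc_lt_top) _ (Real.exp_pos (-6))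
  set q : Polynomial ℂ := 1 - Polynomial.X * p with hq
  have hqe : ∀ z, q.eval z = 1 - z * p.eval z := fun z => by simp [hq]
  have hq1 : ∀ θ, ‖p.eval (ex θ) - (starRingEnd ℂ) (ex θ)‖ₑ = ‖q.eval (ex θ)‖ₑ := fun θ => by
    have h1 : q.eval (ex θ) = -ex θ * (p.eval (ex θ) - (starRingEnd ℂ) (ex θ)) := by
      have := Complex.mul_conj' (ex θ)
      rw [H19.norm_ex, Complex.ofReal_one, one_pow] at this
      rw [hqe]; linear_combination -this
    rw [← ofReal_norm, ← ofReal_norm, h1, norm_mul, norm_neg, H19.norm_ex, one_mul]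
  simp only [hq1] at hp2
  obtain ⟨k, hk⟩ := lim_Ou hm ho hb q hp2
  have hme : Measurable fun z : ℂ => ENNReal.ofReal (G ‖z‖) :=
    (hG.comp measurable_norm).ennreal_ofReal
  have hN : (∫⁻ z in Metric.ball (0 : ℂ) 1, ENNReal.ofReal (G ‖z‖) * ‖q.eval z‖ₑ ^ (2 : ℕ)) ≤
      ENNReal.ofReal (2 * V + 2) := by
    calc _ ≤ ∫⁻ z in Metric.ball (0 : ℂ) 1, (2 * ENNReal.ofReal (G ‖z‖) +
            2 * (ENNReal.ofReal (G ‖z‖) * ‖p.eval z‖ₑ ^ (2 : ℕ))) := by
          refine setLIntegral_mono' measurableSet_ball fun z hz => ?_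
          have h1 : ‖q.eval z‖ ≤ 1 + ‖p.eval z‖ := by
            rw [hqe]
            refine (norm_sub_le _ _).trans ?_
            rw [norm_one, norm_mul]
            have : ‖z‖ < 1 := by simpa using hz
            nlinarith [norm_nonneg (p.eval z)]
          have h2 : ‖q.eval z‖ₑ ^ (2 : ℕ) ≤ 2 + 2 * ‖p.eval z‖ₑ ^ (2 : ℕ) := by
            rw [H19.enorm_sq, H19.enorm_sq, ← ENNReal.ofReal_ofNat 2,
              ← ENNReal.ofReal_mul (by norm_num),
              ← ENNReal.ofReal_add (by norm_num) (by positivity)]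
            apply ENNReal.ofReal_le_ofReal
            nlinarith [norm_nonneg (q.eval z), norm_nonneg (p.eval z), sq_nonneg (1 - ‖p.eval z‖)]
          refine (mul_le_mul_right h2 _).trans (le_of_eq ?_)
          ring
      _ = 2 * (∫⁻ z in Metric.ball (0 : ℂ) 1, ENNReal.ofReal (G ‖z‖)) + 2 *
            ∫⁻ z in Metric.ball (0 : ℂ) 1, ENNReal.ofReal (G ‖z‖) * ‖p.eval z‖ₑ ^ (2 : ℕ) := by
          rw [lintegral_add_left (hme.const_mul 2), lintegral_const_mul' _ _ (by simp),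
            lintegral_const_mul' _ _ (by simp)]
      _ ≤ 2 * ENNReal.ofReal V + 2 * 1 := by
          rw [hV, ENNReal.ofReal_toReal hfin.ne]
          gcongr
          exact hp1.le.trans (ENNReal.ofReal_le_one.2 hε1)
      _ = ENNReal.ofReal (2 * V + 2) := by
          rw [ENNReal.ofReal_add (by positivity) (by norm_num), ENNReal.ofReal_mul (by norm_num)]
          simp
  have hc : Continuous fun z => Real.exp 6 / 2 * (chi_Ou U k z * ‖q.eval z‖ ^ 2) :=
    continuous_const.mul ((chi_cont_Ou U k).mul (q.continuous.norm.pow 2))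
  obtain ⟨F, hF, hFe⟩ := h2 1 (1 / 2)
    (fun z => -3 + Real.exp 6 / 2 * (chi_Ou U k z * ‖q.eval z‖ ^ 2)) one_pos (by norm_num)
    (continuous_const.add hc).continuousOn
  have F0 : (F 0).re ≤ -2 := by
    rw [← H19.avg_re zero_le_one fun z _ => hF z]
    have e1 : Real.circleAverage
        (fun z => -5 / 2 + Real.exp 6 / 2 * (chi_Ou U k z * ‖q.eval z‖ ^ 2)) 0 1 ≤ -2 := by
      rw [Real.circleAverage_fun_add (circleIntegrable_const _ _ _)
        (hc.continuousOn.circleIntegrable zero_le_one), Real.circleAverage_const, H19.avg_mul]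
      have e2 : Real.exp 6 * Real.exp (-6) = 1 := by rw [← Real.exp_add]; simp
      nlinarith [mul_le_mul_of_nonneg_left hk (Real.exp_pos 6).le]
    refine le_trans (Real.circleAverage_mono ?_ ?_ fun z hz => ?_) e1
    · exact (Complex.continuous_re.comp hF.continuous).continuousOn.circleIntegrable zero_le_one
    · exact (continuous_const.add hc).continuousOn.circleIntegrable zero_le_one
    · linarith [(hFe z (by simpa using hz)).2]
  have F3 : ∀ z : ℂ, ‖z‖ ≤ 1 → ‖Complex.exp (-F z)‖ ≤ Real.exp 3 := fun z hz => by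
    refine H19.maxmod (f := fun z => Complex.exp (-F z)) one_pos
      (fun w _ => (hF w).neg.cexp) (fun w hw => ?_) hz
    rw [Complex.norm_exp, Complex.neg_re]
    have := mul_nonneg (div_nonneg (Real.exp_pos 6).le zero_le_two)
      (mul_nonneg (chi_nonneg_Ou U k w) (sq_nonneg ‖q.eval w‖))
    exact Real.exp_le_exp.2 (by linarith [(hFe w hw).1])
  have key := hQ k _ (cld_Ou (g := fun z => q.eval z * Complex.exp (-F z))
    (q.differentiable.mul hF.neg.cexp)) (fun n hn z hz => ?_) fun z hz hzU => ?_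
  · beta_reduce at key
    rw [hqe, zero_mul, sub_zero, one_mul, Complex.norm_exp, Complex.neg_re] at key
    have := Real.log_le_log (Real.exp_pos _) (le_max_left (Real.exp (-(F 0).re)) 1)
    rw [Real.log_exp] at this
    linarith
  · obtain ⟨b1, b2⟩ := hn0 n hn
    have b3 : (1 : ℝ) ≤ n := by exact_mod_cast b2
    have b4 : n + 3 + (2 * V + 2) + 6 ≤ b n := by nlinarith
    have b5 := obst_Ou h1 hG q n (by linarith) hN (htail n) b4 hz
    have b6 := F3 z (hz.trans (Real.exp_le_one_iff.2 (by linarith [yy_pos n])))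
    rw [Real.log_le_iff_le_exp (one_pos.trans_le (le_max_right _ _))]
    refine max_le ?_ (Real.one_le_exp (by linarith))
    rw [norm_mul]
    refine (mul_le_mul b5 b6 (norm_nonneg _) (Real.exp_pos _).le).trans (le_of_eq ?_)
    rw [← Real.exp_add, sub_add_cancel]
  · have c1 := (hFe z hz).1
    have c2 := H19.le_exp_sq (Real.exp_pos 6) ‖q.eval z‖
    rw [chi_one_Ou U k hzU, one_mul] at c1
    rw [Real.log_exp] at c2
    have c3 : ‖q.eval z * Complex.exp (-F z)‖ ≤ 1 := by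
      rw [norm_mul, Complex.norm_exp, Complex.neg_re, Real.exp_neg, ← div_eq_mul_inv,
        div_le_one (Real.exp_pos _)]
      exact c2.trans (Real.exp_le_exp.2 (by linarith))
    rw [max_eq_right c3, Real.log_one]

end Pool.Agent.MP_17fac5_an.Ch

end
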