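import Pool.Agent.MP_17fac5_an.Ch.St2

section

set_option autoImplicit false

open MeasureTheory Filter Topology

namespace Pool.Agent.MP_17fac5_an.Ch

open Pool.Agent.MP_17fac5_an.H19 (ex)

theorem s3c : S3c := by
  intro f a b A B y z hf hab hay hyb hA hB hz
  have hn : ∀ w : ℂ, ‖Complex.exp (-w)‖ = Real.exp (-w.re) := fun w => by
    rw [Complex.norm_exp, Complex.neg_re]
  have hg : Differentiable ℂ fun w : ℂ => f (Complex.exp (-w)) := fun w =>
    DifferentiableAt.comp (g := f) (f := fun w : ℂ => Complex.exp (-w)) w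
      (hf _ (Complex.exp_ne_zero _)) (by fun_prop)
  have hz0 : z ≠ 0 := by
    rintro rfl
    rw [norm_zero] at hz
    exact (Real.exp_pos _).ne hz
  have hre : (-Complex.log z).re = y := by
    rw [Complex.neg_re, Complex.log_re, hz, Real.log_exp, neg_neg]
  have hK : IsCompact (Metric.closedBall (0 : ℂ) (Real.exp (-a)) \
      Metric.ball 0 (Real.exp (-b))) := (isCompact_closedBall _ _).diff Metric.isOpen_ball
  have hc : ContinuousOn f (Metric.closedBall (0 : ℂ) (Real.exp (-a)) \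
      Metric.ball 0 (Real.exp (-b))) := fun w hw => by
    refine (hf w ?_).continuousAt.continuousWithinAt
    rintro rfl
    exact hw.2 (Metric.mem_ball_self (Real.exp_pos _))
  obtain ⟨M, hM⟩ := hK.exists_bound_of_continuousOn hc
  have h := Complex.HadamardThreeLines.norm_le_interp_of_mem_verticalClosedStrip'
    (f := fun w : ℂ => f (Complex.exp (-w))) (z := -Complex.log z) (a := Real.exp A)
    (b := Real.exp B) hab (by
      change (-Complex.log z).re ∈ Set.Icc a b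
      rw [hre]; exact ⟨hay, hyb⟩) hg.diffContOnCl ⟨M, by
      rintro _ ⟨w, hw, rfl⟩
      have hw' : w.re ∈ Set.Icc a b := hw
      refine hM _ ⟨?_, fun h => ?_⟩
      · rw [mem_closedBall_zero_iff, hn]
        exact Real.exp_le_exp.2 (neg_le_neg hw'.1)
      · rw [mem_ball_zero_iff, hn, Real.exp_lt_exp] at h
        linarith [hw'.2]⟩
    (fun w hw => hA _ (by rw [hn, show w.re = a from hw]))
    (fun w hw => hB _ (by rw [hn, show w.re = b from hw]))
  rw [neg_neg, Complex.exp_log hz0, hre, ← Real.exp_mul, ← Real.exp_mul, ← Real.exp_add] at h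
  refine h.trans (le_of_eq ?_)
  congr 1
  have : b - a ≠ 0 := (sub_pos.2 hab).ne'
  field_simp
  ring

end Pool.Agent.MP_17fac5_an.Ch

end

section

set_option autoImplicit false
open MeasureTheory Filter Topology

namespace Pool.Agent.MP_17fac5_an.Ch

open Pool.Agent.MP_17fac5_an.H19 (ex)

theorem minp_Pm {f : ℂ → ℂ} {r m : ℝ} (hr : 0 < r)
    (h : ∀ z : ℂ, ‖z‖ ≤ r → DifferentiableAt ℂ f z) (hm : ∀ z : ℂ, ‖z‖ = r → m ≤ (f z).re)
    {z : ℂ} (hz : ‖z‖ ≤ r) : m ≤ (f z).re := by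
  have := H19.maxmod (f := fun z => Complex.exp (-f z)) (C := Real.exp (-m)) hr
    (fun z hz => (h z hz).neg.cexp) (fun z hz => by
      rw [Complex.norm_exp, Complex.neg_re]
      exact Real.exp_le_exp.2 (neg_le_neg (hm z hz))) hz
  rw [Complex.norm_exp, Complex.neg_re, Real.exp_le_exp] at this
  linarith

theorem gap_Pm {a b : ℝ} (ha : 0 ≤ a) (hab : a ≤ b) (hb : b ≤ 1) :
    (b - a) / 3 ≤ Real.exp (-a) - Real.exp (-b) ∧ Real.exp (-a) - Real.exp (-b) ≤ b - a := by
  have h1 : Real.exp (-a) = Real.exp (-b) * Real.exp (b - a) := by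
    rw [← Real.exp_add]; congr 1; ring
  have h2 : Real.exp (-b) = Real.exp (-a) * Real.exp (a - b) := by
    rw [← Real.exp_add]; congr 1; ring
  have h3 := Real.add_one_le_exp (b - a)
  have h4 := Real.add_one_le_exp (a - b)
  have h5 : Real.exp (-a) ≤ 1 := Real.exp_le_one_iff.2 (by linarith)
  have h6 : 1 / 3 ≤ Real.exp (-b) := by
    have h7 : Real.exp b ≤ 3 :=
      (Real.exp_le_exp.2 hb).trans (Real.exp_one_lt_d9.le.trans (by norm_num))
    rw [Real.exp_neg, one_div]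
    exact inv_anti₀ (Real.exp_pos b) h7
  have h8 := Real.exp_pos (-a)
  constructor
  · nlinarith
  · nlinarith

theorem ker_eq_Pm (ζ z : ℂ) :
    poissonKernel 0 ζ z = (‖z‖ ^ 2 - ‖ζ‖ ^ 2) / ‖z - ζ‖ ^ 2 := by
  simp [poissonKernel_def]

theorem ker_nonneg_Pm {ζ z : ℂ} (h : ‖ζ‖ ≤ ‖z‖) : 0 ≤ poissonKernel 0 ζ z := by
  rw [ker_eq_Pm]
  exact div_nonneg (by nlinarith [norm_nonneg ζ]) (by positivity)

theorem ker_le_Pm {ζ z : ℂ} {a d : ℝ} (hd : 0 < d) (h1 : d ≤ ‖z‖ - ‖ζ‖) (h2 : ‖z‖ + ‖ζ‖ ≤ a) :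
    poissonKernel 0 ζ z ≤ a / d := by
  have h3 := norm_sub_norm_le z ζ
  have h4 : 0 ≤ ‖z‖ + ‖ζ‖ := by positivity
  have h5 : 0 < ‖z - ζ‖ := by linarith
  rw [ker_eq_Pm, div_le_div_iff₀ (by positivity) hd]
  have h6 : (‖z‖ - ‖ζ‖) * d ≤ ‖z - ζ‖ ^ 2 := by nlinarith
  calc (‖z‖ ^ 2 - ‖ζ‖ ^ 2) * d = (‖z‖ + ‖ζ‖) * ((‖z‖ - ‖ζ‖) * d) := by ring
    _ ≤ a * ‖z - ζ‖ ^ 2 := mul_le_mul h2 h6 (by nlinarith) (by linarith)

theorem ker_ge_Pm {ζ z : ℂ} {c d : ℝ} (hc : 0 < c) (h1 : c ≤ ‖z‖ ^ 2 - ‖ζ‖ ^ 2)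
    (h2 : ‖z - ζ‖ ≤ d) : c / d ^ 2 ≤ poissonKernel 0 ζ z := by
  have h3 : z - ζ ≠ 0 := fun h => by
    rw [sub_eq_zero.1 h] at h1; linarith
  have h4 := norm_pos_iff.2 h3
  rw [ker_eq_Pm]
  gcongr
  linarith

theorem ker_cont_Pm {ζ : ℂ} {r : ℝ} (h : ‖ζ‖ < r) :
    ContinuousOn (poissonKernel 0 ζ) (Metric.sphere 0 r) := by
  rw [funext (ker_eq_Pm ζ)]
  refine ContinuousOn.div (by fun_prop) (by fun_prop) fun z hz => ?_
  have h1 : ‖z‖ = r := by simpa using hz
  refine pow_ne_zero _ (norm_ne_zero_iff.2 fun h2 => ?_)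
  rw [sub_eq_zero.1 h2] at h1; linarith

theorem pois_Pm {f : ℂ → ℂ} (hf : Differentiable ℂ f) {ζ : ℂ} {r : ℝ} (h : ‖ζ‖ < r) :
    Real.circleAverage (fun z => poissonKernel 0 ζ z * (f z).re) 0 r = (f ζ).re := by
  have hr : 0 ≤ r := (norm_nonneg _).trans h.le
  have h1 := (hf.diffContOnCl (s := Metric.ball 0 r)).circleAverage_poissonKernel_smul
    (w := ζ) (by simpa using h)
  have h2 := Complex.reCLM.circleAverage_comp_comm (f := poissonKernel 0 ζ • f)
    (((ker_cont_Pm h).smul hf.continuous.continuousOn).circleIntegrable hr)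
  rw [h1] at h2
  refine Eq.trans ?_ h2
  congr 1
  ext z
  simp

theorem avg_ge_Pm {D : ℂ → ℝ} {r θ κ m : ℝ} {T : Set ℝ} (hr : 0 ≤ r)
    (hD : ContinuousOn D (Metric.sphere 0 r)) (h0 : ∀ z : ℂ, ‖z‖ = r → 0 ≤ D z)
    (hT : MeasurableSet T) (hT2 : T ⊆ Set.Icc (θ - 1) (θ + 1)) (hκ : 0 ≤ κ) (hm0 : 0 ≤ m)
    (hm : ENNReal.ofReal m ≤ volume T) (h1 : ∀ t ∈ T, κ ≤ D (circleMap 0 r t)) :
    κ * m / 8 ≤ Real.circleAverage D 0 r := by
  have hπ := Real.pi_gt_three
  have hπ4 := Real.pi_le_four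
  have hc : Continuous fun t => D (circleMap 0 r t) :=
    hD.comp_continuous (continuous_circleMap 0 r) fun t => circleMap_mem_sphere 0 hr t
  have hf : volume T ≠ ⊤ := ((measure_mono hT2).trans_lt measure_Icc_lt_top).ne
  have hs : T ⊆ Set.Ioc (0 + (θ - Real.pi)) (2 * Real.pi + (θ - Real.pi)) := fun t ht =>
    ⟨by linarith [(hT2 ht).1], by linarith [(hT2 ht).2]⟩
  have hi : IntegrableOn (fun t => D (circleMap 0 r t))
      (Set.Ioc (0 + (θ - Real.pi)) (2 * Real.pi + (θ - Real.pi))) :=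
    (hc.integrableOn_Icc).mono_set Set.Ioc_subset_Icc_self
  have h2 := setIntegral_ge_of_const_le_real hT hf h1 (hi.mono_set hs)
  have h3 := setIntegral_mono_set hi
    (Eventually.of_forall fun t => h0 _ (by simp [abs_of_nonneg hr])) hs.eventuallyLE
  have h4 : m ≤ volume.real T := (ENNReal.ofReal_le_iff_le_toReal hf).1 hm
  rw [Real.circleAverage_eq_integral_add (θ - Real.pi),
    intervalIntegral.integral_comp_add_right (fun t => D (circleMap 0 r t)),
    intervalIntegral.integral_of_le (by linarith), smul_eq_mul, ← div_eq_inv_mul]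
  have h5 : κ * m ≤ κ * volume.real T := mul_le_mul_of_nonneg_left h4 hκ
  exact div_le_div₀ ((mul_nonneg hκ hm0).trans (h5.trans (h2.trans h3))) (h5.trans (h2.trans h3))
    (by positivity) (by linarith)

theorem pt_sub_Pm (t x y : ℝ) (hy : 0 ≤ y) : ‖pt t y - pt x y‖ ≤ |t - x| := by
  have h1 : pt t y - pt x y = pt x y * (Complex.exp (Complex.I * (t - x : ℝ)) - 1) := by
    rw [pt, pt, mul_sub, mul_one, mul_assoc, ← Complex.exp_add, ex]
    congr 3
    push_cast
    ring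
  have h2 : Real.exp (-y) ≤ 1 := Real.exp_le_one_iff.2 (by linarith)
  rw [h1, norm_mul, norm_pt]
  exact (mul_le_of_le_one_left (norm_nonneg _) h2).trans Real.norm_exp_I_mul_ofReal_sub_one_le

theorem log_le_Pm {s K g : ℝ} (hK : 0 ≤ K) (hg : 0 ≤ g) (h : s ≤ Real.exp g) :
    Real.log (max s (Real.exp (-K))) ≤ g := by
  rw [Real.log_le_iff_le_exp (lt_max_of_lt_right (Real.exp_pos _))]
  exact max_le h (Real.exp_le_exp.2 (by linarith))

theorem sPm (h : STl) : SPm := by
  refine ⟨3000, by norm_num, fun γ y0 θ w K B T hy0 hy1 hw hw1 hK hγ hT hT2 hTv hTK hB => ?_⟩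
  set r := Real.exp (-y0) with hr
  have hr0 : 0 < r := Real.exp_pos _
  have hr1 : r ≤ 1 := Real.exp_le_one_iff.2 (by linarith)
  have hr2 : 3 / 4 ≤ r := by linarith [Real.add_one_le_exp (-y0)]
  set τ : ℂ → ℝ := fun z => max 0 (min 1 (2 - ‖z - pt θ y0‖ / w)) with hτ
  have hτ0 : ∀ z, 0 ≤ τ z := fun z => le_max_left _ _
  have hτ1 : ∀ z, τ z ≤ 1 := fun z => max_le zero_le_one (min_le_left _ _)
  have hτc : Continuous τ := by rw [hτ]; fun_prop
  have hpos : ∀ z, 0 < max ‖γ z‖ (Real.exp (-K)) := fun z => lt_max_of_lt_right (Real.exp_pos _)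
  obtain ⟨F, hF, hFe⟩ := h r 1
    (fun z => max (Real.log (max ‖γ z‖ (Real.exp (-K)))) (-K * τ z)) hr0 one_pos
    (((hγ.norm.sup continuousOn_const).log fun z _ => (hpos z).ne').sup
      (continuous_const.mul hτc).continuousOn)
  have hl : ∀ z : ℂ, ‖z‖ = r → max ‖γ z‖ (Real.exp (-K)) ≤ Real.exp (F z).re := fun z hz =>
    (Real.log_le_iff_le_exp (hpos z)).1 ((le_max_left _ _).trans (hFe z hz).1)
  have hu : ∀ (z : ℂ) (g : ℝ), ‖z‖ = r → 0 ≤ g → ‖γ z‖ ≤ Real.exp g → (F z).re ≤ g + 1 :=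
    fun z g hz hg h1 => (hFe z hz).2.trans (by
      have := max_le (log_le_Pm hK hg h1)
        (show -K * τ z ≤ g by nlinarith [mul_nonneg hK (hτ0 z)])
      linarith)
  have huT : ∀ t ∈ T, (F (pt t y0)).re ≤ -K + 1 := fun t ht => (hFe _ (norm_pt _ _)).2.trans (by
    have h1 : ‖pt t y0 - pt θ y0‖ / w ≤ 1 := (div_le_one hw).2 ((pt_sub_Pm t θ y0 hy0).trans
      (abs_le.2 ⟨by linarith [(hT2 ht).1], by linarith [(hT2 ht).2]⟩))
    have h2 : τ (pt t y0) = 1 :=
      le_antisymm (hτ1 _) (le_max_of_le_right (le_min le_rfl (by linarith)))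
    rw [max_eq_right (hTK t ht), Real.log_exp, h2, mul_one, max_self])
  refine ⟨F, hF, fun z hz => (le_max_left _ _).trans (hl z hz), fun z hz => ?_,
    fun z y hy hy2 hz => ?_, fun x y Y hY hY1 hx hy hy2 => ?_⟩
  · exact minp_Pm hr0 (fun z _ => hF z)
      (fun z hz => Real.exp_le_exp.1 ((le_max_right _ _).trans (hl z hz))) hz
  · set s : ℂ := ((r + w : ℝ) : ℂ) * ex θ with hs
    have hs1 : ‖s‖ = r + w := by
      rw [hs, norm_mul, H19.norm_ex, mul_one, Complex.norm_real, Real.norm_of_nonneg (by linarith)]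
    have hs2 : ‖s - pt θ y0‖ = w := by
      rw [hs, pt, ← hr, ← sub_mul, ← Complex.ofReal_sub, norm_mul, H19.norm_ex, mul_one,
        Complex.norm_real, add_sub_cancel_left, Real.norm_of_nonneg hw.le]
    have hre : ∀ u : ℂ, (F u + ((6 * K * w : ℝ) : ℂ) * ((s + u) / (s - u))).re =
        (F u).re + 6 * K * w * poissonKernel 0 u s := fun u => by
      rw [Complex.add_re, Complex.re_ofReal_mul, poissonKernel_eq_re_herglotzRieszKernel]
      simp [herglotzRieszKernel_def]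
    have hg := (gap_Pm hy0 hy.le hy2).1
    have hzr : ‖z‖ ≤ r := by rw [hz]; linarith
    have h1 := minp_Pm (f := fun u => F u + ((6 * K * w : ℝ) : ℂ) * ((s + u) / (s - u))) (m := 0)
      hr0 (fun u hu => (hF u).add (DifferentiableAt.const_mul (DifferentiableAt.div (by fun_prop)
        (by fun_prop) fun h2 => by rw [← sub_eq_zero.1 h2] at hu; linarith) _))
      (fun u hu => by
        have h2 : τ u ≤ 6 * w * poissonKernel 0 u s := by
          rcases le_total ‖u - pt θ y0‖ (2 * w) with h3 | h3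
          · have h4 : ‖s - u‖ ≤ 3 * w := by
              have := norm_sub_le_norm_sub_add_norm_sub s (pt θ y0) u
              rw [norm_sub_rev (pt θ y0)] at this
              linarith
            have h5 := ker_ge_Pm (c := 3 * w / 2) (by positivity) (by rw [hs1, hu]; nlinarith) h4
            rw [div_le_iff₀ (by positivity)] at h5
            refine (hτ1 u).trans (le_of_mul_le_mul_left ?_ hw)
            nlinarith
          · have h4 : 2 ≤ ‖u - pt θ y0‖ / w := (le_div_iff₀ hw).2 h3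
            exact max_le (mul_nonneg (by positivity) (ker_nonneg_Pm (by linarith)))
              ((min_le_right _ _).trans ((by linarith : _ ≤ (0 : ℝ)).trans
                (mul_nonneg (by positivity) (ker_nonneg_Pm (by linarith)))))
        have h3 := (le_max_right _ _).trans (hFe u hu).1
        rw [hre]
        nlinarith [mul_le_mul_of_nonneg_left h2 hK]) hzr
    rw [hre] at h1
    have h2 := ker_le_Pm (ζ := z) (z := s) (a := 3) (d := (y - y0) / 3) (by linarith)
      (by rw [hs1, hz]; linarith) (by linarith)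
    have h3 : 0 ≤ K * w / (y - y0) := div_nonneg (mul_nonneg hK hw.le) (by linarith)
    have h4 : 6 * K * w * (3 / ((y - y0) / 3)) = 54 * (K * w / (y - y0)) := by
      have : y - y0 ≠ 0 := by linarith
      field_simp
      ring
    have h5 := mul_le_mul_of_nonneg_left h2 (show 0 ≤ 6 * K * w by positivity)
    rw [mul_assoc 3000, mul_div_assoc]
    linarith
  · have hY0 : 0 < Y := by linarith
    have hg := gap_Pm hy0 (show y0 ≤ y by linarith) (by linarith)
    rw [← hr, ← norm_pt x y] at hg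
    set ζ := pt x y with hζ
    set P := poissonKernel 0 ζ with hP
    have hζr : ‖ζ‖ < r := by linarith [hg.1]
    have hPc : ContinuousOn P (Metric.sphere 0 r) := ker_cont_Pm hζr
    have hP0 : ∀ z : ℂ, ‖z‖ = r → 0 ≤ P z := fun z hz => ker_nonneg_Pm (by linarith)
    have hP1 : Real.circleAverage P 0 r = 1 := by
      simpa using pois_Pm (differentiable_const (1 : ℂ)) hζr
    have hcm : ∀ t, circleMap 0 r t = pt t y0 := fun t => by rw [circleMap, zero_add, pt]
    have hPT : ∀ t ∈ T, 1 / (128 * Y) ≤ P (pt t y0) := fun t ht => by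
      have h1 : ‖pt t y0 - pt x y0‖ ≤ 2 * Y := (pt_sub_Pm t x y0 hy0).trans (abs_le.2
        ⟨by linarith [(hT2 ht).1, (abs_le.1 hx).2], by linarith [(hT2 ht).2, (abs_le.1 hx).1]⟩)
      have h2 : ‖pt x y0 - ζ‖ ≤ 2 * Y := by
        rw [hζ, pt, pt, ← sub_mul, ← Complex.ofReal_sub, norm_mul, H19.norm_ex, mul_one,
          Complex.norm_real, ← hr, ← norm_pt x y, Real.norm_of_nonneg (by linarith)]
        linarith [hg.2]
      have h3 := ker_ge_Pm (ζ := ζ) (z := pt t y0) (c := Y / 8) (d := 4 * Y) (by positivity)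
        (by rw [norm_pt, ← hr]; nlinarith [hg.1, norm_nonneg ζ])
        (by linarith [norm_sub_le_norm_sub_add_norm_sub (pt t y0) (pt x y0) ζ])
      refine le_trans (le_of_eq ?_) h3
      field_simp
      norm_num
    have key : ∀ g : ℂ → ℝ, ContinuousOn g (Metric.sphere 0 r) →
        (∀ z : ℂ, ‖z‖ = r → 0 ≤ g z ∧ ‖γ z‖ ≤ Real.exp (g z)) →
        (F ζ).re ≤ -(K * w / (3000 * Y)) + (Real.circleAverage (fun z => P z * g z) 0 r + 1) := by
      intro g hgc hg1
      have i1 := hPc.circleIntegrable hr0.le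
      have i2 : CircleIntegrable (fun z => P z * g z) 0 r := (hPc.mul hgc).circleIntegrable hr0.le
      have c3 : ContinuousOn (fun z => P z * (F z).re) (Metric.sphere 0 r) :=
        hPc.mul (Complex.continuous_re.comp hF.continuous).continuousOn
      have h1 := avg_ge_Pm (D := fun z => P z * g z + P z - P z * (F z).re) (θ := θ)
        (κ := K / (128 * Y)) (m := w / 2) hr0.le (((hPc.mul hgc).add hPc).sub c3)
        (fun z hz => by nlinarith [hP0 z hz, hu z _ hz (hg1 z hz).1 (hg1 z hz).2]) hT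
        (hT2.trans (Set.Icc_subset_Icc (by linarith) (by linarith))) (by positivity)
        (by positivity) hTv (fun t ht => by
          have h2 := mul_le_mul_of_nonneg_left (hPT t ht) hK
          rw [mul_one_div] at h2
          rw [hcm]
          nlinarith [hP0 _ (norm_pt t y0), huT t ht,
            mul_nonneg (hP0 _ (norm_pt t y0)) (hg1 _ (norm_pt t y0)).1])
      rw [Real.circleAverage_fun_sub (f₁ := fun z => P z * g z + P z) (i2.add i1)
        (c3.circleIntegrable hr0.le),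
        Real.circleAverage_fun_add i2 i1, hP1, pois_Pm hF hζr] at h1
      have h2 : K / (128 * Y) * (w / 2) / 8 = K * w / (2048 * Y) := by
        field_simp
        ring
      have h3 : K * w / (3000 * Y) ≤ K * w / (2048 * Y) := by gcongr; norm_num
      linarith
    refine ⟨?_, fun A hA hγA => ?_⟩
    · have c2 := hγ.norm.pow 2
      have h1 := key (fun z => ‖γ z‖ ^ 2) c2 fun z _ =>
        ⟨by positivity, by nlinarith [Real.add_one_le_exp (‖γ z‖ ^ 2), sq_nonneg (‖γ z‖ - 1)]⟩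
      have h2 := Real.circleAverage_mono ((hPc.mul c2).circleIntegrable hr0.le)
        ((c2.const_smul (2 / (Y / 6))).circleIntegrable hr0.le) fun z hz => by
          have h3 : ‖z‖ = r := by simpa [abs_of_pos hr0] using hz
          exact mul_le_mul_of_nonneg_right
            (ker_le_Pm (by positivity) (by linarith [hg.1]) (by linarith)) (sq_nonneg _)
      have hB0 : 0 ≤ B := (Real.circleAverage_nonneg_of_nonneg fun z _ => sq_nonneg _).trans hB
      have h4 : Real.circleAverage (fun z => P z * ‖γ z‖ ^ 2) 0 r ≤ 2 / (Y / 6) * B :=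
        h2.trans ((H19.avg_mul _ _ _).le.trans (mul_le_mul_of_nonneg_left hB (by positivity)))
      have h5 : 2 / (Y / 6) * B + 1 ≤ 3000 * (B + 1) / Y := by
        rw [le_div_iff₀ hY0, show (2 / (Y / 6) * B + 1) * Y = 12 * B + Y by field_simp; ring]
        linarith
      linarith
    · have h1 := key (fun _ => A) continuousOn_const fun z hz => ⟨hA, hγA z hz⟩
      simp only [mul_comm _ A] at h1
      rwa [H19.avg_mul, hP1, mul_one] at h1

end Pool.Agent.MP_17fac5_an.Ch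

end

section

set_option autoImplicit false
open MeasureTheory Filter Topology

namespace Pool.Agent.MP_17fac5_an.Ch

open Pool.Agent.MP_17fac5_an.H19 (ex)

/-- Running maximum. -/
noncomputable def mx_Rl (h : ℕ → ℝ) : ℕ → ℝ
  | 0 => h 0
  | n + 1 => max (mx_Rl h n) (h (n + 1))

theorem le_mx_Rl (h : ℕ → ℝ) {t n : ℕ} (ht : t ≤ n) : h t ≤ mx_Rl h n := by
  induction n, ht using Nat.le_induction with
  | base =>
    cases t with
    | zero => exact le_rfl
    | succ t => exact le_max_right _ _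
  | succ n _ ih => exact ih.trans (le_max_left _ _)

theorem mx_eq_Rl (h : ℕ → ℝ) (n : ℕ) : ∃ i, i ≤ n ∧ mx_Rl h n = h i := by
  induction n with
  | zero => exact ⟨0, le_rfl, rfl⟩
  | succ n ih =>
    obtain ⟨i, hi, e⟩ := ih
    rcases max_choice (mx_Rl h n) (h (n + 1)) with e' | e'
    · exact ⟨i, by omega, e'.trans e⟩
    · exact ⟨n + 1, le_rfl, e'⟩

theorem record_Rl (T : ℕ → ℝ) (n0 m : ℕ) (h : ∀ n, n0 ≤ n → ∃ N, n < N ∧ T n < T N) :
    ∃ q, m ≤ q ∧ n0 ≤ q ∧ ∀ n, n0 ≤ n → n ≤ q → T n < T (q + 1) := by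
  classical
  obtain ⟨a, ha, hmax⟩ := Finset.exists_max_image (Finset.Icc n0 (max m n0)) T
    ⟨n0, Finset.mem_Icc.2 ⟨le_rfl, le_max_right _ _⟩⟩
  rw [Finset.mem_Icc] at ha
  have hex : ∃ q, max m n0 ≤ q ∧ T a < T (q + 1) := by
    obtain ⟨N, h1, h2⟩ := h a ha.1
    have h3 : max m n0 < N := by
      by_contra h4
      exact absurd (hmax N (Finset.mem_Icc.2 ⟨by omega, by omega⟩)) (not_le.2 h2)
    obtain ⟨q, rfl⟩ : ∃ q, N = q + 1 := ⟨N - 1, by omega⟩
    exact ⟨q, by omega, h2⟩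
  obtain ⟨h1, h2⟩ := Nat.find_spec hex
  refine ⟨Nat.find hex, by omega, by omega, fun n h3 h4 => lt_of_le_of_lt ?_ h2⟩
  rcases le_or_gt n (max m n0) with h5 | h5
  · exact hmax n (Finset.mem_Icc.2 ⟨h3, h5⟩)
  · obtain ⟨k, rfl⟩ : ∃ k, n = k + 1 := ⟨n - 1, by omega⟩
    have := Nat.find_min hex (show k < Nat.find hex by omega)
    exact not_lt.1 fun h6 => this ⟨by omega, h6⟩

theorem gain_Rl {l : ℕ → ℝ} (h0 : ∀ n, 0 < l n) (hm : Monotone l) (ht : Tendsto l atTop atTop)
    (n : ℕ) : ∃ N, 0 < RR l n N := by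
  by_contra hc
  push Not at hc
  have key : ∀ t, n ≤ t → l t ≤ l n := by
    intro t h
    induction t, h using Nat.le_induction with
    | base => exact le_rfl
    | succ t h ih =>
      have h1 := hc (t + 1)
      rw [RR_succ _ h] at h1
      have h2 : Real.log (l (t + 1) / l t) ≤ 0 := by
        by_contra h3
        have := mul_pos (yy_pos t) (not_le.1 h3)
        linarith [RR_nonneg h0 hm n t]
      rw [Real.log_nonpos_iff (div_pos (h0 _) (h0 _)).le, div_le_one (h0 t)] at h2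
      exact h2.trans ih
  obtain ⟨t, h1, h2⟩ := ((ht.eventually_gt_atTop (l n)).and (eventually_ge_atTop n)).exists
  exact absurd (key t h2) (not_le.2 h1)

theorem sRl : SRl := by
  intro C n0 l hC h0 hm ht hD m
  obtain ⟨h, hh⟩ : ∃ h : ℕ → ℝ, ∀ t, h t = if n0 ≤ t then yy t * l t else 0 := ⟨_, fun _ => rfl⟩
  obtain ⟨v, hv⟩ : ∃ v : ℕ → ℝ, ∀ n, mx_Rl h n = v n * l n :=
    ⟨fun n => mx_Rl h n / l n, fun n => (div_mul_cancel₀ _ (h0 n).ne').symm⟩
  obtain ⟨ψ, hψ1, hψ2⟩ : ∃ ψ : ℕ → ℝ, (∀ n, 2 * C * yy n < v n → 4 * C * ψ n = v n) ∧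
      ∀ n, v n ≤ 2 * C * yy n → ψ n = 0 :=
    ⟨fun n => if 2 * C * yy n < v n then v n / (4 * C) else 0,
      fun n hn => by
        simp only [if_pos hn]
        field_simp,
      fun n hn => if_neg (not_lt.2 hn)⟩
  have hC0 : 0 < C := by linarith
  have hψ0 : ∀ n, 0 ≤ ψ n := fun n => by
    rcases lt_or_ge (2 * C * yy n) (v n) with h1 | h1
    · have h2 := hψ1 n h1
      have h3 := mul_pos hC0 (yy_pos n)
      by_contra h4
      nlinarith [not_le.1 h4]
    · exact (hψ2 n h1).ge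
  have hlt : ∀ n N, 0 < RR l n N → n < N := fun n N h1 => by
    by_contra h2
    rw [RR_of_le _ (not_lt.1 h2)] at h1
    exact lt_irrefl _ h1
  obtain ⟨q, hq1, hq2, hq⟩ := record_Rl (fun n => RR l n0 n + ψ n) n0 m fun n hn => by
    have : ∃ N, ψ n < RR l n N := by
      rcases lt_or_ge (2 * C * yy n) (v n) with h1 | h1
      · obtain ⟨i, hi, e⟩ := mx_eq_Rl h n
        have h3 := mul_pos hC0 (yy_pos n)
        have h4 : 0 < v n * l n := mul_pos (by linarith) (h0 n)
        rw [hv, hh] at e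
        split_ifs at e with h5
        · obtain ⟨N, hN⟩ := hD i n h5 hi
          rw [← e] at hN
          have h6 : v n ≤ C * (yy n + RR l n N) :=
            le_of_mul_le_mul_right (by linarith) (h0 n)
          refine ⟨N, lt_of_mul_lt_mul_left (a := C) ?_ hC0.le⟩
          linarith [hψ1 n h1]
        · exact absurd e h4.ne'
      · rw [hψ2 n h1]
        exact gain_Rl h0 hm ht n
    obtain ⟨N, hN⟩ := this
    have h1 := hlt n N ((hψ0 n).trans_lt hN)
    refine ⟨N, h1, ?_⟩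
    rw [RR_split l hn h1.le]
    linarith [hψ0 N]
  have hp : ψ (q + 1) ≤ 2 * yy (q + 1) := by
    have hy := yy_pos (q + 1)
    rcases lt_or_ge (2 * C * yy (q + 1)) (v (q + 1)) with h1 | h1
    swap
    · rw [hψ2 _ h1]
      linarith
    have h2 := hψ1 _ h1
    have h3 : yy (q + 1) < v (q + 1) := by nlinarith
    have h4 : v (q + 1) * l (q + 1) = v q * l q := by
      rcases max_choice (mx_Rl h q) (h (q + 1)) with e | e
      · rw [← hv, ← hv]
        exact e
      · have e' : mx_Rl h (q + 1) = h (q + 1) := e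
        rw [hv, hh, if_pos (by omega)] at e'
        exact absurd (mul_right_cancel₀ (h0 _).ne' e') h3.ne'
    have hd := log_step_nonneg h0 hm q
    have h5 := Real.log_le_sub_one_of_pos (div_pos (h0 (q + 1)) (h0 q))
    have h6 : v q = v (q + 1) * (l (q + 1) / l q) := by
      rw [← mul_div_assoc, h4, mul_div_cancel_right₀ _ (h0 q).ne']
    have h7 := hq q hq2 le_rfl
    simp only [RR_succ l hq2] at h7
    have h8 := yy_succ q
    generalize Real.log (l (q + 1) / l q) = d at hd h5 h7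
    have h9 : v (q + 1) * (1 + d) ≤ v q := by
      rw [h6]
      exact mul_le_mul_of_nonneg_left (by linarith) (by linarith)
    have h10 : 0 ≤ v (q + 1) * d := mul_nonneg (by linarith) hd
    rcases lt_or_ge (2 * C * yy q) (v q) with h11 | h11
    · have h12 := hψ1 _ h11
      have h13 : ψ (q + 1) * d < yy q * d := by
        refine lt_of_mul_lt_mul_left (a := 4 * C) ?_ (by linarith)
        have h14 : 4 * C * ψ q < 4 * C * (yy q * d + ψ (q + 1)) :=
          mul_lt_mul_of_pos_left (by linarith) (by linarith)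
        rw [← mul_assoc, h2]
        linarith
      have := lt_of_mul_lt_mul_right h13 hd
      linarith
    · refine le_of_mul_le_mul_left (a := 4 * C) ?_ (by linarith)
      have := mul_pos hC0 hy
      rw [h8] at this ⊢
      linarith
  refine ⟨q + 1, by omega, fun i j hi hij hj => ?_⟩
  have h1 : RR l n0 j + ψ j ≤ RR l n0 (q + 1) + ψ (q + 1) := by
    rcases hj.lt_or_eq with h2 | rfl
    · exact (hq j (hi.trans hij) (by omega)).le
    · exact le_rfl
  rw [RR_split l (hi.trans hij) hj] at h1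
  have h2 := yy_anti hj
  have h3 := RR_nonneg h0 hm j (q + 1)
  have h4 := mul_pos hC0 (yy_pos j)
  have h5 := mul_nonneg hC0.le h3
  have h6 : v j ≤ 8 * C * (yy j + RR l j (q + 1)) := by
    rcases lt_or_ge (2 * C * yy j) (v j) with h7 | h7
    · have h8 : 4 * C * ψ j ≤ 4 * C * (RR l j (q + 1) + 2 * yy j) :=
        mul_le_mul_of_nonneg_left (by linarith) (by linarith)
      linarith [hψ1 j h7]
    · linarith
  have h7 := le_mx_Rl h hij
  rw [hh, if_pos hi, hv] at h7
  have h8 := mul_le_mul_of_nonneg_right h6 (h0 j).le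
  linarith

end Pool.Agent.MP_17fac5_an.Ch

end

section

set_option autoImplicit false
open MeasureTheory Filter Topology

namespace Pool.Agent.MP_17fac5_an.Ch

open Pool.Agent.MP_17fac5_an.H19 (ex)

/-- Symmetric sets of frequencies. -/
def fr_Fs (K : ℕ) : Finset ℤ :=
  (Finset.Ico 1 K).image (fun m : ℕ => (m : ℤ)) ∪ (Finset.range K).image fun k : ℕ => -(k : ℤ)

theorem mem_fr_Fs (K : ℕ) (i : ℤ) : i ∈ fr_Fs K ↔ -(K : ℤ) < i ∧ i < K := by
  simp only [fr_Fs, Finset.mem_union, Finset.mem_image, Finset.mem_Ico, Finset.mem_range]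
  constructor
  · rintro (⟨m, h, rfl⟩ | ⟨m, h, rfl⟩) <;> omega
  · intro h
    by_cases h0 : 0 < i
    · exact Or.inl ⟨i.toNat, by omega, by omega⟩
    · exact Or.inr ⟨(-i).toNat, by omega, by omega⟩

theorem tendsto_fr_Fs : Tendsto fr_Fs atTop atTop := by
  refine tendsto_atTop_finset_of_monotone (fun K L h i hi => ?_) fun i => ⟨i.natAbs + 1, ?_⟩
  · rw [mem_fr_Fs] at hi ⊢
    omega
  · rw [mem_fr_Fs]
    omega

theorem sum_fr_Fs (K : ℕ) (f : ℤ → ℂ) : ∑ i ∈ fr_Fs K, f i =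
    ∑ m ∈ Finset.Ico 1 K, f m + ∑ k ∈ Finset.range K, f (-(k : ℤ)) := by
  unfold fr_Fs
  rw [Finset.sum_union, Finset.sum_image, Finset.sum_image]
  · intro a _ b _ h
    simpa using h
  · intro a _ b _ h
    simpa using h
  · rw [Finset.disjoint_left]
    intro i h1 h2
    simp only [Finset.mem_image, Finset.mem_Ico, Finset.mem_range] at h1 h2
    obtain ⟨m, h, rfl⟩ := h1
    obtain ⟨k, _, hk⟩ := h2
    omega

theorem fourier_Fs (n : ℤ) (θ : ℝ) :
    fourier n (θ : AddCircle (2 * Real.pi)) = ex θ ^ n := by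
  rw [fourier_coe_apply, ← Complex.exp_int_mul]
  congr 1
  have h : (Real.pi : ℂ) ≠ 0 := by exact_mod_cast Real.pi_ne_zero
  push_cast
  field_simp

theorem normsq_Fs {T : ℝ} [Fact (0 < T)] (f : Lp ℂ 2 (@AddCircle.haarAddCircle T _)) :
    ‖f‖ ^ 2 = ∫ t : AddCircle T, ‖f t‖ ^ 2 ∂AddCircle.haarAddCircle := by
  have H := congr_arg RCLike.re (@L2.inner_def (AddCircle T) ℂ ℂ _ _ _ _ _ f f)
  rw [← integral_re] at H
  · simpa only [← norm_sq_eq_re_inner] using H
  · exact L2.integrable_inner f f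

theorem sFs : SFs := by
  intro β hβ ε hε
  have hT : Fact (0 < 2 * Real.pi) := ⟨by positivity⟩
  have hβ' : MemLp β 2 (volume.restrict (Set.Ioc (0 : ℝ) (0 + 2 * Real.pi))) := by
    rwa [zero_add]
  have h := hβ'.memLp_liftIoc.haarAddCircle
  set c : ℤ → ℂ := fourierCoeff h.toLp with hc
  have hneg : ∀ k : ℕ, c (-(k : ℤ)) = cf β k := by
    intro k
    rw [hc, fourierCoeff_congr_ae h.coeFn_toLp, fourierCoeff_eq_intervalIntegral _ _ 0,
      intervalIntegral.integral_of_le (by positivity), neg_neg, cf, Complex.real_smul, one_div,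
      Complex.ofReal_inv]
    congr 1
    rw [setIntegral_congr_fun (g := fun θ => β θ * ex θ ^ k) measurableSet_Ioc, zero_add]
    intro θ hθ
    simp only
    rw [AddCircle.liftIoc_coe_apply hθ, fourier_Fs, zpow_natCast, smul_eq_mul, mul_comm]
  have h1 : Tendsto (fun K : ℕ => ∑ i ∈ fr_Fs K, c i • fourierLp (T := 2 * Real.pi) 2 i) atTop
      (𝓝 h.toLp) := (hasSum_fourier_series_L2 h.toLp).comp tendsto_fr_Fs
  have h2 : Tendsto (fun K : ℕ =>
      ‖h.toLp - ∑ i ∈ fr_Fs K, c i • fourierLp (T := 2 * Real.pi) 2 i‖ ^ 2) atTop (𝓝 0) := by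
    have := ((tendsto_const_nhds (x := h.toLp)).sub h1).norm.pow 2
    simpa using this
  have hpos : 0 < ε / (2 * Real.pi) := by positivity
  filter_upwards [h2.eventually (gt_mem_nhds hpos)] with K hK
  refine ⟨∑ m ∈ Finset.Ico 1 K, Polynomial.C (c m) * Polynomial.X ^ m, ?_, ?_⟩
  · rw [Polynomial.eval_finsetSum]
    refine Finset.sum_eq_zero fun m hm => ?_
    have : m ≠ 0 := by have := (Finset.mem_Ico.mp hm).1; omega
    simp [this]
  · rw [normsq_Fs] at hK
    have hae : (fun t => ‖(h.toLp - ∑ i ∈ fr_Fs K, c i • fourierLp (T := 2 * Real.pi) 2 i :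
        Lp ℂ 2 (@AddCircle.haarAddCircle (2 * Real.pi) _)) t‖ ^ 2)
        =ᵐ[AddCircle.haarAddCircle] fun t => ‖AddCircle.liftIoc (2 * Real.pi) 0 β t -
          ∑ i ∈ fr_Fs K, c i * fourier i t‖ ^ 2 := by
      have a1 : ∀ᵐ t ∂(@AddCircle.haarAddCircle (2 * Real.pi) _), ∀ i : ℤ,
          (c i • fourierLp (T := 2 * Real.pi) 2 i :
            Lp ℂ 2 (@AddCircle.haarAddCircle (2 * Real.pi) _)) t = c i * fourier i t := by
        rw [ae_all_iff]
        intro i
        filter_upwards [Lp.coeFn_smul (c i) (fourierLp (T := 2 * Real.pi) 2 i),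
          coeFn_fourierLp (T := 2 * Real.pi) 2 i] with t h1 h2
        rw [h1, Pi.smul_apply, h2, smul_eq_mul]
      filter_upwards [Lp.coeFn_sub h.toLp
        (∑ i ∈ fr_Fs K, c i • fourierLp (T := 2 * Real.pi) 2 i), h.coeFn_toLp,
        Lp.coeFn_finsetSum (fr_Fs K) (fun i => c i • fourierLp (T := 2 * Real.pi) 2 i), a1]
        with t t1 t2 t3 t4
      rw [t1, Pi.sub_apply, t2, t3, Finset.sum_apply]
      simp only [t4]
    rw [integral_congr_ae hae, AddCircle.integral_haarAddCircle,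
      ← AddCircle.integral_preimage (2 * Real.pi) 0, smul_eq_mul, inv_mul_eq_div,
      div_lt_div_iff_of_pos_right hT.out] at hK
    refine le_of_eq_of_le ?_ hK.le
    rw [zero_add]
    refine setIntegral_congr_fun measurableSet_Ioc fun θ hθ => ?_
    have hθ' : θ ∈ Set.Ioc (0 : ℝ) (0 + 2 * Real.pi) := by rwa [zero_add]
    rw [AddCircle.liftIoc_coe_apply hθ', sum_fr_Fs, Polynomial.eval_finsetSum]
    congr 4
    · refine Finset.sum_congr rfl fun m _ => ?_
      rw [fourier_Fs, zpow_natCast]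
      simp
    · refine Finset.sum_congr rfl fun k _ => ?_
      rw [fourier_Fs, hneg, zpow_neg, zpow_natCast, inv_pow]

end Pool.Agent.MP_17fac5_an.Ch

end

section

set_option autoImplicit false

open MeasureTheory Filter Topology

namespace Pool.Agent.MP_17fac5_an.Ch

open Pool.Agent.MP_17fac5_an.H19 (ex)

/-- Every interval contains a point around which `F` fills half of all small intervals. -/
theorem dens_Nt (F : Set ℝ) (a b : ℝ) (h : 0 < volume (F ∩ Set.Ioo a b)) :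
    ∃ θ ∈ Set.Ioo a b, ∀ᶠ p : ℕ in atTop,
      ENNReal.ofReal (yy p) ≤ volume (F ∩ Set.Icc (θ - yy p) (θ + yy p)) := by
  have h1 := Besicovitch.ae_tendsto_measure_inter_div (volume : Measure ℝ) F
  have h2 : ∃ᵐ θ ∂(volume.restrict F), θ ∈ Set.Ioo a b := by
    rw [frequently_ae_mem_iff, Measure.restrict_apply measurableSet_Ioo, Set.inter_comm]
    exact h.ne'
  obtain ⟨θ, hθ, ht⟩ := (h2.and_eventually h1).exists
  refine ⟨θ, hθ, ?_⟩
  have hy : Tendsto yy atTop (𝓝[>] 0) :=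
    tendsto_nhdsWithin_iff.mpr ⟨yy_tendsto, Eventually.of_forall fun p => yy_pos p⟩
  have hhalf : (2⁻¹ : ENNReal) < 1 := ENNReal.inv_lt_one.mpr (by norm_num)
  have h3 := (ht.comp hy).eventually (lt_mem_nhds hhalf)
  refine h3.mono fun p hp => ?_
  have hp' : (2⁻¹ : ENNReal) <
      volume (F ∩ Metric.closedBall θ (yy p)) / volume (Metric.closedBall θ (yy p)) := hp
  rw [Real.volume_closedBall, Real.closedBall_eq_Icc] at hp'
  have hpos : 0 < yy p := yy_pos p
  have hne : ENNReal.ofReal (2 * yy p) ≠ 0 := by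
    rw [ne_eq, ENNReal.ofReal_eq_zero, not_le]
    linarith
  have h4 := (ENNReal.le_div_iff_mul_le (Or.inl hne) (Or.inl ENNReal.ofReal_ne_top)).mp hp'.le
  have h5 : (2⁻¹ : ENNReal) * ENNReal.ofReal (2 * yy p) = ENNReal.ofReal (yy p) := by
    rw [ENNReal.ofReal_mul (by norm_num), ENNReal.ofReal_ofNat, ← mul_assoc,
      ENNReal.inv_mul_cancel (by norm_num) (by norm_num), one_mul]
  rwa [h5] at h4

theorem sNt : SNt := by
  intro F δ _ hF hδ
  have hpi : 0 < 2 * Real.pi := by positivity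
  refine (isCompact_Icc (a := (0 : ℝ)) (b := 2 * Real.pi)).induction_on
    (p := fun s => ∀ᶠ p : ℕ in atTop, ∀ x ∈ s, ∃ θ : ℝ, |x - θ| ≤ δ ∧
      Set.Icc (θ - yy p) (θ + yy p) ⊆ Set.Ioc (0 : ℝ) (2 * Real.pi) ∧
      ENNReal.ofReal (yy p) ≤ volume (F ∩ Set.Icc (θ - yy p) (θ + yy p))) ?_ ?_ ?_ ?_
  · exact Eventually.of_forall fun p x hx => absurd hx (Set.notMem_empty x)
  · intro s t hst ht
    exact ht.mono fun p hp x hx => hp x (hst hx)
  · intro s t hs ht
    exact (hs.and ht).mono fun p hp x hx => hx.elim (hp.1 x) (hp.2 x)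
  · intro x hx
    have hab : max 0 (x - δ) < min (2 * Real.pi) (x + δ) := by
      rw [max_lt_iff, lt_min_iff, lt_min_iff]
      exact ⟨⟨hpi, by linarith [hx.1]⟩, by linarith [hx.2], by linarith⟩
    obtain ⟨θ, hθ, hev⟩ := dens_Nt F _ _ (hF _ _ hab)
    have h1 := max_lt_iff.mp hθ.1
    have h2 := lt_min_iff.mp hθ.2
    refine ⟨Set.Ioo (θ - δ) (θ + δ), mem_nhdsWithin_of_mem_nhds
      (Ioo_mem_nhds (by linarith [h2.2]) (by linarith [h1.2])), ?_⟩
    have e1 := yy_tendsto.eventually (gt_mem_nhds h1.1)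
    have e2 := yy_tendsto.eventually (gt_mem_nhds (sub_pos.mpr h2.1))
    filter_upwards [hev, e1, e2] with p hp hp1 hp2 z hz
    refine ⟨θ, abs_le.mpr ⟨by linarith [hz.1], by linarith [hz.2]⟩, fun w hw => ?_, hp⟩
    exact ⟨by linarith [hw.1], by linarith [hw.2]⟩

end Pool.Agent.MP_17fac5_an.Ch

end

section

set_option autoImplicit false
open MeasureTheory Filter Topology

namespace Pool.Agent.MP_17fac5_an.Ch

open Pool.Agent.MP_17fac5_an.H19 (ex)

theorem ne_L3 {x : ℂ} (hx : x ≠ 0) (t : ℝ) : x * circleMap 0 1 t ≠ 0 :=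
  mul_ne_zero hx (circleMap_ne_center one_ne_zero)

theorem cont_L3 {f : ℂ → ℂ} (hf : ContinuousOn f {0}ᶜ) {x : ℂ} (hx : x ≠ 0) :
    Continuous fun t : ℝ => f (x * circleMap 0 1 t) :=
  hf.comp_continuous (continuous_const.mul (continuous_circleMap 0 1)) fun t => ne_L3 hx t

theorem diff_L3 {f : ℂ → ℂ} (hf : ∀ w : ℂ, w ≠ 0 → DifferentiableAt ℂ f w) {g : ℝ → ℂ}
    (hg : Continuous g) {w : ℂ} (hw : w ≠ 0) :
    DifferentiableAt ℂ (fun x : ℂ => ∫ t in (0 : ℝ)..2 * Real.pi,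
      f (x * circleMap 0 1 t) * g t) w := by
  have hfo : DifferentiableOn ℂ f {0}ᶜ := fun z hz => (hf z hz).differentiableWithinAt
  have hd : ContinuousOn (deriv f) {0}ᶜ :=
    (hfo.analyticOnNhd isOpen_compl_singleton).deriv.continuousOn
  have hw0 : 0 < ‖w‖ := norm_pos_iff.2 hw
  have hs : ∀ x ∈ Metric.closedBall w (‖w‖ / 2), x ≠ 0 := by
    rintro x hx rfl
    rw [Metric.mem_closedBall, dist_zero_left] at hx
    linarith
  have hn : Metric.closedBall w (‖w‖ / 2) ∈ 𝓝 w := Metric.closedBall_mem_nhds w (by linarith)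
  have hc : Continuous fun p : ℂ × ℝ => circleMap 0 1 p.2 :=
    (continuous_circleMap 0 1).comp continuous_snd
  have hK : ContinuousOn (fun p : ℂ × ℝ => deriv f (p.1 * circleMap 0 1 p.2) *
      circleMap 0 1 p.2 * g p.2) (Metric.closedBall w (‖w‖ / 2) ×ˢ Set.uIcc 0 (2 * Real.pi)) :=
    ((hd.comp (continuous_fst.mul hc).continuousOn fun p hp => ne_L3 (hs _ hp.1) _).mul
      hc.continuousOn).mul (hg.comp continuous_snd).continuousOn
  obtain ⟨C, hC⟩ := ((isCompact_closedBall w (‖w‖ / 2)).prod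
    isCompact_uIcc).exists_bound_of_continuousOn hK
  refine (intervalIntegral.hasDerivAt_integral_of_dominated_loc_of_deriv_le (μ := volume)
    (F := fun x t => f (x * circleMap 0 1 t) * g t)
    (F' := fun x t => deriv f (x * circleMap 0 1 t) * circleMap 0 1 t * g t)
    (bound := fun _ => C) hn ?_ ?_ ?_ ?_ ?_ ?_).2.differentiableAt
  · filter_upwards [hn] with x hx
    exact ((cont_L3 hfo.continuousOn (hs x hx)).mul hg).aestronglyMeasurable
  · exact ((cont_L3 hfo.continuousOn hw).mul hg).intervalIntegrable _ _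
  · exact (((cont_L3 hd hw).mul (continuous_circleMap 0 1)).mul hg).aestronglyMeasurable
  · exact Eventually.of_forall fun t ht x hx => hC (x, t) ⟨hx, Set.uIoc_subset_uIcc ht⟩
  · exact intervalIntegrable_const
  · refine Eventually.of_forall fun t _ x hx => HasDerivAt.mul_const ?_ _
    have h1 : HasDerivAt (fun x : ℂ => x * circleMap 0 1 t) (circleMap 0 1 t) x := by
      simpa using (hasDerivAt_id x).mul_const (circleMap 0 1 t)
    exact (hf _ (ne_L3 (hs x hx) t)).hasDerivAt.comp x h1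

theorem ms_eq_L3 (f : ℂ → ℂ) {a : ℝ} {w : ℂ} (hw : ‖w‖ = Real.exp (-a)) :
    ms f a = (2 * Real.pi)⁻¹ * ∫ t in (0 : ℝ)..2 * Real.pi, ‖f (w * circleMap 0 1 t)‖ ^ 2 := by
  rw [ms, Real.circleAverage_eq_integral_add w.arg, smul_eq_mul]
  congr 2
  ext t
  congr 3
  rw [← hw]
  conv_rhs => rw [← Complex.norm_mul_exp_arg_mul_I w]
  simp only [circleMap, zero_add, Complex.ofReal_one, one_mul, Complex.ofReal_add, add_mul,
    Complex.exp_add]
  ring

theorem bound_L3 {f : ℂ → ℂ} (hf : ∀ w : ℂ, w ≠ 0 → DifferentiableAt ℂ f w) {a y A L : ℝ}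
    {w z : ℂ} (hw : ‖w‖ = Real.exp (-a)) (hz : ‖z‖ = Real.exp (-y))
    (hA : ms f a ≤ Real.exp (2 * A)) (hL : ms f y = Real.exp (2 * L)) :
    ‖((2 * Real.pi)⁻¹ : ℝ) • ∫ t in (0 : ℝ)..2 * Real.pi,
      f (w * circleMap 0 1 t) * (starRingEnd ℂ) (f (z * circleMap 0 1 t))‖ ≤ Real.exp (A + L) := by
  have hfo : ContinuousOn f {0}ᶜ := fun z hz => (hf z hz).continuousAt.continuousWithinAt
  have hw0 : w ≠ 0 := norm_pos_iff.1 (hw ▸ Real.exp_pos _)
  have hz0 : z ≠ 0 := norm_pos_iff.1 (hz ▸ Real.exp_pos _)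
  have hπ : 0 < 2 * Real.pi := by positivity
  have c1 : IntervalIntegrable (fun t => ‖f (w * circleMap 0 1 t)‖ ^ 2) volume 0 (2 * Real.pi) :=
    ((cont_L3 hfo hw0).norm.pow 2).intervalIntegrable _ _
  have c2 : IntervalIntegrable (fun t => ‖f (z * circleMap 0 1 t)‖ ^ 2) volume 0 (2 * Real.pi) :=
    ((cont_L3 hfo hz0).norm.pow 2).intervalIntegrable _ _
  have hτ : Real.exp (L - A) * Real.exp (A - L) = 1 := by rw [← Real.exp_add]; simp
  have h1 : ‖∫ t in (0 : ℝ)..2 * Real.pi,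
      f (w * circleMap 0 1 t) * (starRingEnd ℂ) (f (z * circleMap 0 1 t))‖ ≤
      ∫ t in (0 : ℝ)..2 * Real.pi, (Real.exp (L - A) / 2 * ‖f (w * circleMap 0 1 t)‖ ^ 2 +
        Real.exp (A - L) / 2 * ‖f (z * circleMap 0 1 t)‖ ^ 2) := by
    refine intervalIntegral.norm_integral_le_of_norm_le hπ.le (Eventually.of_forall fun t _ => ?_)
      ((c1.const_mul _).add (c2.const_mul _))
    rw [norm_mul, Complex.norm_conj]
    have p1 := Real.exp_pos (L - A)
    have p2 := Real.exp_pos (A - L)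
    generalize ‖f (w * circleMap 0 1 t)‖ = u
    generalize ‖f (z * circleMap 0 1 t)‖ = v
    generalize Real.exp (L - A) = p at *
    generalize Real.exp (A - L) = q at *
    have h2 := mul_nonneg p1.le (sq_nonneg (u - q * v))
    have h3 : p * (u - q * v) ^ 2 = p * u ^ 2 - 2 * (p * q) * u * v + (p * q) * q * v ^ 2 := by
      ring
    rw [h3, hτ] at h2
    linarith
  rw [intervalIntegral.integral_add (c1.const_mul _) (c2.const_mul _),
    intervalIntegral.integral_const_mul, intervalIntegral.integral_const_mul] at h1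
  rw [norm_smul, Real.norm_of_nonneg (inv_pos.2 hπ).le]
  refine (mul_le_mul_of_nonneg_left h1 (inv_pos.2 hπ).le).trans ?_
  rw [ms_eq_L3 f hw] at hA
  rw [ms_eq_L3 f hz] at hL
  have e1 : Real.exp (L - A) * Real.exp (2 * A) = Real.exp (A + L) := by
    rw [← Real.exp_add]; congr 1; ring
  have e2 : Real.exp (A - L) * Real.exp (2 * L) = Real.exp (A + L) := by
    rw [← Real.exp_add]; congr 1; ring
  have h4 := mul_le_mul_of_nonneg_left hA (Real.exp_pos (L - A)).le
  rw [← hL] at e2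
  linarith

theorem s3l (h : S3c) : S3l := by
  intro f a b A B y hf hab hay hyb hA hB
  rcases (ms_nonneg f y).eq_or_lt with h0 | h0
  · rw [← h0]
    exact (Real.exp_pos _).le
  have hfo : ContinuousOn f {0}ᶜ := fun z hz => (hf z hz).continuousAt.continuousWithinAt
  obtain ⟨L, hL⟩ : ∃ L : ℝ, ms f y = Real.exp (2 * L) :=
    ⟨Real.log (ms f y) / 2, by rw [mul_div_cancel₀ _ two_ne_zero, Real.exp_log h0]⟩
  obtain ⟨z, hz⟩ : ∃ z : ℂ, ‖z‖ = Real.exp (-y) :=
    ⟨(Real.exp (-y) : ℝ), by rw [Complex.norm_real, Real.norm_of_nonneg (Real.exp_pos _).le]⟩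
  have hz0 : z ≠ 0 := norm_pos_iff.1 (hz ▸ Real.exp_pos _)
  have hg : Continuous fun t : ℝ => (starRingEnd ℂ) (f (z * circleMap 0 1 t)) :=
    Complex.continuous_conj.comp (cont_L3 hfo hz0)
  have key := h (fun w => ((2 * Real.pi)⁻¹ : ℝ) • ∫ t in (0 : ℝ)..2 * Real.pi,
      f (w * circleMap 0 1 t) * (starRingEnd ℂ) (f (z * circleMap 0 1 t))) a b (A + L) (B + L) y z
    (fun w hw => (diff_L3 hf hg hw).fun_const_smul ((2 * Real.pi)⁻¹ : ℝ)) hab hay hyb
    (fun w hw => bound_L3 hf hw hz hA hL) (fun w hw => bound_L3 hf hw hz hB hL) hz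
  have e1 : (((2 * Real.pi)⁻¹ : ℝ) • ∫ t in (0 : ℝ)..2 * Real.pi,
      f (z * circleMap 0 1 t) * (starRingEnd ℂ) (f (z * circleMap 0 1 t))) = (ms f y : ℂ) := by
    rw [ms_eq_L3 f hz, Complex.ofReal_mul, ← intervalIntegral.integral_ofReal, Complex.real_smul]
    simp only [Complex.mul_conj', Complex.ofReal_pow]
  have e2 : ((b - y) * (A + L) + (y - a) * (B + L)) / (b - a) =
      ((b - y) * A + (y - a) * B) / (b - a) + L := by
    have : b - a ≠ 0 := (sub_pos.2 hab).ne'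
    field_simp
    ring
  rw [e1, e2, Complex.norm_real, Real.norm_of_nonneg h0.le, hL, Real.exp_le_exp] at key
  rw [hL, Real.exp_le_exp]
  linarith

end Pool.Agent.MP_17fac5_an.Ch

end

section

set_option autoImplicit false
open MeasureTheory Filter Topology

namespace Pool.Agent.MP_17fac5_an.Ch

open Pool.Agent.MP_17fac5_an.H19 (ex)

theorem disc_Cl (L e : ℕ → ℝ) (a b : ℕ) (M : ℝ) (he : ∀ n, 0 ≤ e n)
    (hs : ∀ N, ∑ n ∈ Finset.range N, e n ≤ 1) (ha : L a ≤ M) (hb : L b ≤ M)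
    (h3 : ∀ m, a ≤ m → m + 1 < b →
      3 * L (m + 1) ≤ 2 * L (m + 2) + L m + 2 * e (m + 1) + e m) :
    ∀ n, a ≤ n → n ≤ b → L n ≤ M + 3 := by
  intro n hn1 hn2
  obtain ⟨k, hk, hmax⟩ := (Finset.Icc a b).exists_max_image L ⟨n, Finset.mem_Icc.2 ⟨hn1, hn2⟩⟩
  refine (hmax n (Finset.mem_Icc.2 ⟨hn1, hn2⟩)).trans ?_
  obtain ⟨k1, k2⟩ := Finset.mem_Icc.1 hk
  by_cases hM : L k ≤ M
  · linarith
  have k3 : a < k := lt_of_le_of_ne k1 fun h => hM (h ▸ ha)
  have k4 : k < b := lt_of_le_of_ne k2 fun h => hM (h ▸ hb)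
  obtain ⟨m, rfl⟩ : ∃ m, k = m + 1 := ⟨k - 1, by omega⟩
  have inv : ∀ t, m + 1 ≤ t → t < b → L (m + 1) - L (t + 1) + (L t - L (t + 1)) ≤
      2 * ∑ u ∈ Finset.range (t + 1), e u + ∑ u ∈ Finset.range t, e u := by
    intro t ht
    induction t, ht using Nat.le_induction with
    | base =>
      intro h
      have a1 := h3 m (by omega) h
      have a2 := hmax m (Finset.mem_Icc.2 ⟨by omega, by omega⟩)
      have a3 : 0 ≤ ∑ u ∈ Finset.range m, e u := Finset.sum_nonneg fun u _ => he u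
      simp only [Finset.sum_range_succ]
      linarith [he m]
    | succ t ht ih =>
      intro h
      have a1 := h3 t (by omega) h
      have a2 := ih (by omega)
      simp only [Finset.sum_range_succ] at a2 ⊢
      linarith
  have hex : ∃ t, m + 1 ≤ t ∧ L (t + 1) ≤ M :=
    ⟨b - 1, by omega, by rwa [show b - 1 + 1 = b by omega]⟩
  have h1 := Nat.find_spec hex
  have h2 : Nat.find hex ≤ b - 1 :=
    Nat.find_min' hex ⟨by omega, by rwa [show b - 1 + 1 = b by omega]⟩
  have h4 : M < L (Nat.find hex) := by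
    rcases h1.1.eq_or_lt with h | h
    · rw [← h]; exact not_le.1 hM
    · have h5 := Nat.find_min hex (m := Nat.find hex - 1) (by omega)
      rw [show Nat.find hex - 1 + 1 = Nat.find hex by omega] at h5
      exact not_le.1 fun h6 => h5 ⟨by omega, h6⟩
  have h7 := inv _ h1.1 (by omega)
  linarith [hs (Nat.find hex + 1), hs (Nat.find hex), h1.2]

theorem sq_Cl {x u v e : ℝ} (hx : 0 ≤ x) (he : 0 < e) (h : x ≤ u + v) :
    x ^ 2 ≤ (1 + e) * u ^ 2 + (1 + 1 / e) * v ^ 2 + 0 := by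
  have h1 : x ^ 2 ≤ (u + v) ^ 2 := pow_le_pow_left₀ hx h 2
  have h2 : 0 ≤ (e * u - v) ^ 2 / e := by positivity
  have h3 : (1 + e) * u ^ 2 + (1 + 1 / e) * v ^ 2 = (u + v) ^ 2 + (e * u - v) ^ 2 / e := by
    field_simp
    ring
  linarith

theorem pert_Cl {f f1 f2 : ℂ → ℂ} {y L e : ℝ} (hf : ∀ w : ℂ, w ≠ 0 → DifferentiableAt ℂ f w)
    (h1 : ∀ w : ℂ, w ≠ 0 → DifferentiableAt ℂ f1 w)
    (h2 : ∀ w : ℂ, w ≠ 0 → DifferentiableAt ℂ f2 w) (h : ∀ z, ‖f z‖ ≤ ‖f1 z‖ + ‖f2 z‖)
    (hL : 0 ≤ L) (he : 0 < e) (a1 : ms f1 y ≤ Real.exp (2 * L)) (a2 : ms f2 y ≤ e ^ 2) :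
    ms f y ≤ Real.exp (2 * (L + e)) := by
  have b1 := ms_le (con_sphere hf y) (con_sphere h1 y) (con_sphere h2 y)
    fun z _ => sq_Cl (norm_nonneg _) he (h z)
  have b2 : 1 ≤ Real.exp (2 * L) := Real.one_le_exp (by linarith)
  have b3 : (1 + e) ^ 2 ≤ Real.exp (2 * e) := by
    rw [two_mul, Real.exp_add, sq]
    have := Real.add_one_le_exp e
    exact mul_le_mul (by linarith) (by linarith) (by linarith) (Real.exp_pos _).le
  have b4 : (1 + 1 / e) * e ^ 2 = (1 + e) * e := by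
    field_simp
    ring
  calc ms f y ≤ (1 + e) * ms f1 y + (1 + 1 / e) * ms f2 y + 0 := b1
    _ ≤ (1 + e) * Real.exp (2 * L) + (1 + 1 / e) * e ^ 2 + 0 := by gcongr
    _ ≤ (1 + e) * Real.exp (2 * L) + (1 + e) * e * Real.exp (2 * L) := by
      rw [b4, add_zero]
      exact add_le_add le_rfl (le_mul_of_one_le_right (by positivity) b2)
    _ = (1 + e) ^ 2 * Real.exp (2 * L) := by ring
    _ ≤ Real.exp (2 * e) * Real.exp (2 * L) := by gcongr
    _ = Real.exp (2 * (L + e)) := by rw [← Real.exp_add]; congr 1; ring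

theorem sCl (h : S3l) : SCl := by
  intro g a b M e hM hg ha hb he hs hd n hn1 hn2
  let L : ℕ → ℝ := fun n => Real.log (max (ms (g n) (yy n)) 1) / 2
  have L0 : ∀ n, 0 ≤ L n := fun n =>
    div_nonneg (Real.log_nonneg (le_max_right _ _)) zero_le_two
  have L1 : ∀ n, ms (g n) (yy n) ≤ Real.exp (2 * L n) := fun n => by
    rw [show 2 * L n = Real.log (max (ms (g n) (yy n)) 1) by simp only [L]; ring,
      Real.exp_log (lt_max_of_lt_right one_pos)]
    exact le_max_left _ _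
  have L2 : ∀ n x, 0 ≤ x → ms (g n) (yy n) ≤ Real.exp (2 * x) → L n ≤ x := fun n x hx h1 => by
    have h2 : Real.log (max (ms (g n) (yy n)) 1) ≤ 2 * x :=
      (Real.log_le_iff_le_exp (lt_max_of_lt_right one_pos)).2
        (max_le h1 (Real.one_le_exp (by linarith)))
    simp only [L]
    linarith
  have hdiff : ∀ (m : ℕ) (z : ℂ), z ≠ 0 → DifferentiableAt ℂ (fun z => g (m + 1) z - g m z) z :=
    fun m z hz => (hg _ z hz).sub (hg _ z hz)
  have key := disc_Cl L e a b M (fun n => (he n).le) hs (L2 a M hM ha) (L2 b M hM hb)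
    (fun m h1 h2 => by
      have A : ms (g (m + 1)) (yy (m + 2)) ≤ Real.exp (2 * (L (m + 2) + e (m + 1))) :=
        pert_Cl (hg _) (hg _) (hdiff (m + 1)) (fun z => by
          simpa using norm_sub_le (g (m + 2) z) (g (m + 2) z - g (m + 1) z))
          (L0 _) (he _) (L1 _) (hd (m + 1) (by omega) h2).2
      have B : ms (g (m + 1)) (yy m) ≤ Real.exp (2 * (L m + e m)) :=
        pert_Cl (hg _) (hg _) (hdiff m) (fun z => by
          simpa using norm_add_le (g m z) (g (m + 1) z - g m z))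
          (L0 _) (he _) (L1 _) (hd m h1 (by omega)).1
      have y0 := yy_pos m
      have y1 : yy (m + 1) = yy m / 2 := yy_succ m
      have y2 : yy (m + 2) = yy m / 4 := by rw [yy_succ, y1]; ring
      have C := h (g (m + 1)) (yy (m + 2)) (yy m) _ _ (yy (m + 1)) (hg _) (by linarith)
        (by linarith) (by linarith) A B
      have D : ((yy m - yy (m + 1)) * (L (m + 2) + e (m + 1)) +
          (yy (m + 1) - yy (m + 2)) * (L m + e m)) / (yy m - yy (m + 2)) =
          (2 * (L (m + 2) + e (m + 1)) + (L m + e m)) / 3 := by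
        rw [y1, y2, div_eq_div_iff (by linarith) (by norm_num)]
        ring
      rw [D] at C
      have E := L2 (m + 1) _ (by
        have := L0 (m + 2); have := L0 m; have := he (m + 1); have := he m
        positivity) C
      linarith) n hn1 hn2
  exact (L1 n).trans (Real.exp_le_exp.2 (by linarith))

end Pool.Agent.MP_17fac5_an.Ch

end

section

set_option autoImplicit false
open MeasureTheory Filter Topology

namespace Pool.Agent.MP_17fac5_an.Ch

open Pool.Agent.MP_17fac5_an.H19 (ex)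

theorem minp_Pe {f : ℂ → ℂ} {r : ℝ} (hr : 0 < r) (h : Differentiable ℂ f)
    (hm : ∀ z : ℂ, ‖z‖ = r → 0 ≤ (f z).re) {z : ℂ} (hz : ‖z‖ ≤ r) : 0 ≤ (f z).re := by
  have := H19.maxmod (f := fun z => Complex.exp (-f z)) (C := Real.exp 0) hr
    (fun z _ => (h z).neg.cexp) (fun z hz => by
      rw [Complex.norm_exp, Complex.neg_re]
      exact Real.exp_le_exp.2 (neg_nonpos.2 (hm z hz))) hz
  rw [Complex.norm_exp, Complex.neg_re, Real.exp_le_exp] at this
  linarith

theorem ker_eq_Pe (ζ z : ℂ) :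
    poissonKernel 0 ζ z = (‖z‖ ^ 2 - ‖ζ‖ ^ 2) / ‖z - ζ‖ ^ 2 := by
  simp [poissonKernel_def]

theorem ker_le_Pe {ζ z : ℂ} {a d : ℝ} (hd : 0 < d) (h1 : d ≤ ‖z‖ - ‖ζ‖) (h2 : ‖z‖ + ‖ζ‖ ≤ a) :
    poissonKernel 0 ζ z ≤ a / d := by
  have h3 := norm_sub_norm_le z ζ
  have h4 : 0 ≤ ‖z‖ + ‖ζ‖ := by positivity
  have h5 : 0 < ‖z - ζ‖ := by linarith
  rw [ker_eq_Pe, div_le_div_iff₀ (by positivity) hd]
  have h6 : (‖z‖ - ‖ζ‖) * d ≤ ‖z - ζ‖ ^ 2 := by nlinarith
  calc (‖z‖ ^ 2 - ‖ζ‖ ^ 2) * d = (‖z‖ + ‖ζ‖) * ((‖z‖ - ‖ζ‖) * d) := by ring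
    _ ≤ a * ‖z - ζ‖ ^ 2 := mul_le_mul h2 h6 (by nlinarith) (by linarith)

theorem ker_cont_Pe {ζ : ℂ} {r : ℝ} (h : ‖ζ‖ < r) :
    ContinuousOn (poissonKernel 0 ζ) (Metric.sphere 0 r) := by
  rw [funext (ker_eq_Pe ζ)]
  refine ContinuousOn.div (by fun_prop) (by fun_prop) fun z hz => ?_
  have h1 : ‖z‖ = r := by simpa using hz
  refine pow_ne_zero _ (norm_ne_zero_iff.2 fun h2 => ?_)
  rw [sub_eq_zero.1 h2] at h1; linarith

theorem pois_Pe {f : ℂ → ℂ} (hf : Differentiable ℂ f) {ζ : ℂ} {r : ℝ} (h : ‖ζ‖ < r) :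
    Real.circleAverage (fun z => poissonKernel 0 ζ z * (f z).re) 0 r = (f ζ).re := by
  have hr : 0 ≤ r := (norm_nonneg _).trans h.le
  have h1 := (hf.diffContOnCl (s := Metric.ball 0 r)).circleAverage_poissonKernel_smul
    (w := ζ) (by simpa using h)
  have h2 := Complex.reCLM.circleAverage_comp_comm (f := poissonKernel 0 ζ • f)
    (((ker_cont_Pe h).smul hf.continuous.continuousOn).circleIntegrable hr)
  rw [h1] at h2
  refine Eq.trans ?_ h2
  congr 1
  ext z
  simp

/-- an entire majorant with a bound inside the circle -/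
theorem maj_Pe (h : STl) {r Q : ℝ} (hr : 0 < r) {e : ℂ → ℝ}
    (he : ContinuousOn e (Metric.sphere 0 r)) (h0 : ∀ z, 0 ≤ e z)
    (hQ : Real.circleAverage e 0 r ≤ Q) :
    ∃ F : ℂ → ℂ, Differentiable ℂ F ∧ (∀ z : ℂ, ‖z‖ = r → e z ≤ (F z).re) ∧
      (∀ z : ℂ, ‖z‖ ≤ r → 0 ≤ (F z).re) ∧ ∀ (ζ : ℂ) (a d : ℝ), 0 < d → d ≤ r - ‖ζ‖ →
        r + ‖ζ‖ ≤ a → (F ζ).re ≤ a / d * (Q + 1) := by
  obtain ⟨F, hF, hFe⟩ := h r 1 e hr one_pos he
  have hp : ∀ z : ℂ, ‖z‖ = r → 0 ≤ (F z).re := fun z hz => (h0 z).trans (hFe z hz).1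
  refine ⟨F, hF, fun z hz => (hFe z hz).1, fun z hz => minp_Pe hr hF hp hz,
    fun ζ a d hd h1 h2 => ?_⟩
  have hζ : ‖ζ‖ < r := by linarith
  have ha : 0 ≤ a / d := div_nonneg (by linarith [norm_nonneg ζ]) hd.le
  have c1 : ContinuousOn (fun z => (F z).re) (Metric.sphere 0 r) :=
    (Complex.continuous_re.comp hF.continuous).continuousOn
  have i1 := he.circleIntegrable hr.le
  have h3 : Real.circleAverage (fun z => poissonKernel 0 ζ z * (F z).re) 0 r ≤
      Real.circleAverage (fun z => a / d * (e z + 1)) 0 r :=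
    Real.circleAverage_mono (((ker_cont_Pe hζ).mul c1).circleIntegrable hr.le)
      ((continuousOn_const.mul (he.add continuousOn_const)).circleIntegrable hr.le) fun z hz => by
        have h4 : ‖z‖ = r := by simpa [abs_of_pos hr] using hz
        exact mul_le_mul (ker_le_Pe hd (by linarith) (by linarith)) (hFe z h4).2 (hp z h4) ha
  rw [pois_Pe hF hζ, H19.avg_mul, Real.circleAverage_fun_add i1 (circleIntegrable_const _ _ _),
    Real.circleAverage_const] at h3
  exact h3.trans (mul_le_mul_of_nonneg_left (by linarith) ha)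

theorem avg_inv_Pe (g : ℂ → ℝ) (r : ℝ) :
    Real.circleAverage (fun z => g z⁻¹) 0 r = Real.circleAverage g 0 r⁻¹ := by
  rw [Real.circleAverage_eq_circleAverage_zero_one, Real.circleAverage_eq_circleAverage_zero_one
    (f := g), ← Real.circleAverage_zero_one_congr_inv (f := fun z => g ((r⁻¹ : ℝ) * z + 0))]
  congr 1
  funext z
  simp [mul_comm]

theorem ann_Pe {G : ℂ → ℂ} {r R C : ℝ} (hr : 0 < r)
    (hG : ∀ w : ℂ, w ≠ 0 → DifferentiableAt ℂ G w)
    (hC : ∀ w : ℂ, ‖w‖ = r ∨ ‖w‖ = R → (G w).re ≤ C) {z : ℂ} (h1 : r < ‖z‖) (h2 : ‖z‖ < R) :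
    (G z).re ≤ C := by
  have ho : IsOpen {w : ℂ | r < ‖w‖ ∧ ‖w‖ < R} :=
    (isOpen_lt continuous_const continuous_norm).inter (isOpen_lt continuous_norm continuous_const)
  have hc : closure {w : ℂ | r < ‖w‖ ∧ ‖w‖ < R} ⊆ {w : ℂ | r ≤ ‖w‖ ∧ ‖w‖ ≤ R} :=
    closure_minimal (fun w hw => ⟨hw.1.le, hw.2.le⟩)
      ((isClosed_le continuous_const continuous_norm).inter
        (isClosed_le continuous_norm continuous_const))
  have hd : DifferentiableOn ℂ (fun w => Complex.exp (G w))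
      (closure {w : ℂ | r < ‖w‖ ∧ ‖w‖ < R}) := fun w hw =>
    (hG w (norm_pos_iff.1 (hr.trans_le (hc hw).1))).cexp.differentiableWithinAt
  have := Complex.norm_le_of_forall_mem_frontier_norm_le (C := Real.exp C)
    (Metric.isBounded_ball.subset fun w (hw : w ∈ {w : ℂ | r < ‖w‖ ∧ ‖w‖ < R}) =>
      mem_ball_zero_iff.2 hw.2) hd.diffContOnCl (fun w hw => by
      rw [ho.frontier_eq] at hw
      rw [Complex.norm_exp]
      refine Real.exp_le_exp.2 (hC w ?_)
      by_contra hn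
      rw [not_or] at hn
      exact hw.2 ⟨lt_of_le_of_ne (hc hw.1).1 (Ne.symm hn.1), lt_of_le_of_ne (hc hw.1).2 hn.2⟩)
    (subset_closure (show z ∈ {w : ℂ | r < ‖w‖ ∧ ‖w‖ < R} from ⟨h1, h2⟩))
  rwa [Complex.norm_exp, Real.exp_le_exp] at this

theorem sPe (h : STl) : SPe := by
  intro f a b y Q z hf ha hay hyb hb hQa hQb hz
  have hinv : ∀ (w : ℂ) (t : ℝ), ‖w‖ = Real.exp (-t) → ‖w⁻¹‖ = Real.exp t := fun w t hw => by
    rw [norm_inv, hw, Real.exp_neg, inv_inv]
  have hab : Real.exp (-b) ≤ Real.exp (-a) := Real.exp_le_exp.2 (by linarith)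
  have hab' : Real.exp a ≤ Real.exp b := Real.exp_le_exp.2 (by linarith)
  have h3 : Real.exp b ≤ 3 :=
    (Real.exp_le_exp.2 hb).trans (Real.exp_one_lt_d9.le.trans (by norm_num))
  obtain ⟨F1, d1, m1, p1, b1⟩ := maj_Pe h (Real.exp_pos (-a)) ((con_sphere hf a).norm.pow 2)
    (fun _ => sq_nonneg _) hQa
  obtain ⟨F2, d2, m2, p2, b2⟩ := maj_Pe h (Q := Q) (Real.exp_pos b) (e := fun w => ‖f w⁻¹‖ ^ 2)
    (fun w hw => by
      have h0 : w ≠ 0 := norm_pos_iff.1 (by
        rw [mem_sphere_zero_iff_norm.1 hw]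
        exact Real.exp_pos b)
      exact ((((hf _ (inv_ne_zero h0)).continuousAt.comp
        (continuousAt_inv₀ h0)).norm).pow 2).continuousWithinAt)
    (fun _ => sq_nonneg _) (by
      rw [avg_inv_Pe (fun w => ‖f w‖ ^ 2), ← Real.exp_neg]
      exact hQb)
  have hre : ∀ x : ℂ, (2 * (starRingEnd ℂ (f z) * x)).re ≤ ‖f z‖ ^ 2 + ‖x‖ ^ 2 := fun x => by
    have h1 := Complex.re_le_norm (2 * (starRingEnd ℂ (f z) * x))
    rw [norm_mul, norm_mul, Complex.norm_conj, Complex.norm_two] at h1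
    nlinarith [sq_nonneg (‖f z‖ - ‖x‖)]
  have key := ann_Pe (G := fun w => 2 * (starRingEnd ℂ (f z) * f w) - F1 w - F2 w⁻¹)
    (C := ‖f z‖ ^ 2) (R := Real.exp (-a)) (Real.exp_pos (-b))
    (fun w hw => ((((hf w hw).const_mul _).const_mul _).sub (d1 w)).sub
      ((d2 _).comp w (differentiableAt_inv hw)))
    (fun w hw => by
      have h1 := hre (f w)
      simp only [Complex.sub_re]
      rcases hw with hw | hw
      · have h4 := m2 _ (hinv w b hw)
        simp only [inv_inv] at h4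
        linarith [p1 w (hw.le.trans hab)]
      · have h4 : ‖f w‖ ^ 2 ≤ (F1 w).re := m1 w hw
        linarith [p2 _ ((hinv w a hw).le.trans hab')])
    (z := z) (by rw [hz]; exact Real.exp_lt_exp.2 (by linarith))
    (by rw [hz]; exact Real.exp_lt_exp.2 (by linarith))
  have e1 : (2 * (starRingEnd ℂ (f z) * f z)).re = 2 * ‖f z‖ ^ 2 := by
    rw [Complex.conj_mul', ← Complex.ofReal_pow, ← Complex.ofReal_ofNat, ← Complex.ofReal_mul,
      Complex.ofReal_re]
  simp only [Complex.sub_re, e1] at key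
  have hy1 : 1 ≤ Real.exp y := Real.one_le_exp (by linarith)
  have hy3 : Real.exp y ≤ Real.exp b := Real.exp_le_exp.2 hyb.le
  have g1 := b1 z 2 ((y - a) / 3) (by linarith) (by
      have e2 : Real.exp (-a) = Real.exp (-y) * Real.exp (y - a) := by
        rw [← Real.exp_add]; congr 1; ring
      have e3 : 1 / 3 ≤ Real.exp (-y) := by
        rw [Real.exp_neg, one_div]
        exact inv_anti₀ (Real.exp_pos y) (hy3.trans h3)
      rw [hz]
      nlinarith [Real.add_one_le_exp (y - a)])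
    (by
      rw [hz]
      linarith [Real.exp_le_one_iff.2 (neg_nonpos.2 ha),
        Real.exp_le_one_iff.2 (neg_nonpos.2 (ha.trans hay.le))])
  have g2 := b2 z⁻¹ 6 (b - y) (by linarith) (by
      have e2 : Real.exp b = Real.exp y * Real.exp (b - y) := by
        rw [← Real.exp_add]; congr 1; ring
      rw [hinv z y hz]
      nlinarith [Real.add_one_le_exp (b - y)])
    (by rw [hinv z y hz]; linarith)
  have e4 : 6 * (Q + 1) * (1 / (y - a) + 1 / (b - y)) =
      2 / ((y - a) / 3) * (Q + 1) + 6 / (b - y) * (Q + 1) := by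
    have : y - a ≠ 0 := by linarith
    have : b - y ≠ 0 := by linarith
    field_simp
    ring
  linarith

end Pool.Agent.MP_17fac5_an.Ch

end

section

set_option autoImplicit false
open MeasureTheory Filter Topology

namespace Pool.Agent.MP_17fac5_an.Ch

open Pool.Agent.MP_17fac5_an.H19 (ex)

theorem inv_Lp (y t : ℝ) : (circleMap 0 (Real.exp (-y)) t)⁻¹ =
    (starRingEnd ℂ) (circleMap 0 1 t * (Real.exp y : ℂ)) := by
  simp only [circleMap, zero_add, Complex.ofReal_one, one_mul, map_mul, Complex.conj_ofReal,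
    ← Complex.exp_conj, Complex.conj_I, mul_inv, Real.exp_neg, Complex.ofReal_inv, inv_inv,
    ← Complex.exp_neg, mul_neg]
  rw [mul_comm]

theorem sLp : SLp := by
  intro s c y
  let q : Polynomial ℂ := ∑ k ∈ s, Polynomial.monomial k ((starRingEnd ℂ) (c k))
  have hq : ∀ k, q.coeff k = if k ∈ s then (starRingEnd ℂ) (c k) else 0 := fun k => by
    simp only [q, Polynomial.finsetSum_coeff, Polynomial.coeff_monomial, Finset.sum_ite_eq']
  have h := H19.mean_Rad q (Real.exp y : ℂ)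
  rw [Complex.norm_real, Real.norm_eq_abs, abs_of_pos (Real.exp_pos y)] at h
  have h1 : H19.mm_Rad q (Real.exp y) = ∑ k ∈ s, ‖c k‖ ^ 2 * Real.exp (2 * k * y) := by
    unfold H19.mm_Rad
    rw [Finset.sum_subset (s₂ := s)]
    · refine Finset.sum_congr rfl fun k hk => ?_
      rw [hq, if_pos hk, Complex.norm_conj, ← pow_mul, ← Real.exp_nat_mul]
      congr 2
      push_cast
      ring
    · intro k hk
      by_contra hs
      exact Polynomial.mem_support_iff.1 hk (by rw [hq, if_neg hs])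
    · intro k _ hk
      rw [Polynomial.notMem_support_iff.1 hk]
      simp
  rw [← h1, ← h, ms, Real.circleAverage_def, smul_eq_mul]
  congr 2
  funext t
  rw [inv_Lp, ← Complex.norm_conj (q.eval _)]
  simp only [q, Polynomial.eval_finsetSum, Polynomial.eval_monomial, map_sum, map_mul, map_pow,
    Complex.conj_conj]

theorem sRa : SRa := by
  intro G q hG
  have hp : 0 < 2 * Real.pi := by positivity
  have hG' : Measurable fun z : ℂ => ENNReal.ofReal (G ‖z‖) :=
    (hG.comp measurable_norm).ennreal_ofReal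
  have hm : Measurable (Function.uncurry fun (t : ℝ) (z : ℂ) =>
      ENNReal.ofReal (G ‖z‖) * ‖q.eval (circleMap 0 1 t * z)‖ₑ ^ (2 : ℕ)) := by
    have hc : Continuous fun p : ℝ × ℂ => q.eval (circleMap 0 1 p.1 * p.2) :=
      q.continuous.comp (((continuous_circleMap 0 1).comp continuous_fst).mul continuous_snd)
    exact (hG'.comp measurable_snd).mul (hc.measurable.enorm.pow_const 2)
  have e1 : ENNReal.ofReal (2 * Real.pi) *
      ∫⁻ z in Metric.ball (0 : ℂ) 1, ENNReal.ofReal (G ‖z‖) * ‖q.eval z‖ₑ ^ (2 : ℕ) =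
      ∫⁻ t in Set.Ioc (0 : ℝ) (2 * Real.pi), ∫⁻ z in Metric.ball (0 : ℂ) 1,
        ENNReal.ofReal (G ‖z‖) * ‖q.eval (circleMap 0 1 t * z)‖ₑ ^ (2 : ℕ) := by
    rw [← lintegral_congr fun t => H19.rot_Rad G hG q t, setLIntegral_const, Real.volume_Ioc,
      sub_zero, mul_comm]
  refine (ENNReal.mul_right_inj (ENNReal.ofReal_pos.2 hp).ne' ENNReal.ofReal_ne_top).1 ?_
  rw [e1, lintegral_lintegral_swap hm.aemeasurable,
    ← lintegral_const_mul' _ _ ENNReal.ofReal_ne_top]
  refine lintegral_congr fun z => ?_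
  rw [lintegral_const_mul' _ _ ENNReal.ofReal_ne_top, H19.lmean_Rad, mul_left_comm]

end Pool.Agent.MP_17fac5_an.Ch

end

section

set_option autoImplicit false
open MeasureTheory Filter Topology

namespace Pool.Agent.MP_17fac5_an.Ch

open Pool.Agent.MP_17fac5_an.H19 (ex)

theorem pt_H2 (x0 y0 : ℝ) (w : ℂ) :
    Complex.exp (((x0 : ℂ) + (y0 : ℂ) * Complex.I + w) * Complex.I) =
      pt (x0 + w.re) (y0 + w.im) := by
  rw [pt_eq]
  congr 2
  apply Complex.ext <;> simp

theorem exp_H2 {a b u A K : ℝ} (hA : 0 ≤ A) (hK : 30 * A ≤ K) (h1 : a < b) (h2 : b - a ≤ 3 / 2)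
    (h3 : 1 / 10 ≤ u - a) : ((b - u) * A + (u - a) * -K) / (b - a) ≤ -(1 / 30 * K) := by
  rw [div_le_iff₀ (sub_pos.2 h1)]
  have h4 := mul_le_mul_of_nonneg_right (show b - u ≤ 3 / 2 by linarith) hA
  have h5 := mul_le_mul_of_nonneg_right h3 (show 0 ≤ K by linarith)
  have h6 := mul_le_mul_of_nonneg_right h2 (show 0 ≤ K by linarith)
  linarith

theorem sH2 (h : S3c) : SH2 := by
  intro s A B n1 l e g θ hA hD n K W hn hW hK hP x t hx ht1 ht2
  have y0 := yy_pos n
  have hAn : 0 ≤ A * n := mul_nonneg hA (Nat.cast_nonneg n)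
  have hK' : 30 * (A * n) ≤ K := by linarith
  by_cases hc : |x - θ| ≤ W
  · exact (hP x t hc ht1 ht2).trans (Real.exp_le_exp.2 (by linarith))
  obtain ⟨x0, h1, h2, h3⟩ : ∃ x0 : ℝ, |x0 - θ| ≤ W - yy n / 2 ∧ yy n / 2 ≤ |x - x0| ∧
      |x - x0| ≤ yy n := by
    rcases abs_cases (x - θ) with ⟨e, -⟩ | ⟨e, -⟩ <;> rw [e] at hx hc
    · refine ⟨θ + (W - yy n / 2), abs_le.2 ⟨by linarith, by linarith⟩,
        le_abs.2 (Or.inl (by linarith)), abs_le.2 ⟨by linarith, by linarith⟩⟩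
    · refine ⟨θ - (W - yy n / 2), abs_le.2 ⟨by linarith, by linarith⟩,
        le_abs.2 (Or.inr (by linarith)), abs_le.2 ⟨by linarith, by linarith⟩⟩
  have hx0 := hD.2.2.2.2.1 n hn
  unfold Bx at hP
  generalize yy n = y at *
  obtain ⟨z, hre, him⟩ : ∃ z : ℂ, z.re = x - x0 ∧ z.im = t - 3 * y / 2 := ⟨⟨_, _⟩, rfl, rfl⟩
  have r1 : y / 2 ≤ ‖z‖ := h2.trans (hre ▸ Complex.abs_re_le_norm z)
  have r2 : ‖z‖ ≤ 9 * y / 8 := by
    refine abs_le_of_sq_le_sq' ?_ (by positivity) |>.2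
    rw [Complex.sq_norm, Complex.normSq_apply, hre, him]
    have q1 := sq_le_sq' (abs_le.1 h3).1 (abs_le.1 h3).2
    have q2 := sq_le_sq' (show -(y / 2) ≤ t - 3 * y / 2 by linarith)
      (show t - 3 * y / 2 ≤ y / 2 by linarith)
    nlinarith [sq_nonneg y]
  have r0 : 0 < ‖z‖ := by linarith
  have l1 : Real.log (5 * y / 4) - Real.log (y / 2) ≤ 3 / 2 := by
    rw [← Real.log_div (by positivity) (by positivity)]
    have := Real.log_le_sub_one_of_pos (show 0 < 5 * y / 4 / (y / 2) by positivity)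
    rw [show 5 * y / 4 / (y / 2) = 5 / 2 by field_simp; norm_num] at this ⊢
    linarith
  have l2 : 1 / 10 ≤ Real.log (5 * y / 4) - Real.log ‖z‖ := by
    have q1 := Real.log_le_log r0 r2
    have q2 := Real.one_sub_inv_le_log_of_pos (show 0 < 5 * y / 4 / (9 * y / 8) by positivity)
    rw [Real.log_div (by positivity) (by positivity),
      show 5 * y / 4 / (9 * y / 8) = 10 / 9 by field_simp; norm_num] at q2
    norm_num at q2 ⊢
    linarith
  have l3 : Real.log (y / 2) ≤ Real.log ‖z‖ := Real.log_le_log (by positivity) r1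
  have key := h (fun w => g n (Complex.exp (((x0 : ℂ) + ((3 * y / 2 : ℝ) : ℂ) * Complex.I + w) *
    Complex.I))) (-Real.log (5 * y / 4)) (-Real.log (y / 2)) (A * n) (-K) (-Real.log ‖z‖) z
    (fun w _ => DifferentiableAt.comp (g := g n) w (hD.1 n _ (Complex.exp_ne_zero _))
      (by fun_prop)) (by linarith) (by linarith) (by linarith) (fun w hw => ?_) (fun w hw => ?_) (by rw [neg_neg, Real.exp_log r0])
  · simp only [pt_H2, hre, him, add_sub_cancel] at key
    exact key.trans (Real.exp_le_exp.2 (exp_H2 hAn hK' (by linarith) (by linarith) (by linarith)))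
  · rw [neg_neg, Real.exp_log (by positivity)] at hw
    have q := abs_le.1 (hw ▸ Complex.abs_im_le_norm w)
    simp only [pt_H2]
    refine hx0 _ ?_ ?_ <;> rw [norm_pt] <;> refine Real.exp_le_exp.2 ?_ <;> linarith [q.1, q.2]
  · rw [neg_neg, Real.exp_log (by positivity)] at hw
    have q := abs_le.1 (hw ▸ Complex.abs_im_le_norm w)
    have q' := abs_le.1 (hw ▸ Complex.abs_re_le_norm w)
    have q'' := abs_le.1 h1
    simp only [pt_H2]
    exact hP _ _ (abs_le.2 ⟨by linarith, by linarith⟩) (by linarith) (by linarith)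

end Pool.Agent.MP_17fac5_an.Ch

end

section

set_option autoImplicit false
open MeasureTheory Filter Topology

namespace Pool.Agent.MP_17fac5_an.Ch

open Pool.Agent.MP_17fac5_an.H19 (ex)

theorem num_T2 {B k : ℝ} {p : ℕ} {u : ℝ} (hB : 0 ≤ B) (hk : 0 ≤ k) (hu : u ≤ 2 * 2 ^ p) :
    6 * ((B + 1) * Real.exp (k / 4) + 1) * u ≤ Real.exp (12 + B + p + k / 4) := by
  have e1 : 1 ≤ Real.exp (k / 4) := Real.one_le_exp (by linarith)
  have e2 : (2 : ℝ) ^ p ≤ Real.exp p := by
    rw [← mul_one (p : ℝ), Real.exp_nat_mul]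
    exact pow_le_pow_left₀ (by norm_num) (by linarith [Real.add_one_le_exp 1]) p
  have e3 : B + 2 ≤ Real.exp (B + 1) := by linarith [Real.add_one_le_exp (B + 1)]
  have e4 : (12 : ℝ) ≤ Real.exp 11 := by linarith [Real.add_one_le_exp 11]
  have e5 : Real.exp (12 + B + p + k / 4) =
      Real.exp 11 * (Real.exp (B + 1) * Real.exp (k / 4)) * Real.exp p := by
    simp only [← Real.exp_add]
    congr 1
    ring
  have e6 : (B + 1) * Real.exp (k / 4) + 1 ≤ Real.exp (B + 1) * Real.exp (k / 4) := by nlinarith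
  calc 6 * ((B + 1) * Real.exp (k / 4) + 1) * u
      ≤ 6 * ((B + 1) * Real.exp (k / 4) + 1) * (2 * 2 ^ p) := by gcongr
    _ = 12 * ((B + 1) * Real.exp (k / 4) + 1) * 2 ^ p := by ring
    _ ≤ _ := by rw [e5]; gcongr

theorem sT2 (h1 : SPe) : ST2 := by
  intro C s A B n1 l e g θ hC hP hs hB hn ⟨d1, _, _, _, _, d6⟩ p K T hp hT hTs hTv hTg hK1
    x y hx hy1 hy2
  have hC0 : 0 < C := by linarith
  have hw := yy_pos p
  have hb4 : 2 ^ s * yy p ≤ 1 / 4 := by
    obtain ⟨m, rfl⟩ : ∃ m, p = m + s := ⟨p - s, by omega⟩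
    rw [yy_add]
    refine (yy_anti (show 2 ≤ m by omega)).trans ?_
    norm_num [yy]
  have h8 : (8 : ℝ) ≤ 2 ^ s := by nlinarith
  have hw4 : yy p ≤ 1 / 4 := by nlinarith
  have hp2 : (2 : ℝ) ≤ p := by exact_mod_cast (by omega : 2 ≤ p)
  have hK : 0 ≤ K := le_trans (by positivity) hK1
  have hm : ∀ z, (0 : ℝ) < max ‖g p z‖ 1 := fun z => lt_max_of_lt_right one_pos
  have hγ : ∀ z, ‖g p z / ((max ‖g p z‖ 1 : ℝ) : ℂ)‖ = ‖g p z‖ / max ‖g p z‖ 1 := fun z => by
    rw [norm_div, Complex.norm_real, Real.norm_of_nonneg (hm z).le]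
  have hγ1 : ∀ z, ‖g p z / ((max ‖g p z‖ 1 : ℝ) : ℂ)‖ ≤ 1 := fun z => by
    rw [hγ, div_le_one (hm z)]
    exact le_max_left _ _
  have hc := con_sphere (d1 p)
  have hγc : ContinuousOn (fun z => g p z / ((max ‖g p z‖ 1 : ℝ) : ℂ))
      (Metric.sphere 0 (Real.exp (-0))) :=
    (hc 0).div (Complex.continuous_ofReal.comp_continuousOn ((hc 0).norm.sup continuousOn_const))
      fun z _ => Complex.ofReal_ne_zero.2 (hm z).ne'
  obtain ⟨F, hF, f1, -, f3, f4⟩ := hP (fun z => g p z / ((max ‖g p z‖ 1 : ℝ) : ℂ)) 0 θ (yy p) K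
    1 T le_rfl (by norm_num) hw hw4 hK hγc hT hTs hTv
    (fun x hx => by
      rw [pt_zero, hγ]
      exact (div_le_self (norm_nonneg _) (le_max_right _ _)).trans (hTg x hx))
    (by
      have := ms_le (a := 0) (b := 0) (c := 1) hγc hγc hγc fun z _ => by
        nlinarith [hγ1 z, norm_nonneg (g p z / ((max ‖g p z‖ 1 : ℝ) : ℂ))]
      rw [zero_mul, zero_add, zero_add] at this
      exact this)
  have hG : ∀ z, ‖g p z * Complex.exp (-F z)‖ = ‖g p z‖ * Real.exp (-(F z).re) := fun z => by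
    rw [norm_mul, Complex.norm_exp, Complex.neg_re]
  have hGd : ∀ w : ℂ, w ≠ 0 → DifferentiableAt ℂ (fun z => g p z * Complex.exp (-F z)) w :=
    fun w hw => (d1 p w hw).mul (hF w).neg.cexp
  obtain ⟨k, hk⟩ : ∃ k, K = C * k := ⟨K / C, by field_simp⟩
  have hk0 : 0 ≤ k := by
    by_contra h
    nlinarith
  have hBp : (B + 20) * p ≤ k / 30 := by
    have : C * (30 * (B + 20) * p) ≤ C * k := by linarith
    have := le_of_mul_le_mul_left this hC0
    linarith
  have e1 : 1 ≤ Real.exp (k / 4) := Real.one_le_exp (by linarith)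
  have m0 : ms (fun z => g p z * Complex.exp (-F z)) 0 ≤ (B + 1) * Real.exp (k / 4) := by
    have := ms_le (a := 1) (b := 0) (c := 1) (con_sphere hGd 0) (hc 0) (hc 0) fun z hz => by
      have a1 := f1 z hz
      rw [hγ, div_le_iff₀ (hm z)] at a1
      have a2 : ‖g p z * Complex.exp (-F z)‖ ≤ max ‖g p z‖ 1 := by
        rw [hG, Real.exp_neg, mul_inv_le_iff₀ (Real.exp_pos _), mul_comm]
        exact a1
      have a3 := pow_le_pow_left₀ (norm_nonneg _) a2 2
      rcases max_choice ‖g p z‖ 1 with h | h <;> rw [h] at a3 <;> nlinarith [sq_nonneg ‖g p z‖]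
    have a4 := d6 p hp 0 le_rfl (by positivity)
    nlinarith
  have mb : ms (fun z => g p z * Complex.exp (-F z)) (2 ^ s * yy p) ≤
      (B + 1) * Real.exp (k / 4) := by
    have := ms_le (a := Real.exp (k / 4)) (b := 0) (c := 0) (con_sphere hGd (2 ^ s * yy p))
      (hc _) (hc _) fun z hz => by
      have e2 := f3 z (2 ^ s * yy p) (by positivity) (by linarith) hz
      have e3 : C * K * yy p / (2 ^ s * yy p - 0) ≤ k / 8 := by
        rw [sub_zero, mul_div_mul_right _ _ hw.ne', div_le_iff₀ (by positivity), hk]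
        nlinarith [mul_le_mul_of_nonneg_left hs hk0]
      have e4 : Real.exp (-(F z).re) ^ 2 ≤ Real.exp (k / 4) := by
        rw [← Real.exp_nat_mul]
        refine Real.exp_le_exp.2 ?_
        push_cast
        linarith
      rw [hG, mul_pow]
      nlinarith [sq_nonneg ‖g p z‖]
    have a4 := d6 p hp (2 ^ s * yy p) (by positivity) le_rfl
    nlinarith
  have hinv : 1 / yy p = 2 ^ p := by rw [div_eq_iff hw.ne', mul_comm, yy_mul]
  have h3 := (h1 _ 0 (2 ^ s * yy p) y _ (pt x y) hGd le_rfl (by linarith) (by nlinarith)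
    (by linarith) m0 mb (norm_pt x y)).trans (num_T2 (p := p) hB hk0 (by
      have a1 : 1 / (y - 0) ≤ 1 / yy p := one_div_le_one_div_of_le hw (by linarith)
      have a2 : 1 / (2 ^ s * yy p - y) ≤ 1 / yy p := one_div_le_one_div_of_le hw (by nlinarith)
      linarith))
  have h4 := (f4 x y (yy p) le_rfl hw4 hx (by linarith) (by linarith)).2 0 le_rfl
    fun z _ => by rw [Real.exp_zero]; exact hγ1 z
  have e2 : K * yy p / (C * yy p) = k := by
    rw [hk]
    field_simp
  have e3 : 1 / (30 * C) * K = k / 30 := by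
    rw [hk]
    field_simp
  rw [e3]
  rw [hG, mul_pow, ← Real.exp_nat_mul, ← le_div_iff₀ (Real.exp_pos _), ← Real.exp_sub] at h3
  refine (pow_le_pow_iff_left₀ (norm_nonneg _) (Real.exp_pos _).le two_ne_zero).1 (h3.trans ?_)
  rw [← Real.exp_nat_mul]
  refine Real.exp_le_exp.2 ?_
  push_cast
  nlinarith

end Pool.Agent.MP_17fac5_an.Ch

end
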