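import Pool.Agent.MP_17fac5_an.Ch.St2

section

set_option autoImplicit false
open MeasureTheory Filter Topology

namespace Pool.Agent.MP_17fac5_an.Ch

open Pool.Agent.MP_17fac5_an.H19 (ex)

theorem center_V2 {θ W Y x : ℝ} (hx : |x - θ| ≤ max W Y) (hY : 0 ≤ Y) :
    ∃ θ' : ℝ, |x - θ'| ≤ Y ∧ θ - W ≤ θ' - min W Y ∧ θ' + min W Y ≤ θ + W := by
  rcases le_total W Y with h | h
  · rw [max_eq_right h] at hx
    rw [min_eq_left h]
    exact ⟨θ, hx, le_rfl, le_rfl⟩
  · rw [max_eq_left h, abs_le] at hx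
    rw [min_eq_right h]
    rcases le_total x (θ - W + Y) with h1 | h1
    · exact ⟨θ - W + Y, abs_le.2 ⟨by linarith, by linarith⟩, by linarith, by linarith⟩
    · rcases le_total x (θ + W - Y) with h2 | h2
      · exact ⟨x, by simpa using hY, by linarith, by linarith⟩
      · exact ⟨θ + W - Y, abs_le.2 ⟨by linarith, by linarith⟩, by linarith, by linarith⟩

theorem norm_V2 (u v : ℂ) : ‖u * Complex.exp (-v)‖ = ‖u‖ * Real.exp (-v.re) := by
  rw [norm_mul, Complex.norm_exp, Complex.neg_re]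

theorem ms_mul_V2 {f F : ℂ → ℂ} {y t : ℝ} (hf : ∀ w : ℂ, w ≠ 0 → DifferentiableAt ℂ f w)
    (hF : Differentiable ℂ F) (h : ∀ z : ℂ, ‖z‖ = Real.exp (-y) → -(F z).re ≤ t) :
    ms (fun z => f z * Complex.exp (-F z)) y ≤ Real.exp (2 * t) * ms f y := by
  have := ms_le (a := Real.exp (2 * t)) (b := 0) (c := 0)
    (con_sphere (f := fun z => f z * Complex.exp (-F z))
      (fun w hw => (hf w hw).mul (hF w).neg.cexp) y) (con_sphere hf y) (con_sphere hf y)
    fun z hz => by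
      rw [norm_V2, mul_pow, ← Real.exp_nat_mul, zero_mul, add_zero, add_zero, mul_comm]
      exact mul_le_mul_of_nonneg_right (Real.exp_le_exp.2 (by push_cast; linarith [h z hz]))
        (by positivity)
  simpa using this

/-- The majorant for the truncated function. -/
theorem pm_V2 {C : ℝ} (hP : PmS C) {γ : ℂ → ℂ} {y0 θ w K : ℝ} {T : Set ℝ} (h0 : 0 ≤ y0)
    (h1 : y0 ≤ 1 / 4) (h2 : 0 < w) (h3 : w ≤ 1 / 4) (h4 : 0 ≤ K)
    (hγ : ∀ w : ℂ, w ≠ 0 → DifferentiableAt ℂ γ w) (h5 : MeasurableSet T)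
    (h6 : T ⊆ Set.Icc (θ - w) (θ + w)) (h7 : ENNReal.ofReal (w / 2) ≤ volume T)
    (h8 : ∀ x ∈ T, ‖γ (pt x y0)‖ ≤ Real.exp (-K)) :
    ∃ F : ℂ → ℂ, Differentiable ℂ F ∧
      ms (fun z => γ z * Complex.exp (-F z)) y0 ≤ ms γ y0 + 1 ∧
      (∀ z : ℂ, ‖z‖ ≤ Real.exp (-y0) → -K ≤ (F z).re) ∧
      (∀ (z : ℂ) (y : ℝ), y0 < y → y ≤ 1 → ‖z‖ = Real.exp (-y) →
        -(C * K * w / (y - y0)) ≤ (F z).re) ∧
      ∀ x y Y : ℝ, w ≤ Y → Y ≤ 1 / 4 → |x - θ| ≤ Y → Y / 2 ≤ y - y0 → y - y0 ≤ 2 * Y →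
        (F (pt x y)).re ≤ -(K * w / (C * Y)) + 1 := by
  have hc := con_sphere hγ y0
  have m0 : ∀ z, 0 < max ‖γ z‖ 1 := fun z => lt_max_of_lt_right one_pos
  have hn : ∀ z, ‖γ z / ((max ‖γ z‖ 1 : ℝ) : ℂ)‖ = ‖γ z‖ / max ‖γ z‖ 1 := fun z => by
    rw [norm_div, Complex.norm_real, Real.norm_of_nonneg (m0 z).le]
  have hn1 : ∀ z, ‖γ z / ((max ‖γ z‖ 1 : ℝ) : ℂ)‖ ≤ 1 := fun z => by
    rw [hn, div_le_one (m0 z)]
    exact le_max_left _ _
  have hc' : ContinuousOn (fun z => γ z / ((max ‖γ z‖ 1 : ℝ) : ℂ))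
      (Metric.sphere 0 (Real.exp (-y0))) :=
    hc.div (Complex.continuous_ofReal.comp_continuousOn (hc.norm.sup continuousOn_const))
      fun z _ => Complex.ofReal_ne_zero.2 (m0 z).ne'
  obtain ⟨F, F0, F1, F2, F3, F4⟩ := hP _ y0 θ w K 1 T h0 h1 h2 h3 h4 hc' h5 h6 h7
    (fun x hx => by
      rw [hn]
      exact (div_le_self (norm_nonneg _) (le_max_right _ _)).trans (h8 x hx))
    (by
      have := ms_le (a := 0) (b := 0) (c := 1) hc' hc hc fun z _ => by
        have := hn1 z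
        nlinarith [norm_nonneg (γ z / ((max ‖γ z‖ 1 : ℝ) : ℂ))]
      simpa [ms] using this)
  refine ⟨F, F0, ?_, F2, F3, fun x y Y a1 a2 a3 a4 a5 => ?_⟩
  · have := ms_le (a := 1) (b := 0) (c := 1)
      (con_sphere (f := fun z => γ z * Complex.exp (-F z))
        (fun w hw => (hγ w hw).mul (F0 w).neg.cexp) y0) hc hc fun z hz => by
      have b1 := F1 z hz
      rw [hn, div_le_iff₀ (m0 z)] at b1
      have b2 : ‖γ z * Complex.exp (-F z)‖ ≤ max ‖γ z‖ 1 := by
        rw [norm_V2, Real.exp_neg, ← div_eq_mul_inv, div_le_iff₀ (Real.exp_pos _)]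
        linarith
      have b3 := pow_le_pow_left₀ (norm_nonneg _) b2 2
      rcases max_choice ‖γ z‖ 1 with h | h <;> rw [h] at b3 <;> nlinarith [norm_nonneg (γ z)]
    simpa using this
  · simpa using (F4 x y Y a1 a2 a3 a4 a5).2 0 le_rfl fun z _ => by simpa using hn1 z

theorem sV2 (h1 : SPe) (h2 : SCl) : SV2 := by
  intro C s A B n1 l e g θ hC hP hs hB hn ⟨d1, e0, e1, d2, _, d4⟩ i j K W hi hij hW hst hAi hbx
    x y hx hy1 hy2
  have C0 : 0 < C := by linarith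
  have yi := yy_pos i
  have yj := yy_pos j
  have yji := yy_half hij
  have q4 : ∀ n, 2 ≤ n → yy n ≤ 1 / 4 := fun n h => (yy_anti h).trans (by norm_num [yy])
  have yi4 := q4 i (by omega)
  obtain ⟨θ', c1, c2, c3⟩ := center_V2 hx yi.le
  have w1 : yy j ≤ min W (yy i) := le_min hW (by linarith)
  have w2 : min W (yy i) ≤ yy i := min_le_right _ _
  generalize min W (yy i) = w at *
  have w0 : 0 < w := by linarith
  have i2 : (2 : ℝ) ≤ i := by exact_mod_cast (show 2 ≤ i by omega)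
  obtain ⟨Z, hZ⟩ : ∃ Z, Z = K * w / yy i / C := ⟨_, rfl⟩
  have eX : K * w / yy i = C * Z := by rw [hZ, mul_div_cancel₀ _ C0.ne']
  have eK : K * w = C * Z * yy i := by rw [← eX, div_mul_cancel₀ _ yi.ne']
  rw [eX] at hAi ⊢
  have Zi : 30 * ((B + 20) * i) ≤ Z := le_of_mul_le_mul_left (by linarith) C0
  have Bi : B ≤ B * i := by nlinarith
  have Z0 : 0 < Z := by linarith
  have Kw : 0 < K * w := by rw [eK]; positivity
  have K0 : 0 < K := (mul_pos_iff_of_pos_right w0).1 Kw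
  have C2 : 1 ≤ C ^ 2 := one_le_pow₀ hC
  have G8 : (8 : ℝ) ≤ 2 ^ s := by linarith
  have Gy : ∀ n, 8 * yy n ≤ 2 ^ s * yy n := fun n => mul_le_mul_of_nonneg_right G8 (yy_pos n).le
  have s2 : 2 ≤ s := by
    rcases s with _ | _ | s
    · norm_num at G8
    · norm_num at G8
    · omega
  obtain ⟨F, F0, F1, F2, F3, F4⟩ := pm_V2 hP (θ := θ') (T := Set.Icc (θ' - w) (θ' + w)) yj.le
    (by linarith) w0 (by linarith) K0.le (d1 j) measurableSet_Icc subset_rfl
    (by rw [Real.volume_Icc]; exact ENNReal.ofReal_le_ofReal (by linarith))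
    (fun t ht => hbx t _ (abs_le.2 ⟨by linarith [ht.1], by linarith [ht.2]⟩) le_rfl (by linarith))
  let G : ℕ → ℂ → ℂ := fun n z => g (max n i) z * Complex.exp (-F z)
  have dG : ∀ (n : ℕ) (z : ℂ), z ≠ 0 → DifferentiableAt ℂ (G n) z := fun n z hz =>
    (d1 _ z hz).mul (F0 z).neg.cexp
  have ya : yy (i - s) = 2 ^ s * yy i := by
    rw [← yy_add (i - s) s, Nat.sub_add_cancel (by omega)]
  have ya4 := q4 (i - s) (by omega)
  have eB : B + 1 ≤ Real.exp (B + 1) := by linarith [Real.add_one_le_exp (B + 1)]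
  have eZ : 1 ≤ Real.exp (2 * (Z / 4)) := Real.one_le_exp (by linarith)
  have eM : Real.exp (2 * ((B + 1) / 2 + Z / 4)) = Real.exp (2 * (Z / 4)) * Real.exp (B + 1) := by
    rw [← Real.exp_add]
    congr 1
    ring
  have step : ∀ n, n < j → ∀ d, d = yy n ∨ d = yy (n + 1) →
      ms (fun z => G (n + 1) z - G n z) d ≤ e n ^ 2 := by
    intro n hnj d hd
    rcases lt_or_ge n i with hni | hni
    · have : (fun z => G (n + 1) z - G n z) = fun _ => 0 := by
        funext z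
        simp only [G, max_eq_right (show n + 1 ≤ i by omega), max_eq_right hni.le, sub_self]
      rw [this]
      simpa [ms, Real.circleAverage_const] using sq_nonneg (e n)
    have : (fun z => G (n + 1) z - G n z) =
        fun z => (g (n + 1) z - g n z) * Complex.exp (-F z) := by
      funext z
      simp only [G, max_eq_left (show i ≤ n + 1 by omega), max_eq_left hni, sub_mul]
    rw [this]
    have yn := yy_pos n
    have yn1 := yy_succ n
    have yn4 := q4 n (by omega)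
    have ynj : yy j ≤ yy (n + 1) := yy_anti hnj
    obtain ⟨f1, f2, e3⟩ : yy j ≤ d ∧ d ≤ yy n ∧ (yy n / 4 ≤ d - yy j ∨ yy n ≤ 2 * w) := by
      rcases hd with rfl | rfl
      · exact ⟨by linarith, le_rfl, Or.inl (by linarith)⟩
      · refine ⟨ynj, by linarith, ?_⟩
        rcases lt_or_ge (n + 1) j with h | h
        · exact Or.inl (by linarith [yy_half h])
        · obtain rfl : j = n + 1 := by omega
          exact Or.inr (by linarith)
    have b1 := d2 n (by omega) d (by linarith) f2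
    have p0 : 0 < K * w / yy n := by positivity
    have b5 := mul_le_mul_of_nonneg_left (hst n hni hnj) (show 0 ≤ 4 * C by positivity)
    have b6 : 4 * C * (1 / (30 * C) * l n) = 2 / 15 * l n := by
      field_simp
      ring
    have b8 : 0 < 4 * C * min K (K * w / yy n) := mul_pos (by positivity) (lt_min K0 p0)
    refine (ms_mul_V2 (t := l n / 2) (fun w hw => (d1 _ w hw).sub (d1 _ w hw)) F0
      fun z hz => ?_).trans ?_
    · have b2 := F2 z (by rw [hz]; exact Real.exp_le_exp.2 (by linarith))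
      have b3 : -(F z).re ≤ 4 * C * (K * w / yy n) := by
        rcases e3 with e3 | e3
        · have := F3 z d (by linarith) (by linarith) hz
          have b4 : C * K * w / (d - yy j) ≤ C * K * w / (yy n / 4) :=
            div_le_div_of_nonneg_left (by positivity) (by positivity) e3
          have b5 : C * K * w / (yy n / 4) = 4 * C * (K * w / yy n) := by
            field_simp
          linarith
        · have b4 : K ≤ 2 * (K * w / yy n) := by
            rw [← mul_div_assoc, le_div_iff₀ yn]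
            linarith [mul_le_mul_of_nonneg_left e3 K0.le]
          linarith [mul_le_mul_of_nonneg_right hC p0.le]
      have b4 : -(F z).re ≤ 4 * C * min K (K * w / yy n) := by
        rcases min_choice K (K * w / yy n) with e | e <;> rw [e]
        · linarith [mul_le_mul_of_nonneg_right hC K0.le]
        · exact b3
      linarith
    · refine (mul_le_mul_of_nonneg_left b1 (Real.exp_pos _).le).trans (le_of_eq ?_)
      rw [mul_left_comm, ← Real.exp_add]
      simp [show 2 * (l n / 2) = l n by ring]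
  have chain := h2 G (i - s) j ((B + 1) / 2 + Z / 4) e (by positivity) dG
    (by
      have b0 : 4 * C ^ 2 * yy i ≤ yy (i - s) - yy j := by
        rw [ya]
        linarith [mul_le_mul_of_nonneg_right hs yi.le, Gy i]
      have b00 : 0 < 4 * C ^ 2 * yy i := by positivity
      have b3 : C * K * w / (yy (i - s) - yy j) ≤ Z / 4 := by
        rw [div_le_iff₀ (by linarith), mul_assoc, eK]
        linarith [mul_le_mul_of_nonneg_left b0 Z0.le]
      have b1 := d4 i hi (yy (i - s)) (yy_pos _).le ya.le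
      change ms (fun z => g (max (i - s) i) z * Complex.exp (-F z)) _ ≤ _
      rw [max_eq_right (Nat.sub_le _ _), eM]
      refine (ms_mul_V2 (t := Z / 4) (d1 i) F0 fun z hz => ?_).trans
        (mul_le_mul_of_nonneg_left (by linarith) (Real.exp_pos _).le)
      linarith [F3 z (yy (i - s)) (by linarith) (by linarith) hz])
    (by
      change ms (fun z => g (max j i) z * Complex.exp (-F z)) _ ≤ _
      rw [max_eq_left hij.le, eM]
      have := d4 j (by omega) _ yj.le (by linarith [Gy j])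
      nlinarith)
    e0 e1 fun n _ hnj => ⟨step n hnj _ (Or.inl rfl), step n hnj _ (Or.inr rfl)⟩
  have y2 : yy (i - 2) = 4 * yy i := by
    have := yy_add (i - 2) 2
    rw [Nat.sub_add_cancel (by omega)] at this
    linarith
  have eG : G (i - 2) = G i := by
    funext z
    simp only [G, max_eq_right (Nat.sub_le i 2), max_self]
  obtain ⟨Q, hQ⟩ : ∃ Q, Q = Real.exp (2 * ((B + 1) / 2 + Z / 4 + 3)) := ⟨_, rfl⟩
  have Q1 : 1 ≤ Q := hQ ▸ Real.one_le_exp (by positivity)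
  rw [← hQ] at chain
  have ei : e i ≤ 1 := (Finset.single_le_sum (f := e) (fun n _ => (e0 n).le)
    (Finset.self_mem_range_succ i)).trans (e1 (i + 1))
  have m1 : ms (G i) (yy i / 2) ≤ 4 * Q := by
    rw [← yy_succ]
    have b1 := ms_le (a := 2) (b := 2) (c := 0) (con_sphere (dG i) (yy (i + 1)))
      (con_sphere (dG (i + 1)) _) (con_sphere (f := fun z => G (i + 1) z - G i z)
        (fun w hw => (dG _ w hw).sub (dG _ w hw)) _) fun z _ => by
      have := norm_sub_le (G (i + 1) z) (G (i + 1) z - G i z)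
      rw [sub_sub_cancel] at this
      nlinarith [norm_nonneg (G i z), sq_nonneg (‖G (i + 1) z‖ - ‖G (i + 1) z - G i z‖),
        norm_nonneg (G (i + 1) z), norm_nonneg (G (i + 1) z - G i z)]
    have b2 := chain (i + 1) (by omega) hij
    have b3 := step i hij _ (Or.inr rfl)
    nlinarith [e0 i]
  have m2 : ms (G i) (4 * yy i) ≤ 4 * Q := by
    rw [← y2, ← eG]
    linarith [chain (i - 2) (by omega) (by omega)]
  have k1 := h1 (G i) (yy i / 2) (4 * yy i) y (4 * Q) (pt x y) (dG i) (by linarith) (by linarith)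
    (by linarith) (by linarith) m1 m2 (norm_pt x y)
  have k2 : 1 / (y - yy i / 2) + 1 / (4 * yy i - y) ≤ 5 / 2 * 2 ^ i := by
    have b1 : 1 / (y - yy i / 2) ≤ 1 / (yy i / 2) :=
      one_div_le_one_div_of_le (by positivity) (by linarith)
    have b2 : 1 / (4 * yy i - y) ≤ 1 / (2 * yy i) :=
      one_div_le_one_div_of_le (by positivity) (by linarith)
    have b3 : (2 : ℝ) ^ i = 1 / yy i := by rw [eq_div_iff yi.ne', mul_comm, yy_mul]
    have b4 : 1 / (yy i / 2) + 1 / (2 * yy i) = 5 / 2 * (1 / yy i) := by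
      field_simp
      norm_num
    rw [b3]
    linarith
  have k3 : (2 : ℝ) ^ i ≤ Real.exp i := by
    rw [← mul_one (i : ℝ), Real.exp_nat_mul]
    exact pow_le_pow_left₀ zero_le_two (by linarith [Real.add_one_le_exp 1]) i
  have k4 : ‖G i (pt x y)‖ ≤ Real.exp ((B + 1) / 2 + Z / 4 + 3 + 40 + i / 2) := by
    refine abs_le_of_sq_le_sq' (k1.trans ?_) (Real.exp_pos _).le |>.2
    rw [← Real.exp_nat_mul, show ((2 : ℕ) : ℝ) * ((B + 1) / 2 + Z / 4 + 3 + 40 + i / 2) =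
      2 * ((B + 1) / 2 + Z / 4 + 3) + (80 + i) by push_cast; ring, Real.exp_add, ← hQ,
      Real.exp_add]
    have b1 := Real.add_one_le_exp (80 : ℝ)
    have b2 : (0 : ℝ) < 2 ^ i := by positivity
    calc 6 * (4 * Q + 1) * (1 / (y - yy i / 2) + 1 / (4 * yy i - y))
        ≤ 6 * (5 * Q) * (5 / 2 * 2 ^ i) := by
          refine mul_le_mul (by linarith) k2 ?_ (by positivity)
          exact add_nonneg (one_div_nonneg.2 (by linarith)) (one_div_nonneg.2 (by linarith))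
      _ = Q * (75 * 2 ^ i) := by ring
      _ ≤ _ := by gcongr; linarith
  have k5 : K * w / (C * yy i) = Z := by
    rw [eK, div_eq_iff (by positivity)]
    ring
  have k6 := F4 x y (yy i) w2 yi4 c1 (by linarith) (by linarith)
  rw [k5] at k6
  have k7 : ‖g i (pt x y)‖ = ‖G i (pt x y)‖ * Real.exp (F (pt x y)).re := by
    change _ = ‖g (max i i) _ * Complex.exp (-F _)‖ * _
    rw [max_self, norm_V2, mul_assoc, ← Real.exp_add, neg_add_cancel, Real.exp_zero, mul_one]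
  have k8 : 1 / (30 * C) * (C * Z) = Z / 30 := by field_simp
  rw [k7, k8]
  refine (mul_le_mul_of_nonneg_right k4 (Real.exp_pos _).le).trans ?_
  rw [← Real.exp_add]
  exact Real.exp_le_exp.2 (by linarith)

end Pool.Agent.MP_17fac5_an.Ch

end

section

set_option autoImplicit false
open MeasureTheory Filter Topology

namespace Pool.Agent.MP_17fac5_an.Ch

open Pool.Agent.MP_17fac5_an.H19 (ex)

theorem cont_U2 {f : ℂ → ℂ} (hf : ∀ z : ℂ, z ≠ 0 → DifferentiableAt ℂ f z) :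
    Continuous fun t : ℝ => ‖f (ex t)‖ := by
  refine continuous_norm.comp (continuous_iff_continuousAt.2 fun t => ?_)
  refine ContinuousAt.comp (f := ex) (hf _ fun e => ?_).continuousAt H19.cont_ex.continuousAt
  have := H19.norm_ex t
  rw [e, norm_zero] at this
  exact zero_ne_one this

theorem avg_U2 {f : ℂ → ℂ} {y η : ℝ}
    (h : ∀ x ∈ Set.Icc (0 : ℝ) (2 * Real.pi), ‖f (pt x y)‖ ≤ η) :
    ‖Real.circleAverage f 0 (Real.exp (-y))‖ ≤ η := by
  have hp : (0 : ℝ) < 2 * Real.pi := by positivity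
  have e : ∀ x : ℝ, circleMap 0 (Real.exp (-y)) x = pt x y := fun x => by
    rw [circleMap_zero, pt]
  have k := intervalIntegral.norm_integral_le_of_norm_le_const (a := 0) (b := 2 * Real.pi)
    (f := fun x => f (circleMap 0 (Real.exp (-y)) x)) (C := η) fun x hx => by
      rw [Set.uIoc_of_le hp.le] at hx
      rw [e]
      exact h x ⟨hx.1.le, hx.2⟩
  rw [sub_zero, abs_of_pos hp] at k
  rw [Real.circleAverage_def, norm_smul, Real.norm_of_nonneg (inv_nonneg.2 hp.le),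
    inv_mul_le_iff₀ hp, mul_comm _ η]
  exact k

theorem vol_U2 {F I J : Set ℝ} {u : ℝ → ℝ} {a y : ℝ} (hy : 0 < y) (hI : I ⊆ J)
    (h1 : ENNReal.ofReal y ≤ volume (F ∩ I))
    (h2 : volume {x : ℝ | x ∈ J ∧ x ∈ F ∧ a < u x} ≤ ENNReal.ofReal (y / 2)) :
    ENNReal.ofReal (y / 2) ≤ volume {x : ℝ | x ∈ F ∩ I ∧ u x ≤ a} := by
  have h3 : F ∩ I ⊆ {x : ℝ | x ∈ F ∩ I ∧ u x ≤ a} ∪ {x : ℝ | x ∈ J ∧ x ∈ F ∧ a < u x} :=
    fun x hx => (le_or_gt (u x) a).imp (fun h => ⟨hx, h⟩) fun h => ⟨hI hx.2, hx.1, h⟩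
  have h4 := h1.trans ((measure_mono h3).trans ((measure_union_le _ _).trans
    (add_le_add le_rfl h2)))
  rw [show y = y / 2 + y / 2 by ring, ENNReal.ofReal_add (by linarith) (by linarith),
    show (y / 2 + y / 2) / 2 = y / 2 by ring] at h4
  exact (ENNReal.add_le_add_iff_right ENNReal.ofReal_ne_top).1 h4

theorem jump_U2 {l : ℕ → ℝ}
    (h : ∀ A : ℝ, ∀ᶠ n : ℕ in atTop, l (n + 1) = l n ∨ A * (n + 1) ≤ l (n + 1)) {k : ℝ}
    (hk : 0 < k) (r : ℕ) (A : ℝ) : ∀ᶠ n : ℕ in atTop,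
      k * l (n + 1 - r) = k * l (n - r) ∨ A * (n + 1) ≤ k * l (n + 1 - r) := by
  obtain ⟨m0, hm⟩ := eventually_atTop.1 (h (2 * |A| / k))
  filter_upwards [eventually_ge_atTop (m0 + r), eventually_ge_atTop (2 * r)] with n h1 h2
  obtain ⟨m, rfl⟩ : ∃ m, n = m + r := ⟨n - r, by omega⟩
  rw [show m + r + 1 - r = m + 1 by omega, Nat.add_sub_cancel]
  refine (hm m (by omega)).imp (fun e => by rw [e]) fun h3 => ?_
  rw [div_mul_eq_mul_div, div_le_iff₀ hk] at h3
  have h4 : (r : ℝ) ≤ m := by exact_mod_cast (by omega : r ≤ m)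
  have h5 := le_abs_self A
  have h6 := abs_nonneg A
  have h7 : (0 : ℝ) ≤ r := Nat.cast_nonneg r
  push_cast
  nlinarith

theorem small_U2 (a : ℝ) {h : ℝ} (h0 : 0 < h) :
    ∀ᶠ t : ℕ in atTop, a * ((t + 1) * yy t) ≤ h := by
  have h1 := ((tendsto_self_mul_const_pow_of_lt_one (r := (1 / 2 : ℝ)) (by norm_num)
    (by norm_num)).add yy_tendsto).const_mul a
  rw [add_zero, mul_zero] at h1
  refine (h1.eventually (ge_mem_nhds h0)).mono fun t ht => ?_
  rw [add_mul, one_mul]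
  exact ht

theorem exp_U2 (n : ℕ) : Real.exp (-(n : ℝ)) ≤ yy n := by
  have h1 : Real.exp (-1) ≤ 1 / 2 := by
    rw [Real.exp_neg, ← one_div]
    exact one_div_le_one_div_of_le two_pos (by linarith [Real.add_one_le_exp (1 : ℝ)])
  rw [show -(n : ℝ) = n * (-1) by ring, Real.exp_nat_mul]
  exact pow_le_pow_left₀ (Real.exp_pos _).le h1 n

theorem tiny_U2 {p : ℕ} {x : ℝ} (h : 10 * ((p : ℝ) + 1) ≤ x) :
    16 * Real.exp (-(x / 2)) ≤ yy p / 2 := by
  have h0 : (0 : ℝ) ≤ p := Nat.cast_nonneg p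
  have h1 : Real.exp (-(x / 2)) ≤ Real.exp (-((p + 5 : ℕ) : ℝ)) :=
    Real.exp_le_exp.2 (by push_cast; linarith)
  have h2 := exp_U2 (p + 5)
  have h3 := yy_add p 5
  linarith

theorem Dat_U2 {s : ℕ} {A B : ℝ} {m n : ℕ} {l e : ℕ → ℝ} {g : ℕ → ℂ → ℂ}
    (h : Dat2 s A B m l e g) (hm : m ≤ n) : Dat2 s A B n l e g :=
  ⟨h.1, h.2.1, h.2.2.1, fun t ht => h.2.2.2.1 t (hm.trans ht),
    fun t ht => h.2.2.2.2.1 t (hm.trans ht), fun t ht => h.2.2.2.2.2 t (hm.trans ht)⟩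

theorem Bx_U2 (g : ℕ → ℂ → ℂ) (θ : ℝ) (n : ℕ) (K W K' W' : ℝ) (h : Bx g θ n K W) (hK : K' ≤ K)
    (hW : W' ≤ W) : Bx g θ n K' W' := fun x y hx h1 h2 =>
  (h x y (hx.trans hW) h1 h2).trans (Real.exp_le_exp.2 (neg_le_neg hK))

theorem sU2 (h1 : SPm) (h2 : SH2) (h3 : SV2) (h4 : ST2) (h5 : SG2) (h6 : SRl) (h7 : SB2)
    (h8 : SD2) (h9 : SNt) : SU2 := by
  intro β F C B0 n0 l hβ hF hF' hβ0 hC hB00 hl hm hT0 hD hJ hc
  obtain ⟨C0, hC0, hP⟩ := h1
  obtain ⟨s, hs2, hs⟩ : ∃ s : ℕ, 3 ≤ s ∧ 8 * C0 ^ 2 ≤ 2 ^ s := by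
    obtain ⟨s, hs⟩ := pow_unbounded_of_one_lt (8 * C0 ^ 2) (one_lt_two (α := ℝ))
    exact ⟨max s 3, le_max_right _ _,
      hs.le.trans (pow_le_pow_right₀ one_le_two (le_max_left _ _))⟩
  have hk : (0 : ℝ) < 1 / 2 ^ (s + 4) := by positivity
  obtain ⟨lam, hlam⟩ : ∃ lam : ℕ → ℝ, lam = fun n => 1 / 2 ^ (s + 4) * l (n - (s + 1)) := ⟨_, rfl⟩
  have l0 : ∀ n, 0 < lam n := fun n => hlam ▸ mul_pos hk (hl _)
  have l1 : Monotone lam := fun a b hab =>
    hlam ▸ mul_le_mul_of_nonneg_left (hm (Nat.sub_le_sub_right hab _)) hk.le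
  have l2 : DD C (n0 + (s + 1)) lam := hlam ▸ DD_shift hk (s + 1) hD
  have l3 : ∀ A : ℝ, ∀ᶠ n : ℕ in atTop, lam (n + 1) = lam n ∨ A * (n + 1) ≤ lam (n + 1) :=
    fun A => hlam ▸ jump_U2 hJ.2 hk (s + 1) A
  have l4 : Tendsto lam atTop atTop :=
    hlam ▸ (hT0.comp (tendsto_sub_atTop_nat (s + 1))).const_mul_atTop hk
  obtain ⟨N, e, n1, hB⟩ := h7 (cf β) B0 n0 s l (by omega) hB00 hl hm hT0 hJ.1 hc
  rw [← hlam] at hB
  obtain ⟨A, B, n2, hA, hB0, hg⟩ :=
    h8 β F s lam N e n1 hβ hF hβ0 hs2 (fun n => (l0 n).le) l1 hB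
  have c0 : 0 < 1 / (30 * C0) := by positivity
  have c1 : 1 / (30 * C0) ≤ 1 / 30 := one_div_le_one_div_of_le (by norm_num) (by linarith)
  obtain ⟨A1, δ, hδ, hG⟩ := h5 (1 / (30 * C0)) (8 * C) (30 * C0 * (A + B + 20)) c0
    (by linarith) (by linarith) (by positivity)
  have b1 : 30 * A ≤ 30 * C0 * (A + B + 20) := by nlinarith
  have b2 : 30 * C0 * (B + 20) ≤ 30 * C0 * (A + B + 20) := by nlinarith
  have h0 : 0 < yy (n0 + (s + 1)) * lam (n0 + (s + 1)) := mul_pos (yy_pos _) (l0 _)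
  refine norm_le_zero_iff.1 (le_of_forall_pos_le_add fun η hη => ?_)
  rw [zero_add]
  have e1 : ∀ᶠ n : ℕ in atTop, Real.exp (-(δ * lam n)) ≤ η :=
    (Real.tendsto_exp_neg_atTop_nhds_zero.comp (l4.const_mul_atTop hδ)).eventually
      (ge_mem_nhds hη)
  obtain ⟨m0, hm0⟩ := eventually_atTop.1 (e1.and ((l3 A1).and
    ((small_U2 (2 * (8 * C) * A1) h0).and (eventually_ge_atTop (n0 + (s + 1) + n2 + (s + 2))))))
  obtain ⟨t, ht, hne⟩ : ∃ t, m0 ≤ t ∧ lam (t + 1) ≠ lam t := by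
    by_contra hc
    push Not at hc
    have a1 : ∀ t, m0 ≤ t → lam t = lam m0 := fun t ht => by
      induction t, ht using Nat.le_induction with
      | base => rfl
      | succ t ht ih => rw [hc t ht, ih]
    obtain ⟨t, a2, a3⟩ :=
      ((l4.eventually_gt_atTop (lam m0)).and (eventually_ge_atTop m0)).exists
    exact a2.ne' (a1 t a3)
  obtain ⟨n, hn, e2⟩ : ∃ n : ℕ, m0 ≤ n ∧ A1 * n ≤ lam n :=
    ⟨t + 1, by omega, by push_cast; exact (hm0 t ht).2.1.resolve_left hne⟩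
  have hn' := (hm0 n hn).2.2.2
  obtain ⟨m, hm'⟩ := eventually_atTop.1
    ((h9 F (yy n) hF hF' (yy_pos n)).and (small_U2 (8 * C * 10) h0))
  obtain ⟨p, hp, hT⟩ := h6 C _ lam hC l0 l1 l4 l2 (m + n)
  obtain ⟨g, g1, g2, g3⟩ := hg p (by omega)
  have g4 : Dat2 s A B n lam e g := Dat_U2 g1 (by omega)
  have e3 : 10 * ((p : ℝ) + 1) ≤ lam p := by
    have a1 := hT (n0 + (s + 1)) p le_rfl (by omega) le_rfl
    rw [RR_self, add_zero] at a1
    have a2 := (hm' p (by omega)).2.trans a1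
    have a3 : 0 < 8 * C * yy p := mul_pos (by linarith) (yy_pos p)
    refine le_of_mul_le_mul_left ?_ a3
    linarith
  have g5 := g3.trans (ENNReal.ofReal_le_ofReal (tiny_U2 e3))
  rw [← g2 n _ (Real.exp_pos (-yy n))]
  refine avg_U2 fun x hx => le_trans ?_ (hm0 n hn).1
  obtain ⟨θ, t1, t2, t3⟩ := (hm' p (by omega)).1 x hx
  refine hG lam _ n p (Bx g θ) l0 l1 (by omega) (by omega) hT (fun u hu => ?_)
    (fun u hu => (hm0 u (hn.trans hu)).2.1) e2 (Bx_U2 g θ) (fun u K W hu hW hK hb => ?_)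
    (fun i j K W a1 a2 a3 a4 a5 => h3 C0 s A B n lam e g θ hC0 hP hs hB0 (by omega) g4
      i j K W a1 a2 a3 a4 ((mul_le_mul_of_nonneg_right b2 (Nat.cast_nonneg i)).trans a5))
    (fun a1 => ?_) x (yy n) t1 le_rfl (by linarith [yy_pos n])
  · have a1 := (hm0 u (hn.trans hu)).2.2.1
    linarith
  · have a1 : (0 : ℝ) ≤ u := Nat.cast_nonneg u
    have a2 : 30 * A * u ≤ 30 * C0 * (A + B + 20) * u := mul_le_mul_of_nonneg_right b1 a1
    have a3 : 0 ≤ K := le_trans (by positivity) (a2.trans hK)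
    exact Bx_U2 g θ _ _ _ _ _ (h2 s A B n lam e g θ hA g4 u K W hu hW (a2.trans hK) hb)
      (mul_le_mul_of_nonneg_right c1 a3) le_rfl
  · exact h4 C0 s A B n lam e g θ hC0 hP hs hB0 (by omega) g4 p (lam p / 4)
      {t : ℝ | t ∈ F ∩ Set.Icc (θ - yy p) (θ + yy p) ∧ ‖g p (ex t)‖ ≤ Real.exp (-(lam p / 4))}
      (by omega) ((hF.inter measurableSet_Icc).inter
        (measurableSet_le (cont_U2 (g4.1 p)).measurable measurable_const))
      (fun t ht => ht.1.2) (vol_U2 (yy_pos p) t2 t3 g5) (fun t ht => ht.2)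
      ((mul_le_mul_of_nonneg_right b2 (Nat.cast_nonneg p)).trans a1)

end Pool.Agent.MP_17fac5_an.Ch

end

section

set_option autoImplicit false
open MeasureTheory Filter Topology

namespace Pool.Agent.MP_17fac5_an.Ch

open Pool.Agent.MP_17fac5_an.H19 (ex)

/-- Shifting a function by a constant changes its square integral in a controlled way. -/
theorem shift_Nw (m : Measure ℂ) [IsFiniteMeasure m] (f : ℂ → ℂ) (d : ℂ) {a : ℝ} (ha : 0 ≤ a)
    (h : (∫⁻ z, ‖f z‖ₑ ^ (2 : ℕ) ∂m) ≤ ENNReal.ofReal a) :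
    (∫⁻ z, ‖f z + d‖ₑ ^ (2 : ℕ) ∂m) ≤
      ENNReal.ofReal (2 * a + 2 * ‖d‖ ^ 2 * m.real Set.univ) := by
  have h1 : ∀ z, ‖f z + d‖ₑ ^ (2 : ℕ) ≤
      2 * ‖f z‖ₑ ^ (2 : ℕ) + ENNReal.ofReal (2 * ‖d‖ ^ 2) := fun z => by
    rw [H19.enorm_sq, H19.enorm_sq, ← ENNReal.ofReal_ofNat 2, ← ENNReal.ofReal_mul (by norm_num),
      ← ENNReal.ofReal_add (by positivity) (by positivity)]
    apply ENNReal.ofReal_le_ofReal
    have h2 := norm_add_le (f z) d
    have h3 : ‖f z + d‖ ^ 2 ≤ (‖f z‖ + ‖d‖) ^ 2 := by gcongr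
    nlinarith [sq_nonneg (‖f z‖ - ‖d‖)]
  refine (lintegral_mono h1).trans ?_
  rw [lintegral_add_right _ measurable_const, lintegral_const_mul' _ _ (by simp), lintegral_const,
    ENNReal.ofReal_add (by positivity) (by positivity),
    ENNReal.ofReal_mul (p := 2) (q := a) (by norm_num),
    ENNReal.ofReal_mul (p := 2 * ‖d‖ ^ 2) (by positivity), ofReal_measureReal,
    ENNReal.ofReal_ofNat]
  gcongr

theorem sNw : SNw := by
  intro G W hG hfin hW hWi ht hone g hg hg2 ε hε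
  have hm : Measurable fun z : ℂ => ENNReal.ofReal (G ‖z‖) :=
    (hG.comp measurable_norm).ennreal_ofReal
  have hex : Measurable ex := H19.cont_ex.measurable
  have hw : Measurable fun θ : ℝ => ENNReal.ofReal (W (ex θ)) := (hW.comp hex).ennreal_ofReal
  set ν : Measure ℂ := (volume.restrict (Metric.ball (0 : ℂ) 1)).withDensity
    fun z => ENNReal.ofReal (G ‖z‖) with hν
  set μ : Measure ℂ := (((volume.restrict (Set.Ioc (0 : ℝ) (2 * Real.pi))).withDensity
    fun θ => ENNReal.ofReal (W (ex θ)))).map ex with hμ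
  have eν : ∀ f : ℂ → ENNReal, Measurable f → ∫⁻ z, f z ∂ν =
      ∫⁻ z in Metric.ball (0 : ℂ) 1, ENNReal.ofReal (G ‖z‖) * f z := fun f hf => by
    rw [hν, lintegral_withDensity_eq_lintegral_mul _ hm hf]; rfl
  have eμ : ∀ f : ℂ → ENNReal, Measurable f → ∫⁻ z, f z ∂μ =
      ∫⁻ θ in Set.Ioc (0 : ℝ) (2 * Real.pi), ENNReal.ofReal (W (ex θ)) * f (ex θ) :=
    fun f hf => by
      rw [hμ, lintegral_map hf hex,
        lintegral_withDensity_eq_lintegral_mul _ hw (g := fun θ => f (ex θ)) (hf.comp hex)]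
      rfl
  have i1 : IsFiniteMeasure ν := isFiniteMeasure_withDensity hfin.ne
  have i2 : IsFiniteMeasure ((volume.restrict (Set.Ioc (0 : ℝ) (2 * Real.pi))).withDensity
    fun θ => ENNReal.ofReal (W (ex θ))) := isFiniteMeasure_withDensity hWi.ne
  have i3 : IsFiniteMeasure μ := Measure.isFiniteMeasure_map _ _
  have aν : ∀ᵐ z ∂ν, ‖z‖ < 1 := by
    refine (withDensity_absolutelyContinuous _ _).ae_le ?_
    filter_upwards [ae_restrict_mem measurableSet_ball] with z hz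
    simpa using hz
  have aμ : ∀ᵐ z ∂μ, ‖z‖ = 1 :=
    (ae_map_iff hex.aemeasurable (measurableSet_eq_fun measurable_norm measurable_const)).2
      (ae_of_all _ H19.norm_ex)
  have hp : ∀ p : Polynomial ℂ, Measurable fun z : ℂ => p.eval z := fun p =>
    p.continuous.measurable
  have htf : tail G 0 ≠ ⊤ :=
    ne_top_of_le_ne_top hfin.ne (lintegral_mono_set Set.sdiff_subset)
  have ht0 : 0 < (tail G 0).toReal := ENNReal.toReal_pos ht htf
  have hh : ∀ δ : ℝ, 0 < δ → ∃ h : Polynomial ℂ, h.eval 0 = 1 ∧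
      (∫⁻ z, ‖h.eval z‖ₑ ^ (2 : ℕ) ∂μ) < ENNReal.ofReal δ ∧
      (∫⁻ z, ‖h.eval z - 1‖ₑ ^ (2 : ℕ) ∂ν) < ENNReal.ofReal δ := by
    intro δ hδ
    obtain ⟨t, et⟩ : ∃ t, t = (tail G 0).toReal := ⟨_, rfl⟩
    obtain ⟨A, eA⟩ : ∃ A, A = μ.real Set.univ := ⟨_, rfl⟩
    obtain ⟨B, eB⟩ : ∃ B, B = ν.real Set.univ := ⟨_, rfl⟩
    have t0 : 0 < t := et ▸ ht0
    have A0 : 0 ≤ A := eA ▸ measureReal_nonneg
    have B0 : 0 ≤ B := eB ▸ measureReal_nonneg
    obtain ⟨η, eη⟩ : ∃ η, η = δ * t / (3 * (t + A + B)) := ⟨_, rfl⟩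
    have η0 : 0 < η := by rw [eη]; positivity
    have eη' : η * (3 * (t + A + B)) = δ * t := by rw [eη]; field_simp
    obtain ⟨h, e1, e2⟩ := hone η η0
    have e3 := H19.radS G (h - 1) 0 hG le_rfl
    simp only [Polynomial.eval_sub, Polynomial.eval_one, Real.circleAverage_zero] at e3
    have e4 : tail G 0 * ENNReal.ofReal (‖h.eval 0 - 1‖ ^ 2) ≤ ENNReal.ofReal η :=
      e3.trans e2.le
    rw [← ENNReal.ofReal_toReal htf, ← et, ← ENNReal.ofReal_mul t0.le,
      ENNReal.ofReal_le_ofReal_iff η0.le, norm_sub_rev] at e4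
    rw [← eμ (fun z => ‖h.eval z‖ₑ ^ (2 : ℕ)) ((hp h).enorm.pow_const 2)] at e1
    rw [← eν (fun z => ‖h.eval z - 1‖ₑ ^ (2 : ℕ))
      (((hp h).sub measurable_const).enorm.pow_const 2)] at e2
    have f1 := shift_Nw μ _ (1 - h.eval 0) η0.le e1.le
    have f2 := shift_Nw ν _ (1 - h.eval 0) η0.le e2.le
    rw [← eA] at f1
    rw [← eB] at f2
    have D0 : 0 ≤ ‖1 - h.eval 0‖ ^ 2 := by positivity
    have key : ∀ X : ℝ, 0 ≤ X → X ≤ A + B → 2 * η + 2 * ‖1 - h.eval 0‖ ^ 2 * X < δ := by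
      intro X X0 hX
      refine lt_of_mul_lt_mul_right ?_ t0.le
      have k1 : t * ‖1 - h.eval 0‖ ^ 2 * X ≤ η * (A + B) :=
        mul_le_mul e4 hX X0 η0.le
      nlinarith [mul_pos η0 t0, mul_nonneg η0.le A0, mul_nonneg η0.le B0]
    refine ⟨h + Polynomial.C (1 - h.eval 0), by simp, ?_, ?_⟩
    · simp only [Polynomial.eval_add, Polynomial.eval_C]
      exact f1.trans_lt ((ENNReal.ofReal_lt_ofReal_iff hδ).2 (key A A0 (by linarith)))
    · simp only [Polynomial.eval_add, Polynomial.eval_C, add_sub_right_comm _ (1 - h.eval 0)]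
      exact f2.trans_lt ((ENNReal.ofReal_lt_ofReal_iff hδ).2 (key B B0 (by linarith)))
  obtain ⟨p, hp1, hp2⟩ := H19.finS H19.swS μ ν aμ aν hh g hg
    (by rwa [eμ _ (hg.enorm.pow_const 2)]) ε hε
  rw [eν _ ((hp p).enorm.pow_const 2)] at hp1
  rw [eμ (fun z => ‖p.eval z - g z‖ₑ ^ (2 : ℕ)) (((hp p).sub hg).enorm.pow_const 2)] at hp2
  exact ⟨p, hp1, hp2⟩

end Pool.Agent.MP_17fac5_an.Ch

end

section

set_option autoImplicit false
open MeasureTheory Filter Topology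

namespace Pool.Agent.MP_17fac5_an.Ch

open Pool.Agent.MP_17fac5_an.H19 (ex)

theorem dual_Dl {X Y P : Type} [NormedAddCommGroup X] [InnerProductSpace ℂ X] [CompleteSpace X]
    [NormedAddCommGroup Y] [InnerProductSpace ℂ Y] [CompleteSpace Y] [AddCommGroup P] [Module ℂ P]
    (A : P →ₗ[ℂ] X) (B : P →ₗ[ℂ] Y) (u : X) :
    (∀ ε : ℝ, 0 < ε → ∃ p, ‖A p - u‖ < ε ∧ ‖B p‖ < ε) ∨
      ∃ (b1 : X) (b2 : Y), (∀ p, inner ℂ b1 (A p) + inner ℂ b2 (B p) = 0) ∧ inner ℂ b1 u ≠ 0 := by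
  let T : P →ₗ[ℂ] WithLp 2 (X × Y) :=
    (WithLp.linearEquiv 2 ℂ (X × Y)).symm.toLinearMap ∘ₗ A.prod B
  by_cases h : WithLp.toLp 2 (u, (0 : Y)) ∈ (LinearMap.range T).topologicalClosure
  · refine Or.inl fun ε hε => ?_
    obtain ⟨_, ⟨p, rfl⟩, hp⟩ := Metric.mem_closure_iff.1 h ε hε
    rw [dist_comm, dist_eq_norm] at hp
    refine ⟨p, (WithLp.norm_fst_le _ _).trans_lt hp, ?_⟩
    have := (WithLp.norm_snd_le _ _).trans_lt hp
    change ‖B p - 0‖ < ε at this
    rwa [sub_zero] at this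
  · right
    rw [← Submodule.orthogonal_orthogonal_eq_closure, Submodule.mem_orthogonal] at h
    push Not at h
    obtain ⟨b, hb, hu⟩ := h
    refine ⟨b.fst, b.snd, fun p => (Submodule.mem_orthogonal' _ _).1 hb (T p) ⟨p, rfl⟩, ?_⟩
    have e : inner ℂ b (WithLp.toLp 2 (u, (0 : Y))) = inner ℂ b.fst u + inner ℂ b.snd (0 : Y) := rfl
    rwa [e, inner_zero_right, add_zero] at hu

theorem lin_Dl {α : Type} [MeasurableSpace α] (m : Measure α) [IsFiniteMeasure m] (φ : α → ℂ)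
    (hφ : Measurable φ) (h1 : ∀ᵐ a ∂m, ‖φ a‖ ≤ 1) :
    ∃ A : Polynomial ℂ →ₗ[ℂ] Lp ℂ 2 m, ∀ p, A p =ᵐ[m] fun a => p.eval (φ a) := by
  have hp : ∀ p : Polynomial ℂ, MemLp (fun a => p.eval (φ a)) 2 m := by
    intro p
    obtain ⟨C, hC⟩ := (isCompact_closedBall (0 : ℂ) 1).exists_bound_of_continuousOn
      p.continuous.continuousOn
    refine MemLp.of_bound (p.continuous.measurable.comp hφ).aestronglyMeasurable C ?_
    filter_upwards [h1] with a ha
    exact hC _ (by simpa using ha)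
  refine ⟨⟨⟨fun p => (hp p).toLp _, fun p q => ?_⟩, fun c p => ?_⟩, fun p => (hp p).coeFn_toLp⟩
  · rw [← MemLp.toLp_add]
    exact MemLp.toLp_congr _ _ (Eventually.of_forall fun a => by simp)
  · rw [RingHom.id_apply, ← MemLp.toLp_const_smul]
    exact MemLp.toLp_congr (hp _) _ (Eventually.of_forall fun a => by simp)

theorem sq_Dl {α : Type} [MeasurableSpace α] {m : Measure α} {f : Lp ℂ 2 m} {g : α → ℂ}
    (h : f =ᵐ[m] g) : (∫⁻ a, ‖g a‖ₑ ^ (2 : ℕ) ∂m) = ENNReal.ofReal (‖f‖ ^ 2) := by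
  have h1 := eLpNorm_nnreal_pow_eq_lintegral (f := g) (μ := m) (p := 2) (by norm_num)
  have e : ((2 : NNReal) : ℝ) = ((2 : ℕ) : ℝ) := by norm_num
  simp only [e, ENNReal.rpow_natCast] at h1
  rw [← h1, ENNReal.ofReal_pow (norm_nonneg _), Lp.norm_def,
    ENNReal.ofReal_toReal (Lp.eLpNorm_ne_top f), eLpNorm_congr_ae h]
  rfl

theorem mom_Dl {G : ℝ → ℝ}
    (hfin : (∫⁻ z in Metric.ball (0 : ℂ) 1, ENNReal.ofReal (G ‖z‖)) < ⊤) (k : ℕ) {ρ t : ℝ}
    (_hρ : 0 ≤ ρ) (hT : tail G ρ ≤ ENNReal.ofReal (t ^ 2)) :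
    (∫⁻ z in Metric.ball (0 : ℂ) 1, ENNReal.ofReal (G ‖z‖) * ‖z ^ k‖ₑ ^ (2 : ℕ)) ≤
      ENNReal.ofReal ((∫⁻ z in Metric.ball (0 : ℂ) 1, ENNReal.ofReal (G ‖z‖)).toReal *
        (ρ ^ k) ^ 2 + t ^ 2) := by
  rw [← lintegral_inter_add_sdiff _ _ (measurableSet_ball (x := (0 : ℂ)) (ε := ρ)),
    ENNReal.ofReal_add (by positivity) (by positivity),
    ENNReal.ofReal_mul ENNReal.toReal_nonneg, ENNReal.ofReal_toReal hfin.ne]
  refine add_le_add ?_ (le_trans ?_ hT)
  · rw [← lintegral_mul_const' _ _ ENNReal.ofReal_ne_top]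
    refine le_trans (setLIntegral_mono' (measurableSet_ball.inter measurableSet_ball)
      fun z hz => ?_) (lintegral_mono_set Set.inter_subset_left)
    rw [H19.enorm_sq, norm_pow]
    have h1 : ‖z‖ ≤ ρ := (mem_ball_zero_iff.1 hz.2).le
    gcongr
  · refine setLIntegral_mono' (measurableSet_ball.diff measurableSet_ball) fun z hz => ?_
    refine mul_le_of_le_one_right' ?_
    rw [H19.enorm_sq, norm_pow, ENNReal.ofReal_le_one]
    exact pow_le_one₀ (by positivity) (pow_le_one₀ (norm_nonneg _) (mem_ball_zero_iff.1 hz.1).le)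

theorem sDl (h : SRa) : SDl := by
  intro G E hG hfin hE hO
  have hm : Measurable fun z : ℂ => ENNReal.ofReal (G ‖z‖) :=
    (hG.comp measurable_norm).ennreal_ofReal
  have hS := meas_SE hE
  have hSI : SE E ⊆ Set.Ioc (0 : ℝ) (2 * Real.pi) := fun θ h => h.1
  obtain ⟨ν, hν⟩ : ∃ ν : Measure ℂ, ν = (volume.restrict (Metric.ball (0 : ℂ) 1)).withDensity
    fun z => ENNReal.ofReal (G ‖z‖) := ⟨_, rfl⟩
  have eν : ∀ f : ℂ → ENNReal, Measurable f → ∫⁻ z, f z ∂ν =
      ∫⁻ z in Metric.ball (0 : ℂ) 1, ENNReal.ofReal (G ‖z‖) * f z := fun f hf => by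
    rw [hν, lintegral_withDensity_eq_lintegral_mul _ hm hf]; rfl
  have : IsFiniteMeasure ν := hν ▸ isFiniteMeasure_withDensity hfin.ne
  have : IsFiniteMeasure (volume.restrict (SE E)) :=
    isFiniteMeasure_restrict.2 ((measure_mono hSI).trans_lt measure_Ioc_lt_top).ne
  have aν : ∀ᵐ z ∂ν, ‖id z‖ ≤ 1 := by
    rw [hν]
    refine (withDensity_absolutelyContinuous _ _).ae_le ?_
    filter_upwards [ae_restrict_mem measurableSet_ball] with z hz
    exact (mem_ball_zero_iff.1 hz).le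
  obtain ⟨A, hA⟩ := lin_Dl ν id measurable_id aν
  obtain ⟨B, hB⟩ := lin_Dl (volume.restrict (SE E)) ex H19.cont_ex.measurable
    (Eventually.of_forall fun θ => (H19.norm_ex θ).le)
  rcases dual_Dl A B (A 1) with h' | ⟨b1, b2, hb, hu⟩
  · refine absurd (fun ε hε => ?_) hO
    obtain ⟨p, h1, h2⟩ := h' (Real.sqrt ε) (Real.sqrt_pos.2 hε)
    rw [← map_sub] at h1
    refine ⟨p, ?_, ?_⟩
    · rw [sq_Dl (hB p), ENNReal.ofReal_lt_ofReal_iff hε]
      exact (Real.lt_sqrt (norm_nonneg _)).1 h2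
    · have e : A (p - 1) =ᵐ[ν] fun z => p.eval z - 1 :=
        (hA (p - 1)).mono fun z hz => hz.trans (by simp)
      rw [← eν (fun z => ‖p.eval z - 1‖ₑ ^ (2 : ℕ))
        ((p.continuous.measurable.sub_const 1).enorm.pow_const 2), sq_Dl e,
        ENNReal.ofReal_lt_ofReal_iff hε]
      exact (Real.lt_sqrt (norm_nonneg _)).1 h1
  have hπ : (1 : ℝ) ≤ 2 * Real.pi := by linarith [Real.pi_gt_three]
  have hcf : ∀ k : ℕ, cf ((SE E).indicator fun θ => star (b2 θ)) k =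
      -(((2 * Real.pi : ℝ) : ℂ)⁻¹ * inner ℂ b1 (A (Polynomial.X ^ k))) := by
    intro k
    have e1 : (fun θ => (SE E).indicator (fun θ => star (b2 θ)) θ * ex θ ^ k) =
        (SE E).indicator fun θ => star (b2 θ) * ex θ ^ k := by
      funext θ
      exact (Set.indicator_mul_left _ (fun θ => star (b2 θ)) fun θ => ex θ ^ k).symm
    have e2 : inner ℂ b2 (B (Polynomial.X ^ k)) = ∫ θ in SE E, star (b2 θ) * ex θ ^ k := by
      rw [L2.inner_def]
      refine integral_congr_ae ((hB (Polynomial.X ^ k)).mono fun θ hθ => ?_)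
      simp only [hθ]
      simp [mul_comm]
    rw [cf, e1, setIntegral_indicator hS, Set.inter_eq_right.2 hSI, ← e2,
      eq_neg_of_add_eq_zero_right (hb _), mul_neg]
  obtain ⟨V, hV⟩ : ∃ V : ℝ, V = (∫⁻ z in Metric.ball (0 : ℂ) 1, ENNReal.ofReal (G ‖z‖)).toReal :=
    ⟨_, rfl⟩
  have hV0 : 0 ≤ V := hV ▸ ENNReal.toReal_nonneg
  refine ⟨(SE E).indicator fun θ => star (b2 θ), ‖b1‖ ^ 2 * (V + 1), ?_,
    fun θ hθ => Set.indicator_of_notMem (fun h => hθ h.2) _, by positivity, ?_,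
    fun s w m hm0 hw => ?_⟩
  · rw [memLp_indicator_iff_restrict hS, Measure.restrict_restrict hS, Set.inter_eq_left.2 hSI]
    exact (Lp.memLp b2).star
  · rw [hcf, pow_zero, neg_ne_zero]
    exact mul_ne_zero (inv_ne_zero (Complex.ofReal_ne_zero.2 (by linarith))) hu
  generalize cf ((SE E).indicator fun θ => star (b2 θ)) = c at hcf ⊢
  obtain ⟨q, hq⟩ : ∃ q : Polynomial ℂ,
      q = ∑ k ∈ s, ((starRingEnd ℂ) (c k) * w k) • Polynomial.X ^ k := ⟨_, rfl⟩
  obtain ⟨S, hSd⟩ : ∃ S : ℝ, S = ∑ k ∈ s, ‖c k‖ ^ 2 * w k := ⟨_, rfl⟩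
  have hS0 : 0 ≤ S := hSd ▸ Finset.sum_nonneg fun k hk => mul_nonneg (sq_nonneg _) (hw k hk).1
  have e1 : (S : ℂ) = -(((2 * Real.pi : ℝ) : ℂ)⁻¹ * inner ℂ b1 (A q)) := by
    rw [hq, map_sum, inner_sum, Finset.mul_sum, ← Finset.sum_neg_distrib, hSd, Complex.ofReal_sum]
    refine Finset.sum_congr rfl fun k _ => ?_
    rw [map_smul, inner_smul_right, mul_left_comm, ← mul_neg, ← hcf, Complex.ofReal_mul,
      Complex.ofReal_pow, ← Complex.conj_mul']
    ring
  have e2 : S ≤ ‖b1‖ * ‖A q‖ := by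
    have := congrArg norm e1
    rw [Complex.norm_real, Real.norm_of_nonneg hS0, norm_neg, norm_mul, norm_inv, Complex.norm_real,
      Real.norm_of_nonneg (by linarith)] at this
    rw [this]
    exact (mul_le_of_le_one_left (norm_nonneg _) (inv_le_one_of_one_le₀ hπ)).trans
      (norm_inner_le_norm _ _)
  have e3 : ∀ r : ℝ, H19.mm_Rad q r ≤ ∑ k ∈ s, (‖c k‖ ^ 2 * w k ^ 2) * (r ^ k) ^ 2 := fun r => by
    have hc : ∀ j, q.coeff j = if j ∈ s then (starRingEnd ℂ) (c j) * w j else 0 := fun j => by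
      rw [hq, Polynomial.finsetSum_coeff]
      simp only [Polynomial.coeff_smul, Polynomial.coeff_X_pow, smul_eq_mul, mul_ite, mul_one,
        mul_zero, Finset.sum_ite_eq]
    have hs : q.support ⊆ s := fun j hj => by
      by_contra hn
      exact Polynomial.mem_support_iff.1 hj (by rw [hc, if_neg hn])
    refine (Finset.sum_le_sum_of_subset_of_nonneg hs fun _ _ _ => by positivity).trans
      (Finset.sum_le_sum fun k hk => le_of_eq ?_)
    rw [hc, if_pos hk, norm_mul, Complex.norm_conj, Complex.norm_real, mul_pow, Real.norm_eq_abs,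
      sq_abs]
  have e4 : ‖A q‖ ^ 2 ≤ (V + 1) * m * S := by
    rw [← ENNReal.ofReal_le_ofReal_iff (by positivity), ← sq_Dl (hA q),
      eν (fun z => ‖q.eval (id z)‖ₑ ^ (2 : ℕ)) (q.continuous.measurable.enorm.pow_const 2)]
    refine (h G q hG).le.trans ?_
    have a1 : ∀ z : ℂ, ENNReal.ofReal (G ‖z‖) * ENNReal.ofReal (H19.mm_Rad q ‖z‖) ≤
        ∑ k ∈ s, ENNReal.ofReal (‖c k‖ ^ 2 * w k ^ 2) *
          (ENNReal.ofReal (G ‖z‖) * ‖z ^ k‖ₑ ^ (2 : ℕ)) := fun z => by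
      refine (mul_le_mul_right (ENNReal.ofReal_le_ofReal (e3 ‖z‖)) _).trans (le_of_eq ?_)
      rw [ENNReal.ofReal_sum_of_nonneg fun _ _ => by positivity, Finset.mul_sum]
      refine Finset.sum_congr rfl fun k _ => ?_
      rw [H19.enorm_sq, norm_pow, ENNReal.ofReal_mul (by positivity), mul_left_comm]
    refine (lintegral_mono a1).trans ?_
    rw [lintegral_finsetSum (f := fun k (z : ℂ) => ENNReal.ofReal (‖c k‖ ^ 2 * w k ^ 2) *
      (ENNReal.ofReal (G ‖z‖) * ‖z ^ k‖ₑ ^ (2 : ℕ))) _ fun k _ =>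
      (hm.mul ((measurable_id'.pow_const k).enorm.pow_const 2)).const_mul _, hSd, Finset.mul_sum,
      ENNReal.ofReal_sum_of_nonneg fun k hk => by have := (hw k hk).1; positivity]
    refine Finset.sum_le_sum fun k hk => ?_
    obtain ⟨w0, ρ, t, hρ, ht, hT, hwm⟩ := hw k hk
    have h1 := mom_Dl hfin k hρ (t := Real.sqrt t) (by rwa [Real.sq_sqrt ht])
    rw [← hV, Real.sq_sqrt ht, ← pow_mul, mul_comm k 2] at h1
    rw [lintegral_const_mul' _ _ ENNReal.ofReal_ne_top]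
    refine (mul_le_mul_right h1 _).trans ?_
    rw [← ENNReal.ofReal_mul (by positivity)]
    refine ENNReal.ofReal_le_ofReal ?_
    have hr : 0 ≤ ρ ^ (2 * k) := by positivity
    have a2 : V * ρ ^ (2 * k) + t ≤ (V + 1) * (t + ρ ^ (2 * k)) := by
      nlinarith [mul_nonneg hV0 ht]
    have a3 : w k * (V * ρ ^ (2 * k) + t) ≤ (V + 1) * m := by
      nlinarith [mul_le_mul_of_nonneg_left a2 w0,
        mul_le_mul_of_nonneg_left hwm (by linarith : 0 ≤ V + 1)]
    nlinarith [mul_le_mul_of_nonneg_left a3 (mul_nonneg (sq_nonneg ‖c k‖) w0)]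
  rw [← hSd]
  rcases hS0.eq_or_lt with h0 | h0
  · rw [← h0]; positivity
  · refine le_of_mul_le_mul_right ?_ h0
    have a1 := mul_self_le_mul_self hS0 e2
    nlinarith [mul_le_mul_of_nonneg_left e4 (sq_nonneg ‖b1‖)]

end Pool.Agent.MP_17fac5_an.Ch

end

section

set_option autoImplicit false
open MeasureTheory Filter Topology

namespace Pool.Agent.MP_17fac5_an.Ch

open Pool.Agent.MP_17fac5_an.H19 (ex)

theorem int_Ow {E : Set ℂ} (hE : MeasurableSet E) (f : ℝ → ENNReal) :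
    (∫⁻ θ in Set.Ioc (0 : ℝ) (2 * Real.pi),
      ENNReal.ofReal (E.indicator (fun _ => (1 : ℝ)) (ex θ)) * f θ) = ∫⁻ θ in SE E, f θ := by
  have h1 : SE E = ex ⁻¹' E ∩ Set.Ioc (0 : ℝ) (2 * Real.pi) := Set.inter_comm _ _
  rw [h1, ← Measure.restrict_restrict (H19.cont_ex.measurable hE),
    ← lintegral_indicator (H19.cont_ex.measurable hE)]
  refine lintegral_congr fun θ => ?_
  by_cases h : ex θ ∈ E
  · rw [Set.indicator_of_mem h, Set.indicator_of_mem (show θ ∈ ex ⁻¹' E from h)]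
    simp
  · rw [Set.indicator_of_notMem h, Set.indicator_of_notMem (show θ ∉ ex ⁻¹' E from h)]
    simp

theorem tay_Ow (F : Polynomial ℂ) {ζ : ℝ} (hζ : 0 < ζ) : ∃ k : Polynomial ℂ,
    ∀ z : ℂ, ‖z‖ = 1 → ‖Complex.exp (F.eval z) - k.eval z‖ ≤ ζ := by
  obtain ⟨B, hB⟩ := (isCompact_sphere (0 : ℂ) 1).exists_bound_of_continuousOn
    (f := fun z => F.eval z) (by fun_prop)
  obtain ⟨n, n1, n2⟩ : ∃ n : ℕ, 2 * B ≤ n ∧ B ^ n / n.factorial ≤ ζ / 2 := by
    have t1 := (FloorSemiring.tendsto_pow_div_factorial_atTop B).eventually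
      (ge_mem_nhds (half_pos hζ))
    have t2 := (tendsto_natCast_atTop_atTop (R := ℝ)).eventually_ge_atTop (2 * B)
    exact (t2.and t1).exists
  refine ⟨∑ k ∈ Finset.range n, Polynomial.C (1 / (k.factorial : ℂ)) * F ^ k, fun z hz => ?_⟩
  have he : (∑ k ∈ Finset.range n, Polynomial.C (1 / (k.factorial : ℂ)) * F ^ k).eval z =
      ∑ k ∈ Finset.range n, F.eval z ^ k / (k.factorial : ℂ) := by
    simp only [Polynomial.eval_finsetSum, Polynomial.eval_mul, Polynomial.eval_C,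
      Polynomial.eval_pow]
    exact Finset.sum_congr rfl fun k _ => by ring
  have b0 := hB z (by simpa using hz)
  have b1 := Complex.exp_bound' (x := F.eval z) (n := n) (by
    rw [div_le_iff₀ (by positivity)]; push_cast; linarith)
  have b2 : ‖F.eval z‖ ^ n / n.factorial ≤ B ^ n / n.factorial := by gcongr
  rw [he]
  linarith

theorem e2_Ow : Real.exp 2 ≤ 8 := by
  have h := Real.exp_one_lt_d9
  have e : Real.exp 2 = Real.exp 1 * Real.exp 1 := by rw [← Real.exp_add]; norm_num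
  nlinarith [Real.exp_pos 1]

theorem sq_Ow {x : ℂ} (hx : x.re ≤ 1) (b : ℝ) :
    ‖Complex.exp x‖ ^ 2 ≤ Real.exp (-2 * b) + 16 * |x.re + b| := by
  have h := H19.exp_le_One (a := 2 * x.re) (b := -2 * b) (c := 2) (by linarith)
  rw [show 2 * x.re - -2 * b = 2 * (x.re + b) by ring, abs_mul, abs_two] at h
  rw [Complex.norm_exp, ← Real.exp_nat_mul]
  push_cast
  nlinarith [e2_Ow, abs_nonneg (x.re + b)]

theorem avg_Ow {F k : Polynomial ℂ} {η δ : ℝ} (δ0 : 0 ≤ δ) (δ1 : δ ≤ η) (η1 : η ≤ 1)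
    (h0 : (F.eval 0).im = 0) (h1 : ∀ z : ℂ, ‖z‖ = 1 → (F.eval z).re ≤ 1)
    (h2 : Real.circleAverage (fun z => |(F.eval z).re|) 0 1 ≤ η)
    (h3 : ∀ z : ℂ, ‖z‖ = 1 → ‖Complex.exp (F.eval z) - k.eval z‖ ≤ δ) :
    H19.mm_Rad (k - 1) 1 ≤ 40 * η := by
  have ci : ∀ f : ℂ → ℝ, Continuous f → CircleIntegrable f 0 1 := fun f hf =>
    hf.continuousOn.circleIntegrable zero_le_one
  have c1 : Continuous fun z => |(F.eval z).re| := by fun_prop
  have c2 : Continuous fun z => (Complex.exp (F.eval z)).re := by fun_prop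
  have a1 : Real.circleAverage (fun z => (Complex.exp (F.eval z)).re) 0 1 =
      Real.exp (F.eval 0).re := by
    rw [H19.avg_re zero_le_one (f := fun z => Complex.exp (F.eval z))
      fun z _ => (F.differentiableAt).cexp, Complex.exp_re, h0, Real.cos_zero, mul_one]
  have a2 : -(F.eval 0).re ≤ η := by
    have := H19.avg_re zero_le_one (f := fun z => -F.eval z) fun z _ => F.differentiableAt.neg
    rw [← Complex.neg_re, ← this]
    exact le_trans (Real.circleAverage_mono (ci _ (by fun_prop)) (ci _ c1) fun z _ => by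
      rw [Complex.neg_re]; exact neg_le_abs _) h2
  have a3 : Real.circleAverage (fun z => 32 * |(F.eval z).re| +
      -4 * (Complex.exp (F.eval z)).re + (4 + 2 * δ)) 0 1 =
      32 * Real.circleAverage (fun z => |(F.eval z).re|) 0 1 + -4 * Real.exp (F.eval 0).re +
        (4 + 2 * δ) := by
    rw [Real.circleAverage_fun_add (f₁ := fun z => 32 * |(F.eval z).re| +
      -4 * (Complex.exp (F.eval z)).re) (ci _ (by fun_prop)) (circleIntegrable_const _ _ _),
      Real.circleAverage_const, Real.circleAverage_fun_add (ci _ (by fun_prop))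
        (ci _ (by fun_prop)), H19.avg_mul, H19.avg_mul, a1]
  rw [← H19.avg_Rad _ zero_le_one]
  refine le_trans (Real.circleAverage_mono (ci _ (by fun_prop)) (ci _ (by fun_prop))
    fun z hz => ?_) (a3.le.trans (by linarith [Real.add_one_le_exp (F.eval 0).re]))
  have hz' : ‖z‖ = 1 := by simpa using hz
  have b1 := sq_Ow (h1 z hz') 0
  have b2 := h3 z hz'
  rw [mul_zero, Real.exp_zero, add_zero] at b1
  rw [Polynomial.eval_sub, Polynomial.eval_one]
  generalize Complex.exp (F.eval z) = y at b1 b2 ⊢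
  have b3 : ‖y - 1‖ ^ 2 = ‖y‖ ^ 2 - 2 * y.re + 1 := by
    simp only [Complex.sq_norm, Complex.normSq_apply, Complex.sub_re, Complex.sub_im,
      Complex.one_re, Complex.one_im]
    ring
  have b4 : ‖k.eval z - 1‖ ≤ ‖y - 1‖ + δ := by
    have := norm_sub_le (y - 1) (y - k.eval z)
    rw [show y - 1 - (y - k.eval z) = k.eval z - 1 by ring] at this
    linarith
  have b5 := pow_le_pow_left₀ (norm_nonneg _) b4 2
  nlinarith [sq_nonneg (‖y - 1‖ - δ)]

/-- The multiplier. -/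
theorem mult_Ow {w φ : ℝ → ℝ} {M η δ : ℝ} (hw : Measurable w) (hφ : Measurable φ)
    (hfin : (∫⁻ θ in Set.Ioc (0 : ℝ) (2 * Real.pi), ENNReal.ofReal (w θ)) < ⊤)
    (hφM : ∀ θ, 0 ≤ φ θ ∧ φ θ ≤ M)
    (hφη : (∫⁻ θ in Set.Ioc (0 : ℝ) (2 * Real.pi), ENNReal.ofReal (φ θ)) ≤ ENNReal.ofReal η)
    (δ0 : 0 < δ) (δ1 : δ ≤ η) (η1 : η ≤ 1) : ∃ (k : Polynomial ℂ) (u : ℝ → ℝ),
      (∀ θ, 0 ≤ u θ) ∧ (∫⁻ θ in Set.Ioc (0 : ℝ) (2 * Real.pi),
        ENNReal.ofReal (w θ) * ENNReal.ofReal (u θ)) ≤ ENNReal.ofReal δ ∧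
      (∀ z : ℂ, ‖z‖ ≤ 1 → ‖k.eval z‖ ≤ 4) ∧ H19.mm_Rad (k - 1) 1 ≤ 40 * η ∧
      ∀ θ : ℝ, ‖k.eval (ex θ)‖ ^ 2 ≤ 2 * Real.exp (-2 * φ θ) + 32 * u θ + 2 * δ := by
  have pi3 := Real.pi_gt_three
  set μ : Measure ℝ := volume.restrict (Set.Ioc (0 : ℝ) (2 * Real.pi)) with hμ
  have hμu : μ Set.univ = ENNReal.ofReal (2 * Real.pi) := by simp [hμ]
  have hf : Measurable fun θ => 1 + ENNReal.ofReal (w θ) := measurable_const.add hw.ennreal_ofReal
  have : IsFiniteMeasure (μ.withDensity fun θ => 1 + ENNReal.ofReal (w θ)) := by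
    refine isFiniteMeasure_withDensity ?_
    rw [lintegral_add_left measurable_const, lintegral_const, hμu]
    simp [ENNReal.mul_eq_top, hfin.ne]
  obtain ⟨F, hF1, hF2⟩ := H19.appS H19.swS (μ.withDensity fun θ => 1 + ENNReal.ofReal (w θ))
    (fun θ => M - φ θ) M δ
    ((withDensity_absolutelyContinuous μ _).ae_le (ae_restrict_mem measurableSet_Ioc))
    (measurable_const.sub hφ) (fun θ => ⟨by linarith [hφM θ], by linarith [hφM θ]⟩) δ0
  obtain ⟨F1, f0, f1⟩ : ∃ F1 : Polynomial ℂ, (F1.eval 0).im = 0 ∧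
      ∀ z, (F1.eval z).re = (F.eval z).re - M :=
    ⟨F - Polynomial.C ⟨M, (F.eval 0).im⟩, by simp, fun z => by simp⟩
  have e1 : ∀ θ : ℝ, (F.eval (ex θ)).re - (M - φ θ) = (F1.eval (ex θ)).re + φ θ := fun θ => by
    rw [f1]; ring
  simp only [e1] at hF2
  have uc : Continuous fun θ : ℝ => (F1.eval (ex θ)).re := by fun_prop
  have hg : Measurable fun θ => ENNReal.ofReal |(F1.eval (ex θ)).re + φ θ| :=
    (continuous_abs.measurable.comp (uc.measurable.add hφ)).ennreal_ofReal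
  rw [lintegral_withDensity_eq_lintegral_mul _ hf hg] at hF2
  have J1 : ∫⁻ θ, ENNReal.ofReal |(F1.eval (ex θ)).re + φ θ| ∂μ ≤ ENNReal.ofReal δ :=
    le_trans (lintegral_mono fun θ => le_mul_of_one_le_left' le_self_add) hF2
  have J2 : ∫⁻ θ, ENNReal.ofReal (w θ) * ENNReal.ofReal |(F1.eval (ex θ)).re + φ θ| ∂μ ≤
      ENNReal.ofReal δ :=
    le_trans (lintegral_mono fun θ => mul_le_mul_left le_add_self _) hF2
  have r1 : ∀ z : ℂ, ‖z‖ = 1 → (F1.eval z).re ≤ 1 := fun z hz => by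
    obtain ⟨t, -, rfl⟩ := H19.circ_Der hz
    rw [f1]
    linarith [hF1 t]
  have J3 : Real.circleAverage (fun z => |(F1.eval z).re|) 0 1 ≤ η := by
    have i1 : ‖∫ θ, |(F1.eval (ex θ)).re| ∂μ‖ ≤ δ + η := by
      refine (norm_integral_le_lintegral_norm _).trans
        (ENNReal.toReal_le_of_le_ofReal (by linarith) ?_)
      rw [ENNReal.ofReal_add δ0.le (by linarith)]
      refine le_trans (lintegral_mono fun θ => ?_)
        ((lintegral_add_left hg _).le.trans (add_le_add J1 hφη))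
      rw [← ENNReal.ofReal_add (abs_nonneg _) (hφM θ).1, Real.norm_eq_abs, abs_abs]
      refine ENNReal.ofReal_le_ofReal (abs_le.2 ⟨?_, ?_⟩)
      · linarith [neg_abs_le ((F1.eval (ex θ)).re + φ θ)]
      · linarith [le_abs_self ((F1.eval (ex θ)).re + φ θ), (hφM θ).1]
    rw [H19.avg_one, intervalIntegral.integral_of_le (by positivity),
      inv_mul_le_iff₀ (by positivity)]
    nlinarith [le_abs_self (∫ θ, |(F1.eval (ex θ)).re| ∂μ), Real.norm_eq_abs
      (∫ θ, |(F1.eval (ex θ)).re| ∂μ)]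
  obtain ⟨k, hk⟩ := tay_Ow F1 δ0
  have k1 : ∀ z : ℂ, ‖z‖ = 1 → ‖k.eval z‖ ≤ ‖Complex.exp (F1.eval z)‖ + δ := fun z hz => by
    linarith [norm_le_norm_add_norm_sub (Complex.exp (F1.eval z)) (k.eval z), hk z hz]
  refine ⟨k, fun θ => |(F1.eval (ex θ)).re + φ θ|, fun θ => abs_nonneg _, J2, fun z hz =>
    H19.maxmod one_pos (fun z _ => k.differentiableAt) (fun z hz => ?_) hz,
    avg_Ow δ0.le δ1 η1 f0 r1 J3 hk, fun θ => ?_⟩
  · have := k1 z hz
    rw [Complex.norm_exp] at this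
    linarith [Real.exp_le_exp.2 (r1 z hz), Real.exp_one_lt_d9]
  · have b1 := pow_le_pow_left₀ (norm_nonneg _) (k1 _ (H19.norm_ex θ)) 2
    have b2 := sq_Ow (r1 _ (H19.norm_ex θ)) (φ θ)
    nlinarith [sq_nonneg (‖Complex.exp (F1.eval (ex θ))‖ - δ)]

theorem phi_Ow {x t δ : ℝ} (hx : 0 ≤ x) (ht : 0 < t) (δ0 : 0 < δ) :
    min (-Real.log δ / 2) (max 0 (Real.log (x / t) / 2)) ≤ 1 / t * x ∧
      x * Real.exp (-2 * min (-Real.log δ / 2) (max 0 (Real.log (x / t) / 2))) ≤ t + x * δ := by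
  have q0 : 0 ≤ x / t := by positivity
  refine ⟨(min_le_right _ _).trans (max_le (by positivity) ?_), ?_⟩
  · rw [one_div_mul_eq_div]
    linarith [Real.log_le_self q0]
  rcases hx.eq_or_lt with rfl | hx'
  · simpa using ht.le
  rcases min_choice (-Real.log δ / 2) (max 0 (Real.log (x / t) / 2)) with e | e <;> rw [e]
  · rw [show -2 * (-Real.log δ / 2) = Real.log δ by ring, Real.exp_log δ0]
    linarith
  · have h1 : Real.exp (-2 * max 0 (Real.log (x / t) / 2)) ≤ Real.exp (-Real.log (x / t)) :=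
      Real.exp_le_exp.2 (by linarith [le_max_right 0 (Real.log (x / t) / 2)])
    rw [Real.exp_neg, Real.exp_log (by positivity), inv_div] at h1
    have h2 := mul_le_mul_of_nonneg_left h1 hx
    rw [mul_div_cancel₀ _ hx'.ne'] at h2
    nlinarith

theorem sOw (h : SRa) : SOw := by
  intro G W hG hfin hW hW0 hWfin hone ε hε
  have hw : Measurable fun θ : ℝ => W (ex θ) := hW.comp H19.cont_ex.measurable
  have hE : MeasurableSet {z | W z ≠ 0} := (hW (measurableSet_singleton 0)).compl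
  obtain ⟨K, K0, hK⟩ : ∃ K : ℝ, 0 ≤ K ∧ ∫⁻ θ in Set.Ioc (0 : ℝ) (2 * Real.pi),
      ENNReal.ofReal (W (ex θ)) = ENNReal.ofReal K :=
    ⟨_, ENNReal.toReal_nonneg, (ENNReal.ofReal_toReal hWfin.ne).symm⟩
  obtain ⟨V, V0, hV⟩ : ∃ V : ℝ, 0 ≤ V ∧
      ∫⁻ z in Metric.ball (0 : ℂ) 1, ENNReal.ofReal (G ‖z‖) = ENNReal.ofReal V :=
    ⟨_, ENNReal.toReal_nonneg, (ENNReal.ofReal_toReal hfin.ne).symm⟩
  have small : ∀ a b : ℝ, 0 ≤ a → 0 < b → ∃ c, 0 < c ∧ c ≤ b ∧ a * c ≤ ε / 4 := fun a b ha hb =>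
    ⟨min b (ε / 4 / (a + 1)), by positivity, min_le_left _ _,
      (mul_le_mul_of_nonneg_left (min_le_right _ _) ha).trans (by
        rw [← mul_div_assoc, div_le_iff₀ (by positivity)]; nlinarith)⟩
  obtain ⟨η, η0, η1, η2⟩ := small (80 * V) 1 (by positivity) one_pos
  obtain ⟨t, t0, t1⟩ : ∃ t : ℝ, 0 < t ∧ 1 / t * K ≤ η := by
    refine ⟨K / η + 1, by positivity, ?_⟩
    rw [one_div_mul_eq_div, div_le_iff₀ (by positivity), mul_add, mul_div_cancel₀ _ η0.ne']
    linarith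
  obtain ⟨e, e0, -, e2⟩ := small (2 * t + 32) 1 (by positivity) one_pos
  obtain ⟨p, p1, p2⟩ := hone e e0
  obtain ⟨B, hB⟩ := (isCompact_sphere (0 : ℂ) 1).exists_bound_of_continuousOn
    (f := fun z => p.eval z) (by fun_prop)
  obtain ⟨δ, δ0, δ1, δ2⟩ := small (B ^ 2 * (4 * K + 32)) η (by positivity) η0
  have hl : Real.log δ ≤ 0 := Real.log_nonpos δ0.le (δ1.trans η1)
  obtain ⟨k, u, u0, k1, k2, k3, k4⟩ := mult_Ow (M := -Real.log δ / 2)
    (φ := fun θ => min (-Real.log δ / 2) (max 0 (Real.log (W (ex θ) / t) / 2))) hw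
    (measurable_const.min (measurable_const.max ((hw.div_const t).log.div_const 2))) hWfin
    (fun θ => ⟨le_min (by linarith) (le_max_left _ _), min_le_left _ _⟩) (η := η) (by
      refine le_trans (lintegral_mono fun θ => (ENNReal.ofReal_le_ofReal
        (phi_Ow (hW0 (ex θ)) t0 δ0).1).trans (ENNReal.ofReal_mul (by positivity)).le) ?_
      rw [lintegral_const_mul' _ _ ENNReal.ofReal_ne_top, hK, ← ENNReal.ofReal_mul (by positivity)]
      exact ENNReal.ofReal_le_ofReal t1) δ0 δ1 η1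
  refine ⟨p * k, ?_, ?_⟩
  · have pt : ∀ θ : ℝ, ENNReal.ofReal (W (ex θ)) * ‖(p * k).eval (ex θ)‖ₑ ^ (2 : ℕ) ≤
        ENNReal.ofReal (4 * δ * B ^ 2) * ENNReal.ofReal (W (ex θ)) +
        (ENNReal.ofReal (2 * t) * (ENNReal.ofReal (Set.indicator {z | W z ≠ 0}
          (fun _ => (1 : ℝ)) (ex θ)) * ‖p.eval (ex θ)‖ₑ ^ (2 : ℕ)) +
        ENNReal.ofReal (32 * B ^ 2) * (ENNReal.ofReal (W (ex θ)) * ENNReal.ofReal (u θ))) := by
      intro θ
      by_cases h0 : W (ex θ) = 0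
      · simp [h0]
      have w0 := hW0 (ex θ)
      have b0 := u0 θ
      rw [Set.indicator_of_mem (show ex θ ∈ {z | W z ≠ 0} from h0), ENNReal.ofReal_one, one_mul,
        H19.enorm_sq, H19.enorm_sq, ← ENNReal.ofReal_mul w0, ← ENNReal.ofReal_mul w0,
        ← ENNReal.ofReal_mul (by positivity), ← ENNReal.ofReal_mul (by positivity),
        ← ENNReal.ofReal_mul (by positivity), ← ENNReal.ofReal_add (by positivity) (by positivity),
        ← ENNReal.ofReal_add (by positivity) (by positivity), Polynomial.eval_mul, norm_mul,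
        mul_pow]
      refine ENNReal.ofReal_le_ofReal ?_
      have b1 := (phi_Ow w0 t0 δ0).2
      have b2 := mul_le_mul_of_nonneg_left (k4 θ) w0
      have b3 := pow_le_pow_left₀ (norm_nonneg _) (hB (ex θ) (by simp)) 2
      have b4 : W (ex θ) * ‖k.eval (ex θ)‖ ^ 2 ≤
          2 * t + (4 * δ * W (ex θ) + 32 * (W (ex θ) * u θ)) := by linarith
      have b5 := mul_le_mul_of_nonneg_left b4 (sq_nonneg ‖p.eval (ex θ)‖)
      have b6 := mul_le_mul_of_nonneg_right b3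
        (show 0 ≤ 4 * δ * W (ex θ) + 32 * (W (ex θ) * u θ) by positivity)
      linarith
    have m1 : Measurable fun θ : ℝ => ENNReal.ofReal (Set.indicator {z | W z ≠ 0}
        (fun _ => (1 : ℝ)) (ex θ)) * ‖p.eval (ex θ)‖ₑ ^ (2 : ℕ) :=
      ((measurable_const.indicator hE).comp H19.cont_ex.measurable).ennreal_ofReal.mul
        ((p.continuous.comp H19.cont_ex).measurable.enorm.pow_const 2)
    refine lt_of_le_of_lt (lintegral_mono pt) ?_
    rw [lintegral_add_left (hw.ennreal_ofReal.const_mul _), lintegral_add_left (m1.const_mul _),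
      lintegral_const_mul' _ _ ENNReal.ofReal_ne_top,
      lintegral_const_mul' _ _ ENNReal.ofReal_ne_top,
      lintegral_const_mul' _ _ ENNReal.ofReal_ne_top, hK, int_Ow hE]
    refine lt_of_le_of_lt (add_le_add le_rfl (add_le_add (mul_le_mul_right p1.le _)
      (mul_le_mul_right k1 _))) ?_
    rw [← ENNReal.ofReal_mul (by positivity), ← ENNReal.ofReal_mul (by positivity),
      ← ENNReal.ofReal_mul (by positivity), ← ENNReal.ofReal_add (by positivity) (by positivity),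
      ← ENNReal.ofReal_add (by positivity) (by positivity)]
    exact (ENNReal.ofReal_lt_ofReal_iff hε).2 (by nlinarith)
  · have hG' : Measurable fun z : ℂ => ENNReal.ofReal (G ‖z‖) :=
      (hG.comp measurable_norm).ennreal_ofReal
    have d1 : (∫⁻ z in Metric.ball (0 : ℂ) 1, ENNReal.ofReal (G ‖z‖) *
        ‖(k - 1).eval z‖ₑ ^ (2 : ℕ)) ≤ ENNReal.ofReal V * ENNReal.ofReal (40 * η) := by
      rw [h G _ hG, ← hV, ← lintegral_mul_const _ hG']
      refine setLIntegral_mono' measurableSet_ball fun z hz => mul_le_mul_right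
        (ENNReal.ofReal_le_ofReal ((H19.mm_mono_Rad _ (norm_nonneg z) ?_).trans k3)) _
      exact (mem_ball_zero_iff.1 hz).le
    have m1 : Measurable fun z : ℂ => ENNReal.ofReal (G ‖z‖) * ‖p.eval z - 1‖ₑ ^ (2 : ℕ) :=
      hG'.mul ((p.continuous.sub continuous_const).measurable.enorm.pow_const 2)
    have pt : ∀ z ∈ Metric.ball (0 : ℂ) 1,
        ENNReal.ofReal (G ‖z‖) * ‖(p * k).eval z - 1‖ₑ ^ (2 : ℕ) ≤
        ENNReal.ofReal 32 * (ENNReal.ofReal (G ‖z‖) * ‖p.eval z - 1‖ₑ ^ (2 : ℕ)) +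
        ENNReal.ofReal 2 * (ENNReal.ofReal (G ‖z‖) * ‖(k - 1).eval z‖ₑ ^ (2 : ℕ)) := by
      intro z hz
      rw [mul_left_comm (ENNReal.ofReal 32), mul_left_comm (ENNReal.ofReal 2), ← mul_add]
      refine mul_le_mul_right ?_ _
      rw [H19.enorm_sq, H19.enorm_sq, H19.enorm_sq, ← ENNReal.ofReal_mul (by norm_num),
        ← ENNReal.ofReal_mul (by norm_num), ← ENNReal.ofReal_add (by positivity) (by positivity),
        Polynomial.eval_mul, Polynomial.eval_sub, Polynomial.eval_one]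
      refine ENNReal.ofReal_le_ofReal ?_
      have b1 := norm_add_le ((p.eval z - 1) * k.eval z) (k.eval z - 1)
      rw [norm_mul, show (p.eval z - 1) * k.eval z + (k.eval z - 1) = p.eval z * k.eval z - 1 by
        ring] at b1
      have b2 := mul_le_mul_of_nonneg_left (k2 z (mem_ball_zero_iff.1 hz).le)
        (norm_nonneg (p.eval z - 1))
      have b3 := pow_le_pow_left₀ (norm_nonneg _) (b1.trans (add_le_add b2 le_rfl)) 2
      nlinarith [sq_nonneg (‖p.eval z - 1‖ * 4 - ‖k.eval z - 1‖)]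
    refine lt_of_le_of_lt (setLIntegral_mono' measurableSet_ball pt) ?_
    rw [lintegral_add_left (m1.const_mul _), lintegral_const_mul' _ _ ENNReal.ofReal_ne_top,
      lintegral_const_mul' _ _ ENNReal.ofReal_ne_top]
    refine lt_of_le_of_lt (add_le_add (mul_le_mul_right p2.le _) (mul_le_mul_right d1 _)) ?_
    rw [← ENNReal.ofReal_mul V0, ← ENNReal.ofReal_mul (by positivity),
      ← ENNReal.ofReal_mul (by positivity), ← ENNReal.ofReal_add (by positivity) (by positivity)]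
    exact (ENNReal.ofReal_lt_ofReal_iff hε).2 (by nlinarith [mul_pos t0 e0])

end Pool.Agent.MP_17fac5_an.Ch

end
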