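import Pool.Agent.MP_17fac5_an.Ch.St2

section

set_option autoImplicit false
open MeasureTheory Filter Topology

namespace Pool.Agent.MP_17fac5_an.Ch

open Pool.Agent.MP_17fac5_an.H19 (ex)

/-- Partial sum as an entire function. -/
noncomputable def PP_D2 (c : ℕ → ℂ) (K : ℕ) (w : ℂ) : ℂ := ∑ k ∈ Finset.range K, c k * w ^ k

theorem PP_diff_D2 (c : ℕ → ℂ) (K : ℕ) : Differentiable ℂ (PP_D2 c K) := by
  unfold PP_D2; fun_prop

theorem PP_zero_D2 (c : ℕ → ℂ) {K : ℕ} (hK : 0 < K) : PP_D2 c K 0 = c 0 := by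
  obtain ⟨K, rfl⟩ : ∃ K', K = K' + 1 := ⟨K - 1, by omega⟩
  simp [PP_D2, Finset.sum_range_succ']

theorem PP_sub_D2 (c : ℕ → ℂ) {a b : ℕ} (h : a ≤ b) (w : ℂ) :
    PP_D2 c b w - PP_D2 c a w = ∑ k ∈ Finset.Ico a b, c k * w ^ k :=
  (Finset.sum_Ico_eq_sub _ h).symm

theorem PP_at_D2 (c : ℕ → ℂ) (K : ℕ) {z : ℂ} (hz : z ≠ 0) :
    DifferentiableAt ℂ (fun w : ℂ => PP_D2 c K w⁻¹) z :=
  (PP_diff_D2 c K z⁻¹).comp z (differentiableAt_inv hz)

theorem PP_con_D2 (c : ℕ → ℂ) (K : ℕ) {r : ℝ} (hr : 0 < r) :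
    ContinuousOn (fun w : ℂ => PP_D2 c K w⁻¹) (Metric.sphere 0 r) := fun z hz => by
  have h1 : ‖z‖ = r := by simpa using hz
  have h2 : z ≠ 0 := by rintro rfl; rw [norm_zero] at h1; exact hr.ne h1
  exact (PP_at_D2 c K h2).continuousAt.continuousWithinAt

theorem avg_ent_D2 {f : ℂ → ℂ} (hf : Differentiable ℂ f) (r : ℝ) :
    Real.circleAverage f 0 r = f 0 :=
  DiffContOnCl.circleAverage (H19.dcc_of_at fun z _ => hf z)

theorem avg_inv_D2 {f : ℂ → ℂ} (hf : Differentiable ℂ f) (r : ℝ) :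
    Real.circleAverage (fun z => f z⁻¹) 0 r = f 0 := by
  have h1 : Differentiable ℂ fun w : ℂ => f ((r : ℂ)⁻¹ * w) :=
    hf.comp (differentiable_id.const_mul _)
  have h2 := avg_ent_D2 h1 1
  rw [← Real.circleAverage_zero_one_congr_inv] at h2
  rw [Real.circleAverage_eq_circleAverage_zero_one]
  simpa [mul_inv, mul_comm] using h2

theorem two_pow_D2 (s : ℕ) : (1 : ℝ) ≤ 2 ^ s := one_le_pow₀ (by norm_num)

theorem int_D2 {β h : ℝ → ℂ} (hβ : MemLp β 2 (volume.restrict (Set.Ioc (0 : ℝ) (2 * Real.pi))))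
    (hh : Continuous h) :
    Integrable (fun θ => ‖β θ - h θ‖ ^ 2) (volume.restrict (Set.Ioc (0 : ℝ) (2 * Real.pi))) := by
  have h1 : MemLp h 2 (volume.restrict (Set.Ioc (0 : ℝ) (2 * Real.pi))) :=
    (memLp_two_iff_integrable_sq_norm hh.aestronglyMeasurable).2
      ((hh.norm.pow 2).integrableOn_Icc.mono_set Set.Ioc_subset_Icc_self)
  have h2 := hβ.sub h1
  exact (memLp_two_iff_integrable_sq_norm h2.1).1 h2

theorem cheb_D2 {f : ℝ → ℝ} (h0 : ∀ x, 0 ≤ f x)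
    (hf : Integrable f (volume.restrict (Set.Ioc (0 : ℝ) (2 * Real.pi)))) {a δ : ℝ} (ha : 0 < a)
    (he : (∫ θ in Set.Ioc (0 : ℝ) (2 * Real.pi), f θ) ≤ a * δ) {T : Set ℝ}
    (hT : ∀ x ∈ T, x ∈ Set.Ioc (0 : ℝ) (2 * Real.pi) ∧ a ≤ f x) :
    volume T ≤ ENNReal.ofReal δ := by
  have h1 := (mul_meas_ge_le_integral_of_nonneg (Eventually.of_forall h0) hf a).trans he
  have h2 := le_of_mul_le_mul_left h1 ha
  calc volume T ≤ volume ({x | a ≤ f x} ∩ Set.Ioc (0 : ℝ) (2 * Real.pi)) :=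
        measure_mono fun x hx => ⟨(hT x hx).2, (hT x hx).1⟩
    _ = (volume.restrict (Set.Ioc (0 : ℝ) (2 * Real.pi))) {x | a ≤ f x} :=
        (Measure.restrict_apply' measurableSet_Ioc).symm
    _ = ENNReal.ofReal ((volume.restrict (Set.Ioc (0 : ℝ) (2 * Real.pi))).real {x | a ≤ f x}) :=
        (ofReal_measureReal (measure_ne_top _ _)).symm
    _ ≤ _ := ENNReal.ofReal_le_ofReal h2

theorem grow_D2 {D : ℝ} (hD : 0 ≤ D) {n : ℕ} (hn : 1 ≤ n) :
    D * 2 ^ n ≤ Real.exp ((D + 1) * n) := by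
  have h1 : (1 : ℝ) ≤ n := by exact_mod_cast hn
  have h2 : D ≤ Real.exp (D * n) := by
    have := Real.add_one_le_exp (D * n)
    nlinarith
  have h3 : (2 : ℝ) ^ n ≤ Real.exp (1 * n) := by
    rw [mul_comm, Real.exp_nat_mul]
    exact pow_le_pow_left₀ (by norm_num) (by linarith [Real.add_one_le_exp (1 : ℝ)]) n
  rw [add_mul, Real.exp_add]
  exact mul_le_mul h2 h3 (by positivity) (Real.exp_pos _).le

theorem e_le_D2 {e : ℕ → ℝ} (h0 : ∀ n, 0 < e n) (h1 : ∀ M, ∑ n ∈ Finset.range M, e n ≤ 1)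
    (t : ℕ) : e t ≤ 1 :=
  (Finset.single_le_sum (fun i _ => (h0 i).le) (Finset.self_mem_range_succ t)).trans (h1 (t + 1))

theorem blk_D2 {c : ℕ → ℂ} {s : ℕ} {lam : ℕ → ℝ} {N : ℕ → ℕ} {e : ℕ → ℝ} {n1 t : ℕ}
    (h : Bl2 c s lam N e n1) (ht : n1 ≤ t) {y : ℝ} (hy : y ≤ 2 ^ s * yy (t + 1)) :
    ∑ k ∈ Finset.Ico (N t) (N (t + 1)), ‖c k‖ ^ 2 * Real.exp (2 * k * y) ≤
      e t ^ 2 * Real.exp (-lam t) :=
  le_trans (Finset.sum_le_sum fun k _ => by gcongr) (h.2.2.2.2.2 t ht)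

theorem sum_D2 {c : ℕ → ℂ} {s : ℕ} {lam : ℕ → ℝ} {N : ℕ → ℕ} {e : ℕ → ℝ} {n1 p q : ℕ}
    (h : Bl2 c s lam N e n1) (hm : Monotone lam) (hp : n1 ≤ p) (hq : p ≤ q) {y : ℝ}
    (hy : y ≤ 2 ^ s * yy q) :
    ∑ k ∈ Finset.Ico (N p) (N q), ‖c k‖ ^ 2 * Real.exp (2 * k * y) ≤
      (∑ t ∈ Finset.Ico p q, e t) * Real.exp (-lam p) := by
  induction q, hq using Nat.le_induction with
  | base => simp
  | succ q hq ih =>
    have h1 : y ≤ 2 ^ s * yy q :=
      hy.trans (mul_le_mul_of_nonneg_left (yy_anti (Nat.le_succ q)) (by positivity))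
    rw [← Finset.sum_Ico_consecutive _ (h.1 hq) (h.1 (Nat.le_succ q)),
      Finset.sum_Ico_succ_top hq, add_mul]
    refine add_le_add (ih h1) ((blk_D2 h (hp.trans hq) hy).trans ?_)
    have h2 := h.2.2.2.1 q
    have h3 := e_le_D2 h.2.2.2.1 h.2.2.2.2.1 q
    have h4 : Real.exp (-lam q) ≤ Real.exp (-lam p) := Real.exp_le_exp.2 (neg_le_neg (hm hq))
    exact mul_le_mul (by nlinarith) h4 (Real.exp_pos _).le h2.le

theorem sum1_D2 {c : ℕ → ℂ} {s : ℕ} {lam : ℕ → ℝ} {N : ℕ → ℕ} {e : ℕ → ℝ} {n1 p q : ℕ}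
    (h : Bl2 c s lam N e n1) (hm : Monotone lam) (hp : n1 ≤ p) (hq : p ≤ q) {y : ℝ}
    (hy : y ≤ 2 ^ s * yy q) :
    ∑ k ∈ Finset.Ico (N p) (N q), ‖c k‖ ^ 2 * Real.exp (2 * k * y) ≤ Real.exp (-lam p) := by
  refine (sum_D2 h hm hp hq hy).trans (mul_le_of_le_one_left (Real.exp_pos _).le ?_)
  refine le_trans (Finset.sum_le_sum_of_subset_of_nonneg ?_ fun i _ _ => (h.2.2.2.1 i).le)
    (h.2.2.2.2.1 q)
  intro t ht
  exact Finset.mem_range.2 (Finset.mem_Ico.1 ht).2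

theorem bd_D2 (h3 : SLp) {c : ℕ → ℂ} {s : ℕ} {lam : ℕ → ℝ} {N : ℕ → ℕ} {e : ℕ → ℝ} {n1 : ℕ}
    (h : Bl2 c s lam N e n1) (h0 : ∀ n, 0 ≤ lam n) (hm : Monotone lam) :
    ∃ B1 : ℝ, 0 ≤ B1 ∧ ∀ n, n1 ≤ n → ∀ y : ℝ, y ≤ 2 ^ s * yy n →
      ms (fun z => PP_D2 c (N n) z⁻¹) y ≤ B1 := by
  refine ⟨∑ k ∈ Finset.range (N n1), ‖c k‖ ^ 2 * Real.exp (2 * k * 2 ^ s) + 1, by positivity, ?_⟩
  intro n hn y hy
  have h1 : ms (fun z => PP_D2 c (N n) z⁻¹) y = _ := h3 (Finset.range (N n)) c y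
  rw [h1, ← Finset.sum_range_add_sum_Ico _ (h.1 hn)]
  have h2 : y ≤ 2 ^ s := hy.trans (mul_le_of_le_one_right (by positivity) (yy_le_one n))
  refine add_le_add (Finset.sum_le_sum fun k _ => by gcongr) ((sum1_D2 h hm le_rfl hn hy).trans ?_)
  exact Real.exp_le_one_iff.2 (neg_nonpos.2 (h0 n1))

theorem ms_zero_D2 (f : ℂ → ℂ) :
    (∫ θ in Set.Ioc (0 : ℝ) (2 * Real.pi), ‖f (ex θ)‖ ^ 2) = 2 * Real.pi * ms f 0 := by
  have hp : 0 < 2 * Real.pi := by positivity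
  rw [ms, neg_zero, Real.exp_zero, H19.avg_one, intervalIntegral.integral_of_le hp.le,
    ← mul_assoc, mul_inv_cancel₀ hp.ne', one_mul]

theorem sq3_D2 (u v w : ℂ) : ‖v‖ ^ 2 ≤ 3 * (‖u‖ ^ 2 + ‖u - (v + w)‖ ^ 2 + ‖w‖ ^ 2) := by
  have h1 : ‖v‖ ≤ ‖u‖ + ‖u - (v + w)‖ + ‖w‖ := by
    have e : v = u - (u - (v + w)) - w := by ring
    calc ‖v‖ = ‖u - (u - (v + w)) - w‖ := by rw [← e]
      _ ≤ ‖u - (u - (v + w))‖ + ‖w‖ := norm_sub_le _ _
      _ ≤ _ := add_le_add (norm_sub_le _ _) le_rfl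
  have h2 := pow_le_pow_left₀ (norm_nonneg _) h1 2
  nlinarith [sq_nonneg (‖u‖ - ‖u - (v + w)‖), sq_nonneg (‖u‖ - ‖w‖),
    sq_nonneg (‖u - (v + w)‖ - ‖w‖)]

theorem isq_D2 {h : ℝ → ℂ} (hh : Continuous h) :
    Integrable (fun θ : ℝ => ‖h θ‖ ^ 2) (volume.restrict (Set.Ioc (0 : ℝ) (2 * Real.pi))) :=
  (hh.norm.pow 2).integrableOn_Icc.mono_set Set.Ioc_subset_Icc_self

theorem one_D2 {β : ℝ → ℂ} {P : ℂ → ℂ}
    (hβ : MemLp β 2 (volume.restrict (Set.Ioc (0 : ℝ) (2 * Real.pi))))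
    (S : Polynomial ℂ) (hP : Continuous fun θ : ℝ => P (ex θ)) {B1 : ℝ} (hB : ms P 0 ≤ B1)
    (he : (∫ θ in Set.Ioc (0 : ℝ) (2 * Real.pi), ‖β θ - (S.eval (ex θ) + P (ex θ))‖ ^ 2) ≤ 1) :
    ms (fun z => S.eval z) 0 ≤
      3 * ((∫ θ in Set.Ioc (0 : ℝ) (2 * Real.pi), ‖β θ‖ ^ 2) + 1 + 2 * Real.pi * B1) := by
  have hS : Continuous fun θ : ℝ => S.eval (ex θ) := S.continuous.comp H19.cont_ex
  have i1 := (memLp_two_iff_integrable_sq_norm hβ.1).1 hβ
  have i2 := int_D2 (h := fun θ => S.eval (ex θ) + P (ex θ)) hβ (hS.add hP)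
  have i3 := isq_D2 hP
  have h1 := integral_mono (isq_D2 hS) (((i1.add i2).add i3).const_mul 3) fun θ =>
    sq3_D2 (β θ) (S.eval (ex θ)) (P (ex θ))
  rw [integral_const_mul, integral_add' (i1.add i2) i3, integral_add' i1 i2,
    ms_zero_D2 fun z => S.eval z, ms_zero_D2 P] at h1
  have h3 := Real.pi_gt_three
  have h4 := ms_nonneg (fun z => S.eval z) 0
  have h5 : 2 * Real.pi * ms P 0 ≤ 2 * Real.pi * B1 := by gcongr
  nlinarith

theorem rad_D2 (S : Polynomial ℂ) {y : ℝ} (hy : 0 ≤ y) :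
    ms (fun z => S.eval z) y ≤ ms (fun z => S.eval z) 0 := by
  rw [ms, ms, H19.avg_Rad S (Real.exp_pos _).le, H19.avg_Rad S (Real.exp_pos _).le]
  exact H19.mm_mono_Rad S (Real.exp_pos _).le (Real.exp_le_exp.2 (by linarith))

theorem sq2_D2 (a b : ℂ) : ‖a + b‖ ^ 2 ≤ 2 * ‖a‖ ^ 2 + 2 * ‖b‖ ^ 2 + 0 := by
  have h := pow_le_pow_left₀ (norm_nonneg _) (norm_add_le a b) 2
  nlinarith [sq_nonneg (‖a‖ - ‖b‖)]

theorem pt_D2 (h2 : SPe) {f : ℂ → ℂ} (hf : ∀ w : ℂ, w ≠ 0 → DifferentiableAt ℂ f w) {B : ℝ}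
    (hB : 0 ≤ B) {n : ℕ} (hn : 3 ≤ n) (h : ∀ y : ℝ, 0 ≤ y → y ≤ 8 * yy n → ms f y ≤ B) {z : ℂ}
    (hz : Real.exp (-(4 * yy n)) ≤ ‖z‖) (hz' : ‖z‖ ≤ Real.exp (-(yy n / 4))) :
    ‖f z‖ ≤ Real.exp ((54 * (B + 1) + 1) * n) := by
  have hy := yy_pos n
  have hz0 : 0 < ‖z‖ := (Real.exp_pos _).trans_le hz
  obtain ⟨y, hyz⟩ : ∃ y : ℝ, ‖z‖ = Real.exp (-y) :=
    ⟨-Real.log ‖z‖, by rw [neg_neg, Real.exp_log hz0]⟩
  rw [hyz, Real.exp_le_exp] at hz hz'
  have h8 : 8 * yy n ≤ 1 := by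
    have h3 := yy_anti hn
    have h4 : yy 3 = 1 / 8 := by unfold yy; norm_num
    linarith
  have h3 := h2 f (yy n / 8) (8 * yy n) y B z hf (by positivity) (by linarith) (by linarith) h8
    (h _ (by positivity) (by linarith)) (h _ (by positivity) le_rfl) hyz
  have h4 : 1 / (y - yy n / 8) ≤ 8 * 2 ^ n := by
    rw [div_le_iff₀ (by linarith)]
    have h5 : (0 : ℝ) < 2 ^ n := by positivity
    nlinarith [yy_mul n]
  have h5 : 1 / (8 * yy n - y) ≤ 2 ^ n := by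
    rw [div_le_iff₀ (by linarith)]
    have h5 : (0 : ℝ) < 2 ^ n := by positivity
    nlinarith [yy_mul n]
  have h6 : ‖f z‖ ^ 2 ≤ 54 * (B + 1) * 2 ^ n := by
    refine h3.trans ?_
    have h7 := mul_le_mul_of_nonneg_left (add_le_add h4 h5) (show 0 ≤ 6 * (B + 1) by positivity)
    linarith
  have h7 := h6.trans (grow_D2 (by positivity) (show 1 ≤ n by omega))
  have h9 : 1 ≤ Real.exp ((54 * (B + 1) + 1) * n) := Real.one_le_exp (by positivity)
  nlinarith [sq_nonneg (‖f z‖ - 1)]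

theorem last_D2 {u : ℝ} {a b d : ℂ} (hu : 0 < u) (h2 : u < ‖d + a‖) :
    u ^ 2 ≤ 2 * ‖0 - (d + b)‖ ^ 2 + 2 * ‖b - a‖ ^ 2 := by
  have h3 : ‖d + a‖ ≤ ‖d + b‖ + ‖b - a‖ := by
    have e : d + a = (d + b) - (b - a) := by ring
    rw [e]; exact norm_sub_le _ _
  have h4 := pow_le_pow_left₀ hu.le (h2.le.trans h3) 2
  rw [zero_sub, norm_neg]
  nlinarith [sq_nonneg (‖d + b‖ - ‖b - a‖)]

theorem sD2 (h1 : SFs) (h2 : SPe) (h3 : SLp) : SD2 := by
  intro β F s lam N e n1 hβ _ hF hs h0 hm hb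
  obtain ⟨n2, a1, a2⟩ : ∃ n2 : ℕ, n1 ≤ n2 ∧ 3 ≤ n2 := ⟨n1 + 3, by omega, by omega⟩
  obtain ⟨B1, hB1, hP⟩ := bd_D2 h3 hb h0 hm
  obtain ⟨B2, hB2⟩ : ∃ B2 : ℝ, B2 =
      3 * ((∫ θ in Set.Ioc (0 : ℝ) (2 * Real.pi), ‖β θ‖ ^ 2) + 1 + 2 * Real.pi * B1) := ⟨_, rfl⟩
  have hB0 : 0 ≤ B2 := by
    have : 0 ≤ ∫ θ in Set.Ioc (0 : ℝ) (2 * Real.pi), ‖β θ‖ ^ 2 :=
      integral_nonneg fun θ => by positivity
    rw [hB2]; positivity
  refine ⟨54 * (2 * B2 + 2 * B1 + 1) + 1, 2 * B2 + 2 * B1, n2, by positivity, by positivity, ?_⟩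
  intro p hp
  have hε1 : Real.exp (-lam p) ≤ 1 := Real.exp_le_one_iff.2 (neg_nonpos.2 (h0 p))
  obtain ⟨q, ⟨S, hS0, hS⟩, hq⟩ :=
    ((hb.2.2.1.eventually (h1 β hβ _ (Real.exp_pos (-lam p)))).and (eventually_ge_atTop p)).exists
  have hz : ∀ n : ℕ, (0 : ℝ) ≤ 2 ^ s * yy n := fun n => mul_nonneg (by positivity) (yy_pos n).le
  have hc : ∀ n : ℕ, Continuous fun θ : ℝ => PP_D2 (cf β) (N n) (ex θ)⁻¹ := fun n =>
    (PP_diff_D2 _ _).continuous.comp (H19.cont_ex.inv₀ fun θ => Complex.exp_ne_zero _)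
  have hA : ms (fun z => S.eval z) 0 ≤ B2 :=
    hB2 ▸ one_D2 (P := fun z => PP_D2 (cf β) (N q) z⁻¹) hβ S (hc q)
      (hP q (a1.trans (hp.trans hq)) 0 (hz q)) (hS.trans hε1)
  have hd : ∀ (n : ℕ) (z : ℂ), z ≠ 0 →
      DifferentiableAt ℂ (fun z => S.eval z + PP_D2 (cf β) (N n) z⁻¹) z := fun n z hz =>
    (S.differentiable z).add (PP_at_D2 _ _ hz)
  have hM : ∀ n, n2 ≤ n → ∀ y : ℝ, 0 ≤ y → y ≤ 2 ^ s * yy n →
      ms (fun z => S.eval z + PP_D2 (cf β) (N n) z⁻¹) y ≤ 2 * B2 + 2 * B1 := by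
    intro n hn y hy hy'
    have h4 := ms_le (f1 := fun z => S.eval z) (f2 := fun z => PP_D2 (cf β) (N n) z⁻¹)
      (con_sphere (hd n) y) S.continuous.continuousOn (PP_con_D2 _ _ (Real.exp_pos _))
      fun z _ => sq2_D2 _ _
    linarith [rad_D2 S hy, hP n (a1.trans hn) y hy']
  refine ⟨fun n z => S.eval z + PP_D2 (cf β) (N n) z⁻¹,
    ⟨hd, hb.2.2.2.1, hb.2.2.2.2.1, ?_, ?_, hM⟩, ?_, ?_⟩
  · intro n hn y _ hy
    have h4 : (fun z : ℂ => S.eval z + PP_D2 (cf β) (N (n + 1)) z⁻¹ -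
        (S.eval z + PP_D2 (cf β) (N n) z⁻¹)) =
        fun z : ℂ => ∑ k ∈ Finset.Ico (N n) (N (n + 1)), cf β k * z⁻¹ ^ k := by
      funext z
      rw [add_sub_add_left_eq_sub, PP_sub_D2 _ (hb.1 (Nat.le_succ n))]
    rw [h4, h3]
    refine blk_D2 hb (a1.trans hn) (hy.trans ?_)
    have h5 : (2 : ℝ) ^ 1 ≤ 2 ^ s := pow_le_pow_right₀ (by norm_num) (by omega)
    rw [yy_succ]
    nlinarith [yy_pos n]
  · intro n hn z hz1 hz2
    refine pt_D2 h2 (hd n) (by positivity) (a2.trans hn) (fun y hy hy' => hM n hn y hy ?_) hz1 hz2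
    have h5 : (2 : ℝ) ^ 3 ≤ 2 ^ s := pow_le_pow_right₀ (by norm_num) hs
    nlinarith [yy_pos n]
  · intro n r hr
    rw [Real.circleAverage_fun_add (S.continuous.continuousOn.circleIntegrable hr.le)
      ((PP_con_D2 _ _ hr).circleIntegrable hr.le), avg_ent_D2 S.differentiable,
      avg_inv_D2 (PP_diff_D2 _ _), hS0, zero_add, PP_zero_D2 _ (hb.2.1 n)]
  · have i1 := int_D2 hβ ((S.continuous.comp H19.cont_ex).add (hc q))
    have i2 := isq_D2 ((hc q).sub (hc p))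
    have h4 : (fun z : ℂ => PP_D2 (cf β) (N q) z⁻¹ - PP_D2 (cf β) (N p) z⁻¹) =
        fun z : ℂ => ∑ k ∈ Finset.Ico (N p) (N q), cf β k * z⁻¹ ^ k :=
      funext fun z => PP_sub_D2 _ (hb.1 hq) _
    have h5 := ms_zero_D2 fun z : ℂ => PP_D2 (cf β) (N q) z⁻¹ - PP_D2 (cf β) (N p) z⁻¹
    have h6 : ms (fun z : ℂ => PP_D2 (cf β) (N q) z⁻¹ - PP_D2 (cf β) (N p) z⁻¹) 0 ≤
        Real.exp (-lam p) := by
      rw [h4, h3]
      exact sum1_D2 hb hm (a1.trans hp) hq (hz q)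
    have h7 : Real.exp (-(lam p / 2)) * Real.exp (-(lam p / 2)) = Real.exp (-lam p) := by
      rw [← Real.exp_add]; congr 1; ring
    have h8 : Real.exp (-(lam p / 2)) = Real.exp (-(lam p / 4)) ^ 2 := by
      rw [← Real.exp_nat_mul]; congr 1; push_cast; ring
    refine cheb_D2 (f := fun θ =>
        2 * ‖β θ - (S.eval (ex θ) + PP_D2 (cf β) (N q) (ex θ)⁻¹)‖ ^ 2 +
          2 * ‖PP_D2 (cf β) (N q) (ex θ)⁻¹ - PP_D2 (cf β) (N p) (ex θ)⁻¹‖ ^ 2)
      (fun x => by positivity) ((i1.const_mul 2).add (i2.const_mul 2))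
      (a := Real.exp (-(lam p / 2))) (Real.exp_pos _) ?_ ?_
    · have h9 : (∫ θ in Set.Ioc (0 : ℝ) (2 * Real.pi),
          ‖β θ - (S.eval (ex θ) + PP_D2 (cf β) (N q) (ex θ)⁻¹)‖ ^ 2) ≤ Real.exp (-lam p) := hS
      have h10 := integral_add (i1.const_mul 2) (i2.const_mul 2)
      rw [integral_const_mul, integral_const_mul] at h10
      have h11 : 2 * Real.pi * ms (fun z : ℂ =>
          PP_D2 (cf β) (N q) z⁻¹ - PP_D2 (cf β) (N p) z⁻¹) 0 ≤ 2 * 3.5 * Real.exp (-lam p) :=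
        mul_le_mul (by linarith [Real.pi_lt_d2]) h6 (ms_nonneg _ _) (by norm_num)
      rw [← h5] at h11
      refine h10.le.trans ?_
      refine le_trans (add_le_add (mul_le_mul_of_nonneg_left h9 (by norm_num))
        (mul_le_mul_of_nonneg_left h11 (by norm_num))) ?_
      rw [mul_left_comm (Real.exp _), h7]
      linarith
    · rintro x ⟨hx1, hx2, hx3⟩
      refine ⟨hx1, ?_⟩
      have h9 := last_D2 (b := PP_D2 (cf β) (N q) (ex x)⁻¹) (Real.exp_pos _) hx3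
      rw [← hF x hx2, ← h8] at h9
      exact h9

end Pool.Agent.MP_17fac5_an.Ch

end

section

set_option autoImplicit false
open MeasureTheory Filter Topology

namespace Pool.Agent.MP_17fac5_an.Ch

open Pool.Agent.MP_17fac5_an.H19 (ex)

/-- The relative width seen from level `n`. -/
noncomputable def q_G2 (W : ℝ) (n : ℕ) : ℝ := min W (yy n) / yy n

theorem q_eq_G2 (W : ℝ) (n : ℕ) : q_G2 W n = min (W / yy n) 1 := by
  rw [q_G2, ← min_div_div_right (yy_pos n).le, div_self (yy_pos n).ne']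

theorem q_mono_G2 {W : ℝ} (hW : 0 ≤ W) {n m : ℕ} (h : n ≤ m) : q_G2 W n ≤ q_G2 W m := by
  rw [q_eq_G2, q_eq_G2]
  exact min_le_min (div_le_div_of_nonneg_left hW (yy_pos m) (yy_anti h)) le_rfl

theorem q_one_G2 {W : ℝ} {n : ℕ} (h : yy n ≤ W) : q_G2 W n = 1 := by
  rw [q_G2, min_eq_right h, div_self (yy_pos n).ne']

theorem q_cases_G2 (W : ℝ) (n : ℕ) : q_G2 W n = 1 ∨ q_G2 W n = W / yy n := by
  rcases le_total (yy n) W with h | h
  · exact Or.inl (q_one_G2 h)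
  · exact Or.inr (by rw [q_G2, min_eq_left h])

theorem mulq_G2 (K W : ℝ) (n : ℕ) : K * min W (yy n) / yy n = K * q_G2 W n := by
  rw [q_G2, mul_div_assoc]

section

variable {c A0 C2 Λ γ W : ℝ} {l : ℕ → ℝ} {n0 n1 j : ℕ} {P : ℕ → ℝ → ℝ → Prop}

theorem low_G2 (h0 : ∀ n, 0 < l n) (hm : Monotone l) (hC : 1 ≤ C2)
    (cap : ∀ t, n0 ≤ t → t ≤ j → yy t * l t ≤ C2 * (l j * W)) {n : ℕ} (h1 : n0 ≤ n) (h2 : n ≤ j) :
    l n ≤ C2 * (l j * q_G2 W n) := by
  rcases q_cases_G2 W n with h | h <;> rw [h]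
  · have := hm h2
    nlinarith [h0 j]
  · have h3 := cap n h1 h2
    rw [← mul_div_assoc, ← mul_div_assoc, le_div_iff₀ (yy_pos n)]
    linarith

theorem move_G2 (hc1 : c ≤ 1) (hγ : 0 < γ) (hΛ : γ * Λ ≤ c) (hγc : γ ≤ c)
    (h0 : ∀ n, 0 < l n)
    (hP : ∀ (n : ℕ) (K W K' W' : ℝ), P n K W → K' ≤ K → W' ≤ W → P n K' W')
    (hV : MvV2 c A0 n1 l P) {k : ℕ} (hk1 : j ≤ k) (hk2 : k ≤ j + 1) (hW : yy k ≤ W)
    (h : P k (γ * l j) W) {i : ℕ} (h1 : n1 ≤ i)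
    (h2 : i ≤ j) (hs : ∀ n, i ≤ n → n < j → l j * q_G2 W n ≤ Λ * l n)
    (hA : A0 * i ≤ γ * (l j * q_G2 W i)) :
    P i (c * (γ * (l j * q_G2 W i))) (max W (yy i)) := by
  have hK : 0 < γ * l j := mul_pos hγ (h0 j)
  rcases (h2.trans hk1).eq_or_lt with rfl | h2'
  · rw [q_one_G2 hW, max_eq_left hW]
    exact hP _ _ _ _ _ h (by nlinarith) le_rfl
  have key := hV i k (γ * l j) W h1 h2' hW ?_ ?_ h
  · rwa [mulq_G2, mul_assoc] at key
  · intro n hn hn'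
    rcases (show n ≤ j by omega).eq_or_lt with rfl | hn2
    · exact (min_le_left _ _).trans (mul_le_mul_of_nonneg_right hγc (h0 n).le)
    have h3 : min (γ * l j) (γ * l j * min W (yy i) / yy n) ≤ γ * (l j * q_G2 W n) := by
      rcases q_cases_G2 W n with h | h <;> rw [h]
      · rw [mul_one]
        exact min_le_left _ _
      · refine (min_le_right _ _).trans ?_
        rw [← mul_assoc, mul_div_assoc]
        exact mul_le_mul_of_nonneg_left
          (div_le_div_of_nonneg_right (min_le_left _ _) (yy_pos n).le) hK.le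
    have h4 := mul_le_mul_of_nonneg_left (hs n hn hn2) hγ.le
    have h5 := mul_le_mul_of_nonneg_right hΛ (h0 n).le
    linarith
  · rwa [mulq_G2, mul_assoc]

theorem hor_G2 (hc : 0 < c) (hc1 : c ≤ 1) (hH : MvH c A0 n1 P) {i s : ℕ} {K : ℝ} (h1 : n1 ≤ i)
    (hW : yy i ≤ W) (hK : 0 ≤ K) (hs : A0 * i ≤ c ^ s * K) (h : P i K W) :
    ∀ k, k ≤ s → P i (c ^ k * K) (W + k * yy i / 2) := by
  intro k
  induction k with
  | zero => intro _; simpa using h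
  | succ k ih =>
    intro hk
    have h2 : (0 : ℝ) ≤ k * yy i / 2 := by have := yy_pos i; positivity
    have h3 := hH i _ _ h1 (by linarith) (hs.trans (mul_le_mul_of_nonneg_right
      (pow_le_pow_of_le_one hc.le hc1 (by omega : k ≤ s)) hK)) (ih (by omega))
    convert h3 using 1
    · ring
    · push_cast
      ring

theorem up_G2 (h0 : ∀ n, 0 < l n) (hm : Monotone l) (hC : 1 ≤ C2)
    (cap : ∀ t, n0 ≤ t → t ≤ j → yy t * l t ≤ C2 * (l j * W)) {n : ℕ} (h1 : n0 ≤ n) (r : ℕ)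
    (htj : n + r ≤ j) : l (n + r) ≤ C2 * (l j * q_G2 W n) * 2 ^ r := by
  have h5 : (1 : ℝ) ≤ 2 ^ r := one_le_pow₀ (by norm_num)
  rcases q_cases_G2 W n with h | h <;> rw [h]
  · have h6 := hm htj
    have h7 : 1 ≤ C2 * 2 ^ r := one_le_mul_of_one_le_of_one_le hC h5
    nlinarith [h0 j]
  · have h6 := cap _ (by omega) htj
    rw [← yy_add n r, show C2 * (l j * (W / (2 ^ r * yy (n + r)))) * 2 ^ r =
      C2 * (l j * W) / yy (n + r) by have := yy_pos (n + r); field_simp,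
      le_div_iff₀ (yy_pos _)]
    linarith

theorem wid_G2 (h0 : ∀ n, 0 < l n) (hC : 1 ≤ C2) {F x : ℝ} {n : ℕ} (hp : 0 < F)
    (h4 : ∀ r, n + 1 + r ≤ j → l (n + 1 + r) ≤ C2 * F * 2 ^ r)
    (hx : Real.log (F / l n) = x) (hx1 : C2 ≤ x) : RR l n j ≤ yy n * (3 * x) := by
  have h2 : Real.log 2 ≤ 1 := by linarith [Real.log_two_lt_d9]
  have h3 : 0 ≤ Real.log 2 := Real.log_nonneg (by norm_num)
  refine (RR_ab (E := 2 * x) (L := Real.log 2) (fun t _ => h0 t) (by linarith) h3 ?_).trans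
    (mul_le_mul_of_nonneg_left (by linarith) (yy_pos n).le)
  intro t ht htj
  obtain ⟨r, rfl⟩ : ∃ r, t = n + 1 + r := ⟨t - (n + 1), by omega⟩
  have h6 := Real.log_le_log (h0 _) (h4 r htj)
  rw [Real.log_mul (by positivity) (by positivity), Real.log_mul (by positivity) hp.ne',
    Real.log_pow] at h6
  rw [Real.log_div hp.ne' (h0 n).ne'] at hx
  have h7 := Real.log_le_sub_one_of_pos (show 0 < C2 by linarith)
  push_cast
  linarith

theorem cap_G2 {C B a : ℝ} {p : ℕ} {m : ℕ → ℝ} (hC : 1 ≤ C) (h0 : ∀ n, 0 < l n)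
    (hm : ∀ n, l n ≤ m n) (hj : m j ≤ l j + a) (hT : TD C n0 p l) (h1 : n0 ≤ j) (h2 : j ≤ p)
    (hW : yy j ≤ 2 * W) (hR : RR m j p ≤ B * W) (ha : 2 * C * (a * yy j) ≤ yy n0 * l n0) :
    ∀ t, n0 ≤ t → t ≤ j → yy t * l t ≤ 2 * C * (2 + B) * (l j * W) := by
  have h3 := RR_le (l := l) (l' := m) (j := j) (N := p) (fun t _ => h0 t)
    (fun t _ => (h0 t).trans_le (hm t)) fun t _ _ => hm t
  have hmj := (h0 j).trans_le (hm j)
  have h4 := Real.log_le_sub_one_of_pos (div_pos hmj (h0 j))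
  rw [Real.log_div hmj.ne' (h0 j).ne', le_sub_iff_add_le, le_div_iff₀ (h0 j)] at h4
  have h5 : l j * (yy j + RR l j p) ≤ (2 + B) * (l j * W) + a * yy j := by
    have h6 : yy j + RR l j p ≤ (2 + B) * W + yy j * (Real.log (m j) - Real.log (l j)) := by
      linarith
    have h7 := mul_le_mul_of_nonneg_left h6 (h0 j).le
    have h8 := mul_le_mul_of_nonneg_left
      (show (Real.log (m j) - Real.log (l j)) * l j ≤ a by linarith) (yy_pos j).le
    linarith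
  have h6 := mul_le_mul_of_nonneg_left h5 (show 0 ≤ C by linarith)
  have h7 := hT n0 j le_rfl h1 h2
  intro t ht htj
  have h8 := hT t j ht htj h2
  linarith

end

theorem sG2 : SG2 := by
  intro c C A0 hc hc2 hC hA
  obtain ⟨L, hL⟩ : ∃ L, L = -Real.log c := ⟨_, rfl⟩
  have hL2 : Real.log 2 ≤ L := by
    have := Real.log_le_log hc hc2
    rw [one_div, Real.log_inv] at this
    linarith
  have hL0 : 0 < L := lt_of_lt_of_le (Real.log_pos (by norm_num)) hL2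
  obtain ⟨C2, hC2⟩ : ∃ C2, C2 = 2 * C * (2 + 24 * L) := ⟨_, rfl⟩
  have hCC : 2 ≤ C2 := by rw [hC2]; nlinarith
  have hC1 : 1 ≤ C2 := by linarith
  obtain ⟨Λ, hΛ⟩ : ∃ Λ, Λ = Real.exp (8 * L + C2) := ⟨_, rfl⟩
  have hΛ1 : 1 ≤ Λ := hΛ ▸ Real.one_le_exp (by linarith)
  obtain ⟨γ, hγ⟩ : ∃ γ, γ = c ^ 2 / (4 * Λ) := ⟨_, rfl⟩
  have hγ0 : 0 < γ := by rw [hγ]; positivity
  have hγΛ : γ * Λ = c ^ 2 / 4 := by rw [hγ]; field_simp
  have hγc : γ ≤ c ^ 2 / 4 := by nlinarith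
  have hc1 : c ≤ 1 := by linarith
  have hγ4 : γ ≤ c / 4 := by nlinarith
  have hγ5 : γ * Λ ≤ c := by nlinarith
  obtain ⟨Aq, hAq⟩ : ∃ Aq, Aq = A0 / γ := ⟨_, rfl⟩
  have hAq0 : 0 ≤ Aq := by rw [hAq]; positivity
  have hAγ : A0 = γ * Aq := by rw [hAq]; field_simp
  have hA2 : Aq ≤ Λ * Aq := le_mul_of_one_le_left hAq0 hΛ1
  have hA3 : Λ * Aq ≤ C2 * (Λ * Aq) := le_mul_of_one_le_left (hAq0.trans hA2) hC1
  refine ⟨C2 * (Λ * Aq), c * γ / C2, by positivity, ?_⟩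
  intro l n0 n1 p P h0 hm h01 h1p hT hsm hJ hJ1 hP hH hV hS
  obtain ⟨m, hmd⟩ : ∃ m : ℕ → ℝ, ∀ t, m t = max (l t) (Aq * (t + 1)) := ⟨_, fun _ => rfl⟩
  have hm1 : ∀ t, l t ≤ m t := fun t => hmd t ▸ le_max_left _ _
  have hm2 : ∀ t : ℕ, Aq * (t + 1) ≤ m t := fun t => hmd t ▸ le_max_right _ _
  have hm0 : ∀ t, 0 < m t := fun t => (h0 t).trans_le (hm1 t)
  have claim : ∀ j, ∀ i W, j ≤ i → i ≤ j + 1 → n1 ≤ j → j ≤ p → yy i ≤ W → RR m j p ≤ 24 * L * W →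
      P i (γ * l j) W → P n1 (c * γ / C2 * l n1) (yy n1) := by
    intro j
    induction j using Nat.strong_induction_on with
    | _ j ih =>
    intro i W hi1 hi2 h1 h2 hW hR h
    have hW0 : 0 < W := (yy_pos i).trans_le hW
    have cap : ∀ t, n0 ≤ t → t ≤ j → yy t * l t ≤ C2 * (l j * W) := by
      rw [hC2]
      have h3 : (0 : ℝ) ≤ (j : ℝ) + 1 := by positivity
      have h4 := mul_le_mul_of_nonneg_right (hA2.trans hA3) h3
      refine cap_G2 hC h0 hm1 ?_ hT (h01.trans h1) h2 ?_ hR (hsm j h1)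
      · rw [hmd]
        exact max_le (by linarith [mul_nonneg hAq0 h3]) (by linarith [h0 j])
      · linarith [yy_anti hi2, yy_succ j]
    have lo : ∀ k : ℕ, n1 ≤ k → k ≤ j → C2 * (Λ * Aq) * k ≤ l k →
        Λ * (Aq * k) ≤ l j * q_G2 W k := by
      intro k hk1 hk2 hk3
      have h3 := low_G2 h0 hm hC1 cap (h01.trans hk1) hk2
      refine le_of_mul_le_mul_left ?_ (show 0 < C2 by linarith)
      linarith
    have mv : ∀ k : ℕ, n1 ≤ k → k ≤ j → (∀ n, k ≤ n → n < j → l j * q_G2 W n ≤ Λ * l n) →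
        C2 * (Λ * Aq) * k ≤ l k → P k (c * (γ * (l j * q_G2 W k))) (max W (yy k)) := by
      intro k hk1 hk2 hk3 hk4
      refine move_G2 (Λ := Λ) hc1 hγ0 hγ5 (by linarith) h0 hP hV hi1 hi2 hW h hk1
        hk2 hk3 ?_
      rw [hAγ, mul_assoc]
      refine mul_le_mul_of_nonneg_left (le_trans ?_ (lo k hk1 hk2 hk4)) hγ0.le
      exact le_mul_of_one_le_left (by positivity) hΛ1
    by_cases hall : ∀ n, n1 ≤ n → n < j → l j * q_G2 W n ≤ Λ * l n
    · refine hP _ _ _ _ _ (mv n1 le_rfl h1 hall hJ1) ?_ (le_max_right _ _)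
      have h3 := low_G2 h0 hm hC1 cap h01 h1
      rw [div_mul_eq_mul_div, div_le_iff₀ (by linarith)]
      have := mul_le_mul_of_nonneg_left h3 (mul_pos hc hγ0).le
      linarith
    obtain ⟨n, hn1, hnj, hn, hmax⟩ : ∃ n, n1 ≤ n ∧ n < j ∧ Λ * l n < l j * q_G2 W n ∧
        ∀ m, n + 1 ≤ m → m < j → l j * q_G2 W m ≤ Λ * l m := by
      push Not at hall
      obtain ⟨n, hn1, hnj, hn⟩ := hall
      classical
      obtain ⟨m, hm1, hm2⟩ := Finset.exists_max_image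
        ((Finset.Ico n1 j).filter fun n => Λ * l n < l j * q_G2 W n) id
        ⟨n, by simp [hn1, hnj, hn]⟩
      simp only [Finset.mem_filter, Finset.mem_Ico, id] at hm1 hm2
      refine ⟨m, hm1.1.1, hm1.1.2, hm1.2, fun k hk hkj => ?_⟩
      by_contra hc
      have := hm2 k ⟨⟨by omega, hkj⟩, not_le.1 hc⟩
      omega
    have hF2 : Λ * l n < l j * q_G2 W (n + 1) := hn.trans_le
      (mul_le_mul_of_nonneg_left (q_mono_G2 hW0.le (Nat.le_succ n)) (h0 j).le)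
    have hJ2 : C2 * (Λ * Aq) * (n + 1 : ℕ) ≤ l (n + 1) := by
      push_cast
      refine (hJ n hn1).resolve_left fun e => ?_
      rcases (Nat.succ_le_of_lt hnj).eq_or_lt with e2 | e2
      · have h3 : q_G2 W n ≤ 1 := q_eq_G2 W n ▸ min_le_right _ _
        have h4 : l j = l n := by rw [← e2]; exact e
        rw [h4] at hn
        linarith [mul_le_mul_of_nonneg_left h3 (h0 n).le, mul_le_mul_of_nonneg_right hΛ1 (h0 n).le]
      · have h3 := hmax (n + 1) le_rfl e2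
        rw [e] at h3
        linarith
    have hP1 := mv (n + 1) (by omega) hnj hmax hJ2
    have hF3 := lo (n + 1) (by omega) hnj hJ2
    have hup := up_G2 h0 hm hC1 cap (n := n + 1) (by omega)
    obtain ⟨F, hF⟩ : ∃ F, F = l j * q_G2 W (n + 1) := ⟨_, rfl⟩
    rw [← hF] at hP1 hF2 hF3 hup
    have hF1 : Λ * m n ≤ F := by
      rw [hmd, mul_max_of_nonneg _ _ (show 0 ≤ Λ by linarith)]
      exact max_le hF2.le (by exact_mod_cast hF3)
    have hF0 : 0 < F := lt_of_lt_of_le (mul_pos (by linarith) (hm0 n)) hF1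
    obtain ⟨x, hx⟩ : ∃ x, Real.log (F / m n) = x := ⟨_, rfl⟩
    have hx1 : 8 * L + C2 ≤ x := by
      rw [← hx, Real.le_log_iff_exp_le (div_pos hF0 (hm0 n)), ← hΛ, le_div_iff₀ (hm0 n)]
      exact hF1
    have hw : RR m n j ≤ yy n * (3 * x) := by
      refine wid_G2 hm0 hC1 hF0 (fun r hr => ?_) hx (by linarith)
      rw [hmd]
      refine max_le (hup r hr) ?_
      have h3 : (r : ℝ) + 1 ≤ 2 ^ r := by exact_mod_cast Nat.lt_two_pow_self
      have h4 : (0 : ℝ) ≤ n := Nat.cast_nonneg n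
      have h5 : (0 : ℝ) ≤ r := Nat.cast_nonneg r
      have h6 : ((n + 1 + r : ℕ) : ℝ) + 1 ≤ (n + 1) * (2 * 2 ^ r) := by
        push_cast
        linarith [mul_nonneg h4 h5, mul_le_mul_of_nonneg_left h3 (add_nonneg h4 zero_le_one)]
      have h7 : m n ≤ F := (le_mul_of_one_le_left (hm0 n).le hΛ1).trans hF1
      have h8 := mul_le_mul_of_nonneg_left h6 hAq0
      have h9 := mul_le_mul_of_nonneg_right ((hm2 n).trans h7)
        (show (0 : ℝ) ≤ 2 * 2 ^ r by positivity)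
      have h10 := mul_le_mul_of_nonneg_right hCC (show (0 : ℝ) ≤ F * 2 ^ r by positivity)
      linarith
    obtain ⟨s, hs1, hs2⟩ : ∃ s : ℕ, (s + 3) * L ≤ x ∧ x ≤ 2 * L * s := by
      have h3 : 8 ≤ x / L := by rw [le_div_iff₀ hL0]; linarith
      have h4 : 8 ≤ ⌊x / L⌋₊ := Nat.le_floor (by exact_mod_cast h3)
      have h5 := Nat.floor_le (show 0 ≤ x / L by linarith)
      have h6 := Nat.lt_floor_add_one (x / L)
      obtain ⟨s, hs⟩ : ∃ s, ⌊x / L⌋₊ = s + 3 := ⟨⌊x / L⌋₊ - 3, by omega⟩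
      rw [hs] at h5 h6
      push_cast at h5 h6
      refine ⟨s, (le_div_iff₀ hL0).1 h5, ?_⟩
      have h7 : x / L ≤ 2 * s := by linarith
      rw [div_le_iff₀ hL0] at h7
      linarith
    have hk : 2 * m n ≤ c ^ (s + 2) * F := by
      have h3 : c ^ (s + 2) * F = Real.exp (x - (s + 2) * L) * m n := by
        rw [Real.exp_sub, ← hx, Real.exp_log (div_pos hF0 (hm0 n)), hL, mul_neg, Real.exp_neg,
          show ((s : ℝ) + 2) = ((s + 2 : ℕ) : ℝ) by push_cast; ring, Real.exp_nat_mul,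
          Real.exp_log hc]
        have := hm0 n
        field_simp
      rw [h3]
      refine mul_le_mul_of_nonneg_right ?_ (hm0 n).le
      rw [← Real.log_le_iff_le_exp (by norm_num)]
      linarith
    have hgl : 0 < γ * m n := mul_pos hγ0 (hm0 n)
    have hK2 : γ * m n ≤ c ^ s * (c * (γ * F)) := by
      have h3 := mul_le_mul_of_nonneg_left hk hγ0.le
      have h4 := mul_le_mul_of_nonneg_right hc1 (show 0 ≤ c ^ s * (c * (γ * F)) by positivity)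
      rw [pow_add] at h3
      linarith
    have hP2 := hP _ _ _ _ _ (hor_G2 (s := s) hc hc1 hH (by omega) (le_max_right _ _)
      (by positivity) (le_trans (by
        rw [hAγ, mul_assoc]
        push_cast
        exact mul_le_mul_of_nonneg_left (hm2 n) hγ0.le) hK2) hP1 s le_rfl)
      ((mul_le_mul_of_nonneg_left (hm1 n) hγ0.le).trans hK2) le_rfl
    have hy := yy_pos (n + 1)
    have hs0 : (0 : ℝ) ≤ s * yy (n + 1) / 2 := by positivity
    refine ih n hnj (n + 1) _ (Nat.le_succ n) le_rfl hn1 (by omega)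
      (by linarith [le_max_right W (yy (n + 1))]) ?_ hP2
    rw [RR_split m hnj.le h2]
    have h4 := mul_le_mul_of_nonneg_left (le_max_left W (yy (n + 1)))
      (show 0 ≤ 24 * L by linarith)
    have h5 := mul_le_mul_of_nonneg_left hs2 hy.le
    have h7 : yy n = 2 * yy (n + 1) := by linarith [yy_succ n]
    rw [h7] at hw
    linarith
  refine claim p p (yy p) le_rfl (Nat.le_succ p) h1p le_rfl le_rfl
    (by rw [RR_self]; have := yy_pos p; positivity)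
    (hP _ _ _ _ _ (hS ?_) (by linarith [mul_le_mul_of_nonneg_right hγ4 (h0 p).le]) le_rfl)
  have h1 := hT n0 p le_rfl (h01.trans h1p) le_rfl
  rw [RR_self, add_zero] at h1
  have h2 : 2 * (C2 * (Λ * Aq) * (p + 1)) ≤ l p := by
    refine le_of_mul_le_mul_left ?_ (mul_pos (show 0 < C by linarith) (yy_pos p))
    linarith [hsm p h1p]
  have h3 : (0 : ℝ) ≤ p := Nat.cast_nonneg p
  have h4 : 4 * A0 ≤ Aq := by
    linarith [mul_le_mul_of_nonneg_right (show γ ≤ 1 / 4 by linarith) hAq0]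
  have h5 := mul_le_mul_of_nonneg_right (h4.trans (hA2.trans hA3)) (show (0 : ℝ) ≤ p + 1 by linarith)
  linarith [mul_nonneg hA h3]

end Pool.Agent.MP_17fac5_an.Ch

end

section

set_option autoImplicit false
open MeasureTheory Filter Topology

namespace Pool.Agent.MP_17fac5_an.Ch

open Pool.Agent.MP_17fac5_an.H19 (ex)

/-- Logarithmic room below the polynomial level. -/
noncomputable def ee_Rd (x : ℝ) (j : ℕ) : ℝ := max 0 (Real.log (((j : ℝ) + 2) ^ 2 / x))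

theorem ee0_Rd (x : ℝ) (j : ℕ) : 0 ≤ ee_Rd x j := le_max_left _ _

theorem ee1_Rd {x : ℝ} (hx : 0 < x) (j : ℕ) : x * ee_Rd x j ≤ ((j : ℝ) + 2) ^ 2 := by
  have h : 0 < ((j : ℝ) + 2) ^ 2 / x := by positivity
  rw [mul_comm, ← le_div_iff₀ hx]
  exact max_le h.le (by linarith [Real.log_le_sub_one_of_pos h])

theorem ee2_Rd {x y : ℝ} (hx : 0 < x) (hy : 0 < y) {j t : ℕ} (h : j < t)
    (hu : y ≤ ((t : ℝ) + 1) ^ 2) :
    Real.log y ≤ Real.log x + ee_Rd x j + ((t : ℝ) - j - 1) * 2 := by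
  have j0 : (0 : ℝ) ≤ j := Nat.cast_nonneg j
  have h1 : (j : ℝ) + 1 ≤ t := by exact_mod_cast h
  have h2 : Real.log (((j : ℝ) + 2) ^ 2 / x) ≤ ee_Rd x j := le_max_right _ _
  have h3 := Real.log_le_log hy hu
  have h4 := Real.log_le_sub_one_of_pos (x := ((t : ℝ) + 1) / (j + 2)) (by positivity)
  have h5 : ((t : ℝ) + 1) / (j + 2) ≤ t - j := by
    rw [div_le_iff₀ (by positivity)]; nlinarith
  rw [Real.log_div (by positivity) hx.ne', Real.log_pow] at h2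
  rw [Real.log_pow] at h3
  rw [Real.log_div (by positivity) (by positivity)] at h4
  push_cast at h2 h3
  linarith

theorem poly_Rd {f : ℕ → ℝ} (h0 : ∀ t, 0 < f t) {j N : ℕ}
    (h : ∀ t, j < t → t ≤ N → f t ≤ ((t : ℝ) + 1) ^ 2) :
    RR f j N ≤ yy j * (ee_Rd (f j) j + 2) :=
  RR_ab (fun t _ => h0 t) (ee0_Rd _ _) zero_le_two fun t h1 h2 =>
    ee2_Rd (h0 j) (h0 t) h1 (h t h1 h2)

theorem sig_Rd : Tendsto (fun j : ℕ => ((j : ℝ) + 2) ^ 2 * yy j) atTop (𝓝 0) := by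
  have h := ((tendsto_pow_const_mul_const_pow_of_abs_lt_one 2 (r := (1 / 2 : ℝ))
    (by rw [abs_of_pos] <;> norm_num)).comp (tendsto_add_atTop_nat 2)).const_mul 4
  rw [mul_zero] at h
  refine h.congr fun j => ?_
  simp only [Function.comp_apply, yy]
  push_cast
  ring

theorem one_Rd {n0 : ℕ} {l l' : ℕ → ℝ} (h0 : ∀ n, 0 < l n) (h0' : ∀ n, 0 < l' n)
    (hm' : Monotone l')
    (h : ∀ n, n0 ≤ n → l' n ≤ l n ∧ (l n ≤ 2 * l' n ∨ l n ≤ ((n : ℝ) + 1) ^ 2)) {j : ℕ}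
    (hj : n0 ≤ j) (N : ℕ) : RR l j N ≤ RR l' j N + yy j * (3 + ee_Rd (l' j) j) := by
  have e : RR l j N = RR l' j N + RR (fun t => l t / l' t) j N := by
    unfold RR
    rw [← Finset.sum_add_distrib]
    refine Finset.sum_congr rfl fun t _ => ?_
    have a1 := h0 t
    have a2 := h0' t
    have a3 := h0 (t + 1)
    have a4 := h0' (t + 1)
    rw [← mul_add, ← Real.log_mul (by positivity) (by positivity)]
    congr 2
    field_simp
  have b := RR_ab (l := fun t => l t / l' t) (n := j) (N := N) (E := 1 + ee_Rd (l' j) j) (L := 2)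
    (fun t _ => div_pos (h0 t) (h0' t)) (by linarith [ee0_Rd (l' j) j]) zero_le_two
    fun t h1 _ => by
      have a1 : 0 ≤ Real.log (l j / l' j) := Real.log_nonneg ((one_le_div (h0' j)).2 (h j hj).1)
      have a2 : (j : ℝ) + 1 ≤ t := by exact_mod_cast h1
      have a3 := ee0_Rd (l' j) j
      rcases (h t (by omega)).2 with a4 | a4
      · have a5 := Real.log_le_sub_one_of_pos (div_pos (h0 t) (h0' t))
        have a6 : l t / l' t ≤ 2 := (div_le_iff₀ (h0' t)).2 a4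
        linarith
      · have a5 := ee2_Rd (h0' j) (h0 t) h1 a4
        have a6 := Real.log_le_log (h0' j) (hm' h1.le)
        rw [Real.log_div (h0 t).ne' (h0' t).ne']
        linarith
  rw [e]
  linarith

theorem three_Rd {C : ℝ} {n0 : ℕ} {l l' : ℕ → ℝ} (hC : 0 < C) (h0 : ∀ n, 0 < l n)
    (h0' : ∀ n, 0 < l' n) (hm : Monotone l) (hm' : Monotone l')
    (h : ∀ n, n0 ≤ n → l' n ≤ l n ∧ (l n ≤ 2 * l' n ∨ l n ≤ ((n : ℝ) + 1) ^ 2)) (hD : DD C n0 l)
    {i j1 j : ℕ} (hi : n0 ≤ i) (hij : i ≤ j1) (hj : j1 ≤ j) (ht : l j1 ≤ 2 * l' j1)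
    (hn : ∀ t, j1 < t → t ≤ j → ¬ l t ≤ 2 * l' t) :
    ∃ N, yy i * l i ≤ C * (8 * (l' j * (yy j + RR l' j N)) + 16 * (((j1 : ℝ) + 2) ^ 2 * yy j1)) := by
  obtain ⟨N, hN⟩ := hD i j1 hi hij
  have y1 := yy_pos j1
  have a1 := one_Rd h0 h0' hm' h (hi.trans hij) N
  have a2 := mul_le_mul_of_nonneg_left (ee1_Rd (h0' j1) j1) y1.le
  have a3 := RR_nonneg h0 hm j1 N
  have a4 : l j1 * (yy j1 + RR l j1 N) ≤
      2 * (l' j1 * (4 * yy j1 + RR l' j1 N)) + 2 * (((j1 : ℝ) + 2) ^ 2 * yy j1) := by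
    have b1 := mul_le_mul ht (add_le_add_right a1 (yy j1)) (by linarith)
      (by linarith [h0' j1])
    nlinarith
  have s0 : 0 ≤ ((j1 : ℝ) + 2) ^ 2 * yy j1 := by positivity
  rcases hj.eq_or_lt with rfl | hj'
  · refine ⟨N, hN.trans (mul_le_mul_of_nonneg_left (a4.trans ?_) hC.le)⟩
    nlinarith [mul_nonneg (h0' j1).le (RR_nonneg h0' hm' j1 N)]
  have hu : ∀ t, j1 < t → t ≤ j → l' t ≤ ((t : ℝ) + 1) ^ 2 := fun t h1 h2 =>
    (h t (by omega)).1.trans ((h t (by omega)).2.resolve_left (hn t h1 h2))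
  refine ⟨max N j, hN.trans (mul_le_mul_of_nonneg_left (a4.trans ?_) hC.le)⟩
  have b1 : l' j1 ≤ ((j1 : ℝ) + 2) ^ 2 := by
    have := (hm' j1.le_succ).trans (hu (j1 + 1) (by omega) hj')
    push_cast at this
    linarith
  have b2 := RR_mono h0' hm' j1 (le_max_left N j)
  rw [RR_split l' hj (le_max_right N j)] at b2
  have b3 := poly_Rd h0' hu
  have b4 := RR_nonneg h0' hm' j (max N j)
  have b5 := mul_le_mul_of_nonneg_left (b2.trans (add_le_add_left b3 _)) (h0' j1).le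
  have b6 := mul_le_mul_of_nonneg_right b1 y1.le
  have b7 := mul_le_mul_of_nonneg_right (hm' hj) b4
  nlinarith [mul_pos (h0' j) (yy_pos j), mul_nonneg (h0' j).le b4]

theorem sRd : SRd := by
  classical
  intro C n0 l l' hC h0 h0' hm hm' h hD
  have hh : 0 < yy n0 * l n0 := mul_pos (yy_pos _) (h0 _)
  have hs : ∀ᶠ j : ℕ in atTop, C * (32 * (((j : ℝ) + 2) ^ 2 * yy j)) < yy n0 * l n0 := by
    have := (sig_Rd.const_mul 32).const_mul C
    rw [mul_zero, mul_zero] at this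
    exact this.eventually (gt_mem_nhds hh)
  have hf : ∃ᶠ n : ℕ in atTop, ((n : ℝ) + 1) ^ 2 < l n := by
    intro hn
    obtain ⟨j, hj⟩ := eventually_atTop.1 (hn.and (hs.and (eventually_ge_atTop n0)))
    obtain ⟨a1, a2, a3⟩ := hj j le_rfl
    obtain ⟨N, hN⟩ := hD n0 j le_rfl a3
    have a4 := poly_Rd h0 (j := j) (N := N) fun t h1 _ => not_lt.1 (hj t h1.le).1
    have a5 := mul_le_mul_of_nonneg_left (ee1_Rd (h0 j) j) (yy_pos j).le
    have j0 : (0 : ℝ) ≤ j := Nat.cast_nonneg j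
    have a6 : l j ≤ ((j : ℝ) + 2) ^ 2 := (not_lt.1 a1).trans (by nlinarith)
    have a7 := mul_le_mul_of_nonneg_right a6 (yy_pos j).le
    have a8 : l j * (yy j + RR l j N) ≤ 32 * (((j : ℝ) + 2) ^ 2 * yy j) := by
      nlinarith [mul_le_mul_of_nonneg_left a4 (h0 j).le, mul_pos (h0 j) (yy_pos j)]
    linarith [mul_le_mul_of_nonneg_left a8 hC.le]
  have hf2 : ∀ m : ℕ, ∃ n, m ≤ n ∧ n0 ≤ n ∧ ((n : ℝ) + 1) ^ 2 < l n ∧ l n ≤ 2 * l' n := fun m => by
    obtain ⟨n, a1, a2⟩ := frequently_atTop.1 hf (max m n0)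
    have a3 := le_of_max_le_right a1
    exact ⟨n, le_of_max_le_left a1, a3, a2, (h n a3).2.resolve_right (not_le.2 a2)⟩
  refine ⟨tendsto_atTop_atTop_of_monotone hm' fun b => ?_, ?_⟩
  · obtain ⟨m, hb⟩ := exists_nat_ge b
    obtain ⟨n, a1, -, a2, a3⟩ := hf2 m
    have a4 : (m : ℝ) ≤ n := by exact_mod_cast a1
    exact ⟨n, by nlinarith [sq_nonneg (n : ℝ)]⟩
  obtain ⟨m, hs⟩ := eventually_atTop.1 hs
  obtain ⟨n1, c1, c2, -, c3⟩ := hf2 m
  refine ⟨16 * C + 1, n1, by linarith, c2, fun i j hi hij => ?_⟩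
  have d1 : n1 ≤ Nat.findGreatest (fun t => l t ≤ 2 * l' t) j :=
    Nat.le_findGreatest (hi.trans hij) c3
  have d2 := Nat.findGreatest_spec (P := fun t => l t ≤ 2 * l' t) (hi.trans hij) c3
  have d3 := Nat.findGreatest_le (P := fun t => l t ≤ 2 * l' t) j
  have d4 : ∀ t, Nat.findGreatest (fun t => l t ≤ 2 * l' t) j < t → t ≤ j → ¬ l t ≤ 2 * l' t :=
    fun t h1 h2 => Nat.findGreatest_is_greatest h1 h2
  generalize Nat.findGreatest (fun t => l t ≤ 2 * l' t) j = j1 at d1 d2 d3 d4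
  have d5 := hs j1 (c1.trans d1)
  have key : ∀ i', n0 ≤ i' → i' ≤ j1 → yy n0 * l n0 ≤ yy i' * l i' →
      ∃ N, yy i' * l i' ≤ 16 * C * (l' j * (yy j + RR l' j N)) := fun i' a1 a2 a3 => by
    obtain ⟨N, hN⟩ := three_Rd hC h0 h0' hm hm' h hD a1 a2 d3 d2 d4
    exact ⟨N, by linarith⟩
  have pos : ∀ N, 0 ≤ l' j * (yy j + RR l' j N) := fun N =>
    mul_nonneg (h0' j).le (add_nonneg (yy_pos j).le (RR_nonneg h0' hm' j N))
  have d6 := mul_le_mul_of_nonneg_left (h i (c2.trans hi)).1 (yy_pos i).le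
  rcases le_or_gt i j1 with d7 | d7
  · rcases le_total (yy n0 * l n0) (yy i * l i) with d8 | d8
    · obtain ⟨N, hN⟩ := key i (c2.trans hi) d7 d8
      exact ⟨N, by linarith [pos N]⟩
    · obtain ⟨N, hN⟩ := key n0 le_rfl (c2.trans d1) le_rfl
      exact ⟨N, by linarith [pos N]⟩
  · obtain ⟨N, hN⟩ := key n0 le_rfl (c2.trans d1) le_rfl
    refine ⟨N, ?_⟩
    have i0 : (0 : ℝ) ≤ i := Nat.cast_nonneg i
    have a1 : l i ≤ ((i : ℝ) + 2) ^ 2 :=
      ((h i (c2.trans hi)).2.resolve_left (d4 i d7 hij)).trans (by nlinarith)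
    have a2 := mul_le_mul_of_nonneg_right a1 (yy_pos i).le
    have a3 := hs i (c1.trans hi)
    have a4 : 32 * (((i : ℝ) + 2) ^ 2 * yy i) ≤ 16 * (l' j * (yy j + RR l' j N)) :=
      le_of_mul_le_mul_left (by linarith) hC
    nlinarith [pos N, mul_nonneg hC.le (pos N)]

end Pool.Agent.MP_17fac5_an.Ch

end

section

set_option autoImplicit false
open MeasureTheory Filter Topology

namespace Pool.Agent.MP_17fac5_an.Ch

open Pool.Agent.MP_17fac5_an.H19 (ex)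

theorem two_B2 {a b c x : ℝ} (h1 : a - b ≤ x) (h2 : a - c ≤ x) :
    Real.exp a * (Real.exp (-b) + Real.exp (-c)) ≤ 2 * Real.exp x := by
  rw [mul_add, ← Real.exp_add, ← Real.exp_add, two_mul]
  exact add_le_add (Real.exp_le_exp.2 (by linarith)) (Real.exp_le_exp.2 (by linarith))

theorem last_B2 {lam : ℕ → ℝ} (pm : Monotone lam) (pt : Tendsto lam atTop atTop) :
    ∃ m : ℕ → ℕ, (∀ n, m n ≤ n) ∧ (∀ n, lam (m n) = lam n) ∧ Monotone m ∧
      Tendsto m atTop atTop ∧ (∀ n, lam (n + 1) = lam n → m (n + 1) = m n) ∧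
      ∀ n, lam (n + 1) ≠ lam n → m (n + 1) = n + 1 := by
  classical
  obtain ⟨m, m0, m1⟩ : ∃ m : ℕ → ℕ, m 0 = 0 ∧
      ∀ n, m (n + 1) = if lam (n + 1) = lam n then m n else n + 1 :=
    ⟨fun n => Nat.rec 0 (fun n r => if lam (n + 1) = lam n then r else n + 1) n, rfl, fun _ => rfl⟩
  have h1 : ∀ n, m n ≤ n := fun n => by
    induction n with
    | zero => exact m0.le
    | succ n ih => rw [m1]; split_ifs <;> omega
  have h2 : ∀ n, lam (m n) = lam n := fun n => by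
    induction n with
    | zero => rw [m0]
    | succ n ih =>
      rw [m1]
      split_ifs with h
      · rw [ih, h]
      · rfl
  refine ⟨m, h1, h2, monotone_nat_of_le_succ fun n => ?_, tendsto_atTop.2 fun b => ?_,
    fun n h => by rw [m1, if_pos h], fun n h => by rw [m1, if_neg h]⟩
  · have := h1 n
    rw [m1]; split_ifs <;> omega
  · filter_upwards [pt.eventually_gt_atTop (lam b)] with n hn
    by_contra h
    have := pm (not_le.1 h).le
    rw [h2] at this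
    linarith

theorem sum_B2 {lam : ℕ → ℝ} (n1 M : ℕ) :
    ∑ n ∈ Finset.range M, ((if n1 ≤ n then 2 * (1 / lam n - 1 / lam (n + 1)) else 0) +
      (1 / 2 : ℝ) ^ (n + 2)) = 2 / lam n1 - 2 / lam (max M n1) + 1 / 2 - (1 / 2) ^ (M + 1) := by
  induction M with
  | zero => simp
  | succ M ih =>
    rw [Finset.sum_range_succ, ih]
    split_ifs with h
    · rw [max_eq_left h, max_eq_left (by omega)]; ring
    · rw [max_eq_right (by omega), max_eq_right (by omega)]; ring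

theorem sB2 : SB2 := by
  intro c B0 n0 s l hs hB0 h0 hm ht hj hc
  obtain ⟨lam, hlam⟩ : ∃ lam : ℕ → ℝ, lam = fun n => 1 / 2 ^ (s + 4) * l (n - (s + 1)) := ⟨_, rfl⟩
  rw [← hlam]
  have p0 : ∀ n, 0 < lam n := fun n => by
    have := h0 (n - (s + 1))
    rw [hlam]
    positivity
  have pm : Monotone lam := fun a b h => by
    rw [hlam]
    exact mul_le_mul_of_nonneg_left (hm (Nat.sub_le_sub_right h _)) (by positivity)
  have pt : Tendsto lam atTop atTop := by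
    rw [hlam]
    exact (ht.comp (tendsto_sub_atTop_nat (s + 1))).const_mul_atTop (by positivity)
  have pl : ∀ n, l (n - (s + 1)) = 16 * 2 ^ s * lam n := fun n => by
    rw [hlam]
    field_simp
    ring
  have hΓ : (2 : ℝ) ≤ 2 ^ s := by
    calc (2 : ℝ) = 2 ^ 1 := (pow_one 2).symm
      _ ≤ 2 ^ s := pow_le_pow_right₀ one_le_two hs
  have pj : ∀ n, lam (n + 1) = lam n ∨ 2 * lam n ≤ lam (n + 1) := fun n => by
    rcases le_or_gt n s with h | h
    · left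
      rw [hlam]
      simp only [show n + 1 - (s + 1) = n - (s + 1) by omega]
    · have a1 := pl n
      have a2 := pl (n + 1)
      rw [show n + 1 - (s + 1) = n - (s + 1) + 1 by omega] at a2
      have a3 : (0 : ℝ) < 16 * 2 ^ s := by positivity
      refine (hj (n - (s + 1))).imp (fun h => mul_left_cancel₀ a3.ne' (by linarith))
        fun h => le_of_mul_le_mul_left (by linarith) a3
  have py : ∀ n, s + 1 ≤ n → yy (n - (s + 1)) = 2 * 2 ^ s * yy n := fun n h => by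
    rw [← yy_add (n - (s + 1)) (s + 1), Nat.sub_add_cancel h]; ring
  obtain ⟨m, m1, m2, m3, m4, m5, m6⟩ := last_B2 pm pt
  obtain ⟨n1, hn1⟩ := eventually_atTop.1 ((m4.eventually_ge_atTop (n0 + s + 1)).and
    ((pt.eventually_ge_atTop 4).and (pt.eventually_ge_atTop B0)))
  have hi : ∀ n, 1 / lam (n + 1) ≤ 1 / lam n := fun n =>
    one_div_le_one_div_of_le (p0 n) (pm n.le_succ)
  refine ⟨fun n => ⌈2 * lam n * 2 ^ m n⌉₊, fun n => (if n1 ≤ n then
    2 * (1 / lam n - 1 / lam (n + 1)) else 0) + (1 / 2 : ℝ) ^ (n + 2), n1,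
    fun a b h => Nat.ceil_mono ?_, fun n => ?_, ?_, fun n => ?_, fun M => ?_, fun n hn => ?_⟩
  · exact mul_le_mul (by linarith [pm h]) (pow_le_pow_right₀ one_le_two (m3 h)) (by positivity)
      (by linarith [p0 b])
  · have := p0 n
    exact Nat.ceil_pos.2 (by positivity)
  · refine tendsto_nat_ceil_atTop.comp (tendsto_atTop_mono (fun n => ?_) pt)
    have h3 : (1 : ℝ) ≤ 2 ^ m n := one_le_pow₀ one_le_two
    nlinarith [p0 n]
  · refine add_pos_of_nonneg_of_pos ?_ (by positivity)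
    split_ifs
    · linarith [hi n]
    · exact le_rfl
  · rw [sum_B2]
    have a1 : 2 / lam n1 ≤ 1 / 2 := by
      rw [div_le_iff₀ (p0 _)]; linarith [(hn1 n1 le_rfl).2.1]
    have a2 : 0 < 2 / lam (max M n1) := div_pos two_pos (p0 _)
    have a3 : (0 : ℝ) < (1 / 2) ^ (M + 1) := by positivity
    linarith
  obtain ⟨b1, b2, b3⟩ := hn1 n hn
  by_cases hJ : lam (n + 1) = lam n
  · simp only [hJ, m5 n hJ, Finset.Ico_self, Finset.sum_empty]
    positivity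
  have hJ2 := (pj n).resolve_left hJ
  have q0 := p0 n
  refine (hc _ (fun k => Real.exp (2 * k * (2 ^ s * yy (n + 1)))) (2 * Real.exp (-(8 * lam n)))
    (by positivity) fun k hk => ⟨(Real.exp_pos _).le, ?_⟩).trans ?_
  · obtain ⟨k1, k2⟩ := Finset.mem_Ico.1 hk
    have k0 : (0 : ℝ) ≤ k := Nat.cast_nonneg k
    have k3 : 2 * lam n ≤ k * yy (m n) := by
      have := mul_le_mul_of_nonneg_right (Nat.ceil_le.1 k1) (yy_pos (m n)).le
      rwa [mul_assoc, mul_comm (2 ^ m n), yy_mul, mul_one] at this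
    have k4 : k * yy (n + 1) ≤ 2 * lam (n + 1) := by
      have := mul_le_mul_of_nonneg_right (Nat.lt_ceil.1 k2).le (yy_pos (n + 1)).le
      rwa [m6 n hJ, mul_assoc, mul_comm (2 ^ (n + 1)), yy_mul, mul_one] at this
    have k5 : k * yy (n + 1) ≤ k * yy (m n) :=
      mul_le_mul_of_nonneg_left (yy_anti ((m1 n).trans n.le_succ)) k0
    have g0 : (0 : ℝ) ≤ 2 ^ s := by positivity
    have g1 := mul_le_mul_of_nonneg_right hΓ q0.le
    rcases le_total (k * yy (n + 1)) (2 * lam n) with k6 | k6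
    · refine ⟨m n - (s + 1), by omega, two_B2 ?_ ?_⟩
      · rw [pl, m2]
        nlinarith [mul_le_mul_of_nonneg_left k6 g0]
      · rw [py _ (by omega)]
        nlinarith [mul_le_mul_of_nonneg_left k3 g0, mul_le_mul_of_nonneg_left k5 g0]
    · have := m1 n
      refine ⟨n + 1 - (s + 1), by omega, two_B2 ?_ ?_⟩
      · rw [pl]
        nlinarith [mul_le_mul_of_nonneg_left k4 g0, mul_le_mul_of_nonneg_left hJ2 g0]
      · rw [py _ (by omega)]
        nlinarith [mul_le_mul_of_nonneg_left k6 g0]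
  · simp only [if_pos hn]
    have a1 : 2 * (1 / lam (n + 1)) ≤ 1 / lam n := by
      rw [mul_one_div, div_le_div_iff₀ (p0 _) q0]; linarith
    have a2 : Real.exp (-lam n) ≤ 1 / lam n := by
      rw [Real.exp_neg, one_div]
      exact inv_anti₀ q0 (by linarith [Real.add_one_le_exp (lam n)])
    have a3 : (0 : ℝ) < (1 / 2) ^ (n + 2) := by positivity
    have a4 : Real.exp (-lam n) ^ 2 ≤ (2 * (1 / lam n - 1 / lam (n + 1)) + (1 / 2) ^ (n + 2)) ^ 2 :=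
      pow_le_pow_left₀ (Real.exp_pos _).le (by linarith) 2
    refine le_trans ?_ (mul_le_mul_of_nonneg_right a4 (Real.exp_pos _).le)
    have a5 : Real.exp (-lam n) ^ 2 * Real.exp (-lam n)
        = Real.exp (5 * lam n) * Real.exp (-(8 * lam n)) := by
      rw [sq, ← Real.exp_add, ← Real.exp_add, ← Real.exp_add]; congr 1; ring
    rw [a5, ← mul_assoc]
    exact mul_le_mul_of_nonneg_right (by linarith [Real.add_one_le_exp (5 * lam n)])
      (Real.exp_pos _).le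

end Pool.Agent.MP_17fac5_an.Ch

end
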