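import Pool.Agent.MP_17fac5_an.Ch.PA
import Pool.Agent.MP_17fac5_an.Ch.PB
import Pool.Agent.MP_17fac5_an.Ch.PC
import Pool.Agent.MP_17fac5_an.Ch.PD

section

set_option autoImplicit false
open MeasureTheory Filter Topology

namespace Pool.Agent.MP_17fac5_an.Ch

open Pool.Agent.MP_17fac5_an.H19 (ex)

/-- The capacity condition for a weight. -/
def Cond (G : ℝ → ℝ) : Prop :=
  ∃ (C : ℝ) (n0 : ℕ) (l : ℕ → ℝ), 0 < C ∧ (∀ n, 0 < l n) ∧ Monotone l ∧
    (∀ n, n0 ≤ n → tail G (1 - yy n) ≤ ENNReal.ofReal (Real.exp (-l n))) ∧ DD C n0 l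

theorem tail_dy_anti (G : ℝ → ℝ) : Antitone fun n : ℕ => tail G (1 - yy n) := fun _ _ h =>
  tail_anti G (by linarith [yy_anti h])

theorem tail_ne_top {G : ℝ → ℝ}
    (hfin : (∫⁻ z in Metric.ball (0 : ℂ) 1, ENNReal.ofReal (G ‖z‖)) < ⊤) (r : ℝ) :
    tail G r ≠ ⊤ := ((lintegral_mono_set Set.sdiff_subset).trans_lt hfin).ne

theorem sq_big (A : ℝ) : ∀ᶠ n : ℕ in atTop, A * ((n : ℝ) + 1) ≤ ((n : ℝ) + 1) ^ 2 := by
  filter_upwards [(tendsto_natCast_atTop_atTop (R := ℝ)).eventually_ge_atTop A] with n h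
  have : (0 : ℝ) ≤ n := Nat.cast_nonneg n
  nlinarith

theorem dir1 (hSq : SSq) (hOu : SOu) (hRd : SRd) {G : ℝ → ℝ} (hG : Measurable G)
    (hfin : (∫⁻ z in Metric.ball (0 : ℂ) 1, ENNReal.ofReal (G ‖z‖)) < ⊤)
    (hn : ¬ Cond G) : ∃ E : Set ℂ, MeasurableSet E ∧ Thin E ∧ ¬ Split G E := by
  have hpos : ∀ m, tail G (1 - yy m) ≠ 0 := by
    intro m hm
    refine hn ⟨1, m, fun n => 2 ^ n, one_pos, fun n => by positivity,
      fun i j h => pow_le_pow_right₀ one_le_two h, fun n h => ?_, fun i j _ _ => ⟨j, ?_⟩⟩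
    · exact (tail_dy_anti G h).trans (hm.le.trans zero_le)
    · rw [RR_self, add_zero, one_mul, mul_comm _ (yy j), yy_mul, yy_mul]
  set τ : ℕ → ℝ := fun n => (tail G (1 - yy n)).toReal with hτ
  have hτ0 : ∀ n, 0 < τ n := fun n => ENNReal.toReal_pos (hpos n) (tail_ne_top hfin _)
  set a : ℕ → ℝ := fun n => -Real.log (τ n) with ha
  have hea : ∀ n, tail G (1 - yy n) = ENNReal.ofReal (Real.exp (-a n)) := fun n => by
    simp only [ha, neg_neg]
    rw [Real.exp_log (hτ0 n), hτ, ENNReal.ofReal_toReal (tail_ne_top hfin _)]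
  have ham : Monotone a := fun i j h => by
    have h1 := tail_dy_anti G h
    simp only [hea] at h1
    have h2 := (ENNReal.ofReal_le_ofReal_iff (Real.exp_pos _).le).1 h1
    linarith [Real.exp_le_exp.1 h2]
  set b : ℕ → ℝ := fun n => max (a (n + 2)) (((n : ℝ) + 1) ^ 2) with hb
  have hspb : SP b := fun A => by
    filter_upwards [sq_big (max A 0)] with n h
    have h0 : (0 : ℝ) ≤ n := Nat.cast_nonneg n
    have h1 : A * n ≤ max A 0 * ((n : ℝ) + 1) :=
      (mul_le_mul_of_nonneg_right (le_max_left _ _) h0).trans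
        (mul_le_mul_of_nonneg_left (by linarith) (le_max_right _ _))
    exact h1.trans (h.trans (le_max_right _ _))
  have hND : NoD b := by
    refine ⟨fun n => le_trans ?_ (le_max_right _ _), fun i j h => max_le_max (ham (by omega)) ?_,
      ?_, ?_⟩
    · have h0 : (0 : ℝ) ≤ n := Nat.cast_nonneg n
      nlinarith
    · have h0 : (i : ℝ) ≤ j := by exact_mod_cast h
      have h1 : (0 : ℝ) ≤ i := Nat.cast_nonneg i
      nlinarith
    · refine tendsto_atTop_mono' atTop ((hspb 1).mono fun n h => ?_)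
        (tendsto_natCast_atTop_atTop (R := ℝ))
      simpa using h
    · rintro ⟨C, n0, l, hC, hl0, hlm, hlb, hD⟩
      set l' : ℕ → ℝ := fun n => min (l n) (max (a (n + 2)) 1) with hl'
      have hl0' : ∀ n, 0 < l' n := fun n => lt_min (hl0 n) (lt_max_of_lt_right one_pos)
      have hlm' : Monotone l' := fun i j h =>
        min_le_min (hlm h) (max_le_max_right _ (ham (by omega)))
      obtain ⟨ht, C', n1, hC', hn1, hD1⟩ := hRd C n0 l l' hC hl0 hl0' hlm hlm' (fun n h => by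
        refine ⟨min_le_left _ _, ?_⟩
        rcases le_max_iff.1 (hlb n h) with h1 | h1
        · left
          have : l' n = l n := min_eq_left (h1.trans (le_max_left _ _))
          linarith [hl0 n]
        · exact Or.inr h1) hD
      obtain ⟨m, hm⟩ := eventually_atTop.1 (ht.eventually_gt_atTop 1)
      have hD' : DD C' (max n1 m) l' := fun i j hi hij => hD1 i j (le_of_max_le_left hi) hij
      refine hn ⟨C', max n1 m + 2, fun n => 1 * l' (n - 2), by linarith,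
        fun n => by simpa using hl0' _, fun i j h => ?_, fun n h => ?_, DD_shift one_pos 2 hD'⟩
      · simpa using hlm' (Nat.sub_le_sub_right h 2)
      · have h1 : m ≤ max n1 m := le_max_right _ _
        have h2 : l' (n - 2) ≤ max (a (n - 2 + 2)) 1 := min_le_right _ _
        have h3 := hm (n - 2) (by omega)
        rw [show n - 2 + 2 = n by omega] at h2
        have h4 : l' (n - 2) ≤ a n := (le_max_iff.1 h2).resolve_right (not_le.2 h3)
        rw [hea]
        exact ENNReal.ofReal_le_ofReal (Real.exp_le_exp.2 (by linarith))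
  refine hOu G b hG hfin hspb (fun n => ?_) (hSq b hND)
  rw [hea]
  exact ENNReal.ofReal_le_ofReal (Real.exp_le_exp.2 (neg_le_neg (le_max_left _ _)))

/-- The minorant that only keeps large jumps. -/
noncomputable def jp (l : ℕ → ℝ) : ℕ → ℝ
  | 0 => l 0
  | n + 1 => if 2 * jp l n ≤ l (n + 1) ∧ ((n : ℝ) + 2) ^ 2 ≤ l (n + 1) then l (n + 1) else jp l n

theorem jp_spec {l : ℕ → ℝ} (h0 : ∀ n, 0 < l n) (hm : Monotone l) :
    (∀ n, 0 < jp l n) ∧ Monotone (jp l) ∧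
      (∀ n, jp l n ≤ l n ∧ (l n ≤ 2 * jp l n ∨ l n ≤ ((n : ℝ) + 1) ^ 2)) ∧ Jq (jp l) := by
  have h1 : ∀ n, 0 < jp l n ∧ jp l n ≤ l n := by
    intro n
    induction n with
    | zero => exact ⟨h0 0, le_rfl⟩
    | succ n ih =>
      rw [jp]
      split_ifs
      · exact ⟨h0 _, le_rfl⟩
      · exact ⟨ih.1, ih.2.trans (hm (Nat.le_succ n))⟩
  refine ⟨fun n => (h1 n).1, monotone_nat_of_le_succ fun n => ?_, fun n => ⟨(h1 n).2, ?_⟩,
    fun n => ?_, fun A => ?_⟩
  · rw [jp]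
    split_ifs
    · exact (h1 n).2.trans (hm (Nat.le_succ n))
    · exact le_rfl
  · cases n with
    | zero => left; rw [jp]; linarith [h0 0]
    | succ n =>
      rw [jp]
      split_ifs with h
      · left; linarith [h0 (n + 1)]
      · rcases not_and_or.1 h with h | h
        · exact Or.inl (not_le.1 h).le
        · right; push_cast; rw [add_assoc, one_add_one_eq_two]; exact (not_le.1 h).le
  · rw [jp]
    split_ifs with h
    · exact Or.inr h.1
    · exact Or.inl rfl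
  · filter_upwards [sq_big A] with n hn
    rw [jp]
    split_ifs with h
    · right
      have h0 : (0 : ℝ) ≤ n := Nat.cast_nonneg n
      nlinarith [h.2]
    · exact Or.inl rfl

theorem bad_of_thin {W : ℂ → ℝ} (hW : Measurable W) (hT : Thin {z | W z ≠ 0}) :
    H19.LogBad fun θ => W (ex θ) := by
  intro a b hab
  have hE : MeasurableSet {z | W z ≠ 0} := (hW (measurableSet_singleton 0)).compl
  have hm : MeasurableSet {θ : ℝ | θ ∈ Set.Ioo a b ∧ ex θ ∉ {z | W z ≠ 0}} :=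
    measurableSet_Ioo.inter (H19.cont_ex.measurable hE).compl
  refine top_le_iff.1 (le_trans ?_ (lintegral_mono_set
    (show {θ : ℝ | θ ∈ Set.Ioo a b ∧ ex θ ∉ {z | W z ≠ 0}} ⊆ Set.Ioo a b from fun _ h => h.1)))
  rw [setLIntegral_congr_fun hm (g := fun _ => ⊤) fun θ hθ => by
    have h : W (ex θ) = 0 := not_not.1 hθ.2
    simp [h], setLIntegral_const, ENNReal.top_mul (hT a b hab).ne']

theorem dir2 (hRd : SRd) (hUn : SU2) (hDl : SDl) (hOw : SOw) (hNw : SNw) {G : ℝ → ℝ}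
    (hG : Measurable G)
    (hfin : (∫⁻ z in Metric.ball (0 : ℂ) 1, ENNReal.ofReal (G ‖z‖)) < ⊤)
    (hc : Cond G) {W : ℂ → ℝ} (hW : Measurable W) (hW0 : ∀ z, 0 ≤ W z)
    (hWi : (∫⁻ θ in Set.Ioc (0 : ℝ) (2 * Real.pi), ENNReal.ofReal (W (ex θ))) < ⊤)
    (hT : Thin {z | W z ≠ 0}) : SplitW G W := by
  obtain ⟨C, n0, l, hC, hl0, hlm, hlb, hD⟩ := hc
  by_cases hz : ∃ m, tail G (1 - yy m) = 0
  · obtain ⟨m, hm⟩ := hz
    refine H19.direct G hG hfin 1 one_pos ?_ W hW hW0 hWi (bad_of_thin hW hT)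
    filter_upwards [Ioo_mem_nhdsLT (show 1 - yy m < 1 by linarith [yy_pos m])] with r hr
    exact (tail_anti G hr.1.le).trans (hm.le.trans zero_le)
  have hE : MeasurableSet {z | W z ≠ 0} := (hW (measurableSet_singleton 0)).compl
  refine hNw G W hG hfin hW hWi (fun h => hz ⟨0, by simpa [yy_zero] using h⟩)
    (hOw G W hG hfin hW hW0 hWi ?_)
  by_contra hO
  obtain ⟨β, B0, hβ, hβ0, hB, hne, hbd⟩ := hDl G _ hG hfin hE hO
  obtain ⟨j0, j1, j2, j3⟩ := jp_spec hl0 hlm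
  obtain ⟨ht, C', n1, hC', hn1, hD'⟩ := hRd C n0 l (jp l) hC hl0 j0 hlm j1 (fun n _ => j2 n) hD
  refine hne (hUn β {θ | ex θ ∉ {z | W z ≠ 0}} C' B0 n1 (jp l) hβ
    (H19.cont_ex.measurable hE.compl) (fun a b hab => ?_) hβ0 hC' hB j0 j1 ht hD' j3
    fun s w m hm h => hbd s w m hm fun k hk => ?_)
  · exact (hT a b hab).trans_le (measure_mono fun θ h => ⟨h.2, h.1⟩)
  · obtain ⟨h1, t, h2, h3⟩ := h k hk
    have h8 : 0 ≤ 1 - yy t := by linarith [yy_le_one t]
    refine ⟨h1, 1 - yy t, Real.exp (-jp l t), h8, (Real.exp_pos _).le,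
      (hlb t (hn1.trans h2)).trans (ENNReal.ofReal_le_ofReal
        (Real.exp_le_exp.2 (neg_le_neg (j2 t).1))), le_trans ?_ h3⟩
    refine mul_le_mul_of_nonneg_left (add_le_add_right ?_ _) h1
    rw [← mul_neg, show (2 : ℝ) * k = ((2 * k : ℕ) : ℝ) by push_cast; ring, Real.exp_nat_mul]
    exact pow_le_pow_left₀ h8 (by linarith [Real.add_one_le_exp (-yy t)]) _

theorem int_ind {E : Set ℂ} (hE : MeasurableSet E) (f : ℝ → ENNReal) :
    (∫⁻ θ in Set.Ioc (0 : ℝ) (2 * Real.pi),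
      ENNReal.ofReal (E.indicator (fun _ => (1 : ℝ)) (ex θ)) * f θ) = ∫⁻ θ in SE E, f θ := by
  have h1 : SE E = ex ⁻¹' E ∩ Set.Ioc (0 : ℝ) (2 * Real.pi) := Set.inter_comm _ _
  rw [h1, ← Measure.restrict_restrict (H19.cont_ex.measurable hE),
    ← lintegral_indicator (H19.cont_ex.measurable hE)]
  refine lintegral_congr fun θ => ?_
  by_cases h : ex θ ∈ E
  · rw [Set.indicator_of_mem h, Set.indicator_of_mem (show θ ∈ ex ⁻¹' E from h)]
    simp
  · rw [Set.indicator_of_notMem h, Set.indicator_of_notMem (show θ ∉ ex ⁻¹' E from h)]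
    simp

theorem split_of_W {G : ℝ → ℝ}
    (h : ∀ W : ℂ → ℝ, Measurable W → (∀ z, 0 ≤ W z) →
      (∫⁻ θ in Set.Ioc (0 : ℝ) (2 * Real.pi), ENNReal.ofReal (W (ex θ))) < ⊤ →
      (∀ a b : ℝ, a < b → 0 < volume {θ : ℝ | θ ∈ Set.Ioo a b ∧ W (ex θ) = 0}) → SplitW G W)
    {E : Set ℂ} (hE : MeasurableSet E) (hT : Thin E) : Split G E := by
  intro g hg hg2 ε hε
  have h1 : (∫⁻ θ in Set.Ioc (0 : ℝ) (2 * Real.pi),
      ENNReal.ofReal (E.indicator (fun _ => (1 : ℝ)) (ex θ))) < ⊤ := by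
    refine lt_of_le_of_lt (lintegral_mono (g := fun _ => 1) fun θ => ?_) (by
      rw [setLIntegral_one]
      exact measure_Ioc_lt_top)
    by_cases h : ex θ ∈ E <;> simp [h]
  obtain ⟨p, h2, h3⟩ := h (E.indicator fun _ => (1 : ℝ)) (measurable_const.indicator hE)
    (fun z => Set.indicator_nonneg (fun _ _ => zero_le_one) z) h1
    (fun a b hab => (hT a b hab).trans_le (measure_mono fun θ hθ =>
      ⟨hθ.1, Set.indicator_of_notMem hθ.2 _⟩)) g hg (by rwa [int_ind hE]) ε hε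
  exact ⟨p, h2, by rwa [int_ind hE] at h3⟩

end Pool.Agent.MP_17fac5_an.Ch

end

section
set_option autoImplicit false
open MeasureTheory Filter Topology

namespace Pool.Agent.MP_17fac5_an.Ch

open Pool.Agent.MP_17fac5_an.H19 (ex)

theorem no_split {G : ℝ → ℝ} (hG : Measurable G)
    (hfin : (∫⁻ z in Metric.ball (0 : ℂ) 1, ENNReal.ofReal (G ‖z‖)) < ⊤)
    (hn : ¬ Cond G) : ∃ E : Set ℂ, MeasurableSet E ∧ Thin E ∧ ¬ Split G E :=
  dir1 (sSq sMp (sEx (sLl sRb (sCb sRb) (sIt (sCh sMp)) (sPs sMp)) sRm)) (sOu sPb sTl) sRd hG hfin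
    hn

theorem splits {G : ℝ → ℝ} (hG : Measurable G)
    (hfin : (∫⁻ z in Metric.ball (0 : ℂ) 1, ENNReal.ofReal (G ‖z‖)) < ⊤)
    (hc : Cond G) {W : ℂ → ℝ} (hW : Measurable W) (hW0 : ∀ z, 0 ≤ W z)
    (hWi : (∫⁻ θ in Set.Ioc (0 : ℝ) (2 * Real.pi), ENNReal.ofReal (W (ex θ))) < ⊤)
    (hT : Thin {z | W z ≠ 0}) : SplitW G W :=
  dir2 sRd (sU2 (sPm sTl) (sH2 s3c) (sV2 (sPe sTl) (sCl (s3l s3c))) (sT2 (sPe sTl)) sG2 sRl sB2
    (sD2 sFs (sPe sTl) sLp) sNt) (sDl sRa) (sOw sRa) sNw hG hfin hc hW hW0 hWi hT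

end Pool.Agent.MP_17fac5_an.Ch

end
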