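import Pool.Agent.Mg.F17fac5.G17642c

set_option autoImplicit false
open MeasureTheory Filter Topology

namespace Pool.Agent.MP_17fac5_an.Ch

open Pool.Agent.MP_17fac5_an.H19 (ex)

/-- Dyadic depth. -/
noncomputable def yy (n : ℕ) : ℝ := (1 / 2 : ℝ) ^ n

/-- Width gained by a channel between the levels `j` and `N`. -/
noncomputable def RR (l : ℕ → ℝ) (j N : ℕ) : ℝ :=
  ∑ t ∈ Finset.Ico j N, yy t * Real.log (l (t + 1) / l t)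

/-- The capacity condition. -/
def DD (C : ℝ) (n0 : ℕ) (l : ℕ → ℝ) : Prop :=
  ∀ i j : ℕ, n0 ≤ i → i ≤ j → ∃ N : ℕ, yy i * l i ≤ C * (l j * (yy j + RR l j N))

/-- The capacity condition truncated at level `p`. -/
def TD (C : ℝ) (n0 p : ℕ) (l : ℕ → ℝ) : Prop :=
  ∀ i j : ℕ, n0 ≤ i → i ≤ j → j ≤ p → yy i * l i ≤ C * (l j * (yy j + RR l j p))

/-- Faster than linear growth. -/
def SP (l : ℕ → ℝ) : Prop := ∀ A : ℝ, ∀ᶠ n : ℕ in atTop, A * n ≤ l n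

/-- An obstacle none of whose minorants has the capacity condition. -/
def NoD (b : ℕ → ℝ) : Prop :=
  (∀ n, 1 ≤ b n) ∧ Monotone b ∧ Tendsto b atTop atTop ∧
    ¬ ∃ (C : ℝ) (n0 : ℕ) (l : ℕ → ℝ), 0 < C ∧ (∀ n, 0 < l n) ∧ Monotone l ∧
      (∀ n, n0 ≤ n → l n ≤ b n) ∧ DD C n0 l

/-- The point with angle `x` and depth `y`. -/
noncomputable def pt (x y : ℝ) : ℂ := (Real.exp (-y) : ℂ) * ex x

/-- Mass of the annulus. -/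
noncomputable def tail (G : ℝ → ℝ) (r : ℝ) : ENNReal :=
  ∫⁻ z in Metric.ball (0 : ℂ) 1 \ Metric.ball (0 : ℂ) r, ENNReal.ofReal (G ‖z‖)

/-- Angles of the points of `E`. -/
def SE (E : Set ℂ) : Set ℝ := {θ | θ ∈ Set.Ioc (0 : ℝ) (2 * Real.pi) ∧ ex θ ∈ E}

/-- The complement of `E` has positive length in every arc. -/
def Thin (E : Set ℂ) : Prop :=
  ∀ a b : ℝ, a < b → 0 < volume {θ : ℝ | θ ∈ Set.Ioo a b ∧ ex θ ∉ E}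

/-- Splitting for the weight `G` on the disc and arc length on `E`. -/
def Split (G : ℝ → ℝ) (E : Set ℂ) : Prop :=
  ∀ g : ℂ → ℂ, Measurable g → (∫⁻ θ in SE E, ‖g (ex θ)‖ₑ ^ (2 : ℕ)) < ⊤ → ∀ ε : ℝ, 0 < ε →
    ∃ p : Polynomial ℂ,
      (∫⁻ z in Metric.ball (0 : ℂ) 1, ENNReal.ofReal (G ‖z‖) * ‖p.eval z‖ₑ ^ (2 : ℕ)) <
        ENNReal.ofReal ε ∧
      (∫⁻ θ in SE E, ‖p.eval (ex θ) - g (ex θ)‖ₑ ^ (2 : ℕ)) < ENNReal.ofReal ε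

/-- The pair (one on the disc, zero on `E`) is a limit of polynomials. -/
def One (G : ℝ → ℝ) (E : Set ℂ) : Prop :=
  ∀ ε : ℝ, 0 < ε → ∃ h : Polynomial ℂ,
    (∫⁻ θ in SE E, ‖h.eval (ex θ)‖ₑ ^ (2 : ℕ)) < ENNReal.ofReal ε ∧
    (∫⁻ z in Metric.ball (0 : ℂ) 1, ENNReal.ofReal (G ‖z‖) * ‖h.eval z - 1‖ₑ ^ (2 : ℕ)) <
      ENNReal.ofReal ε

/-! ### Basic facts -/

theorem yy_pos (n : ℕ) : 0 < yy n := by unfold yy; positivity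

theorem yy_zero : yy 0 = 1 := by simp [yy]

theorem yy_succ (n : ℕ) : yy (n + 1) = yy n / 2 := by unfold yy; ring

theorem yy_add (n s : ℕ) : 2 ^ s * yy (n + s) = yy n := by
  unfold yy; rw [pow_add, mul_left_comm, ← mul_pow]; norm_num

theorem yy_mul (n : ℕ) : yy n * 2 ^ n = 1 := by
  unfold yy; rw [← mul_pow]; norm_num

theorem yy_anti : Antitone yy := fun _ _ h =>
  pow_le_pow_of_le_one (by norm_num) (by norm_num) h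

theorem yy_le_one (n : ℕ) : yy n ≤ 1 := yy_zero ▸ yy_anti (Nat.zero_le n)

theorem yy_half {i j : ℕ} (h : i < j) : yy j ≤ yy i / 2 := yy_succ i ▸ yy_anti h

theorem yy_tendsto : Tendsto yy atTop (𝓝 0) :=
  tendsto_pow_atTop_nhds_zero_of_lt_one (by norm_num) (by norm_num)

theorem RR_self (l : ℕ → ℝ) (j : ℕ) : RR l j j = 0 := by simp [RR]

theorem RR_of_le (l : ℕ → ℝ) {j N : ℕ} (h : N ≤ j) : RR l j N = 0 := by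
  simp [RR, Finset.Ico_eq_empty_of_le h]

theorem RR_succ (l : ℕ → ℝ) {j N : ℕ} (h : j ≤ N) :
    RR l j (N + 1) = RR l j N + yy N * Real.log (l (N + 1) / l N) :=
  Finset.sum_Ico_succ_top h _

theorem RR_split (l : ℕ → ℝ) {i j N : ℕ} (h1 : i ≤ j) (h2 : j ≤ N) :
    RR l i N = RR l i j + RR l j N := (Finset.sum_Ico_consecutive _ h1 h2).symm

theorem log_step_nonneg {l : ℕ → ℝ} (h0 : ∀ n, 0 < l n) (hm : Monotone l) (t : ℕ) :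
    0 ≤ Real.log (l (t + 1) / l t) :=
  Real.log_nonneg ((one_le_div (h0 t)).2 (hm (Nat.le_succ t)))

theorem RR_nonneg {l : ℕ → ℝ} (h0 : ∀ n, 0 < l n) (hm : Monotone l) (j N : ℕ) : 0 ≤ RR l j N :=
  Finset.sum_nonneg fun t _ => mul_nonneg (yy_pos t).le (log_step_nonneg h0 hm t)

theorem RR_mono {l : ℕ → ℝ} (h0 : ∀ n, 0 < l n) (hm : Monotone l) (j : ℕ) : Monotone (RR l j) :=
  fun _ _ h => Finset.sum_le_sum_of_subset_of_nonneg (Finset.Ico_subset_Ico_right h)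
    fun t _ _ => mul_nonneg (yy_pos t).le (log_step_nonneg h0 hm t)

/-- Comparison of widths: the potential `RR + yy * log` is monotone in the sequence. -/
theorem RR_le {l l' : ℕ → ℝ} {j N : ℕ} (h0 : ∀ t, j ≤ t → 0 < l t) (h0' : ∀ t, j ≤ t → 0 < l' t)
    (h : ∀ t, j ≤ t → t ≤ max j N → l t ≤ l' t) :
    RR l j N + yy j * Real.log (l j) ≤ RR l' j N + yy j * Real.log (l' j) := by
  have key : ∀ M, j ≤ M → M ≤ max j N →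
      RR l j M + yy j * Real.log (l j) + yy M * (Real.log (l' M) - Real.log (l M)) ≤
        RR l' j M + yy j * Real.log (l' j) := by
    intro M hM
    induction M, hM using Nat.le_induction with
    | base => intro _; simp only [RR_self]; linarith
    | succ M hM ih =>
      intro hN
      have h1 := ih (by omega)
      have h2 : Real.log (l (M + 1)) ≤ Real.log (l' (M + 1)) :=
        Real.log_le_log (h0 _ (by omega)) (h _ (by omega) hN)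
      rw [RR_succ _ hM, RR_succ _ hM, Real.log_div (h0 _ (by omega)).ne' (h0 _ hM).ne',
        Real.log_div (h0' _ (by omega)).ne' (h0' _ hM).ne', yy_succ]
      nlinarith [yy_pos M]
  rcases le_total j N with hN | hN
  · have h1 := key N hN (le_max_right _ _)
    have h2 := Real.log_le_log (h0 _ hN) (h N hN (le_max_right _ _))
    nlinarith [yy_pos N]
  · rw [RR_of_le _ hN, RR_of_le _ hN]
    have h2 := Real.log_le_log (h0 _ le_rfl) (h j le_rfl (le_max_left _ _))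
    nlinarith [yy_pos j]

/-- Abel summation bound. -/
theorem RR_ab {l : ℕ → ℝ} {n N : ℕ} {E L : ℝ} (h0 : ∀ t, n ≤ t → 0 < l t) (hE : 0 ≤ E)
    (hL : 0 ≤ L)
    (h : ∀ t : ℕ, n < t → t ≤ N →
      Real.log (l t) ≤ Real.log (l n) + E + ((t : ℝ) - n - 1) * L) :
    RR l n N ≤ yy n * (E + L) := by
  rcases le_or_gt N n with hN | hN
  · rw [RR_of_le _ hN]; exact mul_nonneg (yy_pos n).le (by linarith)
  have key : ∀ M, n + 1 ≤ M → M ≤ N →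
      RR l n M + yy M * (Real.log (l n) + E + ((M : ℝ) - n - 1) * L - Real.log (l M)) +
        2 * yy M * L ≤ yy n * (E + L) := by
    intro M hM
    induction M, hM using Nat.le_induction with
    | base =>
      intro hN
      have h2 := h (n + 1) (by omega) hN
      rw [RR_succ _ le_rfl, RR_self, Real.log_div (h0 _ (by omega)).ne' (h0 _ le_rfl).ne', yy_succ]
      push_cast at h2 ⊢
      nlinarith [yy_pos n]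
    | succ M hM ih =>
      intro hN
      have h1 := ih (by omega)
      have h2 := h (M + 1) (by omega) hN
      rw [RR_succ _ (by omega), Real.log_div (h0 _ (by omega)).ne' (h0 _ (by omega)).ne', yy_succ]
      push_cast at h2 ⊢
      nlinarith [yy_pos M]
  have h1 := key N hN le_rfl
  have h2 := h N hN le_rfl
  nlinarith [yy_pos N, mul_nonneg (yy_pos N).le hL]

/-- The capacity condition is invariant under shifts and scalings. -/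
theorem DD_shift {C k : ℝ} {n0 : ℕ} {l : ℕ → ℝ} (hk : 0 < k) (s : ℕ) (h : DD C n0 l) :
    DD C (n0 + s) fun n => k * l (n - s) := by
  intro i j hi hij
  obtain ⟨i, rfl⟩ : ∃ i', i = i' + s := ⟨i - s, by omega⟩
  obtain ⟨j, rfl⟩ : ∃ j', j = j' + s := ⟨j - s, by omega⟩
  obtain ⟨N, hN⟩ := h i j (by omega) (by omega)
  refine ⟨N + s, ?_⟩
  have e : 2 ^ s * RR (fun n => k * l (n - s)) (j + s) (N + s) = RR l j N := by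
    unfold RR
    rw [← Finset.sum_Ico_add' _ j N s, Finset.mul_sum]
    refine Finset.sum_congr rfl fun t _ => ?_
    rw [← mul_assoc, yy_add, mul_div_mul_left _ _ hk.ne', show t + s + 1 - s = t + 1 by omega,
      Nat.add_sub_cancel]
  simp only [Nat.add_sub_cancel]
  rw [← e, ← yy_add i s, ← yy_add j s] at hN
  have h2 : (0 : ℝ) < 2 ^ s := by positivity
  refine le_of_mul_le_mul_left ?_ h2
  nlinarith [mul_le_mul_of_nonneg_left hN hk.le]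

theorem norm_pt (x y : ℝ) : ‖pt x y‖ = Real.exp (-y) := by
  rw [pt, norm_mul, H19.norm_ex, mul_one, Complex.norm_real, Real.norm_of_nonneg (Real.exp_pos _).le]

theorem pt_zero (x : ℝ) : pt x 0 = ex x := by simp [pt]

theorem pt_eq (x y : ℝ) : pt x y = Complex.exp (((x : ℂ) + (y : ℂ) * Complex.I) * Complex.I) := by
  rw [pt, Complex.ofReal_exp, ← Complex.exp_add]
  congr 1
  push_cast
  linear_combination (-(y : ℂ)) * Complex.I_mul_I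

theorem meas_SE {E : Set ℂ} (hE : MeasurableSet E) : MeasurableSet (SE E) :=
  measurableSet_Ioc.inter (H19.cont_ex.measurable hE)

theorem tail_anti (G : ℝ → ℝ) : Antitone (tail G) := fun _ _ h =>
  lintegral_mono_set (Set.sdiff_subset_sdiff_right (Metric.ball_subset_ball h))

/-! ### Statements for the direction without splitting -/

/-- Locally the real part of an analytic function. -/
def Loc (u : ℂ → ℝ) (z : ℂ) : Prop :=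
  ∃ f : ℂ → ℂ, AnalyticAt ℂ f z ∧ ∀ᶠ w in 𝓝 z, u w = (f w).re

/-- The class on the closed upper half-plane. -/
def ClH (v : ℂ → ℝ) : Prop :=
  ContinuousOn v {z : ℂ | 0 ≤ z.im} ∧ (∀ z, 0 ≤ v z) ∧ ∀ z : ℂ, 0 < z.im → 0 < v z → Loc v z

/-- The class on the closed disc. -/
def ClD (u : ℂ → ℝ) : Prop :=
  ContinuousOn u (Metric.closedBall (0 : ℂ) 1) ∧ (∀ z, 0 ≤ u z) ∧
    ∀ z : ℂ, ‖z‖ < 1 → 0 < u z → Loc u z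

/-- Maximum principle. -/
def SMp : Prop :=
  ∀ (X : Set ℂ) (v : ℂ → ℝ) (h : ℂ → ℂ), IsCompact X → ContinuousOn v X →
    (∀ z ∈ X, AnalyticAt ℂ h z) → (∀ z ∈ X, v z ≤ (h z).re ∨ (X ∈ 𝓝 z ∧ Loc v z)) →
    ∀ z ∈ X, v z ≤ (h z).re

/-- Decay along a channel. -/
def SCh : Prop :=
  ∀ (v : ℂ → ℝ) (s t y A l : ℝ), ClH v → 0 < y → 0 < l → l ≤ A →
    (∀ z : ℂ, s ≤ z.re → z.re ≤ t → 0 ≤ z.im → z.im ≤ y → v z ≤ 2 * A) →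
    (∀ x : ℝ, s ≤ x → x ≤ t → v x = 0) →
    (∀ z : ℂ, s ≤ z.re → z.re ≤ t → z.im = y → v z ≤ l) →
    ∀ z : ℂ, s + y * (4 + Real.log (A / l)) ≤ z.re → z.re ≤ t - y * (4 + Real.log (A / l)) →
      0 ≤ z.im → z.im ≤ y → v z ≤ 2 * l

/-- Iterated channel estimate. -/
def SIt : Prop :=
  ∀ (v : ℂ → ℝ) (ρ η : ℝ) (l W : ℕ → ℝ) (j N : ℕ), ClH v → 0 ≤ ρ →
    (∀ x : ℝ, ρ ≤ |x| → |x| ≤ η → v x = 0) →
    (∀ n, j ≤ n → 0 < l n ∧ l n ≤ l (n + 1)) →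
    (∀ n, j ≤ n → ∀ z : ℂ, |z.re| ≤ η → yy n ≤ z.im → v z ≤ l n) →
    (∀ n, j ≤ n → ρ ≤ W n ∧ W (n + 1) + yy n * (4 + Real.log (l (n + 1) / l n)) ≤ W n) →
    j ≤ N → (∀ z : ℂ, 0 ≤ z.im → v z ≤ l N) →
    ∀ z : ℂ, W j ≤ |z.re| → |z.re| ≤ η - W j → 0 ≤ z.im → v z ≤ 2 * l j

/-- Poisson step in a half annulus. -/
def SPs : Prop :=
  ∀ (v : ℂ → ℝ) (w R A : ℝ), ClH v → 0 < w → 0 ≤ A →
    (∀ z : ℂ, 0 ≤ z.im → ‖z‖ = R → v z = 0) →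
    (∀ x : ℝ, w ≤ |x| → |x| ≤ R → v x = 0) →
    (∀ z : ℂ, 0 ≤ z.im → ‖z‖ = w → v z ≤ A) →
    ∀ z : ℂ, 0 < z.im → w ≤ ‖z‖ → ‖z‖ ≤ R → v z ≤ 4 * A * w / z.im

/-- The raw widths are finite and tend to zero. -/
def SRb : Prop :=
  ∀ b : ℕ → ℝ, NoD b → ∃ R : ℕ → ℝ,
    (∀ n, 0 ≤ R n ∧ R n = R (n + 1) + yy n * Real.log (b (n + 1) / b n)) ∧
      Tendsto R atTop (𝓝 0) ∧ Tendsto (fun n => yy n * Real.log (b n)) atTop (𝓝 0)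

/-- The truncated dynamics reaches a small mass. -/
def SCb : Prop :=
  ∀ b : ℕ → ℝ, NoD b → ∀ (C ε K : ℝ) (n0 : ℕ), 1 ≤ C → 0 < ε →
    ∃ (j p : ℕ) (l R : ℕ → ℝ), n0 ≤ j ∧ j ≤ p ∧
      (∀ n, j ≤ n → 0 < l n ∧ l n ≤ l (n + 1) ∧ 0 ≤ R n ∧
        R n = R (n + 1) + yy n * Real.log (l (n + 1) / l n)) ∧
      (∀ n, p ≤ n → l n = b n) ∧
      (∀ n, j ≤ n → n < p → b n ≤ l n ∨
        ∃ k, n < k ∧ k ≤ p ∧ C * (l k * (yy k + R k)) ≤ yy n * l n) ∧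
      K ≤ l j ∧ l j * (yy j + R j) ≤ ε

/-- The local lemma in the half-plane. -/
def SLl : Prop :=
  ∀ b : ℕ → ℝ, NoD b → ∀ (n0 : ℕ) (η ε : ℝ), 0 < η → 0 < ε →
    ∃ ρ w l : ℝ, 0 < ρ ∧ ρ ≤ w ∧ w ≤ η ∧ 0 ≤ l ∧ l * w ≤ ε ∧
      ∀ v : ℂ → ℝ, ClH v → (∃ M : ℝ, ∀ z : ℂ, 0 ≤ z.im → v z ≤ M) →
        (∀ x : ℝ, ρ ≤ |x| → |x| ≤ η → v x = 0) →
        (∀ n, n0 ≤ n → ∀ z : ℂ, yy n ≤ z.im → v z ≤ b n) →
        ∀ z : ℂ, 0 ≤ z.im → w / 2 ≤ ‖z‖ → ‖z‖ ≤ 2 * w → v z ≤ l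

/-- Removal of a hole under a roof. -/
def SRm : Prop :=
  ∀ (u : ℂ → ℝ) (z0 : ℂ) (r l : ℝ), ClD u → ‖z0‖ = 1 → 0 < r → r ≤ 1 / 2 → 0 ≤ l →
    (∀ z : ℂ, ‖z‖ ≤ 1 → r ≤ ‖z - z0‖ → ‖z - z0‖ ≤ 4 / 3 * r → u z ≤ l) →
    ∃ u' : ℂ → ℝ, ClD u' ∧ (∀ z : ℂ, ‖z‖ ≤ 1 → u' z ≤ u z) ∧
      (∀ z : ℂ, ‖z - z0‖ ≤ r → u' z = 0) ∧ u 0 ≤ u' 0 + 3 * (l * r)

/-- Functions under the obstacle that vanish on the circle outside `U` are at most `B` at zero. -/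
def QQ (b : ℕ → ℝ) (n0 : ℕ) (U : Set ℂ) (B : ℝ) : Prop :=
  ∀ u : ℂ → ℝ, ClD u → (∀ n, n0 ≤ n → ∀ z : ℂ, ‖z‖ ≤ Real.exp (-yy n) → u z ≤ b n) →
    (∀ z : ℂ, ‖z‖ = 1 → z ∉ U → u z = 0) → u 0 ≤ B

/-- One more hole. -/
def SEx : Prop :=
  ∀ b : ℕ → ℝ, NoD b → ∀ (n0 : ℕ) (U : Set ℂ) (B : ℝ) (z0 : ℂ) (η ε : ℝ), QQ b n0 U B →
    ‖z0‖ = 1 → 0 < η → 0 < ε → (∀ z : ℂ, ‖z‖ = 1 → ‖z - z0‖ < η → z ∉ U) →
    ∃ ρ : ℝ, 0 < ρ ∧ ρ ≤ 1 ∧ QQ b n0 (U ∪ Metric.ball z0 ρ) (B + ε)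

/-- An increasing sequence of harmless open sets that meets every arc. -/
def Holes (b : ℕ → ℝ) (n0 : ℕ) : Prop :=
  ∃ U : ℕ → Set ℂ, Monotone U ∧ (∀ k, IsOpen (U k)) ∧ (∀ k, U k ⊆ Metric.ball (0 : ℂ) 3) ∧
    (∀ k, QQ b n0 (U k) 1) ∧ ∀ α β : ℝ, α < β → ∃ k, ∃ θ ∈ Set.Ioo α β, ex θ ∈ U k

def SSq : Prop := ∀ b : ℕ → ℝ, NoD b → ∀ n0 : ℕ, Holes b n0

/-- Pointwise bound from the circle mean. -/
def SPb : Prop :=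
  ∀ (q : Polynomial ℂ) (ρ : ℝ) (z : ℂ), ‖z‖ < ρ →
    ‖q.eval z‖ ^ 2 ≤ (ρ + ‖z‖) / (ρ - ‖z‖) * Real.circleAverage (fun w => ‖q.eval w‖ ^ 2) 0 ρ

/-- Entire functions with nearly prescribed real part on a circle. -/
def STl : Prop :=
  ∀ (r δ : ℝ) (e : ℂ → ℝ), 0 < r → 0 < δ → ContinuousOn e (Metric.sphere 0 r) →
    ∃ F : ℂ → ℂ, Differentiable ℂ F ∧ ∀ z : ℂ, ‖z‖ = r → e z ≤ (F z).re ∧ (F z).re ≤ e z + δ

/-- The outer step: a thin set without splitting. -/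
def SOu : Prop :=
  ∀ (G : ℝ → ℝ) (b : ℕ → ℝ), Measurable G →
    (∫⁻ z in Metric.ball (0 : ℂ) 1, ENNReal.ofReal (G ‖z‖)) < ⊤ → SP b →
    (∀ n, ENNReal.ofReal (Real.exp (-b n)) ≤ tail G (1 - yy (n + 2))) → (∀ n0, Holes b n0) →
    ∃ E : Set ℂ, MeasurableSet E ∧ Thin E ∧ ¬ Split G E

/-! ### Statements for the direction with splitting -/

/-- Three circles. -/
def S3c : Prop :=
  ∀ (f : ℂ → ℂ) (a b A B y : ℝ) (z : ℂ), (∀ w : ℂ, w ≠ 0 → DifferentiableAt ℂ f w) → a < b →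
    a ≤ y → y ≤ b → (∀ w : ℂ, ‖w‖ = Real.exp (-a) → ‖f w‖ ≤ Real.exp A) →
    (∀ w : ℂ, ‖w‖ = Real.exp (-b) → ‖f w‖ ≤ Real.exp B) → ‖z‖ = Real.exp (-y) →
    ‖f z‖ ≤ Real.exp (((b - y) * A + (y - a) * B) / (b - a))

/-- Maximum principle along a chain of nearly equal functions. -/
def SCn : Prop :=
  ∀ (g : ℕ → ℂ → ℂ) (a b : ℕ) (M : ℝ), 0 ≤ M →
    (∀ (n : ℕ) (z : ℂ), z ≠ 0 → DifferentiableAt ℂ (g n) z) →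
    (∀ z : ℂ, ‖z‖ = Real.exp (-yy a) → ‖g a z‖ ≤ Real.exp M) →
    (∀ z : ℂ, ‖z‖ = Real.exp (-yy b) → ‖g b z‖ ≤ Real.exp M) →
    (∀ n, a ≤ n → n < b → ∀ z : ℂ, ‖z‖ = Real.exp (-yy n) ∨ ‖z‖ = Real.exp (-yy (n + 1)) →
      ‖g (n + 1) z - g n z‖ ≤ (1 / 4 : ℝ) ^ n) →
    ∀ n, a ≤ n → n ≤ b → ∀ z : ℂ, ‖z‖ = Real.exp (-yy n) → ‖g n z‖ ≤ Real.exp (M + 4)

/-- A harmonic majorant that is very negative above a set of smallness. -/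
def PmS (C : ℝ) : Prop :=
  ∀ (γ : ℂ → ℂ) (y0 θ w K B : ℝ) (T : Set ℝ), 0 ≤ y0 → y0 ≤ 1 / 4 → 0 < w → w ≤ 1 / 4 → 0 ≤ K →
    ContinuousOn γ (Metric.sphere 0 (Real.exp (-y0))) → MeasurableSet T →
    T ⊆ Set.Icc (θ - w) (θ + w) → ENNReal.ofReal (w / 2) ≤ volume T →
    (∀ x ∈ T, ‖γ (pt x y0)‖ ≤ Real.exp (-K)) →
    Real.circleAverage (fun z => ‖γ z‖ ^ 2) 0 (Real.exp (-y0)) ≤ B →
    ∃ F : ℂ → ℂ, Differentiable ℂ F ∧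
      (∀ z : ℂ, ‖z‖ = Real.exp (-y0) → ‖γ z‖ ≤ Real.exp (F z).re) ∧
      (∀ z : ℂ, ‖z‖ ≤ Real.exp (-y0) → -K ≤ (F z).re) ∧
      (∀ (z : ℂ) (y : ℝ), y0 < y → y ≤ 1 → ‖z‖ = Real.exp (-y) →
        -(C * K * w / (y - y0)) ≤ (F z).re) ∧
      ∀ x y Y : ℝ, w ≤ Y → Y ≤ 1 / 4 → |x - θ| ≤ Y → Y / 2 ≤ y - y0 → y - y0 ≤ 2 * Y →
        (F (pt x y)).re ≤ -(K * w / (C * Y)) + C * (B + 1) / Y ∧
        ∀ A : ℝ, 0 ≤ A → (∀ z : ℂ, ‖z‖ = Real.exp (-y0) → ‖γ z‖ ≤ Real.exp A) →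
          (F (pt x y)).re ≤ -(K * w / (C * Y)) + (A + 1)

def SPm : Prop := ∃ C : ℝ, 1 ≤ C ∧ PmS C

/-- A chain of Laurent polynomials. -/
def Dat (s : ℕ) (A B : ℝ) (n1 : ℕ) (l : ℕ → ℝ) (g : ℕ → ℂ → ℂ) : Prop :=
  (∀ (n : ℕ) (z : ℂ), z ≠ 0 → DifferentiableAt ℂ (g n) z) ∧
  (∀ n, n1 ≤ n → ∀ z : ℂ, Real.exp (-yy n) ≤ ‖z‖ → ‖z‖ ≤ 1 →
    ‖g (n + 1) z - g n z‖ ≤ Real.exp (-l n)) ∧
  (∀ n : ℕ, n1 ≤ n → ∀ z : ℂ, Real.exp (-(2 ^ s * yy n)) ≤ ‖z‖ → ‖z‖ ≤ Real.exp (-(yy n / 4)) →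
    ‖g n z‖ ≤ Real.exp (A * n)) ∧
  (∀ n, n1 ≤ n → ∀ y : ℝ, 0 ≤ y → y ≤ yy n →
    Real.circleAverage (fun z => ‖g n z‖ ^ 2) 0 (Real.exp (-y)) ≤ B) ∧
  ∀ n : ℕ, n1 ≤ n → 3 * (n : ℝ) ≤ l n

/-- Smallness on a box at level `n`. -/
def Bx (g : ℕ → ℂ → ℂ) (θ : ℝ) (n : ℕ) (K W : ℝ) : Prop :=
  ∀ x y : ℝ, |x - θ| ≤ W → yy n ≤ y → y ≤ 2 * yy n → ‖g n (pt x y)‖ ≤ Real.exp (-K)

/-- The horizontal move of the game. -/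
def MvH (c A0 : ℝ) (n1 : ℕ) (P : ℕ → ℝ → ℝ → Prop) : Prop :=
  ∀ (n : ℕ) (K W : ℝ), n1 ≤ n → yy n ≤ W → A0 * n ≤ K → P n K W → P n (c * K) (W + yy n / 2)

/-- The vertical move of the game. -/
def MvV (c A0 M0 : ℝ) (n1 : ℕ) (l : ℕ → ℝ) (P : ℕ → ℝ → ℝ → Prop) : Prop :=
  ∀ (i j : ℕ) (K W : ℝ), n1 ≤ i → i < j → yy j ≤ W →
    (∀ n, i ≤ n → n < j → min K (K * min W (yy i) / yy n) ≤ c * l n) →
    (A0 * j ≤ K * min W (yy i) / yy i ∨ M0 ≤ K * min W (yy i)) →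
    A0 * i ≤ K * min W (yy i) / yy i → P j K W →
    P i (c * (K * min W (yy i) / yy i)) (max W (yy i))

def SHm : Prop :=
  ∀ (s : ℕ) (A B : ℝ) (n1 : ℕ) (l : ℕ → ℝ) (g : ℕ → ℂ → ℂ) (θ : ℝ), 2 ≤ s → 0 ≤ A →
    Dat s A B n1 l g → MvH (1 / 30) (30 * A) n1 (Bx g θ)

def SVm : Prop :=
  ∀ (C : ℝ) (s : ℕ) (A B : ℝ) (n1 : ℕ) (l : ℕ → ℝ) (g : ℕ → ℂ → ℂ) (θ : ℝ), 1 ≤ C → PmS C →
    8 * C ^ 2 ≤ 2 ^ s → 0 ≤ A → 0 ≤ B → s + 2 ≤ n1 → Dat s A B n1 l g →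
    MvV (1 / (30 * C)) (30 * C * (A + 5)) (4 * C ^ 2 * (B + 1)) n1 l (Bx g θ)

def SBt : Prop :=
  ∀ (C : ℝ) (s : ℕ) (A B : ℝ) (n1 : ℕ) (l : ℕ → ℝ) (g : ℕ → ℂ → ℂ) (θ : ℝ), 1 ≤ C → PmS C →
    8 * C ^ 2 ≤ 2 ^ s → 0 ≤ A → 0 ≤ B → s + 2 ≤ n1 → Dat s A B n1 l g →
    ∀ (p : ℕ) (K : ℝ) (T : Set ℝ), n1 ≤ p → MeasurableSet T →
      T ⊆ Set.Icc (θ - yy p) (θ + yy p) → ENNReal.ofReal (yy p / 2) ≤ volume T →
      (∀ x ∈ T, ‖g p (ex x)‖ ≤ Real.exp (-K)) → 30 * C * (A + 5) * p ≤ K →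
      4 * C ^ 2 * (B + 1) ≤ K * yy p → Bx g θ p (1 / (30 * C) * K) (yy p)

/-- The winning strategy. -/
def SGm : Prop :=
  ∀ c C A0 M0 : ℝ, 0 < c → c ≤ 1 / 2 → 1 ≤ C → 0 ≤ A0 → 0 ≤ M0 →
    ∃ A1 M1 δ : ℝ, 0 < δ ∧
      ∀ (l : ℕ → ℝ) (n0 i0 n1 p : ℕ) (P : ℕ → ℝ → ℝ → Prop), (∀ n, 0 < l n) → Monotone l →
        n0 ≤ i0 → i0 ≤ n1 → n1 ≤ p → TD C n0 p l → M1 ≤ yy i0 * l i0 →
        (∀ n : ℕ, n1 ≤ n → A1 * (n + 1) ≤ l n) →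
        (∀ (n : ℕ) (K W K' W' : ℝ), P n K W → K' ≤ K → W' ≤ W → P n K' W') →
        MvH c A0 n1 P → MvV c A0 M0 n1 l P →
        (A0 * p ≤ l p / 4 → M0 ≤ l p / 4 * yy p → P p (c * (l p / 4)) (yy p)) →
        P n1 (δ * l n1) (yy n1)

/-- Good truncation levels. -/
def SRl : Prop :=
  ∀ (C : ℝ) (n0 : ℕ) (l : ℕ → ℝ), 1 ≤ C → (∀ n, 0 < l n) → Monotone l → Tendsto l atTop atTop →
    DD C n0 l → ∀ m : ℕ, ∃ p, m ≤ p ∧ TD (8 * C) n0 p l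

/-- Reduction to a fast growing sequence with unbounded mass. -/
def SPr : Prop :=
  ∀ (τ l : ℕ → ℝ) (C : ℝ) (n0 : ℕ), (∀ n, 0 < τ n) → Antitone τ →
    (∀ A : ℝ, ∀ᶠ n : ℕ in atTop, τ n ≤ Real.exp (-(A * n))) → 0 < C → (∀ n, 0 < l n) →
    Monotone l → (∀ n, n0 ≤ n → τ n ≤ Real.exp (-l n)) → DD C n0 l →
    (∃ c : ℝ, 0 < c ∧ ∀ᶠ n : ℕ in atTop, τ n ≤ Real.exp (-(c * 2 ^ n))) ∨
      ∃ (C' : ℝ) (l' : ℕ → ℝ), 1 ≤ C' ∧ (∀ n, 0 < l' n) ∧ Monotone l' ∧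
        (∀ n, n0 ≤ n → τ n ≤ Real.exp (-l' n)) ∧ DD C' n0 l' ∧ SP l' ∧
        ∀ M : ℝ, ∃ i, n0 ≤ i ∧ M ≤ yy i * l' i

/-- Block estimate for the cut-offs `N`. -/
def Blk (c : ℕ → ℂ) (s : ℕ) (lam : ℕ → ℝ) (N : ℕ → ℕ) (n1 : ℕ) : Prop :=
  Monotone N ∧ (∀ n, 0 < N n) ∧ Tendsto N atTop atTop ∧
    ∀ n, n1 ≤ n → ∀ z : ℂ, Real.exp (-(2 ^ s * yy (n + 1))) ≤ ‖z‖ →
      ‖∑ k ∈ Finset.Ico (N n) (N (n + 1)), c k * z⁻¹ ^ k‖ ≤ Real.exp (-lam n)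

def SBl : Prop :=
  ∀ (c : ℕ → ℂ) (B0 : ℝ) (n0 s : ℕ) (l : ℕ → ℝ), 1 ≤ s → (∀ n, 0 < l n) → Monotone l → SP l →
    (∀ k t : ℕ, n0 ≤ t → ‖c k‖ ≤ B0 * (Real.exp (-l t / 2) + Real.exp (-(k * yy t)))) →
    ∃ (N : ℕ → ℕ) (n1 : ℕ), Blk c s (fun n => 1 / 2 ^ (s + 4) * l (n - (s + 1))) N n1

/-- Fourier coefficients with non-positive index. -/
noncomputable def cf (β : ℝ → ℂ) (k : ℕ) : ℂ :=
  ((2 * Real.pi : ℝ) : ℂ)⁻¹ * ∫ θ in Set.Ioc (0 : ℝ) (2 * Real.pi), β θ * ex θ ^ k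

/-- Mean square convergence of Fourier sums. -/
def SFs : Prop :=
  ∀ β : ℝ → ℂ, MemLp β 2 (volume.restrict (Set.Ioc (0 : ℝ) (2 * Real.pi))) → ∀ ε : ℝ, 0 < ε →
    ∀ᶠ K : ℕ in atTop, ∃ S : Polynomial ℂ, S.eval 0 = 0 ∧
      (∫ θ in Set.Ioc (0 : ℝ) (2 * Real.pi),
        ‖β θ - (S.eval (ex θ) + ∑ k ∈ Finset.range K, cf β k * (ex θ)⁻¹ ^ k)‖ ^ 2) ≤ ε

/-- The chain attached to a function that vanishes on `F`. -/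
def SDa : Prop :=
  ∀ (β : ℝ → ℂ) (F : Set ℝ) (s : ℕ) (lam : ℕ → ℝ) (N : ℕ → ℕ) (n1 : ℕ),
    MemLp β 2 (volume.restrict (Set.Ioc (0 : ℝ) (2 * Real.pi))) → MeasurableSet F →
    (∀ θ ∈ F, β θ = 0) → 1 ≤ s → Monotone lam → SP lam → Blk (cf β) s lam N n1 →
    ∃ (A B : ℝ) (n2 : ℕ), 0 ≤ A ∧ 0 ≤ B ∧ ∀ p, n2 ≤ p → ∃ g : ℕ → ℂ → ℂ, Dat s A B n2 lam g ∧
      (∀ (n : ℕ) (r : ℝ), 0 < r → Real.circleAverage (g n) 0 r = cf β 0) ∧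
      volume {x : ℝ | x ∈ Set.Ioc (0 : ℝ) (2 * Real.pi) ∧ x ∈ F ∧
        Real.exp (-(lam p / 4)) < ‖g p (ex x)‖} ≤ ENNReal.ofReal (yy p / 2)

/-- A net of density points. -/
def SNt : Prop :=
  ∀ (F : Set ℝ) (δ : ℝ), MeasurableSet F →
    (∀ a b : ℝ, a < b → 0 < volume (F ∩ Set.Ioo a b)) → 0 < δ →
    ∀ᶠ p : ℕ in atTop, ∀ x ∈ Set.Icc (0 : ℝ) (2 * Real.pi), ∃ θ : ℝ, |x - θ| ≤ δ ∧
      Set.Icc (θ - yy p) (θ + yy p) ⊆ Set.Ioc (0 : ℝ) (2 * Real.pi) ∧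
      ENNReal.ofReal (yy p) ≤ volume (F ∩ Set.Icc (θ - yy p) (θ + yy p))

/-- The uniqueness theorem. -/
def SUn : Prop :=
  ∀ (β : ℝ → ℂ) (F : Set ℝ) (C B0 : ℝ) (n0 : ℕ) (l : ℕ → ℝ),
    MemLp β 2 (volume.restrict (Set.Ioc (0 : ℝ) (2 * Real.pi))) → MeasurableSet F →
    (∀ a b : ℝ, a < b → 0 < volume (F ∩ Set.Ioo a b)) → (∀ θ ∈ F, β θ = 0) → 1 ≤ C →
    (∀ n, 0 < l n) → Monotone l → DD C n0 l → SP l → (∀ M : ℝ, ∃ i, n0 ≤ i ∧ M ≤ yy i * l i) →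
    (∀ k t : ℕ, n0 ≤ t → ‖cf β k‖ ≤ B0 * (Real.exp (-l t / 2) + Real.exp (-(k * yy t)))) →
    cf β 0 = 0

/-- Duality. -/
def SDu : Prop :=
  ∀ (G : ℝ → ℝ) (E : Set ℂ), Measurable G →
    (∫⁻ z in Metric.ball (0 : ℂ) 1, ENNReal.ofReal (G ‖z‖)) < ⊤ → MeasurableSet E → ¬ One G E →
    ∃ (β : ℝ → ℂ) (B0 : ℝ), MemLp β 2 (volume.restrict (Set.Ioc (0 : ℝ) (2 * Real.pi))) ∧
      (∀ θ, ex θ ∉ E → β θ = 0) ∧ 0 ≤ B0 ∧ cf β 0 ≠ 0 ∧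
      ∀ (k : ℕ) (ρ t : ℝ), 0 ≤ ρ → 0 ≤ t → tail G ρ ≤ ENNReal.ofReal (t ^ 2) →
        ‖cf β k‖ ≤ B0 * (t + ρ ^ k)

/-- From the pair (one, zero) to splitting. -/
def SNm : Prop :=
  ∀ (G : ℝ → ℝ) (E : Set ℂ), Measurable G →
    (∫⁻ z in Metric.ball (0 : ℂ) 1, ENNReal.ofReal (G ‖z‖)) < ⊤ → MeasurableSet E →
    tail G 0 ≠ 0 → One G E → Split G E

/-- The case of an exponentially small tail. -/
def SMa : Prop :=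
  ∀ (G : ℝ → ℝ) (E : Set ℂ) (c : ℝ), Measurable G →
    (∫⁻ z in Metric.ball (0 : ℂ) 1, ENNReal.ofReal (G ‖z‖)) < ⊤ → MeasurableSet E → Thin E →
    0 < c → (∀ᶠ n : ℕ in atTop, tail G (1 - yy n) ≤ ENNReal.ofReal (Real.exp (-(c * 2 ^ n)))) →
    Split G E

end Pool.Agent.MP_17fac5_an.Ch
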