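import Pool.Agent.MP_17fac5_an.Ch.St

set_option autoImplicit false
open MeasureTheory Filter Topology

namespace Pool.Agent.MP_17fac5_an.Ch

open Pool.Agent.MP_17fac5_an.H19 (ex)

/-- Mean square on the circle of depth `y`. -/
noncomputable def ms (f : ℂ → ℂ) (y : ℝ) : ℝ :=
  Real.circleAverage (fun z => ‖f z‖ ^ 2) 0 (Real.exp (-y))

theorem ms_nonneg (f : ℂ → ℂ) (y : ℝ) : 0 ≤ ms f y :=
  Real.circleAverage_nonneg_of_nonneg fun _ _ => by positivity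

theorem con_sphere {f : ℂ → ℂ} (hf : ∀ w : ℂ, w ≠ 0 → DifferentiableAt ℂ f w) (y : ℝ) :
    ContinuousOn f (Metric.sphere 0 (Real.exp (-y))) := fun z hz =>
  (hf z fun h => by
    rw [h, mem_sphere_zero_iff_norm, norm_zero] at hz
    exact (Real.exp_pos _).ne hz).continuousAt.continuousWithinAt

/-- Comparison of mean squares from a pointwise bound on the circle. -/
theorem ms_le {f f1 f2 : ℂ → ℂ} {y a b c : ℝ}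
    (hf : ContinuousOn f (Metric.sphere 0 (Real.exp (-y))))
    (h1 : ContinuousOn f1 (Metric.sphere 0 (Real.exp (-y))))
    (h2 : ContinuousOn f2 (Metric.sphere 0 (Real.exp (-y))))
    (h : ∀ z : ℂ, ‖z‖ = Real.exp (-y) → ‖f z‖ ^ 2 ≤ a * ‖f1 z‖ ^ 2 + b * ‖f2 z‖ ^ 2 + c) :
    ms f y ≤ a * ms f1 y + b * ms f2 y + c := by
  have hr := (Real.exp_pos (-y)).le
  have i1 : CircleIntegrable (fun z => a * ‖f1 z‖ ^ 2) 0 (Real.exp (-y)) :=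
    (continuousOn_const.mul (h1.norm.pow 2)).circleIntegrable hr
  have i2 : CircleIntegrable (fun z => b * ‖f2 z‖ ^ 2) 0 (Real.exp (-y)) :=
    (continuousOn_const.mul (h2.norm.pow 2)).circleIntegrable hr
  have e : Real.circleAverage (fun z => a * ‖f1 z‖ ^ 2 + b * ‖f2 z‖ ^ 2 + c) 0 (Real.exp (-y)) =
      a * ms f1 y + b * ms f2 y + c := by
    rw [Real.circleAverage_fun_add (f₁ := fun z => a * ‖f1 z‖ ^ 2 + b * ‖f2 z‖ ^ 2) (i1.add i2)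
      (circleIntegrable_const _ _ _), Real.circleAverage_const,
      Real.circleAverage_fun_add i1 i2, H19.avg_mul, H19.avg_mul]
    rfl
  rw [← e]
  refine Real.circleAverage_mono ((hf.norm.pow 2).circleIntegrable hr)
    ((i1.add i2).add (circleIntegrable_const _ _ _)) fun z hz => h z ?_
  simpa [abs_of_nonneg hr] using hz

/-- Jumps are at least doublings and reach superlinear values. -/
def Jq (l : ℕ → ℝ) : Prop :=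
  (∀ n, l (n + 1) = l n ∨ 2 * l n ≤ l (n + 1)) ∧
    ∀ A : ℝ, ∀ᶠ n : ℕ in atTop, l (n + 1) = l n ∨ A * (n + 1) ≤ l (n + 1)

/-- Weighted square sums of the coefficients. -/
def Wl (c : ℕ → ℂ) (B0 : ℝ) (n0 : ℕ) (l : ℕ → ℝ) : Prop :=
  ∀ (s : Finset ℕ) (w : ℕ → ℝ) (m : ℝ), 0 ≤ m →
    (∀ k ∈ s, 0 ≤ w k ∧ ∃ t : ℕ, n0 ≤ t ∧
      w k * (Real.exp (-l t) + Real.exp (-(2 * k * yy t))) ≤ m) →
    ∑ k ∈ s, ‖c k‖ ^ 2 * w k ≤ B0 * m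

/-- Splitting for the weight `G` on the disc and the weight `W` on the circle. -/
def SplitW (G : ℝ → ℝ) (W : ℂ → ℝ) : Prop :=
  ∀ g : ℂ → ℂ, Measurable g →
    (∫⁻ θ in Set.Ioc (0 : ℝ) (2 * Real.pi),
      ENNReal.ofReal (W (ex θ)) * ‖g (ex θ)‖ₑ ^ (2 : ℕ)) < ⊤ → ∀ ε : ℝ, 0 < ε →
    ∃ p : Polynomial ℂ,
      (∫⁻ z in Metric.ball (0 : ℂ) 1, ENNReal.ofReal (G ‖z‖) * ‖p.eval z‖ₑ ^ (2 : ℕ)) <
        ENNReal.ofReal ε ∧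
      (∫⁻ θ in Set.Ioc (0 : ℝ) (2 * Real.pi),
        ENNReal.ofReal (W (ex θ)) * ‖p.eval (ex θ) - g (ex θ)‖ₑ ^ (2 : ℕ)) < ENNReal.ofReal ε

/-- The pair (one on the disc, zero on the circle) is a limit of polynomials. -/
def OneW (G : ℝ → ℝ) (W : ℂ → ℝ) : Prop :=
  ∀ ε : ℝ, 0 < ε → ∃ h : Polynomial ℂ,
    (∫⁻ θ in Set.Ioc (0 : ℝ) (2 * Real.pi),
      ENNReal.ofReal (W (ex θ)) * ‖h.eval (ex θ)‖ₑ ^ (2 : ℕ)) < ENNReal.ofReal ε ∧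
    (∫⁻ z in Metric.ball (0 : ℂ) 1, ENNReal.ofReal (G ‖z‖) * ‖h.eval z - 1‖ₑ ^ (2 : ℕ)) <
      ENNReal.ofReal ε

/-- Three circles for mean squares. -/
def S3l : Prop :=
  ∀ (f : ℂ → ℂ) (a b A B y : ℝ), (∀ w : ℂ, w ≠ 0 → DifferentiableAt ℂ f w) → a < b →
    a ≤ y → y ≤ b → ms f a ≤ Real.exp (2 * A) → ms f b ≤ Real.exp (2 * B) →
    ms f y ≤ Real.exp (2 * (((b - y) * A + (y - a) * B) / (b - a)))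

/-- Chain of nearly equal functions, in mean square. -/
def SCl : Prop :=
  ∀ (g : ℕ → ℂ → ℂ) (a b : ℕ) (M : ℝ) (e : ℕ → ℝ), 0 ≤ M →
    (∀ (n : ℕ) (z : ℂ), z ≠ 0 → DifferentiableAt ℂ (g n) z) →
    ms (g a) (yy a) ≤ Real.exp (2 * M) → ms (g b) (yy b) ≤ Real.exp (2 * M) →
    (∀ n, 0 < e n) → (∀ N, ∑ n ∈ Finset.range N, e n ≤ 1) →
    (∀ n, a ≤ n → n < b → ms (fun z => g (n + 1) z - g n z) (yy n) ≤ e n ^ 2 ∧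
      ms (fun z => g (n + 1) z - g n z) (yy (n + 1)) ≤ e n ^ 2) →
    ∀ n, a ≤ n → n ≤ b → ms (g n) (yy n) ≤ Real.exp (2 * (M + 3))

/-- Point values in an annulus from mean squares on the boundary. -/
def SPe : Prop :=
  ∀ (f : ℂ → ℂ) (a b y Q : ℝ) (z : ℂ), (∀ w : ℂ, w ≠ 0 → DifferentiableAt ℂ f w) → 0 ≤ a →
    a < y → y < b → b ≤ 1 → ms f a ≤ Q → ms f b ≤ Q → ‖z‖ = Real.exp (-y) →
    ‖f z‖ ^ 2 ≤ 6 * (Q + 1) * (1 / (y - a) + 1 / (b - y))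

/-- Parseval identity for sums of negative powers. -/
def SLp : Prop :=
  ∀ (s : Finset ℕ) (c : ℕ → ℂ) (y : ℝ),
    ms (fun z => ∑ k ∈ s, c k * z⁻¹ ^ k) y = ∑ k ∈ s, ‖c k‖ ^ 2 * Real.exp (2 * k * y)

/-- Radial weights: the weighted square norm of a polynomial through its coefficients. -/
def SRa : Prop :=
  ∀ (G : ℝ → ℝ) (q : Polynomial ℂ), Measurable G →
    (∫⁻ z in Metric.ball (0 : ℂ) 1, ENNReal.ofReal (G ‖z‖) * ‖q.eval z‖ₑ ^ (2 : ℕ)) =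
      ∫⁻ z in Metric.ball (0 : ℂ) 1, ENNReal.ofReal (G ‖z‖) * ENNReal.ofReal (H19.mm_Rad q ‖z‖)

/-- Duality with weighted square sums. -/
def SDl : Prop :=
  ∀ (G : ℝ → ℝ) (E : Set ℂ), Measurable G →
    (∫⁻ z in Metric.ball (0 : ℂ) 1, ENNReal.ofReal (G ‖z‖)) < ⊤ → MeasurableSet E → ¬ One G E →
    ∃ (β : ℝ → ℂ) (B0 : ℝ), MemLp β 2 (volume.restrict (Set.Ioc (0 : ℝ) (2 * Real.pi))) ∧
      (∀ θ, ex θ ∉ E → β θ = 0) ∧ 0 ≤ B0 ∧ cf β 0 ≠ 0 ∧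
      ∀ (s : Finset ℕ) (w : ℕ → ℝ) (m : ℝ), 0 ≤ m →
        (∀ k ∈ s, 0 ≤ w k ∧ ∃ ρ t : ℝ, 0 ≤ ρ ∧ 0 ≤ t ∧ tail G ρ ≤ ENNReal.ofReal t ∧
          w k * (t + ρ ^ (2 * k)) ≤ m) →
        ∑ k ∈ s, ‖cf β k‖ ^ 2 * w k ≤ B0 * m

/-- The capacity condition does not see changes below a polynomial level. -/
def SRd : Prop :=
  ∀ (C : ℝ) (n0 : ℕ) (l l' : ℕ → ℝ), 0 < C → (∀ n, 0 < l n) → (∀ n, 0 < l' n) → Monotone l →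
    Monotone l' →
    (∀ n, n0 ≤ n → l' n ≤ l n ∧ (l n ≤ 2 * l' n ∨ l n ≤ ((n : ℝ) + 1) ^ 2)) → DD C n0 l →
    Tendsto l' atTop atTop ∧ ∃ (C' : ℝ) (n1 : ℕ), 1 ≤ C' ∧ n0 ≤ n1 ∧ DD C' n1 l'

/-- Mean square block estimate for the cut-offs `N`. -/
def Bl2 (c : ℕ → ℂ) (s : ℕ) (lam : ℕ → ℝ) (N : ℕ → ℕ) (e : ℕ → ℝ) (n1 : ℕ) : Prop :=
  Monotone N ∧ (∀ n, 0 < N n) ∧ Tendsto N atTop atTop ∧ (∀ n, 0 < e n) ∧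
    (∀ M, ∑ n ∈ Finset.range M, e n ≤ 1) ∧
    ∀ n, n1 ≤ n → ∑ k ∈ Finset.Ico (N n) (N (n + 1)),
      ‖c k‖ ^ 2 * Real.exp (2 * k * (2 ^ s * yy (n + 1))) ≤ e n ^ 2 * Real.exp (-lam n)

def SB2 : Prop :=
  ∀ (c : ℕ → ℂ) (B0 : ℝ) (n0 s : ℕ) (l : ℕ → ℝ), 1 ≤ s → 0 ≤ B0 → (∀ n, 0 < l n) → Monotone l →
    Tendsto l atTop atTop → (∀ n, l (n + 1) = l n ∨ 2 * l n ≤ l (n + 1)) → Wl c B0 n0 l →
    ∃ (N : ℕ → ℕ) (e : ℕ → ℝ) (n1 : ℕ),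
      Bl2 c s (fun n => 1 / 2 ^ (s + 4) * l (n - (s + 1))) N e n1

/-- A chain of Laurent polynomials, in mean square. -/
def Dat2 (s : ℕ) (A B : ℝ) (n1 : ℕ) (l e : ℕ → ℝ) (g : ℕ → ℂ → ℂ) : Prop :=
  (∀ (n : ℕ) (z : ℂ), z ≠ 0 → DifferentiableAt ℂ (g n) z) ∧
  (∀ n, 0 < e n) ∧ (∀ M, ∑ n ∈ Finset.range M, e n ≤ 1) ∧
  (∀ n, n1 ≤ n → ∀ y : ℝ, 0 ≤ y → y ≤ yy n →
    ms (fun z => g (n + 1) z - g n z) y ≤ e n ^ 2 * Real.exp (-l n)) ∧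
  (∀ n : ℕ, n1 ≤ n → ∀ z : ℂ, Real.exp (-(4 * yy n)) ≤ ‖z‖ → ‖z‖ ≤ Real.exp (-(yy n / 4)) →
    ‖g n z‖ ≤ Real.exp (A * n)) ∧
  ∀ n, n1 ≤ n → ∀ y : ℝ, 0 ≤ y → y ≤ 2 ^ s * yy n → ms (g n) y ≤ B

def SD2 : Prop :=
  ∀ (β : ℝ → ℂ) (F : Set ℝ) (s : ℕ) (lam : ℕ → ℝ) (N : ℕ → ℕ) (e : ℕ → ℝ) (n1 : ℕ),
    MemLp β 2 (volume.restrict (Set.Ioc (0 : ℝ) (2 * Real.pi))) → MeasurableSet F →
    (∀ θ ∈ F, β θ = 0) → 3 ≤ s → (∀ n, 0 ≤ lam n) → Monotone lam → Bl2 (cf β) s lam N e n1 →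
    ∃ (A B : ℝ) (n2 : ℕ), 0 ≤ A ∧ 0 ≤ B ∧ ∀ p, n2 ≤ p → ∃ g : ℕ → ℂ → ℂ,
      Dat2 s A B n2 lam e g ∧
      (∀ (n : ℕ) (r : ℝ), 0 < r → Real.circleAverage (g n) 0 r = cf β 0) ∧
      volume {x : ℝ | x ∈ Set.Ioc (0 : ℝ) (2 * Real.pi) ∧ x ∈ F ∧
        Real.exp (-(lam p / 4)) < ‖g p (ex x)‖} ≤ ENNReal.ofReal (16 * Real.exp (-(lam p / 2)))

/-- The vertical move of the game. -/
def MvV2 (c A0 : ℝ) (n1 : ℕ) (l : ℕ → ℝ) (P : ℕ → ℝ → ℝ → Prop) : Prop :=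
  ∀ (i j : ℕ) (K W : ℝ), n1 ≤ i → i < j → yy j ≤ W →
    (∀ n, i ≤ n → n < j → min K (K * min W (yy i) / yy n) ≤ c * l n) →
    A0 * i ≤ K * min W (yy i) / yy i → P j K W →
    P i (c * (K * min W (yy i) / yy i)) (max W (yy i))

def SH2 : Prop :=
  ∀ (s : ℕ) (A B : ℝ) (n1 : ℕ) (l e : ℕ → ℝ) (g : ℕ → ℂ → ℂ) (θ : ℝ), 0 ≤ A →
    Dat2 s A B n1 l e g → MvH (1 / 30) (30 * A) n1 (Bx g θ)

def SV2 : Prop :=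
  ∀ (C : ℝ) (s : ℕ) (A B : ℝ) (n1 : ℕ) (l e : ℕ → ℝ) (g : ℕ → ℂ → ℂ) (θ : ℝ), 1 ≤ C → PmS C →
    8 * C ^ 2 ≤ 2 ^ s → 0 ≤ B → s + 2 ≤ n1 → Dat2 s A B n1 l e g →
    MvV2 (1 / (30 * C)) (30 * C * (B + 20)) n1 l (Bx g θ)

def ST2 : Prop :=
  ∀ (C : ℝ) (s : ℕ) (A B : ℝ) (n1 : ℕ) (l e : ℕ → ℝ) (g : ℕ → ℂ → ℂ) (θ : ℝ), 1 ≤ C → PmS C →
    8 * C ^ 2 ≤ 2 ^ s → 0 ≤ B → s + 2 ≤ n1 → Dat2 s A B n1 l e g →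
    ∀ (p : ℕ) (K : ℝ) (T : Set ℝ), n1 ≤ p → MeasurableSet T →
      T ⊆ Set.Icc (θ - yy p) (θ + yy p) → ENNReal.ofReal (yy p / 2) ≤ volume T →
      (∀ x ∈ T, ‖g p (ex x)‖ ≤ Real.exp (-K)) → 30 * C * (B + 20) * p ≤ K →
      Bx g θ p (1 / (30 * C) * K) (yy p)

/-- The winning strategy. -/
def SG2 : Prop :=
  ∀ c C A0 : ℝ, 0 < c → c ≤ 1 / 2 → 1 ≤ C → 0 ≤ A0 →
    ∃ A1 δ : ℝ, 0 < δ ∧
      ∀ (l : ℕ → ℝ) (n0 n1 p : ℕ) (P : ℕ → ℝ → ℝ → Prop), (∀ n, 0 < l n) → Monotone l →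
        n0 ≤ n1 → n1 ≤ p → TD C n0 p l →
        (∀ n : ℕ, n1 ≤ n → 2 * C * (A1 * (n + 1) * yy n) ≤ yy n0 * l n0) →
        (∀ n : ℕ, n1 ≤ n → l (n + 1) = l n ∨ A1 * (n + 1) ≤ l (n + 1)) → A1 * n1 ≤ l n1 →
        (∀ (n : ℕ) (K W K' W' : ℝ), P n K W → K' ≤ K → W' ≤ W → P n K' W') →
        MvH c A0 n1 P → MvV2 c A0 n1 l P →
        (A0 * p ≤ l p / 4 → P p (c * (l p / 4)) (yy p)) →
        P n1 (δ * l n1) (yy n1)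

/-- The uniqueness theorem. -/
def SU2 : Prop :=
  ∀ (β : ℝ → ℂ) (F : Set ℝ) (C B0 : ℝ) (n0 : ℕ) (l : ℕ → ℝ),
    MemLp β 2 (volume.restrict (Set.Ioc (0 : ℝ) (2 * Real.pi))) → MeasurableSet F →
    (∀ a b : ℝ, a < b → 0 < volume (F ∩ Set.Ioo a b)) → (∀ θ ∈ F, β θ = 0) → 1 ≤ C → 0 ≤ B0 →
    (∀ n, 0 < l n) → Monotone l → Tendsto l atTop atTop → DD C n0 l → Jq l →
    Wl (cf β) B0 n0 l → cf β 0 = 0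

/-- From the support of an integrable weight to the weight. -/
def SOw : Prop :=
  ∀ (G : ℝ → ℝ) (W : ℂ → ℝ), Measurable G →
    (∫⁻ z in Metric.ball (0 : ℂ) 1, ENNReal.ofReal (G ‖z‖)) < ⊤ → Measurable W → (∀ z, 0 ≤ W z) →
    (∫⁻ θ in Set.Ioc (0 : ℝ) (2 * Real.pi), ENNReal.ofReal (W (ex θ))) < ⊤ →
    One G {z | W z ≠ 0} → OneW G W

/-- From the pair (one, zero) to splitting. -/
def SNw : Prop :=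
  ∀ (G : ℝ → ℝ) (W : ℂ → ℝ), Measurable G →
    (∫⁻ z in Metric.ball (0 : ℂ) 1, ENNReal.ofReal (G ‖z‖)) < ⊤ → Measurable W →
    (∫⁻ θ in Set.Ioc (0 : ℝ) (2 * Real.pi), ENNReal.ofReal (W (ex θ))) < ⊤ →
    tail G 0 ≠ 0 → OneW G W → SplitW G W

end Pool.Agent.MP_17fac5_an.Ch
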